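import Mathlib.Data.List.Basic

/-! Generated file (project R5): the compositions -/

namespace Pool.Agent.EC4

/-- the compositions up to reversal -/
def reps : List (List Nat) := [
  [0, 0, 0, 0, 4],
  [0, 0, 0, 4, 0],
  [0, 0, 1, 1, 1, 1, 0, 0],
  [0, 0, 1, 1, 2, 0, 0],
  [0, 0, 1, 2, 1, 0, 0],
  [0, 0, 1, 3, 0, 0],
  [0, 0, 2, 2, 0, 0],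
  [0, 0, 4, 0, 0],
  [0, 1, 0, 0, 1, 2, 0],
  [0, 1, 0, 0, 3, 0],
  [0, 1, 0, 1, 0, 2, 0],
  [0, 1, 0, 1, 1, 0, 1, 0],
  [0, 1, 0, 1, 1, 1, 0, 0],
  [0, 1, 0, 1, 2, 0, 0],
  [0, 1, 0, 2, 0, 1, 0],
  [0, 1, 0, 2, 1, 0, 0],
  [0, 1, 0, 3, 0, 0],
  [0, 1, 1, 0, 0, 1, 1, 0],
  [0, 1, 1, 0, 0, 2, 0],
  [0, 1, 1, 0, 1, 0, 1, 0],
  [0, 1, 1, 0, 1, 1, 0, 0],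
  [0, 1, 1, 0, 2, 0, 0],
  [0, 1, 1, 1, 0, 0, 1, 0],
  [0, 1, 1, 1, 0, 1, 0, 0],
  [0, 1, 1, 1, 1, 0, 0, 0],
  [0, 1, 1, 2, 0, 0, 0],
  [0, 1, 2, 0, 0, 1, 0],
  [0, 1, 2, 0, 1, 0, 0],
  [0, 1, 2, 1, 0, 0, 0],
  [0, 1, 3, 0, 0, 0],
  [0, 2, 0, 0, 2, 0],
  [0, 2, 0, 1, 1, 0, 0],
  [0, 2, 0, 2, 0, 0],
  [0, 2, 1, 0, 1, 0, 0],
  [0, 2, 1, 1, 0, 0, 0],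
  [0, 2, 2, 0, 0, 0],
  [0, 3, 0, 1, 0, 0],
  [0, 3, 1, 0, 0, 0],
  [1, 0, 0, 0, 0, 1, 2],
  [1, 0, 0, 0, 0, 3],
  [1, 0, 0, 0, 1, 0, 2],
  [1, 0, 0, 0, 1, 1, 1, 0],
  [1, 0, 0, 0, 1, 2, 0],
  [1, 0, 0, 0, 2, 1, 0],
  [1, 0, 0, 0, 3, 0],
  [1, 0, 0, 1, 0, 0, 2],
  [1, 0, 0, 1, 0, 1, 1, 0],
  [1, 0, 0, 1, 0, 2, 0],
  [1, 0, 0, 1, 1, 0, 0, 1],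
  [1, 0, 0, 1, 1, 0, 1, 0],
  [1, 0, 0, 1, 1, 1, 0, 0],
  [1, 0, 0, 1, 2, 0, 0],
  [1, 0, 0, 2, 0, 0, 1],
  [1, 0, 0, 2, 0, 1, 0],
  [1, 0, 0, 2, 1, 0, 0],
  [1, 0, 0, 3, 0, 0],
  [1, 0, 1, 0, 0, 0, 2],
  [1, 0, 1, 0, 0, 1, 0, 1],
  [1, 0, 1, 0, 0, 1, 1, 0],
  [1, 0, 1, 0, 0, 2, 0],
  [1, 0, 1, 0, 1, 0, 0, 1],
  [1, 0, 1, 0, 1, 0, 1, 0],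
  [1, 0, 1, 0, 1, 1, 0, 0],
  [1, 0, 1, 0, 2, 0, 0],
  [1, 0, 1, 1, 0, 0, 0, 1],
  [1, 0, 1, 1, 0, 0, 1, 0],
  [1, 0, 1, 1, 0, 1, 0, 0],
  [1, 0, 1, 1, 1, 0, 0, 0],
  [1, 0, 1, 2, 0, 0, 0],
  [1, 0, 2, 0, 0, 0, 1],
  [1, 0, 2, 0, 0, 1, 0],
  [1, 0, 2, 0, 1, 0, 0],
  [1, 0, 2, 1, 0, 0, 0],
  [1, 0, 3, 0, 0, 0],
  [1, 1, 0, 0, 0, 0, 1, 1],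
  [1, 1, 0, 0, 0, 0, 2],
  [1, 1, 0, 0, 0, 1, 0, 1],
  [1, 1, 0, 0, 0, 1, 1, 0],
  [1, 1, 0, 0, 0, 2, 0],
  [1, 1, 0, 0, 1, 0, 0, 1],
  [1, 1, 0, 0, 1, 0, 1, 0],
  [1, 1, 0, 0, 1, 1, 0, 0],
  [1, 1, 0, 0, 2, 0, 0],
  [1, 1, 0, 1, 0, 0, 0, 1],
  [1, 1, 0, 1, 0, 0, 1, 0],
  [1, 1, 0, 1, 0, 1, 0, 0],
  [1, 1, 0, 1, 1, 0, 0, 0],
  [1, 1, 0, 2, 0, 0, 0],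
  [1, 1, 1, 0, 0, 0, 0, 1],
  [1, 1, 1, 0, 0, 0, 1, 0],
  [1, 1, 1, 0, 0, 1, 0, 0],
  [1, 1, 1, 0, 1, 0, 0, 0],
  [1, 1, 1, 1, 0, 0, 0, 0],
  [1, 1, 2, 0, 0, 0, 0],
  [1, 2, 0, 0, 0, 0, 1],
  [1, 2, 0, 0, 0, 1, 0],
  [1, 2, 0, 0, 1, 0, 0],
  [1, 2, 0, 1, 0, 0, 0],
  [1, 2, 1, 0, 0, 0, 0],
  [1, 3, 0, 0, 0, 0],
  [2, 0, 0, 0, 0, 2],
  [2, 0, 0, 0, 1, 1, 0],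
  [2, 0, 0, 0, 2, 0],
  [2, 0, 0, 1, 0, 1, 0],
  [2, 0, 0, 1, 1, 0, 0],
  [2, 0, 0, 2, 0, 0],
  [2, 0, 1, 0, 0, 1, 0],
  [2, 0, 1, 0, 1, 0, 0],
  [2, 0, 1, 1, 0, 0, 0],
  [2, 0, 2, 0, 0, 0],
  [2, 1, 0, 0, 0, 1, 0],
  [2, 1, 0, 0, 1, 0, 0],
  [2, 1, 0, 1, 0, 0, 0],
  [2, 1, 1, 0, 0, 0, 0],
  [2, 2, 0, 0, 0, 0],
  [3, 0, 0, 0, 1, 0],
  [3, 0, 0, 1, 0, 0],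
  [3, 0, 1, 0, 0, 0],
  [3, 1, 0, 0, 0, 0]]

end Pool.Agent.EC4
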