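import Pool.Agent.Lib.MP_ec4eff_co.R5.Run.All
import Pool.Agent.Lib.MP_ec4eff_co.R5.Reps

/-! Generated file (project R5): no complete run -/

namespace Pool.Agent.EC4

open Run in
theorem all_reps : ∀ t ∈ reps, NoRun t :=
  List.forall_mem_cons.2 ⟨n0,  List.forall_mem_cons.2 ⟨n1,  List.forall_mem_cons.2 ⟨n2,  List.forall_mem_cons.2 ⟨n3,
  List.forall_mem_cons.2 ⟨n4,  List.forall_mem_cons.2 ⟨n5,  List.forall_mem_cons.2 ⟨n6,  List.forall_mem_cons.2 ⟨n7,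
  List.forall_mem_cons.2 ⟨n8,  List.forall_mem_cons.2 ⟨n9,  List.forall_mem_cons.2 ⟨n10,  List.forall_mem_cons.2 ⟨n11,
  List.forall_mem_cons.2 ⟨n12,  List.forall_mem_cons.2 ⟨n13,  List.forall_mem_cons.2 ⟨n14,  List.forall_mem_cons.2 ⟨n15,
  List.forall_mem_cons.2 ⟨n16,  List.forall_mem_cons.2 ⟨n17,  List.forall_mem_cons.2 ⟨n18,  List.forall_mem_cons.2 ⟨n19,
  List.forall_mem_cons.2 ⟨n20,  List.forall_mem_cons.2 ⟨n21,  List.forall_mem_cons.2 ⟨n22,  List.forall_mem_cons.2 ⟨n23,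
  List.forall_mem_cons.2 ⟨n24,  List.forall_mem_cons.2 ⟨n25,  List.forall_mem_cons.2 ⟨n26,  List.forall_mem_cons.2 ⟨n27,
  List.forall_mem_cons.2 ⟨n28,  List.forall_mem_cons.2 ⟨n29,  List.forall_mem_cons.2 ⟨n30,  List.forall_mem_cons.2 ⟨n31,
  List.forall_mem_cons.2 ⟨n32,  List.forall_mem_cons.2 ⟨n33,  List.forall_mem_cons.2 ⟨n34,  List.forall_mem_cons.2 ⟨n35,
  List.forall_mem_cons.2 ⟨n36,  List.forall_mem_cons.2 ⟨n37,  List.forall_mem_cons.2 ⟨n38,  List.forall_mem_cons.2 ⟨n39,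
  List.forall_mem_cons.2 ⟨n40,  List.forall_mem_cons.2 ⟨n41,  List.forall_mem_cons.2 ⟨n42,  List.forall_mem_cons.2 ⟨n43,
  List.forall_mem_cons.2 ⟨n44,  List.forall_mem_cons.2 ⟨n45,  List.forall_mem_cons.2 ⟨n46,  List.forall_mem_cons.2 ⟨n47,
  List.forall_mem_cons.2 ⟨n48,  List.forall_mem_cons.2 ⟨n49,  List.forall_mem_cons.2 ⟨n50,  List.forall_mem_cons.2 ⟨n51,
  List.forall_mem_cons.2 ⟨n52,  List.forall_mem_cons.2 ⟨n53,  List.forall_mem_cons.2 ⟨n54,  List.forall_mem_cons.2 ⟨n55,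
  List.forall_mem_cons.2 ⟨n56,  List.forall_mem_cons.2 ⟨n57,  List.forall_mem_cons.2 ⟨n58,  List.forall_mem_cons.2 ⟨n59,
  List.forall_mem_cons.2 ⟨n60,  List.forall_mem_cons.2 ⟨n61,  List.forall_mem_cons.2 ⟨n62,  List.forall_mem_cons.2 ⟨n63,
  List.forall_mem_cons.2 ⟨n64,  List.forall_mem_cons.2 ⟨n65,  List.forall_mem_cons.2 ⟨n66,  List.forall_mem_cons.2 ⟨n67,
  List.forall_mem_cons.2 ⟨n68,  List.forall_mem_cons.2 ⟨n69,  List.forall_mem_cons.2 ⟨n70,  List.forall_mem_cons.2 ⟨n71,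
  List.forall_mem_cons.2 ⟨n72,  List.forall_mem_cons.2 ⟨n73,  List.forall_mem_cons.2 ⟨n74,  List.forall_mem_cons.2 ⟨n75,
  List.forall_mem_cons.2 ⟨n76,  List.forall_mem_cons.2 ⟨n77,  List.forall_mem_cons.2 ⟨n78,  List.forall_mem_cons.2 ⟨n79,
  List.forall_mem_cons.2 ⟨n80,  List.forall_mem_cons.2 ⟨n81,  List.forall_mem_cons.2 ⟨n82,  List.forall_mem_cons.2 ⟨n83,
  List.forall_mem_cons.2 ⟨n84,  List.forall_mem_cons.2 ⟨n85,  List.forall_mem_cons.2 ⟨n86,  List.forall_mem_cons.2 ⟨n87,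
  List.forall_mem_cons.2 ⟨n88,  List.forall_mem_cons.2 ⟨n89,  List.forall_mem_cons.2 ⟨n90,  List.forall_mem_cons.2 ⟨n91,
  List.forall_mem_cons.2 ⟨n92,  List.forall_mem_cons.2 ⟨n93,  List.forall_mem_cons.2 ⟨n94,  List.forall_mem_cons.2 ⟨n95,
  List.forall_mem_cons.2 ⟨n96,  List.forall_mem_cons.2 ⟨n97,  List.forall_mem_cons.2 ⟨n98,  List.forall_mem_cons.2 ⟨n99,
  List.forall_mem_cons.2 ⟨n100,  List.forall_mem_cons.2 ⟨n101,  List.forall_mem_cons.2 ⟨n102,  List.forall_mem_cons.2 ⟨n103,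
  List.forall_mem_cons.2 ⟨n104,  List.forall_mem_cons.2 ⟨n105,  List.forall_mem_cons.2 ⟨n106,  List.forall_mem_cons.2 ⟨n107,
  List.forall_mem_cons.2 ⟨n108,  List.forall_mem_cons.2 ⟨n109,  List.forall_mem_cons.2 ⟨n110,  List.forall_mem_cons.2 ⟨n111,
  List.forall_mem_cons.2 ⟨n112,  List.forall_mem_cons.2 ⟨n113,  List.forall_mem_cons.2 ⟨n114,  List.forall_mem_cons.2 ⟨n115,
  List.forall_mem_cons.2 ⟨n116,  List.forall_mem_cons.2 ⟨n117,  List.forall_mem_cons.2 ⟨n118,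
  fun _ h => absurd h List.not_mem_nil⟩⟩⟩⟩⟩⟩⟩⟩⟩⟩⟩⟩⟩⟩⟩⟩⟩⟩⟩⟩⟩⟩⟩⟩⟩⟩⟩⟩⟩⟩⟩⟩⟩⟩⟩⟩⟩⟩⟩⟩⟩⟩⟩⟩⟩⟩⟩⟩⟩⟩⟩⟩⟩⟩⟩⟩⟩⟩⟩⟩⟩⟩⟩⟩⟩⟩⟩⟩⟩⟩⟩⟩⟩⟩⟩⟩⟩⟩⟩⟩⟩⟩⟩⟩⟩⟩⟩⟩⟩⟩⟩⟩⟩⟩⟩⟩⟩⟩⟩⟩⟩⟩⟩⟩⟩⟩⟩⟩⟩⟩⟩⟩⟩⟩⟩⟩⟩⟩⟩

end Pool.Agent.EC4
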