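import Pool.Agent.Lib.MP_ec4eff_co.R5.Defs

/-!
# The sum of the costs is 24 (project R5)

Proof plan.  Let `F S = 2 * (sum of e) - (sum of q)` over the wires of `S`.  A move which is no
configuration move adds `k - 1` to the weights `e` of `k` wires, so `F` grows by `2 k (k - 1)`; a
configuration move adds `1` to the numbers `q` of `4` wires, so `F` changes by `- 4`; in both cases by
`2 * m.bal`.  On a special line a block of `k` wires which is no configuration block adds `k` to the
weights `e` of `k` wires, `F` grows by `2 k ^ 2 = 4 * (k (k - 1) / 2) + 2 k`; a configuration block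
changes `F` by `- 3`; so a good special line changes `F` by `4 * pbn t + 2 * 4 - 3 * 4 = 4 * pbn t - 4`.
In the beginning `F S00 = 0`, in the end `F = 16 * (2 * 4 - 5) = 48`.  Hence
`2 * (bal m0 + bal m1 + bal m2 + bal m3) + 4 * (pbn t + pbn t1 + pbn t2 + pbn t3) - 16 = 48`, and the sum
of the four equations for the costs gives `c0 + c1 + c2 + c3 + 8 = 32`.
-/

set_option autoImplicit false

namespace Pool.Agent.EC4

/-- twice the weight minus the number of configuration vertices -/
def FF (S : List W) : ℤ := (S.map fun w => 2 * (w.e : ℤ) - w.q).sum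

theorem FF_nil : FF [] = 0 := rfl

theorem FF_append (A B : List W) : FF (A ++ B) = FF A + FF B := by
  rw [FF, FF, FF, List.map_append, List.sum_append]

theorem FF_cons (w : W) (A : List W) : FF (w :: A) = 2 * (w.e : ℤ) - w.q + FF A := by
  rw [FF, FF, List.map_cons, List.sum_cons]

theorem FF_reverse (A : List W) : FF A.reverse = FF A := by
  rw [FF, FF, List.map_reverse, List.sum_reverse]

theorem FF_map_upd (cfg : Bool) (M k : ℕ) (B : List W) :
    FF (B.map (upd cfg M k)) = FF B + (B.length : ℤ) * (if cfg then -1 else 2 * (k : ℤ)) := by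
  induction B with
  | nil => simp [FF_nil]
  | cons w B ih =>
    rw [List.map_cons, FF_cons, FF_cons, ih, List.length_cons]
    cases cfg
    · simp only [upd, Bool.false_eq_true, if_false]
      push_cast
      ring
    · simp only [upd, if_true]
      push_cast
      ring

theorem FF_inn (cfg : Bool) (B : List W) (h2 : 2 ≤ B.length) (h4 : cfg = true → B.length = 4) :
    FF (inn cfg B) = FF B + 2 * (if cfg then -2 else (B.length : ℤ) * (B.length - 1)) := by
  rw [inn, FF_reverse, FF_map_upd]
  cases cfg
  · simp only [Bool.false_eq_true, if_false]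
    rw [Nat.cast_sub (by omega : 1 ≤ B.length)]
    push_cast
    ring
  · simp only [if_true]
    rw [h4 rfl]
    norm_num

theorem FF_out (cfg : Bool) (B : List W) (h3 : cfg = true → B.length = 3) :
    FF (out cfg B) = FF B + (if cfg then -3 else 2 * (B.length : ℤ) * B.length) := by
  rw [out, FF_reverse, FF_map_upd]
  cases cfg
  · simp only [Bool.false_eq_true, if_false]
    ring
  · simp only [if_true]
    rw [h3 rfl]
    norm_num

theorem Mv.ff {S S' : List W} {m : Mo} (h : Mv S m S') : FF S' = FF S + 2 * m.bal := by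
  obtain ⟨l, B, r, cfg, hB, h2, h4⟩ := h
  rw [FF_append, FF_append, FF_append, FF_append, FF_inn cfg B h2 h4]
  simp only [Mo.bal]
  ring

theorem Ch.ff {S S' : List W} {ms : List Mo} (h : Ch S ms S') : FF S' = FF S + 2 * bal ms := by
  induction h with
  | nil S => simp [bal]
  | cons h h' ih =>
    rw [ih, h.ff, bal, bal, List.map_cons, List.sum_cons]
    ring

theorem Sum_half (k : ℕ) : 4 * ((k * (k - 1) / 2 : ℕ) : ℤ) + 2 * k = 2 * (k : ℤ) * k := by
  obtain ⟨c, hc⟩ := (Nat.even_mul_pred_self k).two_dvd
  rw [hc, Nat.mul_div_cancel_left _ (by norm_num)]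
  rcases Nat.eq_zero_or_pos k with rfl | hk
  · simp only [Nat.zero_mul] at hc
    have : c = 0 := by omega
    subst this
    simp
  · have h1 : ((k * (k - 1) : ℕ) : ℤ) = 2 * c := by
      rw [hc]
      push_cast
      ring
    rw [Nat.cast_mul, Nat.cast_sub (by omega : 1 ≤ k)] at h1
    push_cast at h1
    linarith

theorem Sp.ff {S S' : List W} {t : List (Bool × ℕ)} (h : Sp S t S') :
    FF S' = FF S + 4 * pbn t + 2 * ne t - 3 * nq t := by
  induction h with
  | nil => simp [FF_nil, pbn, ne, nq]
  | @cons r r' t B cfg hB h1 h3 h ih =>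
    rw [FF_append, FF_append, ih, FF_out cfg B h3]
    simp only [pbn, ne, nq, List.map_cons, List.sum_cons]
    cases cfg
    · simp only [Bool.false_eq_true, if_false]
      have := Sum_half B.length
      push_cast at this ⊢
      linarith
    · simp only [if_true]
      push_cast
      linarith

theorem S00_ff : FF S00 = 0 := by
  rw [FF, S00, List.map_map]
  apply List.sum_eq_zero
  intro x hx
  obtain ⟨i, -, rfl⟩ := List.mem_map.1 hx
  simp [ini0]

theorem Mv.len' {S S' : List W} {m : Mo} (h : Mv S m S') : S'.length = S.length := by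
  obtain ⟨l, B, r, cfg, hB, h2, h4⟩ := h
  simp [inn]

theorem Sp.len' {S S' : List W} {t : List (Bool × ℕ)} (h : Sp S t S') : S'.length = S.length := by
  induction h with
  | nil => rfl
  | cons B cfg hB h1 h3 h ih => simp [out, ih]

theorem Ch.lenSum {S S' : List W} {ms : List Mo} (h : Ch S ms S') : S'.length = S.length := by
  induction h with
  | nil S => rfl
  | cons h h' ih => rw [ih, h.len']

theorem FF_fin (S : List W) (h : Fin5 S) : FF S = 3 * (S.length : ℤ) := by
  induction S with
  | nil => rfl
  | cons w S ih =>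
    obtain ⟨-, h1, h2⟩ := h w List.mem_cons_self
    rw [FF_cons, ih (fun v hv => h v (List.mem_cons_of_mem _ hv)), h1, h2, List.length_cons]
    push_cast
    ring

theorem Full.sum {t : List (Bool × ℕ)} {c0 c1 c2 c3 : ℕ} (h : Full t c0 c1 c2 c3) :
    c0 + c1 + c2 + c3 = 24 := by
  obtain ⟨S0, E0, S1, E1, S2, E2, S3, E3, m0, m1, m2, m3, t1, t2, t3, a0, b0, a1, b1, a2, b2, a3,
    b3, hf, ⟨g0, g0'⟩, ⟨g1, g1'⟩, ⟨g2, g2'⟩, ⟨g3, g3'⟩, e0, e1, e2, e3⟩ := h
  have hlen : E3.length = 16 := by
    rw [b3.lenSum, a3.len', b2.lenSum, a2.len', b1.lenSum, a1.len', b0.lenSum, a0.len']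
    rfl
  have h1 := FF_fin E3 hf
  rw [b3.ff, a3.ff, b2.ff, a2.ff, b1.ff, a1.ff, b0.ff, a0.ff, S00_ff, hlen, g0, g0', g1, g1', g2,
    g2', g3, g3'] at h1
  push_cast at h1
  have h2 : ((c0 + c1 + c2 + c3 : ℕ) : ℤ) = 24 := by
    push_cast
    linarith
  exact_mod_cast h2

end Pool.Agent.EC4
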