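import Pool.Agent.Lib.MP_ec4eff_co.R5.LunS
import Pool.Agent.Lib.MP_ec4eff_co.R5.Sum

/-!
# Soundness of the search (project R5)

Proof plan.  `comp_sound`: `comp` applies the composition; by induction on `Sp` (generalize the
accumulator) and `rst_eq`; the code of a block is `0` for a configuration block (3 wires) and its size
(1, ..., 4 by `ne t = 4`) otherwise; `gl S00 = startList.map (fun w => ...)` up to the statuses, `comp`
does not use the statuses.  `run_sound`: `lunF`, `lun1`, `lun2` are `lun` with the caps `6`, `12 - c0`,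
`24 - c0 - 2 * c1`; use `lun_sound`, `lun3_sound`, `Full.sum` (`c0 + c1 + c2 + c3 = 24`, so the
inequalities give the caps), `Sp.ten`, `Sp.nz`, `Ch.nz`, `Sp.len`, `Ch.len`, `Sp.cap`, `Ch.cap`; the
final state satisfies `Cap` by `fin5_cap`; `S00_len`, `S00_nz` for the initial state.
-/

set_option autoImplicit false

namespace Pool.Agent.EC4

theorem AllS_map_cons {hi : List Wr} {a : W} {l : List W} (h : hi.map er = a :: l) :
    ∃ (a' : Wr) (hi' : List Wr), hi = a' :: hi' ∧ er a' = a ∧ hi'.map er = l := by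
  cases hi with
  | nil => simp at h
  | cons x y =>
    rw [List.map_cons, List.cons.injEq] at h
    exact ⟨x, y, rfl, h.1, h.2⟩

theorem comp_aux {hs hs' : List W} {t : List (Bool × ℕ)} (h : Sp hs t hs')
    (k : List Wr → ℕ → Bool) : ne t ≤ 4 → ∀ (lo hi : List Wr) (pb : ℕ), hi.map er = hs →
      ∃ lo' : List Wr, (lo'.map er).reverse = (lo.map er).reverse ++ hs' ∧
        comp (t.map cod) lo hi pb k = k (rst lo' []) (pb + pbn t) := by
  induction h with
  | nil =>
    intro _ lo hi pb hhi
    refine ⟨lo, by simp, ?_⟩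
    rw [List.map_eq_nil_iff] at hhi
    subst hhi
    rfl
  | @cons r r' t B cfg hB h1 h3 h ih =>
    intro hne lo hi pb hhi
    cases cfg with
    | true =>
      obtain ⟨a, b, c, rfl⟩ := List.length_eq_three.mp (h3 rfl)
      have hne' : ne t ≤ 4 := by
        simp only [ne, List.map_cons, List.sum_cons] at hne ⊢
        omega
      simp only [List.cons_append, List.nil_append] at hhi
      obtain ⟨a', hi, rfl, ha, hhi⟩ := AllS_map_cons hhi
      obtain ⟨b', hi, rfl, hb, hhi⟩ := AllS_map_cons hhi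
      obtain ⟨c', hi, rfl, hc, hhi⟩ := AllS_map_cons hhi
      obtain ⟨lo', hlo, he⟩ := ih hne' (upQ false (Nat.lor a'.b (Nat.lor b'.b c'.b)) a' ::
        upQ false (Nat.lor a'.b (Nat.lor b'.b c'.b)) b' ::
        upQ false (Nat.lor a'.b (Nat.lor b'.b c'.b)) c' :: lo) hi pb hhi
      refine ⟨lo', ?_, ?_⟩
      · rw [hlo]
        subst ha hb hc
        simp [out, msk, upd, upQ, er]
      · have e1 : pb + pbn ((true, [a, b, c].length) :: t) = pb + pbn t := by
          simp [pbn]
        rw [e1, ← he]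
        rfl
    | false =>
      have hne' : ne t + B.length ≤ 4 := by
        simp only [ne, List.map_cons, List.sum_cons] at hne ⊢
        simp at hne
        omega
      have hB4 : B.length = 1 ∨ B.length = 2 ∨ B.length = 3 ∨ B.length = 4 := by omega
      rcases hB4 with h4 | h4 | h4 | h4
      · obtain ⟨a, rfl⟩ := List.length_eq_one_iff.mp h4
        simp only [List.cons_append, List.nil_append] at hhi
        obtain ⟨a', hi, rfl, ha, hhi⟩ := AllS_map_cons hhi
        obtain ⟨lo', hlo, he⟩ := ih (by omega) (upE false a'.b 1 a' :: lo) hi pb hhi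
        refine ⟨lo', ?_, ?_⟩
        · rw [hlo]
          subst ha
          simp [out, msk, upd, upE, er]
        · have e1 : pb + pbn ((false, [a].length) :: t) = pb + pbn t := by
            simp [pbn]
          rw [e1, ← he]
          rfl
      · obtain ⟨a, b, rfl⟩ := List.length_eq_two.mp h4
        simp only [List.cons_append, List.nil_append] at hhi
        obtain ⟨a', hi, rfl, ha, hhi⟩ := AllS_map_cons hhi
        obtain ⟨b', hi, rfl, hb, hhi⟩ := AllS_map_cons hhi
        obtain ⟨lo', hlo, he⟩ := ih (by omega) (upE false (Nat.lor a'.b b'.b) 2 a' ::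
          upE false (Nat.lor a'.b b'.b) 2 b' :: lo) hi (pb + 1) hhi
        refine ⟨lo', ?_, ?_⟩
        · rw [hlo]
          subst ha hb
          simp [out, msk, upd, upE, er]
        · have e1 : pb + pbn ((false, [a, b].length) :: t) = pb + 1 + pbn t := by
            simp [pbn]
            omega
          rw [e1, ← he]
          rfl
      · obtain ⟨a, b, c, rfl⟩ := List.length_eq_three.mp h4
        simp only [List.cons_append, List.nil_append] at hhi
        obtain ⟨a', hi, rfl, ha, hhi⟩ := AllS_map_cons hhi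
        obtain ⟨b', hi, rfl, hb, hhi⟩ := AllS_map_cons hhi
        obtain ⟨c', hi, rfl, hc, hhi⟩ := AllS_map_cons hhi
        obtain ⟨lo', hlo, he⟩ := ih (by omega)
          (upE false (Nat.lor a'.b (Nat.lor b'.b c'.b)) 3 a' ::
          upE false (Nat.lor a'.b (Nat.lor b'.b c'.b)) 3 b' ::
          upE false (Nat.lor a'.b (Nat.lor b'.b c'.b)) 3 c' :: lo) hi (pb + 3) hhi
        refine ⟨lo', ?_, ?_⟩
        · rw [hlo]
          subst ha hb hc
          simp [out, msk, upd, upE, er]
        · have e1 : pb + pbn ((false, [a, b, c].length) :: t) = pb + 3 + pbn t := by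
            simp [pbn]
            omega
          rw [e1, ← he]
          rfl
      · obtain ⟨a, B, rfl⟩ : ∃ a B', B = a :: B' := by
          cases B with
          | nil => simp at h4
          | cons x y => exact ⟨x, y, rfl⟩
        have h5 : B.length = 3 := by
          simpa using h4
        obtain ⟨b, c, d, rfl⟩ := List.length_eq_three.mp h5
        simp only [List.cons_append, List.nil_append] at hhi
        obtain ⟨a', hi, rfl, ha, hhi⟩ := AllS_map_cons hhi
        obtain ⟨b', hi, rfl, hb, hhi⟩ := AllS_map_cons hhi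
        obtain ⟨c', hi, rfl, hc, hhi⟩ := AllS_map_cons hhi
        obtain ⟨d', hi, rfl, hd, hhi⟩ := AllS_map_cons hhi
        obtain ⟨lo', hlo, he⟩ := ih (by omega)
          (upE false (Nat.lor a'.b (Nat.lor b'.b (Nat.lor c'.b d'.b))) 4 a' ::
          upE false (Nat.lor a'.b (Nat.lor b'.b (Nat.lor c'.b d'.b))) 4 b' ::
          upE false (Nat.lor a'.b (Nat.lor b'.b (Nat.lor c'.b d'.b))) 4 c' ::
          upE false (Nat.lor a'.b (Nat.lor b'.b (Nat.lor c'.b d'.b))) 4 d' :: lo) hi (pb + 6) hhi
        refine ⟨lo', ?_, ?_⟩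
        · rw [hlo]
          subst ha hb hc hd
          simp [out, msk, upd, upE, er]
        · have e1 : pb + pbn ((false, [a, b, c, d].length) :: t) = pb + 6 + pbn t := by
            simp [pbn]
            omega
          rw [e1, ← he]
          rfl

theorem comp_sound {t : List (Bool × ℕ)} {S0 : List W} (h : Sp S00 t S0) (hg : Good t)
    (k : List Wr → ℕ → Bool) : comp (t.map cod) [] startList 0 k = k (gl S0) (pbn t) := by
  obtain ⟨lo', hlo, he⟩ := comp_aux h k hg.2.le [] startList 0 rfl
  rw [he, rst_eq, hlo, Nat.zero_add]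
  rfl

theorem run_sound {t : List (Bool × ℕ)} {c0 c1 c2 c3 : ℕ} (h : Full t c0 c1 c2 c3)
    (h01 : c0 ≤ c1) (h02 : c0 ≤ c2) (h03 : c0 ≤ c3) (h13 : c1 ≤ c3) :
    ∃ (S1 : List Wr) (pb1 : ℕ), (∀ nxt : ℕ → List Wr → ℕ → Bool, nxt c0 S1 pb1 = true →
      run nxt (t.map cod) = true) ∧ lun1 c0 S1 pb1 = true := by
  have hsum := h.sum
  obtain ⟨S0, E0, S1, E1, S2, E2, S3, E3, m0, m1, m2, m3, t1, t2, t3, hS0, hC0, hS1, hC1, hS2,
    hC2, hS3, hC3, hF, hg, hg1, hg2, hg3, e0, e1, e2, e3⟩ := h
  have z0 := hS0.nz S00_nz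
  have zE0 := hC0.nz z0
  have z1 := hS1.nz zE0
  have zE1 := hC1.nz z1
  have z2 := hS2.nz zE1
  have zE2 := hC2.nz z2
  have z3 := hS3.nz zE2
  have l0 : S0.length = 16 := hS0.len.trans S00_len
  have l1 : S1.length = 16 := hS1.len.trans (hC0.len.trans l0)
  have l2 : S2.length = 16 := hS2.len.trans (hC1.len.trans l1)
  have l3 : S3.length = 16 := hS3.len.trans (hC2.len.trans l2)
  have k3 : Cap S3 := hC3.cap (fin5_cap hF)
  have k2 : Cap S2 := hC2.cap (hS3.cap k3)
  have k1 : Cap S1 := hC1.cap (hS2.cap k2)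
  have n0 := hS0.ten hg S00_nz
  have n1 := hS1.ten hg1 zE0
  have n2 := hS2.ten hg2 zE1
  have n3 := hS3.ten hg3 zE2
  refine ⟨gl S1, pbn t1, fun nxt hn => ?_, ?_⟩
  · unfold run
    rw [comp_sound hS0 hg]
    exact lun_sound 6 0 nxt hC0 hS1 hg1 k1 z0 l0 n0 e0 (by omega) (Nat.zero_le _) hn
  · refine lun_sound (12 - c0) c0 (fun c1 => lun2 c0 c1) hC1 hS2 hg2 k2 z1 l1 n1 e1 (by omega)
      h01 ?_
    refine lun_sound (24 - c0 - 2 * c1) c0 (fun _ => lun3) hC2 hS3 hg3 k3 z2 l2 n2 e2 (by omega)
      h02 ?_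
    exact lun3_sound hC3 hF z3 l3 n3

end Pool.Agent.EC4
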