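import Pool.Agent.Lib.MP_ec4eff_co.R5.Coo

/-!
# From a configuration to the normal form (project R5)

Proof plan.  Choose `p0 ∈ P` and a line `l0 ∈ L` through it, and the coordinates of `exists_coo`.  The
other three lines of `L` through `p0` are vertical (`Coo.lines`; `Wire` does not contain `p0`), with three
different abscissas (`vert_inj`), call them `x1 < x2 < x3` (sort them).  The other `20 - 4 = 16` lines of `L` do not contain
`p0`, so they are wires; enumerate them by `Fin 16` (`Set.Finite`, `Finite.equivFin`, or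
`Finset.equivFin`), this gives `m`, `b`.  `K x y` is `pt x y ∈ P`, `Ki s` is `pi s ∈ P`.
`inj`: `wire_inj`.  `k4`: the point `pt x y` of `P` is on 4 lines of `L`; if `x` is none of `x1, x2, x3`
none of them contains `p0`, so they are the wires through it; `k3`: one of them is the vertical line
`x = xj`, the other 3 are wires; `ki3`: one is `l0`, the other 3 are wires.  `n12`: the line `x = xj`
contains 5 points of `P`, one is `p0`, the others are `pt xj y` for 4 values `y`; for each of them there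
are 3 wires (`k3`), and every wire has one height at `xj`; so `4 * 3 = 12` wires (the set is the disjoint
union of the four sets of 3 wires).  `ni12`: the same for `l0`.  `n5`: the wire `i` contains 5 points of
`P`, they are the `pt x (m x + b)` with `K x (m x + b)`, and `pi m` if `Ki m`.
-/

set_option autoImplicit false

namespace Pool.Agent.EC4

/-- three reals in increasing order -/
private theorem three_sorted {s : Set ℝ} (h : s.ncard = 3) :
    ∃ x1 x2 x3 : ℝ, x1 < x2 ∧ x2 < x3 ∧ ∀ x, x ∈ s ↔ x = x1 ∨ x = x2 ∨ x = x3 := by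
  obtain ⟨a, b, c, hab, hac, hbc, rfl⟩ := Set.ncard_eq_three.1 h
  simp only [Set.mem_insert_iff, Set.mem_singleton_iff]
  rcases lt_or_gt_of_ne hab with h1 | h1 <;> rcases lt_or_gt_of_ne hac with h2 | h2 <;>
    rcases lt_or_gt_of_ne hbc with h3 | h3
  · exact ⟨a, b, c, h1, h3, fun x => Iff.rfl⟩
  · exact ⟨a, c, b, h2, h3, fun x => by tauto⟩
  · exact absurd (h1.trans h3) (not_lt.2 h2.le)
  · exact ⟨c, a, b, h2, h1, fun x => by tauto⟩
  · exact ⟨b, a, c, h1, h2, fun x => by tauto⟩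
  · exact absurd (h3.trans h1) (not_lt.2 h2.le)
  · exact ⟨b, c, a, h3, h2, fun x => by tauto⟩
  · exact ⟨c, b, a, h3, h1, fun x => by tauto⟩

/-- four fibres with three elements -/
private theorem fib12 (f : Fin 16 → ℝ) (Y : Set ℝ) (hY : Y.ncard = 4)
    (h3 : ∀ y ∈ Y, {i | f i = y}.ncard = 3) : {i | f i ∈ Y}.ncard = 12 := by
  classical
  have hfin : Y.Finite := Set.finite_of_ncard_ne_zero (by omega)
  have h1 : {i | f i ∈ Y}.ncard = (Finset.univ.filter fun i => f i ∈ Y).card := by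
    rw [← Set.ncard_coe_finset]
    congr 1
    ext i
    simp
  rw [h1, Finset.card_eq_sum_card_fiberwise (f := f) (t := hfin.toFinset)
    (fun i hi => by simpa using hi)]
  have h2 : ∀ y ∈ hfin.toFinset,
      ((Finset.univ.filter fun i => f i ∈ Y).filter fun i => f i = y).card = 3 := by
    intro y hy
    rw [Set.Finite.mem_toFinset] at hy
    rw [← h3 y hy, ← Set.ncard_coe_finset]
    congr 1
    ext i
    simp only [Finset.coe_filter, Finset.mem_filter, Finset.mem_univ, true_and, Set.mem_ofPred_eq,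
      and_iff_right_iff_imp]
    rintro rfl
    exact hy
  rw [Finset.sum_congr rfl h2, Finset.sum_const, ← Set.ncard_eq_toFinset_card Y hfin, hY,
    smul_eq_mul]

/-- the number of the indices of the wires with a property -/
private theorem ncard_idx {Lw : Set Ln} (Wr : Fin 16 → Ln) (hinj : Function.Injective Wr)
    (hr : ∀ l, l ∈ Lw ↔ ∃ i, Wr i = l) (Q : Ln → Prop) :
    {i | Q (Wr i)}.ncard = {l | l ∈ Lw ∧ Q l}.ncard := by
  have h1 : {l | l ∈ Lw ∧ Q l} = Wr '' {i | Q (Wr i)} := by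
    ext l
    constructor
    · rintro ⟨h, hq⟩
      obtain ⟨i, rfl⟩ := (hr l).1 h
      exact ⟨i, hq, rfl⟩
    · rintro ⟨i, hi, rfl⟩
      exact ⟨(hr _).2 ⟨i, rfl⟩, hi⟩
  rw [h1, Set.ncard_image_of_injective _ hinj]

theorem exists_nf {P : Set Pt} {L : Set Ln} (h : IsConfig 5 P L) : Nonempty NF := by
  classical
  obtain ⟨hPf, hLf, hP, hL, hP4, hL5⟩ := h
  obtain ⟨p0, hp0⟩ : P.Nonempty := Set.nonempty_of_ncard_ne_zero (by omega)
  have h40 := hP4 p0 hp0
  obtain ⟨l0, hl0, hpl⟩ : {l | l ∈ L ∧ Inc p0 l}.Nonempty :=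
    Set.nonempty_of_ncard_ne_zero (by omega)
  obtain ⟨pt, pi, C⟩ := exists_coo p0 l0 hpl
  -- the wires
  have hLw : {l | l ∈ L ∧ ¬ Inc p0 l}.ncard = 16 := by
    have h1 : {l | l ∈ L ∧ ¬ Inc p0 l} = L \ {l | l ∈ L ∧ Inc p0 l} := by
      ext l
      simp only [Set.mem_ofPred_eq, Set.mem_sdiff]
      tauto
    rw [h1, Set.ncard_sdiff (fun l hl => hl.1) (hLf.subset fun l hl => hl.1), h40, hL]
  have hfw : Finite {l | l ∈ L ∧ ¬ Inc p0 l} := Set.finite_of_ncard_ne_zero (by omega)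
  have e : {l | l ∈ L ∧ ¬ Inc p0 l} ≃ Fin 16 := Finite.equivFinOfCardEq hLw
  obtain ⟨Wr, hWi, hWr⟩ : ∃ Wr : Fin 16 → Ln, Function.Injective Wr ∧
      ∀ l, l ∈ {l | l ∈ L ∧ ¬ Inc p0 l} ↔ ∃ i, Wr i = l := by
    refine ⟨fun i => (e.symm i).1, fun i j hij => e.symm.injective (Subtype.ext hij), fun l => ?_⟩
    constructor
    · intro hl
      exact ⟨e ⟨l, hl⟩, by simp⟩
    · rintro ⟨i, rfl⟩
      exact (e.symm i).2
  have hWL : ∀ i, Wr i ∈ L ∧ ¬ Inc p0 (Wr i) := fun i => (hWr _).2 ⟨i, rfl⟩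
  have hmb : ∀ i, ∃ m b, Wire p0 pt pi (Wr i) m b := by
    intro i
    rcases C.lines (Wr i) with h1 | ⟨x, h1⟩ | h1
    · exact absurd (h1 ▸ C.inf.1) (hWL i).2
    · exact absurd h1.1 (hWL i).2
    · exact h1
  choose m b hW using hmb
  -- the vertical lines
  have hV : ∀ l, l ∈ {l | l ∈ L ∧ Inc p0 l} \ {l0} → ∃ x, Vert p0 pt pi l x := by
    rintro l ⟨hl, hne⟩
    rcases C.lines l with h1 | h1 | ⟨m', b', h1⟩
    · exact absurd h1 hne
    · exact h1
    · exact absurd hl.2 h1.1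
  have hVL : ∀ l x, l ∈ L → Vert p0 pt pi l x → l ∈ {l | l ∈ L ∧ Inc p0 l} \ {l0} := by
    rintro l x hl hv
    refine ⟨⟨hl, hv.1⟩, ?_⟩
    rintro rfl
    exact hv.2.1 0 (C.inf.2.1 0)
  have hVu : ∀ l x x', Vert p0 pt pi l x → Vert p0 pt pi l x' → x = x' := by
    intro l x x' h1 h2
    exact (h2.2.2 x 0).1 ((h1.2.2 x 0).2 rfl)
  have h3 : {x | ∃ l ∈ L, Vert p0 pt pi l x}.ncard = 3 := by
    have h1 : ({l | l ∈ L ∧ Inc p0 l} \ {l0}).ncard = 3 := by
      have hm : l0 ∈ {l | l ∈ L ∧ Inc p0 l} := ⟨hl0, hpl⟩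
      rw [Set.ncard_sdiff_singleton_of_mem hm, h40]
    rw [← h1]
    symm
    refine Set.ncard_congr (fun l hl => (hV l hl).choose) ?_ ?_ ?_
    · intro l hl
      exact ⟨l, hl.1.1, (hV l hl).choose_spec⟩
    · intro l l' hl hl' hh
      have h5 := (hV l hl).choose_spec
      have h6 := (hV l' hl').choose_spec
      change (hV l hl).choose = (hV l' hl').choose at hh
      rw [hh] at h5
      exact C.vert_inj l l' _ h5 h6
    · rintro x ⟨l, hl, hv⟩
      have h5 := hVL l x hl hv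
      exact ⟨l, h5, hVu l _ x (hV l h5).choose_spec hv⟩
  obtain ⟨x1, x2, x3, h12, h23, hX⟩ := three_sorted h3
  -- the wires through a point
  have hthr : ∀ x y, {j | m j * x + b j = y}.ncard =
      {l | l ∈ {l | l ∈ L ∧ ¬ Inc p0 l} ∧ Inc (pt x y) l}.ncard := by
    intro x y
    rw [← ncard_idx Wr hWi hWr fun l => Inc (pt x y) l]
    congr 1
    ext j
    rw [Set.mem_ofPred_eq, Set.mem_ofPred_eq, (hW j).2.2 x y]
    exact eq_comm
  have hthi : ∀ s, {j | m j = s}.ncard =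
      {l | l ∈ {l | l ∈ L ∧ ¬ Inc p0 l} ∧ Inc (pi s) l}.ncard := by
    intro s
    rw [← ncard_idx Wr hWi hWr fun l => Inc (pi s) l]
    congr 1
    ext j
    rw [Set.mem_ofPred_eq, Set.mem_ofPred_eq, (hW j).2.1 s]
    exact eq_comm
  -- points not on the special lines
  have k4 : ∀ x y, (¬ ∃ l ∈ L, Vert p0 pt pi l x) → pt x y ∈ P →
      {j | m j * x + b j = y}.ncard = 4 := by
    intro x y hx hp
    rw [hthr, ← hP4 _ hp]
    congr 1
    ext l
    simp only [Set.mem_ofPred_eq]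
    constructor
    · rintro ⟨⟨h1, -⟩, h2⟩
      exact ⟨h1, h2⟩
    · rintro ⟨h1, h2⟩
      refine ⟨⟨h1, fun h5 => ?_⟩, h2⟩
      by_cases hl : l = l0
      · rw [hl] at h2
        exact C.inf.2.2 x y h2
      · obtain ⟨x', hv⟩ := hV l ⟨⟨h1, h5⟩, hl⟩
        have h6 := (hv.2.2 x y).1 h2
        rw [← h6] at hv
        exact hx ⟨l, h1, hv⟩
  have k3 : ∀ x y, (∃ l ∈ L, Vert p0 pt pi l x) → pt x y ∈ P →
      {j | m j * x + b j = y}.ncard = 3 := by
    rintro x y ⟨lx, hlx, hv⟩ hp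
    have h4 := hP4 _ hp
    have h5 : {l | l ∈ {l | l ∈ L ∧ ¬ Inc p0 l} ∧ Inc (pt x y) l} =
        {l | l ∈ L ∧ Inc (pt x y) l} \ {lx} := by
      ext l
      simp only [Set.mem_ofPred_eq, Set.mem_sdiff, Set.mem_singleton_iff]
      constructor
      · rintro ⟨⟨h1, h6⟩, h2⟩
        refine ⟨⟨h1, h2⟩, ?_⟩
        rintro rfl
        exact h6 hv.1
      · rintro ⟨⟨h1, h2⟩, h6⟩
        refine ⟨⟨h1, fun h7 => h6 ?_⟩, h2⟩
        by_cases hl : l = l0
        · rw [hl] at h2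
          exact absurd h2 (C.inf.2.2 x y)
        · obtain ⟨x', hv'⟩ := hV l ⟨⟨h1, h7⟩, hl⟩
          have h8 := (hv'.2.2 x y).1 h2
          rw [← h8] at hv'
          exact C.vert_inj l lx x hv' hv
    have hm : lx ∈ {l | l ∈ L ∧ Inc (pt x y) l} := ⟨hlx, (hv.2.2 x y).2 rfl⟩
    rw [hthr, h5, Set.ncard_sdiff_singleton_of_mem hm, h4]
  have ki3 : ∀ s, pi s ∈ P → {j | m j = s}.ncard = 3 := by
    intro s hp
    have h4 := hP4 _ hp
    have h5 : {l | l ∈ {l | l ∈ L ∧ ¬ Inc p0 l} ∧ Inc (pi s) l} =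
        {l | l ∈ L ∧ Inc (pi s) l} \ {l0} := by
      ext l
      simp only [Set.mem_ofPred_eq, Set.mem_sdiff, Set.mem_singleton_iff]
      constructor
      · rintro ⟨⟨h1, h6⟩, h2⟩
        refine ⟨⟨h1, h2⟩, ?_⟩
        rintro rfl
        exact h6 hpl
      · rintro ⟨⟨h1, h2⟩, h6⟩
        refine ⟨⟨h1, fun h7 => ?_⟩, h2⟩
        obtain ⟨x', hv'⟩ := hV l ⟨⟨h1, h7⟩, h6⟩
        exact hv'.2.1 s h2
    have hm : l0 ∈ {l | l ∈ L ∧ Inc (pi s) l} := ⟨hl0, C.inf.2.1 s⟩
    rw [hthi, h5, Set.ncard_sdiff_singleton_of_mem hm, h4]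
  -- the points of the special lines
  have hY : ∀ x, (∃ l ∈ L, Vert p0 pt pi l x) → {y | pt x y ∈ P}.ncard = 4 := by
    rintro x ⟨lx, hlx, hv⟩
    have h5 := hL5 lx hlx
    have h6 : {p | p ∈ P ∧ Inc p lx} \ {p0} = (fun y => pt x y) '' {y | pt x y ∈ P} := by
      ext p
      simp only [Set.mem_ofPred_eq, Set.mem_sdiff, Set.mem_singleton_iff, Set.mem_image]
      constructor
      · rintro ⟨⟨h1, h2⟩, h3'⟩
        rcases C.all p with h7 | ⟨s, rfl⟩ | ⟨x', y, rfl⟩
        · exact absurd h7 h3'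
        · exact absurd h2 (hv.2.1 s)
        · obtain rfl := (hv.2.2 x' y).1 h2
          exact ⟨y, h1, rfl⟩
      · rintro ⟨y, hy, rfl⟩
        exact ⟨⟨hy, (hv.2.2 x y).2 rfl⟩, C.pt_p0 x y⟩
    have hm : p0 ∈ {p | p ∈ P ∧ Inc p lx} := ⟨hp0, hv.1⟩
    rw [← Set.ncard_image_of_injective (f := fun y => pt x y) _
      (fun y y' hh => (C.pt_inj x y x y' hh).2), ← h6,
      Set.ncard_sdiff_singleton_of_mem hm, h5]
  have hYi : {s | pi s ∈ P}.ncard = 4 := by
    have h5 := hL5 l0 hl0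
    have h6 : {p | p ∈ P ∧ Inc p l0} \ {p0} = pi '' {s | pi s ∈ P} := by
      ext p
      simp only [Set.mem_ofPred_eq, Set.mem_sdiff, Set.mem_singleton_iff, Set.mem_image]
      constructor
      · rintro ⟨⟨h1, h2⟩, h3'⟩
        rcases C.all p with h7 | ⟨s, rfl⟩ | ⟨x', y, rfl⟩
        · exact absurd h7 h3'
        · exact ⟨s, h1, rfl⟩
        · exact absurd h2 (C.inf.2.2 x' y)
      · rintro ⟨s, hs, rfl⟩
        exact ⟨⟨hs, C.inf.2.1 s⟩, C.pi_p0 s⟩
    have hm : p0 ∈ {p | p ∈ P ∧ Inc p l0} := ⟨hp0, hpl⟩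
    rw [← Set.ncard_image_of_injective (f := pi) _ (fun s s' hh => C.pi_inj s s' hh), ← h6,
      Set.ncard_sdiff_singleton_of_mem hm, h5]
  refine ⟨{
    m := m
    b := b
    x1 := x1
    x2 := x2
    x3 := x3
    K := fun x y => pt x y ∈ P
    Ki := fun s => pi s ∈ P
    h12 := h12
    h23 := h23
    inj := ?_
    k4 := ?_
    k3 := ?_
    ki3 := fun i hi => ki3 _ hi
    n12 := ?_
    ni12 := fib12 m {s | pi s ∈ P} hYi fun s hs => ki3 s hs
    n5 := ?_ }⟩
  · intro i j h1 h2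
    have h5 := hW j
    rw [← h1, ← h2] at h5
    exact hWi (C.wire_inj _ _ _ _ (hW i) h5)
  · intro x i h1 h2 h5 hp
    refine k4 x _ (fun hx => ?_) hp
    rcases (hX x).1 hx with h6 | h6 | h6
    · exact h1 h6
    · exact h2 h6
    · exact h5 h6
  · intro x i hx hp
    exact k3 x _ ((hX x).2 hx) hp
  · intro x hx
    exact fib12 (fun i => m i * x + b i) {y | pt x y ∈ P} (hY x ((hX x).2 hx))
      fun y hy => k3 x y ((hX x).2 hx) hy
  · intro i
    have h5 := hL5 (Wr i) (hWL i).1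
    have h6 : {p | p ∈ P ∧ Inc p (Wr i)} =
        (fun x => pt x (m i * x + b i)) '' {x | pt x (m i * x + b i) ∈ P} ∪
          (fun _ => pi (m i)) '' {_u : Unit | pi (m i) ∈ P} := by
      ext p
      simp only [Set.mem_ofPred_eq, Set.mem_union, Set.mem_image]
      constructor
      · rintro ⟨h1, h2⟩
        rcases C.all p with h7 | ⟨s, rfl⟩ | ⟨x', y, rfl⟩
        · rw [h7] at h2
          exact absurd h2 (hWL i).2
        · obtain rfl := ((hW i).2.1 s).1 h2
          exact Or.inr ⟨(), h1, rfl⟩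
        · obtain rfl := ((hW i).2.2 x' y).1 h2
          exact Or.inl ⟨x', h1, rfl⟩
      · rintro (⟨x, hx, rfl⟩ | ⟨u, hu, rfl⟩)
        · exact ⟨hx, ((hW i).2.2 _ _).2 rfl⟩
        · exact ⟨hu, ((hW i).2.1 _).2 rfl⟩
    have hinj1 : Function.Injective fun x => pt x (m i * x + b i) :=
      fun x x' hh => (C.pt_inj _ _ _ _ hh).1
    have hinj2 : Function.Injective fun _ : Unit => pi (m i) := fun _ _ _ => rfl
    have hdis : Disjoint ((fun x => pt x (m i * x + b i)) '' {x | pt x (m i * x + b i) ∈ P})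
        ((fun _ => pi (m i)) '' {_u : Unit | pi (m i) ∈ P}) := by
      rw [Set.disjoint_left]
      rintro _ ⟨x, -, rfl⟩ ⟨u, -, hu⟩
      exact C.pt_pi _ _ _ hu.symm
    have hf1 : ((fun x => pt x (m i * x + b i)) '' {x | pt x (m i * x + b i) ∈ P}).Finite :=
      hPf.subset (by rintro _ ⟨x, hx, rfl⟩; exact hx)
    have hf2 : ((fun _ => pi (m i)) '' {_u : Unit | pi (m i) ∈ P}).Finite :=
      hPf.subset (by rintro _ ⟨x, hx, rfl⟩; exact hx)
    rw [h6, Set.ncard_union_eq hdis hf1 hf2, Set.ncard_image_of_injective _ hinj1,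
      Set.ncard_image_of_injective _ hinj2] at h5
    exact h5

end Pool.Agent.EC4
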