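import Pool.Agent.Lib.MP_ec4eff_co.R5.Defs

/-!
# Commutation of disjoint moves (project R5)

Proof plan.  A move rewrites a factor `B` of the list by `inn cfg B` (same length).  Two moves with
disjoint positions: write `S = l ++ (B ++ (r ++ (C ++ s)))`, the factors `B` and `C` are those of the
two moves (which one is which depends on the side of `disj`).  `comm`: split the list by
`List.append_eq_append_iff` (or by `take` and `drop`).  `comm_all`: induction on `l1` with `comm`.
`ready_step`: the position of `n` is in `l1` or in `l2`; in the first case the moves before it are the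
same, in the second case one has to add `m`, which is disjoint from `n`.
-/

set_option autoImplicit false

namespace Pool.Agent.EC4

/-- the moves `m` and `n` have disjoint positions -/
def disj (m n : Mo) : Prop := m.i + m.k ≤ n.i ∨ n.i + n.k ≤ m.i

/-- `m` is in `ms` and every move before it is disjoint from it -/
def Ready (ms : List Mo) (m : Mo) : Prop := ∃ l1 l2, ms = l1 ++ m :: l2 ∧ ∀ n ∈ l1, disj n m

theorem comm_len (cfg : Bool) (B : List W) : (inn cfg B).length = B.length := by
  unfold inn
  rw [List.length_reverse, List.length_map]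

theorem comm_mk {S S' : List W} {m : Mo} (l B r : List W) (hS : S = l ++ (B ++ r))
    (hi : m.i = l.length) (hk : m.k = B.length) (hS' : S' = l ++ (inn m.g B ++ r))
    (hB : B.Pairwise W.unmet) (h2 : 2 ≤ B.length) (h4 : m.g = true → B.length = 4) :
    Mv S m S' := by
  obtain ⟨i, k, g⟩ := m
  simp only at hi hk hS' h4
  subst hi
  subst hk
  rw [hS, hS']
  exact Mv.mk l B r g hB h2 h4

theorem comm_out {S S' : List W} {m : Mo} (h : Mv S m S') : ∃ l B r : List W,
    S = l ++ (B ++ r) ∧ m.i = l.length ∧ m.k = B.length ∧ S' = l ++ (inn m.g B ++ r) ∧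
    B.Pairwise W.unmet ∧ 2 ≤ B.length ∧ (m.g = true → B.length = 4) := by
  cases h with
  | mk l B r cfg hB h2 h4 => exact ⟨l, B, r, rfl, rfl, rfl, rfl, hB, h2, h4⟩

theorem comm_split {α : Type} {a b c d : List α} (h : a ++ b = c ++ d) (hl : a.length ≤ c.length) :
    ∃ t, c = a ++ t ∧ b = t ++ d := by
  rcases List.append_eq_append_iff.1 h with ⟨t, h1, h2⟩ | ⟨t, h1, h2⟩
  · exact ⟨t, h1, h2⟩
  · have ht : t = [] := by
      apply List.eq_nil_of_length_eq_zero
      have h3 := congrArg List.length h1
      rw [List.length_append] at h3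
      omega
    refine ⟨[], ?_, ?_⟩
    · rw [h1, ht, List.append_nil, List.append_nil]
    · rw [h2, ht, List.nil_append, List.nil_append]

theorem comm {S S' S'' : List W} {n m : Mo} (h : Mv S n S') (h' : Mv S' m S'') (d : disj n m) :
    ∃ T, Mv S m T ∧ Mv T n S'' := by
  obtain ⟨l1, B1, r1, hS, hi1, hk1, hS', hB1, h21, h41⟩ := comm_out h
  obtain ⟨l2, B2, r2, hT, hi2, hk2, hT', hB2, h22, h42⟩ := comm_out h'
  rcases d with d | d
  · have e : (l1 ++ inn n.g B1) ++ r1 = l2 ++ (B2 ++ r2) := by
      rw [← hT, hS', List.append_assoc]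
    obtain ⟨t, ht1, ht2⟩ := comm_split e (by
      rw [List.length_append, comm_len]
      omega)
    refine ⟨(l1 ++ B1 ++ t) ++ (inn m.g B2 ++ r2), ?_, ?_⟩
    · refine comm_mk (l1 ++ B1 ++ t) B2 r2 ?_ ?_ hk2 rfl hB2 h22 h42
      · rw [hS, ht2]
        simp only [List.append_assoc]
      · rw [hi2, ht1]
        simp only [List.length_append, comm_len]
    · refine comm_mk l1 B1 (t ++ (inn m.g B2 ++ r2)) ?_ hi1 hk1 ?_ hB1 h21 h41
      · simp only [List.append_assoc]
      · rw [hT', ht1]
        simp only [List.append_assoc]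
  · have e : (l2 ++ B2) ++ r2 = l1 ++ (inn n.g B1 ++ r1) := by
      rw [← hS', hT, List.append_assoc]
    obtain ⟨t, ht1, ht2⟩ := comm_split e (by
      rw [List.length_append]
      omega)
    refine ⟨l2 ++ (inn m.g B2 ++ (t ++ (B1 ++ r1))), ?_, ?_⟩
    · refine comm_mk l2 B2 (t ++ (B1 ++ r1)) ?_ hi2 hk2 rfl hB2 h22 h42
      rw [hS, ht1]
      simp only [List.append_assoc]
    · refine comm_mk (l2 ++ inn m.g B2 ++ t) B1 r1 ?_ ?_ hk1 ?_ hB1 h21 h41
      · simp only [List.append_assoc]
      · rw [hi1, ht1]
        simp only [List.length_append, comm_len]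
      · rw [hT', ht2]
        simp only [List.append_assoc]

theorem comm_all {S E : List W} {l1 l2 : List Mo} {m : Mo} (h : Ch S (l1 ++ m :: l2) E)
    (hd : ∀ n ∈ l1, disj n m) : ∃ T, Mv S m T ∧ Ch T (l1 ++ l2) E := by
  induction l1 generalizing S with
  | nil =>
    cases h with
    | cons h1 h2 => exact ⟨_, h1, h2⟩
  | cons n l1 ih =>
    cases h with
    | cons h1 h2 =>
      obtain ⟨T1, hT1, hT2⟩ := ih h2 (fun x hx => hd x (List.mem_cons_of_mem _ hx))
      obtain ⟨T, hT3, hT4⟩ := comm h1 hT1 (hd n List.mem_cons_self)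
      exact ⟨T, hT3, Ch.cons hT4 hT2⟩

theorem ready_step {l1 l2 : List Mo} {m n : Mo} (hd : ∀ x ∈ l1, disj x m)
    (h : Ready (l1 ++ l2) n) (hn : disj n m) : Ready (l1 ++ m :: l2) n := by
  obtain ⟨a, b, hab, ha⟩ := h
  have hn' : disj m n := hn.symm
  have key : ∀ c : List Mo, a = l1 ++ c → l2 = c ++ n :: b → Ready (l1 ++ m :: l2) n := by
    intro c hac hl2
    refine ⟨l1 ++ m :: c, b, ?_, ?_⟩
    · rw [hl2, List.append_assoc, List.cons_append]
    · intro x hx
      rcases List.mem_append.1 hx with hx | hx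
      · exact ha x (by rw [hac]; exact List.mem_append_left _ hx)
      · rcases List.mem_cons.1 hx with hx | hx
        · rw [hx]
          exact hn'
        · exact ha x (by rw [hac]; exact List.mem_append_right _ hx)
  rcases List.append_eq_append_iff.1 hab with ⟨c, h1, h2⟩ | ⟨c, h1, h2⟩
  · exact key c h1 h2
  · cases c with
    | nil =>
      refine key [] ?_ ?_
      · rw [h1, List.append_nil, List.append_nil]
      · rw [List.nil_append] at h2
        rw [List.nil_append, h2]
    | cons y c =>
      rw [List.cons_append] at h2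
      obtain ⟨hy, hb⟩ := List.cons.inj h2
      refine ⟨a, c ++ m :: l2, ?_, ha⟩
      rw [h1, hy, List.append_assoc, List.cons_append]

theorem ready_head (m : Mo) (ms : List Mo) : Ready (m :: ms) m := by
  exact ⟨[], ms, rfl, fun n hn => absurd hn List.not_mem_nil⟩

end Pool.Agent.EC4
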