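import Pool.Agent.Lib.MP_ec4eff_co.R5.Nf

/-!
# Coordinates of the projective plane (project R5)

`Pt`, `Ln`, `Inc` are the definitions of the results on this problem.  `Coo p0 l0 pt pi`: coordinates such
that `p0` is the vertical point at infinity and `l0` is the line at infinity; `pt x y` are the affine
points, `pi s` the points at infinity with slope `s`.

Proof plan for `exists_coo`.  `p0 = mk v` with `v ≠ 0`; `v ∈ l0.1`; choose `u ∈ l0.1` which is not a
multiple of `v` (dimension 2) and `w ∉ l0.1`; then `u, v, w` is a basis.  `pt x y = mk (x u + y v + w)`,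
`pi s = mk (u + s v)`.  `inj`, `ne`: compare coefficients (two vectors which are multiples of each other).
`all`: a point `mk z`, `z = α u + β v + γ w`: if `γ ≠ 0` it is `pt (α / γ) (β / γ)`, if `γ = 0`, `α ≠ 0`
it is `pi (β / α)`, otherwise `p0`.  A line `l` (dimension 2): if `v ∉ l.1` then `l.1` contains a
nonzero vector of the plane of `u, v`, which is a multiple of `u + s v`, and a vector of the plane of
`v, w`, which is a multiple of `b v + w`; so `l.1` is spanned by `u + s v` and `b v + w`, case `wire`.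
If `v ∈ l.1` and `l ≠ l0` then `l.1` contains a nonzero vector of the plane of `u, w`, it is a multiple of
`x u + w` (it is not a multiple of `u` since `l ≠ l0`), so `l.1` is spanned by `v` and `x u + w`, case
`vert`.
-/

set_option autoImplicit false

namespace Pool.Agent.EC4

open scoped LinearAlgebra.Projectivization

/-- The points of the real projective plane. -/
abbrev Pt : Type := ℙ ℝ (Fin 3 → ℝ)

/-- The lines of the real projective plane. -/
abbrev Ln : Type := {W : Submodule ℝ (Fin 3 → ℝ) // Module.finrank ℝ W = 2}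

/-- The point `p` lies on the line `l`. -/
def Inc (p : Pt) (l : Ln) : Prop := p.submodule ≤ l.1

/-- `P` and `L` form a geometric configuration `((5r)_4, (4r)_5)`. -/
def IsConfig (r : ℕ) (P : Set Pt) (L : Set Ln) : Prop :=
  P.Finite ∧ L.Finite ∧ P.ncard = 5 * r ∧ L.ncard = 4 * r ∧
    (∀ p ∈ P, {l | l ∈ L ∧ Inc p l}.ncard = 4) ∧ ∀ l ∈ L, {p | p ∈ P ∧ Inc p l}.ncard = 5

/-- the line `l` is the vertical line with abscissa `x0` -/
def Vert (p0 : Pt) (pt : ℝ → ℝ → Pt) (pi : ℝ → Pt) (l : Ln) (x0 : ℝ) : Prop :=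
  Inc p0 l ∧ (∀ s, ¬ Inc (pi s) l) ∧ ∀ x y, Inc (pt x y) l ↔ x = x0

/-- the line `l` is the line `y = m x + b` -/
def Wire (p0 : Pt) (pt : ℝ → ℝ → Pt) (pi : ℝ → Pt) (l : Ln) (m b : ℝ) : Prop :=
  ¬ Inc p0 l ∧ (∀ s, Inc (pi s) l ↔ s = m) ∧ ∀ x y, Inc (pt x y) l ↔ y = m * x + b

/-- coordinates -/
structure Coo (p0 : Pt) (l0 : Ln) (pt : ℝ → ℝ → Pt) (pi : ℝ → Pt) : Prop where
  pt_inj : ∀ x y x' y', pt x y = pt x' y' → x = x' ∧ y = y'
  pi_inj : ∀ s s', pi s = pi s' → s = s'
  pt_pi : ∀ x y s, pt x y ≠ pi s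
  pt_p0 : ∀ x y, pt x y ≠ p0
  pi_p0 : ∀ s, pi s ≠ p0
  all : ∀ p, p = p0 ∨ (∃ s, p = pi s) ∨ ∃ x y, p = pt x y
  inf : Inc p0 l0 ∧ (∀ s, Inc (pi s) l0) ∧ ∀ x y, ¬ Inc (pt x y) l0
  lines : ∀ l, l = l0 ∨ (∃ x0, Vert p0 pt pi l x0) ∨ ∃ m b, Wire p0 pt pi l m b
  vert_inj : ∀ l l' x0, Vert p0 pt pi l x0 → Vert p0 pt pi l' x0 → l = l'
  wire_inj : ∀ l l' m b, Wire p0 pt pi l m b → Wire p0 pt pi l' m b → l = l'

theorem inc_mk (z : Fin 3 → ℝ) (hz : z ≠ 0) (l : Ln) :
    Inc (Projectivization.mk ℝ z hz) l ↔ z ∈ l.1 := by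
  unfold Inc
  rw [Projectivization.submodule_mk, Submodule.span_singleton_le_iff_mem]

theorem ln_ext (l l' : Ln) (h : ∀ p, Inc p l ↔ Inc p l') : l = l' := by
  apply Subtype.ext
  ext z
  by_cases hz : z = 0
  · subst hz
    exact ⟨fun _ => l'.1.zero_mem, fun _ => l.1.zero_mem⟩
  · rw [← inc_mk z hz l, ← inc_mk z hz l']
    exact h _

/-- a plane is the kernel of a functional -/
theorem ln_ker (l : Ln) : ∃ f : (Fin 3 → ℝ) →ₗ[ℝ] ℝ, f ≠ 0 ∧ ∀ z, z ∈ l.1 ↔ f z = 0 := by
  have hlt : l.1 < ⊤ := by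
    rw [lt_top_iff_ne_top]
    intro h
    have h2 := l.2
    rw [h, finrank_top, Module.finrank_fin_fun] at h2
    omega
  obtain ⟨f, hf, hle⟩ := Submodule.exists_le_ker_of_lt_top l.1 hlt
  refine ⟨f, hf, ?_⟩
  have hk : Module.finrank ℝ (LinearMap.ker f) = 2 := by
    have h1 := LinearMap.finrank_range_add_finrank_ker f
    have h2 : LinearMap.range f = ⊤ := LinearMap.range_eq_top.mpr (LinearMap.surjective hf)
    rw [h2, finrank_top, Module.finrank_self, Module.finrank_fin_fun] at h1
    omega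
  have he : l.1 = LinearMap.ker f :=
    Submodule.eq_of_le_of_finrank_eq hle (by rw [hk]; exact l.2)
  intro z
  rw [he, LinearMap.mem_ker]

theorem exists_coo (p0 : Pt) (l0 : Ln) (h : Inc p0 l0) :
    ∃ (pt : ℝ → ℝ → Pt) (pi : ℝ → Pt), Coo p0 l0 pt pi := by
  -- the basis
  obtain ⟨v, hv0, hvp⟩ : ∃ (v : Fin 3 → ℝ) (hv : v ≠ 0), Projectivization.mk ℝ v hv = p0 :=
    ⟨p0.rep, p0.rep_nonzero, p0.mk_rep⟩
  have hvl : v ∈ l0.1 := by
    rw [← inc_mk v hv0, hvp]; exact h
  obtain ⟨u, hul, huv⟩ : ∃ u ∈ l0.1, u ∉ Submodule.span ℝ {v} := by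
    by_contra hc
    push Not at hc
    have h1 : Module.finrank ℝ l0.1 ≤ Module.finrank ℝ (Submodule.span ℝ {v}) :=
      Submodule.finrank_mono hc
    rw [finrank_span_singleton hv0, l0.2] at h1
    omega
  obtain ⟨w, hwl⟩ : ∃ w, w ∉ l0.1 := by
    by_contra hc
    push Not at hc
    have h1 : l0.1 = ⊤ := Submodule.eq_top_iff'.mpr hc
    have h2 := l0.2
    rw [h1, finrank_top, Module.finrank_fin_fun] at h2
    omega
  have ind : ∀ a b c : ℝ, a • u + b • v + c • w = 0 → a = 0 ∧ b = 0 ∧ c = 0 := by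
    intro a b c habc
    have hc : c = 0 := by
      by_contra hc
      apply hwl
      have : c • w ∈ l0.1 := by
        have h1 : c • w = -(a • u + b • v) := by
          rw [eq_neg_iff_add_eq_zero, add_comm]; exact habc
        rw [h1]
        exact l0.1.neg_mem (l0.1.add_mem (l0.1.smul_mem a hul) (l0.1.smul_mem b hvl))
      exact (l0.1.smul_mem_iff hc).mp this
    rw [hc, zero_smul, add_zero] at habc
    have ha : a = 0 := by
      by_contra ha
      apply huv
      have : a • u ∈ Submodule.span ℝ {v} := by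
        have h1 : a • u = -(b • v) := eq_neg_of_add_eq_zero_left habc
        rw [h1]
        exact Submodule.neg_mem _ (Submodule.smul_mem _ b (Submodule.mem_span_singleton_self v))
      exact (Submodule.smul_mem_iff _ ha).mp this
    rw [ha, zero_smul, zero_add] at habc
    have hb : b = 0 := (smul_eq_zero.mp habc).resolve_right hv0
    exact ⟨ha, hb, hc⟩
  have li : LinearIndependent ℝ ![u, v, w] := by
    rw [Fintype.linearIndependent_iff]
    intro g hg
    rw [Fin.sum_univ_three] at hg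
    obtain ⟨h1, h2, h3⟩ := ind (g 0) (g 1) (g 2) hg
    intro i
    fin_cases i
    · exact h1
    · exact h2
    · exact h3
  have sp : ∀ z : Fin 3 → ℝ, ∃ a b c : ℝ, z = a • u + b • v + c • w := by
    intro z
    let B := basisOfLinearIndependentOfCardEqFinrank li (by rw [Module.finrank_fin_fun]; rfl)
    have h1 := B.sum_repr z
    rw [Fin.sum_univ_three] at h1
    have hB : ∀ i, B i = ![u, v, w] i := fun i => by
      rw [coe_basisOfLinearIndependentOfCardEqFinrank]
    rw [hB 0, hB 1, hB 2] at h1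
    exact ⟨_, _, _, h1.symm⟩
  -- coefficients of multiples
  have cf : ∀ a b c a' b' c' k : ℝ, k • (a' • u + b' • v + c' • w) = a • u + b • v + c • w →
      a = k * a' ∧ b = k * b' ∧ c = k * c' := by
    intro a b c a' b' c' k hk
    have h1 : (a - k * a') • u + (b - k * b') • v + (c - k * c') • w = 0 := by
      have h2 : (a - k * a') • u + (b - k * b') • v + (c - k * c') • w
          = (a • u + b • v + c • w) - k • (a' • u + b' • v + c' • w) := by
        simp only [smul_add, smul_smul, sub_smul]; abel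
      rw [h2, hk, sub_self]
    obtain ⟨h1, h2, h3⟩ := ind _ _ _ h1
    exact ⟨by linarith, by linarith, by linarith⟩
  have nz : ∀ a b c : ℝ, (a ≠ 0 ∨ b ≠ 0 ∨ c ≠ 0) → a • u + b • v + c • w ≠ 0 := by
    intro a b c hne h0
    obtain ⟨h1, h2, h3⟩ := ind a b c h0
    rcases hne with h | h | h
    · exact h h1
    · exact h h2
    · exact h h3
  have hpt : ∀ x y : ℝ, x • u + y • v + (1 : ℝ) • w ≠ 0 := fun x y =>
    nz _ _ _ (Or.inr (Or.inr one_ne_zero))
  have hpi : ∀ s : ℝ, (1 : ℝ) • u + s • v + (0 : ℝ) • w ≠ 0 := fun s =>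
    nz _ _ _ (Or.inl one_ne_zero)
  have hv1 : (0 : ℝ) • u + (1 : ℝ) • v + (0 : ℝ) • w = v := by
    rw [zero_smul, zero_smul, one_smul, zero_add, add_zero]
  have hv2 : (0 : ℝ) • u + (1 : ℝ) • v + (0 : ℝ) • w ≠ 0 := nz _ _ _ (Or.inr (Or.inl one_ne_zero))
  have hp0 : p0 = Projectivization.mk ℝ ((0 : ℝ) • u + (1 : ℝ) • v + (0 : ℝ) • w) hv2 := by
    rw [← hvp]
    congr 1
    exact hv1.symm
  let pt : ℝ → ℝ → Pt := fun x y => Projectivization.mk ℝ (x • u + y • v + (1 : ℝ) • w) (hpt x y)
  let pi : ℝ → Pt := fun s => Projectivization.mk ℝ ((1 : ℝ) • u + s • v + (0 : ℝ) • w) (hpi s)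
  have all : ∀ p : Pt, p = p0 ∨ (∃ s, p = pi s) ∨ ∃ x y, p = pt x y := by
    intro p
    obtain ⟨z, hz, hzp⟩ : ∃ (z : Fin 3 → ℝ) (hz : z ≠ 0), Projectivization.mk ℝ z hz = p :=
      ⟨p.rep, p.rep_nonzero, p.mk_rep⟩
    obtain ⟨a, b, c, rfl⟩ := sp z
    by_cases hc : c = 0
    · by_cases ha : a = 0
      · left
        subst hc; subst ha
        rw [← hzp, hp0, Projectivization.mk_eq_mk_iff']
        refine ⟨b, ?_⟩
        simp only [smul_add, smul_smul, mul_zero, mul_one]
      · right; left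
        refine ⟨b / a, ?_⟩
        subst hc
        rw [← hzp]
        show _ = Projectivization.mk ℝ _ _
        rw [Projectivization.mk_eq_mk_iff']
        refine ⟨a, ?_⟩
        simp only [smul_add, smul_smul, mul_zero, mul_one, mul_div_cancel₀ b ha]
    · right; right
      refine ⟨a / c, b / c, ?_⟩
      rw [← hzp]
      show _ = Projectivization.mk ℝ _ _
      rw [Projectivization.mk_eq_mk_iff']
      refine ⟨c, ?_⟩
      simp only [smul_add, smul_smul, mul_one, mul_div_cancel₀ _ hc]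
  have inc0 : ∀ l : Ln, Inc p0 l ↔ v ∈ l.1 := fun l => by rw [← hvp, inc_mk]
  have incpt : ∀ x y (l : Ln), Inc (pt x y) l ↔ x • u + y • v + (1 : ℝ) • w ∈ l.1 :=
    fun x y l => inc_mk _ _ l
  have incpi : ∀ s (l : Ln), Inc (pi s) l ↔ (1 : ℝ) • u + s • v + (0 : ℝ) • w ∈ l.1 :=
    fun s l => inc_mk _ _ l
  have memuv : ∀ a b : ℝ, a • u + b • v + (0 : ℝ) • w ∈ l0.1 := by
    intro a b
    rw [zero_smul, add_zero]
    exact l0.1.add_mem (l0.1.smul_mem a hul) (l0.1.smul_mem b hvl)
  have hinf : ∀ x y, ¬ Inc (pt x y) l0 := by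
    intro x y hxy
    rw [incpt] at hxy
    apply hwl
    have h1 := l0.1.sub_mem hxy (memuv x y)
    have h2 : x • u + y • v + (1 : ℝ) • w - (x • u + y • v + (0 : ℝ) • w) = w := by
      rw [one_smul, zero_smul, add_zero]; abel
    rwa [h2] at h1
  refine ⟨pt, pi, ?_, ?_, ?_, ?_, ?_, all, ⟨h, ?_, hinf⟩, ?_, ?_, ?_⟩
  · intro x y x' y' he
    have he' := (Projectivization.mk_eq_mk_iff' ℝ _ _ _ _).mp he
    obtain ⟨k, hk⟩ := he'
    obtain ⟨h1, h2, h3⟩ := cf _ _ _ _ _ _ _ hk
    have : k = 1 := by linarith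
    subst this
    exact ⟨by linarith, by linarith⟩
  · intro s s' he
    have he' := (Projectivization.mk_eq_mk_iff' ℝ _ _ _ _).mp he
    obtain ⟨k, hk⟩ := he'
    obtain ⟨h1, h2, h3⟩ := cf _ _ _ _ _ _ _ hk
    have : k = 1 := by linarith
    subst this
    linarith
  · intro x y s he
    have he' := (Projectivization.mk_eq_mk_iff' ℝ _ _ _ _).mp he
    obtain ⟨k, hk⟩ := he'
    obtain ⟨h1, h2, h3⟩ := cf _ _ _ _ _ _ _ hk
    rw [mul_zero] at h3
    exact one_ne_zero h3
  · intro x y he
    rw [hp0] at he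
    have he' := (Projectivization.mk_eq_mk_iff' ℝ _ _ _ _).mp he
    obtain ⟨k, hk⟩ := he'
    obtain ⟨h1, h2, h3⟩ := cf _ _ _ _ _ _ _ hk
    rw [mul_zero] at h3
    exact one_ne_zero h3
  · intro s he
    rw [hp0] at he
    have he' := (Projectivization.mk_eq_mk_iff' ℝ _ _ _ _).mp he
    obtain ⟨k, hk⟩ := he'
    obtain ⟨h1, h2, h3⟩ := cf _ _ _ _ _ _ _ hk
    rw [mul_zero] at h1
    exact one_ne_zero h1
  · intro s
    rw [incpi]
    exact memuv 1 s
  · intro l
    obtain ⟨f, hf0, hf⟩ := ln_ker l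
    have hf' : ∀ a b c : ℝ, a • u + b • v + c • w ∈ l.1 ↔ a * f u + b * f v + c * f w = 0 := by
      intro a b c
      rw [hf, map_add, map_add, map_smul, map_smul, map_smul, smul_eq_mul, smul_eq_mul,
        smul_eq_mul]
    by_cases hb : f v = 0
    · by_cases ha : f u = 0
      · left
        have hw0 : f w ≠ 0 := by
          intro hw0
          apply hf0
          ext i
          obtain ⟨a, b, c, hz⟩ := sp (Pi.single i 1)
          simp only [LinearMap.coe_comp, LinearMap.coe_single, Function.comp_apply,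
            LinearMap.zero_apply]
          rw [hz, map_add, map_add, map_smul, map_smul, map_smul, ha, hb, hw0]
          simp
        apply ln_ext
        intro p
        rcases all p with rfl | ⟨s, rfl⟩ | ⟨x, y, rfl⟩
        · rw [inc0, hf, hb]
          exact ⟨fun _ => h, fun _ => rfl⟩
        · rw [incpi, hf', ha, hb, incpi]
          exact ⟨fun _ => memuv 1 s, fun _ => by ring⟩
        · rw [incpt, hf', ha, hb]
          refine ⟨fun h1 => absurd ?_ hw0, fun h1 => absurd h1 (hinf x y)⟩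
          linarith
      · right; left
        refine ⟨-(f w / f u), ?_, ?_, ?_⟩
        · rw [inc0, hf, hb]
        · intro s hs
          rw [incpi, hf', hb] at hs
          apply ha
          linarith
        · intro x y
          rw [incpt, hf', hb]
          constructor
          · intro h1
            field_simp
            linarith
          · intro h1
            rw [h1]
            field_simp
            ring
    · right; right
      refine ⟨-(f u / f v), -(f w / f v), ?_, ?_, ?_⟩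
      · rw [inc0, hf]
        exact hb
      · intro s
        rw [incpi, hf']
        constructor
        · intro h1
          field_simp
          linarith
        · intro h1
          rw [h1]
          field_simp
          ring
      · intro x y
        rw [incpt, hf']
        constructor
        · intro h1
          field_simp
          linarith
        · intro h1
          rw [h1]
          field_simp
          ring
  · intro l l' x0 h1 h2
    apply ln_ext
    intro p
    rcases all p with rfl | ⟨s, rfl⟩ | ⟨x, y, rfl⟩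
    · exact ⟨fun _ => h2.1, fun _ => h1.1⟩
    · exact ⟨fun h3 => absurd h3 (h1.2.1 s), fun h3 => absurd h3 (h2.2.1 s)⟩
    · rw [h1.2.2 x y, h2.2.2 x y]
  · intro l l' m b h1 h2
    apply ln_ext
    intro p
    rcases all p with rfl | ⟨s, rfl⟩ | ⟨x, y, rfl⟩
    · exact ⟨fun h3 => absurd h3 h1.1, fun h3 => absurd h3 h2.1⟩
    · rw [h1.2.1 s, h2.2.1 s]
    · rw [h1.2.2 x y, h2.2.2 x y]

end Pool.Agent.EC4
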