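import Pool.Agent.Lib.MP_ec4eff_co.R5.Nf

/-!
# Nothing happens between two events (project R5)

Proof plan.  `crit_fin`: the abscissa of the crossing of `i` and `j` (different slopes) is
`(b j - b i) / (m i - m j)`, so `crit` is contained in the image of a finite set.  `k_crit`: if `x` is not
special and `N.K x (N.f i x)` then 4 wires pass through the point (`N.k4`), take two of them; they have
different slopes by `N.inj`.  `del_zero`: if `x` is not in `crit` then all heights at `x` are
different (equal heights and equal slopes give equal wires), so each set in `del` is `{i}`.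
`order_between`: the difference `d t = N.f j t - N.f i t` is affine linear; `d a > 0`, or `d a = 0` and
its slope is positive; it has no zero between `a` and `b` (equal slopes: constant); if `d b < 0` there
would be the zero `a + d a * (b - a) / (d a - d b)`; if `d b = 0` then `d a > 0` and the slope is negative.
`R_between`: `met` does not change since a crossing between `a` and `b` is in `crit`; the sets in `hq`
and `he` do not change (`k_crit`).  `R_first`, `order_first`: the same with `∅` and `Set.Iic a` for `a`
below everything: `N.f j a - N.f i a = (m j - m i) * a + (b j - b i)`.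
`fin_last`: all pairs have met, so `w.c = 65535` (`Nat.eq_of_testBit_eq`), `w.q = 5` by `N.n5`, and
`w.e + 3 * 5 + 1 = 16 + 3 + 1`.
-/

set_option autoImplicit false

namespace Pool.Agent.EC4

namespace NF

variable (N : NF)

theorem crit_fin : N.crit.Finite := by
  have h : N.crit ⊆ Set.range (fun p : Fin 16 × Fin 16 => (N.b p.2 - N.b p.1) / (N.m p.1 - N.m p.2)) := by
    rintro x ⟨i, j, hm, hf⟩
    refine ⟨(i, j), ?_⟩
    have h0 : N.m i - N.m j ≠ 0 := sub_ne_zero.2 hm
    simp only [f] at hf
    show (N.b j - N.b i) / (N.m i - N.m j) = x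
    rw [div_eq_iff h0]
    linarith
  exact (Set.finite_range _).subset h

/-- two wires of equal height outside `crit` are equal -/
theorem eq_of_height {x : ℝ} (h : x ∉ N.crit) {i j : Fin 16} (hf : N.f i x = N.f j x) : i = j := by
  by_contra hij
  by_cases hm : N.m i = N.m j
  · apply hij
    refine N.inj i j hm ?_
    simp only [f] at hf
    rw [hm] at hf
    linarith
  · exact h ⟨i, j, hm, hf⟩

theorem k_crit {x : ℝ} {i : Fin 16} (hx : ¬ N.spx x) (h : N.K x (N.f i x)) : x ∈ N.crit := by
  by_contra hc
  have h1 : x ≠ N.x1 := fun e => hx (Or.inl e)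
  have h2 : x ≠ N.x2 := fun e => hx (Or.inr (Or.inl e))
  have h3 : x ≠ N.x3 := fun e => hx (Or.inr (Or.inr e))
  have h4 := N.k4 x i h1 h2 h3 h
  have h5 : {j | N.m j * x + N.b j = N.m i * x + N.b i} = {i} := by
    ext j
    constructor
    · intro hj
      exact N.eq_of_height hc hj
    · intro hj
      rw [Set.mem_singleton_iff] at hj
      rw [hj]
      rfl
  rw [h5, Set.ncard_singleton] at h4
  omega

theorem del_zero {x : ℝ} (hx : ¬ N.spx x) (h : x ∉ N.crit) : N.del x = 0 := by
  unfold del
  apply Finset.sum_eq_zero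
  intro i _
  rw [if_neg (fun hk => h (N.k_crit hx hk))]
  have h5 : {j | N.f j x = N.f i x} = {i} := by
    ext j
    constructor
    · intro hj
      exact N.eq_of_height h hj
    · intro hj
      rw [Set.mem_singleton_iff] at hj
      rw [hj]
      rfl
  rw [h5, Set.ncard_singleton]
  norm_num

theorem order_between {a b : ℝ} (hab : a < b) (hc : ∀ x, a < x → x < b → x ∉ N.crit)
    {i j : Fin 16} (h : N.aft a i j) : N.bef b i j := by
  by_cases hm : N.m i = N.m j
  · left
    rcases h with h | h
    · simp only [f] at h ⊢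
      rw [hm] at h ⊢
      linarith
    · exact absurd hm (ne_of_lt h.2)
  · by_contra hb
    -- the difference
    set s : ℝ := N.m j - N.m i with hs
    set d : ℝ := N.f j a - N.f i a with hd
    have hdb : N.f j b - N.f i b = d + s * (b - a) := by
      rw [hd, hs]
      simp only [f]
      ring
    have hdx : ∀ x, N.f j x - N.f i x = d + s * (x - a) := by
      intro x
      rw [hd, hs]
      simp only [f]
      ring
    have hs0 : s ≠ 0 := fun e => hm (sub_eq_zero.1 e).symm
    have hd0 : 0 < d ∨ d = 0 ∧ 0 < s := by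
      rcases h with h | h
      · left; rw [hd]; linarith
      · right; exact ⟨by rw [hd]; linarith [h.1], by rw [hs]; linarith [h.2]⟩
    have hle : d + s * (b - a) ≤ 0 := by
      by_contra hlt
      apply hb
      left
      push Not at hlt
      linarith
    have hba : 0 < b - a := sub_pos.2 hab
    -- `s < 0`
    have hsn : s < 0 := by
      by_contra hsn
      push Not at hsn
      have hsp : 0 < s := lt_of_le_of_ne hsn (Ne.symm hs0)
      have : 0 < s * (b - a) := mul_pos hsp hba
      rcases hd0 with h | h
      · linarith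
      · linarith [h.1]
    have hdp : 0 < d := by
      rcases hd0 with h | h
      · exact h
      · linarith [h.2]
    -- the zero
    have hz : N.f j (a + d / (-s)) - N.f i (a + d / (-s)) = 0 := by
      rw [hdx]
      have : s ≠ 0 := hs0
      field_simp
      ring
    have hpos : 0 < d / (-s) := div_pos hdp (by linarith)
    have hle2 : d / (-s) ≤ b - a := by
      rw [div_le_iff₀ (by linarith)]
      linarith
    rcases lt_or_eq_of_le hle2 with hlt | heq
    · exact hc (a + d / (-s)) (by linarith) (by linarith) ⟨i, j, hm, by linarith⟩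
    · have hab' : a + d / (-s) = b := by linarith
      rw [hab'] at hz
      apply hb
      right
      exact ⟨by linarith, by linarith⟩

/-- `met` does not change if there is no crossing in the difference -/
theorem met_congr {U V : Set ℝ} (hUV : U ⊆ V) (h : ∀ x, x ∈ V → x ∉ U → x ∉ N.crit)
    (i j : Fin 16) : N.met V i j ↔ N.met U i j := by
  constructor
  · intro hm
    by_cases he : N.m i = N.m j
    · exact Or.inl he
    · rcases hm with hm | ⟨x, hx, hf⟩
      · exact Or.inl hm
      · right
        refine ⟨x, ?_, hf⟩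
        by_contra hxU
        exact h x hx hxU ⟨i, j, he, hf⟩
  · intro hm
    rcases hm with hm | ⟨x, hx, hf⟩
    · exact Or.inl hm
    · exact Or.inr ⟨x, hUV hx, hf⟩

/-- the wire of the model does not change if nothing happens in the difference -/
theorem R_congr {U V : Set ℝ} (hUV : U ⊆ V) (h : ∀ x, x ∈ V → x ∉ U → x ∉ N.crit ∧ ¬ N.spx x)
    {i : Fin 16} {w : W} (hR : N.R U i w) : N.R V i w := by
  have hmet : ∀ j, N.met V i j ↔ N.met U i j :=
    fun j => N.met_congr hUV (fun x h1 h2 => (h x h1 h2).1) i j
  have hset : {j | N.met V i j} = {j | N.met U i j} := Set.ext hmet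
  have hk : {x | x ∈ V ∧ N.K x (N.f i x)} = {x | x ∈ U ∧ N.K x (N.f i x)} := by
    ext x
    constructor
    · rintro ⟨h1, h2⟩
      refine ⟨?_, h2⟩
      by_contra hU
      exact (h x h1 hU).1 (N.k_crit (h x h1 hU).2 h2)
    · rintro ⟨h1, h2⟩
      exact ⟨hUV h1, h2⟩
  have hsp : {x | x ∈ V ∧ N.spx x} = {x | x ∈ U ∧ N.spx x} := by
    ext x
    constructor
    · rintro ⟨h1, h2⟩
      refine ⟨?_, h2⟩
      by_contra hU
      exact (h x h1 hU).2 h2
    · rintro ⟨h1, h2⟩
      exact ⟨hUV h1, h2⟩
  exact ⟨hR.hb, hR.hc, fun j => (hR.ht j).trans (hmet j).symm, by rw [hk]; exact hR.hq,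
    by rw [hset, hsp]; exact hR.he⟩

theorem R_between {a b : ℝ} (hab : a < b) (hc : ∀ x, a < x → x < b → x ∉ N.crit ∧ ¬ N.spx x)
    {i : Fin 16} {w : W} (h : N.R (Set.Iic a) i w) : N.R (Set.Iio b) i w := by
  refine N.R_congr (U := Set.Iic a) (V := Set.Iio b) ?_ ?_ h
  · intro x hx
    exact lt_of_le_of_lt hx hab
  · intro x hx hxa
    exact hc x (not_le.1 hxa) hx

theorem order_first {a : ℝ} (hc : ∀ x, x ≤ a → x ∉ N.crit) {i j : Fin 16}
    (h : N.m j < N.m i ∨ N.m i = N.m j ∧ N.b i < N.b j) : N.aft a i j := by
  left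
  rcases h with h | ⟨h1, h2⟩
  · by_contra hlt
    push Not at hlt
    have hs : 0 < N.m i - N.m j := sub_pos.2 h
    -- the crossing is at most `a`
    have hx : (N.b j - N.b i) / (N.m i - N.m j) ≤ a := by
      rw [div_le_iff₀ hs]
      simp only [f] at hlt
      linarith
    refine hc _ hx ⟨i, j, ne_of_gt h, ?_⟩
    have h0 : N.m i - N.m j ≠ 0 := ne_of_gt hs
    have h1 : (N.b j - N.b i) / (N.m i - N.m j) * (N.m i - N.m j) = N.b j - N.b i :=
      div_mul_cancel₀ _ h0
    simp only [f]
    linarith
  · simp only [f]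
    rw [h1]
    linarith

theorem R_first {a : ℝ} (hc : ∀ x, x ≤ a → x ∉ N.crit ∧ ¬ N.spx x)
    {i : Fin 16} {w : W} (h : N.R ∅ i w) : N.R (Set.Iic a) i w :=
  N.R_congr (U := ∅) (V := Set.Iic a) (Set.empty_subset _) (fun x hx _ => hc x hx) h

theorem fin_last {b : ℝ} (hc : ∀ x, b ≤ x → x ∉ N.crit ∧ ¬ N.spx x) {l : List (Fin 16)}
    {S : List W} (h : List.Forall₂ (N.R (Set.Iio b)) l S) : Fin5 S := by
  have key : ∀ (i : Fin 16) (w : W), N.R (Set.Iio b) i w → w.c = 65535 ∧ w.q = 5 ∧ w.e = 4 := by
    intro i w hR0
    have hR : N.R Set.univ i w :=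
      N.R_congr (U := Set.Iio b) (V := Set.univ) (Set.subset_univ _)
        (fun x _ hx => hc x (not_lt.1 hx)) hR0
    have hmet : ∀ j, N.met Set.univ i j := by
      intro j
      by_cases he : N.m i = N.m j
      · exact Or.inl he
      · right
        refine ⟨(N.b j - N.b i) / (N.m i - N.m j), Set.mem_univ _, ?_⟩
        have h0 : N.m i - N.m j ≠ 0 := sub_ne_zero.2 he
        have h1 : (N.b j - N.b i) / (N.m i - N.m j) * (N.m i - N.m j) = N.b j - N.b i :=
          div_mul_cancel₀ _ h0
        simp only [f]
        linarith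
    have hcc : w.c = 65535 := by
      apply Nat.eq_of_testBit_eq
      intro k
      by_cases hk : k < 16
      · have h1 : w.c.testBit k = true := (hR.ht ⟨k, hk⟩).2 (hmet _)
        rw [h1]
        symm
        interval_cases k <;> rfl
      · push Not at hk
        have h1 : w.c.testBit k = false :=
          Nat.testBit_lt_two_pow (lt_of_lt_of_le hR.hc (Nat.pow_le_pow_right (by norm_num) hk))
        have h2 : (65535 : ℕ).testBit k = false :=
          Nat.testBit_lt_two_pow (lt_of_lt_of_le (by norm_num : (65535 : ℕ) < 2 ^ 16)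
            (Nat.pow_le_pow_right (by norm_num) hk))
        rw [h1, h2]
    have hq5 : w.q = 5 := by
      have h1 := hR.hq
      have h2 : {x | x ∈ (Set.univ : Set ℝ) ∧ N.K x (N.f i x)} = {x | N.K x (N.m i * x + N.b i)} := by
        ext x
        constructor
        · rintro ⟨_, h⟩; exact h
        · intro h; exact ⟨Set.mem_univ _, h⟩
      rw [h2, N.n5 i] at h1
      exact h1
    have he4 := hR.he
    have h3 : {j | N.met Set.univ i j} = Set.univ := Set.eq_univ_of_forall hmet
    have h4 : {x | x ∈ (Set.univ : Set ℝ) ∧ N.spx x} = {N.x1, N.x2, N.x3} := by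
      ext x
      simp [spx]
    have h5 : ({N.x1, N.x2, N.x3} : Set ℝ).ncard = 3 := by
      rw [Set.ncard_eq_three]
      exact ⟨N.x1, N.x2, N.x3, ne_of_lt N.h12, ne_of_lt (N.h12.trans N.h23), ne_of_lt N.h23, rfl⟩
    rw [h3, h4, h5, Set.ncard_univ, Nat.card_eq_fintype_card, Fintype.card_fin, hq5] at he4
    exact ⟨hcc, hq5, by omega⟩
  intro w hw
  induction h with
  | nil => exact absurd hw (List.not_mem_nil)
  | cons h1 _ ih =>
    rcases List.mem_cons.1 hw with rfl | hw
    · exact key _ _ h1
    · exact ih hw

end NF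

end Pool.Agent.EC4
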