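import Pool.Agent.Lib.MP_ec4eff_co.R5.Srch

/-!
# The runs of the program (project R5)

The run for one composition is split: the first lune gives a list of results, and the continuation
is run for each of them.
-/

namespace Pool.Agent.EC4

/-- equality of Booleans -/
def eqB (a b : Bool) : Bool := Bool.rec (Bool.rec true false b) (Bool.rec false true b) a

/-- equality of wires -/
def eqW (a b : Wr) : Bool :=
  Bool.rec false (Bool.rec false (Bool.rec false (Bool.rec false (eqB a.g b.g) (Nat.beq a.e b.e))
    (Nat.beq a.q b.q)) (Nat.beq a.c b.c)) (Nat.beq a.b b.b)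

/-- equality of lists of wires -/
def eqS : List Wr → List Wr → Bool :=
  List.rec (fun T => List.rec true (fun _ _ _ => false) T)
    (fun a _ ih T => List.rec false (fun b T' _ => Bool.rec false (ih T') (eqW a b)) T)

/-- the result is in the list -/
def anyR (c : Nat) (S : List Wr) (pb : Nat) : List (Nat × List Wr × Nat) → Bool :=
  List.rec false (fun y _ ih => Bool.rec ih true
    (Bool.rec false (Bool.rec false (eqS S y.2.1) (Nat.beq pb y.2.2)) (Nat.beq c y.1)))

/-- the first lune for the composition `t` gives only results in `l` -/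
def runA (l : List (Nat × List Wr × Nat)) (t : List Nat) : Bool :=
  run (fun c S pb => Bool.rec true false (anyR c S pb l)) t

/-- the continuation fails for all results in the list -/
def allB : List (Nat × List Wr × Nat) → Bool :=
  List.rec true (fun y _ ih => Bool.rec ih false (lun1 y.1 y.2.1 y.2.2))

/-- there is no complete run for the composition `t` -/
def NoRun (t : List Nat) : Prop := ∀ (c0 : Nat) (S1 : List Wr) (pb1 : Nat),
  (∀ nxt : Nat → List Wr → Nat → Bool, nxt c0 S1 pb1 = true → run nxt t = true) →
    lun1 c0 S1 pb1 = true → False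

theorem eqB_eq {a b : Bool} (h : eqB a b = true) : a = b := by
  cases a <;> cases b <;> first | rfl | exact absurd h (by decide)

theorem rec_true {c x : Bool} (h : (Bool.rec false x c : Bool) = true) : c = true ∧ x = true := by
  cases c
  · exact Bool.noConfusion h
  · exact ⟨rfl, h⟩

theorem eqW_eq {a b : Wr} (h : eqW a b = true) : a = b := by
  obtain ⟨ag, ab, ac, aq, ae⟩ := a
  obtain ⟨bg, bb, bc, bq, be⟩ := b
  obtain ⟨h1, h⟩ := rec_true h
  obtain ⟨h2, h⟩ := rec_true h
  obtain ⟨h3, h⟩ := rec_true h
  obtain ⟨h4, h⟩ := rec_true h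
  have e1 := Nat.eq_of_beq_eq_true h1
  have e2 := Nat.eq_of_beq_eq_true h2
  have e3 := Nat.eq_of_beq_eq_true h3
  have e4 := Nat.eq_of_beq_eq_true h4
  have e5 := eqB_eq h
  simp only at e1 e2 e3 e4 e5
  rw [e1, e2, e3, e4, e5]

theorem eqS_eq : ∀ {S T : List Wr}, eqS S T = true → S = T
  | [], [], _ => rfl
  | [], _ :: _, h => absurd h (by intro h; exact Bool.noConfusion h)
  | _ :: _, [], h => absurd h (by intro h; exact Bool.noConfusion h)
  | a :: S, b :: T, h => by
    obtain ⟨h1, h2⟩ := rec_true h
    rw [eqW_eq h1, eqS_eq h2]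

theorem anyR_mem {c : Nat} {S : List Wr} {pb : Nat} :
    ∀ {l : List (Nat × List Wr × Nat)}, anyR c S pb l = true → (c, S, pb) ∈ l
  | [], h => Bool.noConfusion h
  | y :: l, h => by
    have h' : (Bool.rec (anyR c S pb l) true
      (Bool.rec false (Bool.rec false (eqS S y.2.1) (Nat.beq pb y.2.2)) (Nat.beq c y.1)) : Bool) = true :=
      h
    cases hc : (Bool.rec false (Bool.rec false (eqS S y.2.1) (Nat.beq pb y.2.2)) (Nat.beq c y.1) : Bool)
    · rw [hc] at h'
      exact List.mem_cons_of_mem _ (anyR_mem h')
    · obtain ⟨h1, h2⟩ := rec_true hc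
      obtain ⟨h3, h4⟩ := rec_true h2
      have e1 := Nat.eq_of_beq_eq_true h1
      have e2 := Nat.eq_of_beq_eq_true h3
      have e3 := eqS_eq h4
      obtain ⟨yc, yS, yp⟩ := y
      simp only at e1 e2 e3
      rw [e1, e2, e3]
      exact List.mem_cons_self

theorem allB_all : ∀ {l : List (Nat × List Wr × Nat)}, allB l = true →
    ∀ x ∈ l, lun1 x.1 x.2.1 x.2.2 = false
  | [], _, _, hx => absurd hx (by simp)
  | y :: l, h, x, hx => by
    have h' : (Bool.rec (allB l) false (lun1 y.1 y.2.1 y.2.2) : Bool) = true := h
    cases hc : lun1 y.1 y.2.1 y.2.2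
    · rw [hc] at h'
      rcases List.mem_cons.1 hx with rfl | hx
      · exact hc
      · exact allB_all h' x hx
    · rw [hc] at h'
      exact Bool.noConfusion h'

theorem allB_append : ∀ {l l' : List (Nat × List Wr × Nat)}, allB l = true → allB l' = true →
    allB (l ++ l') = true
  | [], _, _, h' => h'
  | y :: l, l', h, h' => by
    have h1 : (Bool.rec (allB l) false (lun1 y.1 y.2.1 y.2.2) : Bool) = true := h
    show (Bool.rec (allB (l ++ l')) false (lun1 y.1 y.2.1 y.2.2) : Bool) = true
    cases hc : lun1 y.1 y.2.1 y.2.2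
    · rw [hc] at h1
      exact allB_append h1 h'
    · rw [hc] at h1
      exact Bool.noConfusion h1

theorem noRun_of {t : List Nat} {l : List (Nat × List Wr × Nat)} (hA : runA l t = false)
    (hb : allB l = true) : NoRun t := by
  have hB := allB_all hb
  intro c0 S1 pb1 h1 h2
  by_cases hm : anyR c0 S1 pb1 l = true
  · have := hB _ (anyR_mem hm)
    simp only at this
    rw [this] at h2
    exact Bool.noConfusion h2
  · have h3 := h1 (fun c S pb => Bool.rec true false (anyR c S pb l))
      (by rw [Bool.not_eq_true] at hm; rw [hm])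
    have h4 : runA l t = true := h3
    rw [hA] at h4
    exact Bool.noConfusion h4

end Pool.Agent.EC4
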