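import Mathlib.Data.List.Basic

/-!
# The search (project R5)

The program which enumerates the sweeps of the pencil through a configuration point.  It is written
with recursors and raw literals so that the kernel evaluates it quickly.
-/

namespace Pool.Agent.EC4

/-- a wire: `g` the next wire above is unmet, `b` own bit, `c` mask of the wires met so far (with its
own bit), `q` and `e` numbers -/
structure Wr where
  g : Bool
  b : Nat
  c : Nat
  q : Nat
  e : Nat

/-- not yet met -/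
def ok (a b : Wr) : Bool := Nat.beq (Nat.land a.c b.b) (nat_lit 0)

/-- the update of a wire at a configuration vertex -/
def upQ (g : Bool) (M : Nat) (w : Wr) : Wr := ⟨g, w.b, Nat.lor w.c M, Nat.succ w.q, w.e⟩
def upE (g : Bool) (M k : Nat) (w : Wr) : Wr := ⟨g, w.b, Nat.lor w.c M, w.q, Nat.add w.e k⟩
def stg (g : Bool) (w : Wr) : Wr := ⟨g, w.b, w.c, w.q, w.e⟩

/-- the status of the gap between `a` and the first wire of `x` -/
def gap (a : Wr) (x : List Wr) : Bool := List.rec false (fun y _ _ => ok a y) x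

/-- the same for a mask -/
def gp (c : Nat) (x : List Wr) : Bool := List.rec false (fun y _ _ => Nat.beq (Nat.land c y.b) (nat_lit 0)) x

/-- twice (1 + new - old), old status and new status as unmet flags; end gaps count 2 -/
def inc (o n : Bool) : Nat :=
  Bool.rec (Bool.rec (nat_lit 2) (nat_lit 0) n) (Bool.rec (nat_lit 4) (nat_lit 2) n) o

/-- move the pointer back, `d` counts -/
def back (n : Nat) : List Wr → List Wr → Nat → (List Wr → List Wr → Nat → Bool) → Bool :=
  Nat.rec (fun lo hi d k => k lo hi d)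
    (fun _ ih lo hi d k => List.rec (k [] hi d) (fun y lo' _ => ih lo' (y :: hi) (Nat.succ d) k) lo) n

def ste1 (ih : List Wr → List Wr → Nat → Nat → Nat → (List Wr → Nat → Bool) → Bool)
    (lo : List Wr) (a : Wr) (r : List Wr) (nq ne pb : Nat) (k : List Wr → Nat → Bool) : Bool :=
  (Bool.rec false (Bool.rec false (ih ((upE false a.b (nat_lit 1) a) :: lo) r nq (Nat.add ne (nat_lit 1)) pb k) (Nat.ble a.e (nat_lit 3))) (Nat.ble ne (nat_lit 3)))

def ste2 (ih : List Wr → List Wr → Nat → Nat → Nat → (List Wr → Nat → Bool) → Bool)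
    (lo : List Wr) (a b : Wr) (r : List Wr) (nq ne pb : Nat) (k : List Wr → Nat → Bool) : Bool :=
  (Bool.rec false (Bool.rec false (Bool.rec false (ih ((upE false (Nat.lor a.b b.b) (nat_lit 2) a) :: (upE false (Nat.lor a.b b.b) (nat_lit 2) b) :: lo) r nq (Nat.add ne (nat_lit 2)) (Nat.add pb (nat_lit 1)) k) (Nat.ble b.e (nat_lit 2))) (Nat.ble a.e (nat_lit 2))) (Nat.ble ne (nat_lit 2)))

def stq3 (ih : List Wr → List Wr → Nat → Nat → Nat → (List Wr → Nat → Bool) → Bool)
    (lo : List Wr) (a b c : Wr) (r : List Wr) (nq ne pb : Nat) (k : List Wr → Nat → Bool) : Bool :=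
  (Bool.rec false (Bool.rec false (Bool.rec false (Bool.rec false (ih ((upQ false (Nat.lor a.b (Nat.lor b.b c.b)) a) :: (upQ false (Nat.lor a.b (Nat.lor b.b c.b)) b) :: (upQ false (Nat.lor a.b (Nat.lor b.b c.b)) c) :: lo) r (Nat.succ nq) ne pb k) (Nat.ble c.q (nat_lit 4))) (Nat.ble b.q (nat_lit 4))) (Nat.ble a.q (nat_lit 4))) (Nat.ble nq (nat_lit 3)))

def ste3 (ih : List Wr → List Wr → Nat → Nat → Nat → (List Wr → Nat → Bool) → Bool)
    (lo : List Wr) (a b c : Wr) (r : List Wr) (nq ne pb : Nat) (k : List Wr → Nat → Bool) : Bool :=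
  (Bool.rec false (Bool.rec false (Bool.rec false (Bool.rec false (ih ((upE false (Nat.lor a.b (Nat.lor b.b c.b)) (nat_lit 3) a) :: (upE false (Nat.lor a.b (Nat.lor b.b c.b)) (nat_lit 3) b) :: (upE false (Nat.lor a.b (Nat.lor b.b c.b)) (nat_lit 3) c) :: lo) r nq (Nat.add ne (nat_lit 3)) (Nat.add pb (nat_lit 3)) k) (Nat.ble c.e (nat_lit 1))) (Nat.ble b.e (nat_lit 1))) (Nat.ble a.e (nat_lit 1))) (Nat.ble ne (nat_lit 1)))

def ste4 (ih : List Wr → List Wr → Nat → Nat → Nat → (List Wr → Nat → Bool) → Bool)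
    (lo : List Wr) (a b c d : Wr) (r : List Wr) (nq ne pb : Nat) (k : List Wr → Nat → Bool) : Bool :=
  (Bool.rec false (Bool.rec false (Bool.rec false (Bool.rec false (Bool.rec false (ih ((upE false (Nat.lor a.b (Nat.lor b.b (Nat.lor c.b d.b))) (nat_lit 4) a) :: (upE false (Nat.lor a.b (Nat.lor b.b (Nat.lor c.b d.b))) (nat_lit 4) b) :: (upE false (Nat.lor a.b (Nat.lor b.b (Nat.lor c.b d.b))) (nat_lit 4) c) :: (upE false (Nat.lor a.b (Nat.lor b.b (Nat.lor c.b d.b))) (nat_lit 4) d) :: lo) r nq (Nat.add ne (nat_lit 4)) (Nat.add pb (nat_lit 6)) k) (Nat.ble d.e (nat_lit 0))) (Nat.ble c.e (nat_lit 0))) (Nat.ble b.e (nat_lit 0))) (Nat.ble a.e (nat_lit 0))) (Nat.ble ne (nat_lit 0)))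

def sp4 (ih : List Wr → List Wr → Nat → Nat → Nat → (List Wr → Nat → Bool) → Bool)
    (lo : List Wr) (a b c : Wr) (r : List Wr) (nq ne pb : Nat) (k : List Wr → Nat → Bool) : Bool :=
  (List.rec false (fun d r4 _ => (Bool.rec false (Bool.rec false (ste4 ih lo a b c d r4 nq ne pb k) (ok b d)) (ok a d))) r)

def sp3 (ih : List Wr → List Wr → Nat → Nat → Nat → (List Wr → Nat → Bool) → Bool)
    (lo : List Wr) (a b : Wr) (r : List Wr) (nq ne pb : Nat) (k : List Wr → Nat → Bool) : Bool :=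
  (List.rec false (fun c r3 _ => (Bool.rec false (Bool.rec (Bool.rec (Bool.rec false (sp4 ih lo a b c r3 nq ne pb k) (c.g)) true (ste3 ih lo a b c r3 nq ne pb k)) true (stq3 ih lo a b c r3 nq ne pb k)) (ok a c))) r)

def sp2 (ih : List Wr → List Wr → Nat → Nat → Nat → (List Wr → Nat → Bool) → Bool)
    (lo : List Wr) (a : Wr) (r : List Wr) (nq ne pb : Nat) (k : List Wr → Nat → Bool) : Bool :=
  (List.rec false (fun b r2 _ => (Bool.rec (Bool.rec false (sp3 ih lo a b r2 nq ne pb k) (b.g)) true (ste2 ih lo a b r2 nq ne pb k))) r)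

def sp1 (ih : List Wr → List Wr → Nat → Nat → Nat → (List Wr → Nat → Bool) → Bool)
    (lo hi : List Wr) (nq ne pb : Nat) (k : List Wr → Nat → Bool) : Bool :=
  (List.rec (Bool.rec false (Bool.rec false (k lo pb) (Nat.beq ne (nat_lit 4))) (Nat.beq nq (nat_lit 4))) (fun a r1 _ => (Bool.rec (Bool.rec false (sp2 ih lo a r1 nq ne pb k) (a.g)) true (ste1 ih lo a r1 nq ne pb k))) hi)

def spec (n : Nat) : List Wr → List Wr → Nat → Nat → Nat → (List Wr → Nat → Bool) → Bool :=
  Nat.rec (fun _ _ _ _ _ _ => true) (fun _ ih => sp1 ih) n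

/-- all wires have met all others and have the right numbers -/
def fin : List Wr → Bool :=
  List.rec true (fun a _ ih => (Bool.rec false (Bool.rec false ih (Nat.beq a.q (nat_lit 5))) (Nat.beq a.c (nat_lit 65535))))

/-- number of met adjacent pairs, plus two -/
def nx : List Wr → Nat :=
  List.rec (nat_lit 1) (fun a _ ih => Bool.rec (Nat.succ ih) ih a.g)

/-- reverse append -/
def rap : List Wr → List Wr → List Wr :=
  List.rec (fun x => x) (fun a _ ih x => ih (a :: x))

/-- reverse and set the statuses -/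
def rst : List Wr → List Wr → List Wr :=
  List.rec (fun x => x) (fun a _ ih x => ih (stg (gap a x) a :: x))

/-- the node: test, attempt to finish, go on -/
def node (ih : List Wr → List Wr → Nat → Nat → Nat → Bool) (tst : Nat → Bool)
    (sa : List Wr → Nat → Nat → Bool) (lo hi : List Wr) (v u : Nat) : Bool :=
  Bool.rec false (Bool.rec (back (nat_lit 4) lo hi (nat_lit 0) (fun lo hi d => ih lo hi d v u)) true
    (sa (rap lo hi) v u)) (tst v)

/-- put the new block (bottom wire `z`, rest of the block and above in `x`) back -/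
def mv (ih : List Wr → List Wr → Nat → Nat → Nat → Bool) (tst : Nat → Bool)
    (sa : List Wr → Nat → Nat → Bool) (lo : List Wr) (z : Wr) (x : List Wr) (v u : Nat) : Bool :=
  List.rec (node ih tst sa [] (z :: x) (Nat.add v (nat_lit 2)) u) (fun y lo' _ =>
    node ih tst sa (stg (ok y z) y :: lo') (z :: x) (Nat.add v (inc y.g (ok y z))) u) lo

def gte2 (ih : List Wr → List Wr → Nat → Nat → Nat → Bool) (tst : Nat → Bool)
    (sa : List Wr → Nat → Nat → Bool)
    (lo : List Wr) (a b : Wr) (r : List Wr) (v u : Nat) : Bool :=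
  (Bool.rec false (Bool.rec false (mv ih tst sa lo (upE false (Nat.lor a.b b.b) (nat_lit 1) b) ((upE (gp (Nat.lor a.c (Nat.lor a.b b.b)) r) (Nat.lor a.b b.b) (nat_lit 1) a) :: r) (Nat.add v (inc b.g (gp (Nat.lor a.c (Nat.lor a.b b.b)) r))) (Nat.add u (nat_lit 2))) (Nat.ble b.e (nat_lit 3))) (Nat.ble a.e (nat_lit 3)))

def gte3 (ih : List Wr → List Wr → Nat → Nat → Nat → Bool) (tst : Nat → Bool)
    (sa : List Wr → Nat → Nat → Bool)
    (lo : List Wr) (a b c : Wr) (r : List Wr) (v u : Nat) : Bool :=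
  (Bool.rec false (Bool.rec false (Bool.rec false (mv ih tst sa lo (upE false (Nat.lor a.b (Nat.lor b.b c.b)) (nat_lit 2) c) ((upE false (Nat.lor a.b (Nat.lor b.b c.b)) (nat_lit 2) b) :: (upE (gp (Nat.lor a.c (Nat.lor a.b (Nat.lor b.b c.b))) r) (Nat.lor a.b (Nat.lor b.b c.b)) (nat_lit 2) a) :: r) (Nat.add (Nat.add v (inc c.g (gp (Nat.lor a.c (Nat.lor a.b (Nat.lor b.b c.b))) r))) (nat_lit 6)) (Nat.add u (nat_lit 6))) (Nat.ble c.e (nat_lit 2))) (Nat.ble b.e (nat_lit 2))) (Nat.ble a.e (nat_lit 2)))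

def gtq4 (ih : List Wr → List Wr → Nat → Nat → Nat → Bool) (tst : Nat → Bool)
    (sa : List Wr → Nat → Nat → Bool)
    (lo : List Wr) (a b c d : Wr) (r : List Wr) (v u : Nat) : Bool :=
  (Bool.rec false (Bool.rec false (Bool.rec false (Bool.rec false (mv ih tst sa lo (upQ false (Nat.lor a.b (Nat.lor b.b (Nat.lor c.b d.b))) d) ((upQ false (Nat.lor a.b (Nat.lor b.b (Nat.lor c.b d.b))) c) :: (upQ false (Nat.lor a.b (Nat.lor b.b (Nat.lor c.b d.b))) b) :: (upQ (gp (Nat.lor a.c (Nat.lor a.b (Nat.lor b.b (Nat.lor c.b d.b)))) r) (Nat.lor a.b (Nat.lor b.b (Nat.lor c.b d.b))) a) :: r) (Nat.add v (inc d.g (gp (Nat.lor a.c (Nat.lor a.b (Nat.lor b.b (Nat.lor c.b d.b)))) r))) (Nat.sub u (nat_lit 2))) (Nat.ble d.q (nat_lit 4))) (Nat.ble c.q (nat_lit 4))) (Nat.ble b.q (nat_lit 4))) (Nat.ble a.q (nat_lit 4)))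

def gte4 (ih : List Wr → List Wr → Nat → Nat → Nat → Bool) (tst : Nat → Bool)
    (sa : List Wr → Nat → Nat → Bool)
    (lo : List Wr) (a b c d : Wr) (r : List Wr) (v u : Nat) : Bool :=
  (Bool.rec false (Bool.rec false (Bool.rec false (Bool.rec false (mv ih tst sa lo (upE false (Nat.lor a.b (Nat.lor b.b (Nat.lor c.b d.b))) (nat_lit 3) d) ((upE false (Nat.lor a.b (Nat.lor b.b (Nat.lor c.b d.b))) (nat_lit 3) c) :: (upE false (Nat.lor a.b (Nat.lor b.b (Nat.lor c.b d.b))) (nat_lit 3) b) :: (upE (gp (Nat.lor a.c (Nat.lor a.b (Nat.lor b.b (Nat.lor c.b d.b)))) r) (Nat.lor a.b (Nat.lor b.b (Nat.lor c.b d.b))) (nat_lit 3) a) :: r) (Nat.add (Nat.add v (inc d.g (gp (Nat.lor a.c (Nat.lor a.b (Nat.lor b.b (Nat.lor c.b d.b)))) r))) (nat_lit 14)) (Nat.add u (nat_lit 12))) (Nat.ble d.e (nat_lit 1))) (Nat.ble c.e (nat_lit 1))) (Nat.ble b.e (nat_lit 1))) (Nat.ble a.e (nat_lit 1)))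

def gte5 (ih : List Wr → List Wr → Nat → Nat → Nat → Bool) (tst : Nat → Bool)
    (sa : List Wr → Nat → Nat → Bool)
    (lo : List Wr) (a b c d x : Wr) (r : List Wr) (v u : Nat) : Bool :=
  (Bool.rec false (Bool.rec false (Bool.rec false (Bool.rec false (Bool.rec false (mv ih tst sa lo (upE false (Nat.lor a.b (Nat.lor b.b (Nat.lor c.b (Nat.lor d.b x.b)))) (nat_lit 4) x) ((upE false (Nat.lor a.b (Nat.lor b.b (Nat.lor c.b (Nat.lor d.b x.b)))) (nat_lit 4) d) :: (upE false (Nat.lor a.b (Nat.lor b.b (Nat.lor c.b (Nat.lor d.b x.b)))) (nat_lit 4) c) :: (upE false (Nat.lor a.b (Nat.lor b.b (Nat.lor c.b (Nat.lor d.b x.b)))) (nat_lit 4) b) :: (upE (gp (Nat.lor a.c (Nat.lor a.b (Nat.lor b.b (Nat.lor c.b (Nat.lor d.b x.b))))) r) (Nat.lor a.b (Nat.lor b.b (Nat.lor c.b (Nat.lor d.b x.b)))) (nat_lit 4) a) :: r) (Nat.add (Nat.add v (inc x.g (gp (Nat.lor a.c (Nat.lor a.b (Nat.lor b.b (Nat.lor c.b (Nat.lor d.b x.b))))) r))) (nat_lit 24)) (Nat.add u (nat_lit 20)))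 (Nat.ble x.e (nat_lit 0))) (Nat.ble d.e (nat_lit 0))) (Nat.ble c.e (nat_lit 0))) (Nat.ble b.e (nat_lit 0))) (Nat.ble a.e (nat_lit 0)))

def g5 (ih : List Wr → List Wr → Nat → Nat → Nat → Bool) (tst : Nat → Bool)
    (sa : List Wr → Nat → Nat → Bool)
    (lo : List Wr) (a b c d : Wr) (r : List Wr) (dd v u : Nat) : Bool :=
  (List.rec false (fun x r5 _ => (Bool.rec false (Bool.rec false (Bool.rec false (Bool.rec false (gte5 ih tst sa lo a b c d x r5 v u) (Nat.ble dd (nat_lit 4))) (ok c x)) (ok b x)) (ok a x))) r)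

def g4 (ih : List Wr → List Wr → Nat → Nat → Nat → Bool) (tst : Nat → Bool)
    (sa : List Wr → Nat → Nat → Bool)
    (lo : List Wr) (a b c : Wr) (r : List Wr) (dd v u : Nat) : Bool :=
  (List.rec false (fun d r4 _ => (Bool.rec false (Bool.rec false (Bool.rec (Bool.rec false (g5 ih tst sa lo a b c d r4 dd v u) (d.g)) true (Bool.rec false (Bool.rec (gte4 ih tst sa lo a b c d r4 v u) true (gtq4 ih tst sa lo a b c d r4 v u)) (Nat.ble dd (nat_lit 3)))) (ok b d)) (ok a d))) r)

def g3 (ih : List Wr → List Wr → Nat → Nat → Nat → Bool) (tst : Nat → Bool)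
    (sa : List Wr → Nat → Nat → Bool)
    (lo : List Wr) (a b : Wr) (r : List Wr) (dd v u : Nat) : Bool :=
  (List.rec false (fun c r3 _ => (Bool.rec false (Bool.rec (Bool.rec false (g4 ih tst sa lo a b c r3 dd v u) (c.g)) true (Bool.rec false (gte3 ih tst sa lo a b c r3 v u) (Nat.ble dd (nat_lit 2)))) (ok a c))) r)

def g2 (ih : List Wr → List Wr → Nat → Nat → Nat → Bool) (tst : Nat → Bool)
    (sa : List Wr → Nat → Nat → Bool)
    (lo : List Wr) (a : Wr) (r : List Wr) (dd v u : Nat) : Bool :=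
  (List.rec false (fun b r2 _ => (Bool.rec (Bool.rec false (g3 ih tst sa lo a b r2 dd v u) (b.g)) true (Bool.rec false (gte2 ih tst sa lo a b r2 v u) (Nat.ble dd (nat_lit 1))))) r)

def g1 (ih : List Wr → List Wr → Nat → Nat → Nat → Bool) (tst : Nat → Bool)
    (sa : List Wr → Nat → Nat → Bool)
    (lo hi : List Wr) (dd v u : Nat) : Bool :=
  (List.rec false (fun a r1 _ => (Bool.rec (ih (a :: lo) r1 (Nat.pred dd) v u) true (Bool.rec false (g2 ih tst sa lo a r1 dd v u) (a.g)))) hi)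

def go (n : Nat) (tst : Nat → Bool) (sa : List Wr → Nat → Nat → Bool) :
    List Wr → List Wr → Nat → Nat → Nat → Bool :=
  Nat.rec (fun _ _ _ _ _ => true) (fun _ ih => g1 ih tst sa) n

/-- attempt to end a lune -/
def att (cap c0 : Nat) (nxt : Nat → List Wr → Nat → Bool) (S : List Wr) (v u : Nat) : Bool :=
  Bool.rec false (Bool.rec false
    (spec (nat_lit 17) [] S (nat_lit 0) (nat_lit 0) (nat_lit 0) (fun lo' pb =>
      Bool.rec false (Bool.rec false
        (nxt (Nat.sub (Nat.add u pb) (nat_lit 22)) (rst lo' []) pb)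
        (Nat.ble (Nat.add c0 (nat_lit 22)) (Nat.add u pb)))
        (Nat.ble (Nat.add u pb) (Nat.add cap (nat_lit 22)))))
    (Nat.ble u (Nat.add cap (nat_lit 22)))) (Nat.ble (Nat.add v (nat_lit 22)) u)

/-- start of a lune -/
def lun (tst : Nat → Bool) (sa : List Wr → Nat → Nat → Bool) (S : List Wr) (pb : Nat) : Bool :=
  node (go (nat_lit 400) tst sa) tst sa [] S
    (Nat.sub (Nat.add (Nat.mul (nat_lit 2) (nx S)) pb) (nat_lit 20)) (Nat.add pb (nat_lit 20))

/-- the last lune -/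
def lun3 : List Wr → Nat → Bool := lun (fun _ => true) (fun S _ _ => fin S)

/-- the third lune -/
def lun2 (c0 c1 : Nat) : List Wr → Nat → Bool :=
  lun (fun v => Nat.ble v (24 - c0 - 2 * c1)) (att (24 - c0 - 2 * c1) c0 (fun _ => lun3))

/-- the second lune -/
def lun1 (c0 : Nat) : List Wr → Nat → Bool :=
  lun (fun v => Nat.ble v (12 - c0)) (att (12 - c0) c0 (fun c1 => lun2 c0 c1))

/-- the first lune with a continuation `nxt` -/
def lunF (nxt : Nat → List Wr → Nat → Bool) : List Wr → Nat → Bool :=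
  lun (fun v => Nat.ble v 6) (att 6 0 nxt)

/-- a wire before the line at infinity -/
def ini (i : Nat) : Wr := ⟨true, 2 ^ i, 2 ^ i, 0, 0⟩

def startList : List Wr := [ini 0, ini 1, ini 2, ini 3, ini 4, ini 5, ini 6, ini 7, ini 8, ini 9,
  ini 10, ini 11, ini 12, ini 13, ini 14, ini 15]

/-- apply a composition: `0` a configuration triple, `k` another block of `k` wires -/
def comp : List Nat → List Wr → List Wr → Nat → (List Wr → Nat → Bool) → Bool
  | [], lo, _, pb, k => k (rst lo []) pb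
  | 1 :: t, lo, a :: r, pb, k => comp t (upE false a.b 1 a :: lo) r pb k
  | 2 :: t, lo, a :: b :: r, pb, k =>
    comp t (upE false (Nat.lor a.b b.b) 2 a :: upE false (Nat.lor a.b b.b) 2 b :: lo) r (pb + 1) k
  | 3 :: t, lo, a :: b :: c :: r, pb, k =>
    comp t (upE false (Nat.lor a.b (Nat.lor b.b c.b)) 3 a ::
      upE false (Nat.lor a.b (Nat.lor b.b c.b)) 3 b ::
      upE false (Nat.lor a.b (Nat.lor b.b c.b)) 3 c :: lo) r (pb + 3) k
  | 4 :: t, lo, a :: b :: c :: d :: r, pb, k =>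
    comp t (upE false (Nat.lor a.b (Nat.lor b.b (Nat.lor c.b d.b))) 4 a ::
      upE false (Nat.lor a.b (Nat.lor b.b (Nat.lor c.b d.b))) 4 b ::
      upE false (Nat.lor a.b (Nat.lor b.b (Nat.lor c.b d.b))) 4 c ::
      upE false (Nat.lor a.b (Nat.lor b.b (Nat.lor c.b d.b))) 4 d :: lo) r (pb + 6) k
  | 0 :: t, lo, a :: b :: c :: r, pb, k =>
    comp t (upQ false (Nat.lor a.b (Nat.lor b.b c.b)) a ::
      upQ false (Nat.lor a.b (Nat.lor b.b c.b)) b ::
      upQ false (Nat.lor a.b (Nat.lor b.b c.b)) c :: lo) r pb k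
  | _, _, _, _, _ => false

/-- the search for the composition `t` on the line at infinity, with a continuation after the
first lune -/
def run (nxt : Nat → List Wr → Nat → Bool) (t : List Nat) : Bool := comp t [] startList 0 (lunF nxt)

end Pool.Agent.EC4
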