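import Mathlib
import Pool.Agent.Lib.MP_ec4eff_co.R5.Srch

/-!
# The combinatorial model of the sweep (project R5)

A state is the list of the 16 wires from the bottom to the top; a wire knows its own bit, the mask
of the wires it has met (with its own bit), the number of its configuration vertices so far and the
weight of its other vertices so far.
-/

set_option autoImplicit false

namespace Pool.Agent.EC4

/-- a wire of the model -/
@[ext] structure W where
  b : ℕ
  c : ℕ
  q : ℕ
  e : ℕ

/-- the wire `a` has not yet met the wire `b` -/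
def W.unmet (a b : W) : Prop := Nat.land a.c b.b = 0

/-- the mask of a block -/
def msk (B : List W) : ℕ := B.foldr (fun w M => Nat.lor w.b M) 0

/-- the update of a wire at a vertex with the mask `M`; weight `k` if it is not a configuration
vertex -/
def upd (cfg : Bool) (M k : ℕ) (w : W) : W :=
  ⟨w.b, Nat.lor w.c M, if cfg then w.q + 1 else w.q, if cfg then w.e else w.e + k⟩

/-- a block after a vertex inside a lune (weight `length - 1`) -/
def inn (cfg : Bool) (B : List W) : List W := (B.map (upd cfg (msk B) (B.length - 1))).reverse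

/-- a block after a vertex on a special line (weight `length`) -/
def out (cfg : Bool) (B : List W) : List W := (B.map (upd cfg (msk B) B.length)).reverse

/-- a move: start `i`, size `k`, configuration vertex or not -/
structure Mo where
  i : ℕ
  k : ℕ
  g : Bool

/-- one move -/
inductive Mv : List W → Mo → List W → Prop
  | mk (l B r : List W) (cfg : Bool) (hB : B.Pairwise W.unmet) (h2 : 2 ≤ B.length)
      (h4 : cfg = true → B.length = 4) :
      Mv (l ++ (B ++ r)) ⟨l.length, B.length, cfg⟩ (l ++ (inn cfg B ++ r))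

/-- a sequence of moves -/
inductive Ch : List W → List Mo → List W → Prop
  | nil (S : List W) : Ch S [] S
  | cons {S S' S'' : List W} {m : Mo} {ms : List Mo} (h : Mv S m S') (h' : Ch S' ms S'') :
      Ch S (m :: ms) S''

/-- the balance of a move: `k (k - 1)` or `-2` -/
def Mo.bal (m : Mo) : ℤ := if m.g then -2 else (m.k : ℤ) * (m.k - 1)

/-- the balance of a list of moves -/
def bal (ms : List Mo) : ℤ := (ms.map Mo.bal).sum

/-- the blocks of a special line: configuration or not, size -/
inductive Sp : List W → List (Bool × ℕ) → List W → Prop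
  | nil : Sp [] [] []
  | cons {r r' : List W} {t : List (Bool × ℕ)} (B : List W) (cfg : Bool)
      (hB : B.Pairwise W.unmet) (h1 : 1 ≤ B.length) (h3 : cfg = true → B.length = 3)
      (h : Sp r t r') : Sp (B ++ r) ((cfg, B.length) :: t) (out cfg B ++ r')

/-- number of configuration blocks -/
def nq (t : List (Bool × ℕ)) : ℕ := (t.map fun x => if x.1 then 1 else 0).sum

/-- number of wires in the other blocks -/
def ne (t : List (Bool × ℕ)) : ℕ := (t.map fun x => if x.1 then 0 else x.2).sum

/-- number of pairs in the other blocks -/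
def pbn (t : List (Bool × ℕ)) : ℕ := (t.map fun x => if x.1 then 0 else x.2 * (x.2 - 1) / 2).sum

/-- a special line of a `(25_4, 20_5)` configuration through the base point -/
def Good (t : List (Bool × ℕ)) : Prop := nq t = 4 ∧ ne t = 4

/-- the bounds for the numbers of a wire -/
def Cap (S : List W) : Prop := ∀ w ∈ S, w.q ≤ 5 ∧ w.e ≤ 4

/-- the own bits are not zero -/
def Nz (S : List W) : Prop := ∀ w ∈ S, w.b ≠ 0

/-- the final state -/
def Fin5 (S : List W) : Prop := ∀ w ∈ S, w.c = 65535 ∧ w.q = 5 ∧ w.e = 4

/-- the wires before the line at infinity -/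
def ini0 (i : ℕ) : W := ⟨2 ^ i, 2 ^ i, 0, 0⟩

/-- the initial state -/
def S00 : List W := (List.range 16).map ini0

/-- a complete sweep with costs `c0, c1, c2, c3` of the four lunes -/
def Full (t : List (Bool × ℕ)) (c0 c1 c2 c3 : ℕ) : Prop :=
  ∃ (S0 E0 S1 E1 S2 E2 S3 E3 : List W) (m0 m1 m2 m3 : List Mo) (t1 t2 t3 : List (Bool × ℕ)),
    Sp S00 t S0 ∧ Ch S0 m0 E0 ∧ Sp E0 t1 S1 ∧ Ch S1 m1 E1 ∧ Sp E1 t2 S2 ∧ Ch S2 m2 E2 ∧
    Sp E2 t3 S3 ∧ Ch S3 m3 E3 ∧ Fin5 E3 ∧ Good t ∧ Good t1 ∧ Good t2 ∧ Good t3 ∧
    (c0 : ℤ) + 2 = pbn t + bal m0 + pbn t1 ∧ (c1 : ℤ) + 2 = pbn t1 + bal m1 + pbn t2 ∧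
    (c2 : ℤ) + 2 = pbn t2 + bal m2 + pbn t3 ∧ (c3 : ℤ) + 2 = pbn t3 + bal m3 + pbn t

/-! ### the relation with the program -/

/-- forget the status -/
def er (w : Wr) : W := ⟨w.b, w.c, w.q, w.e⟩

/-- put the right statuses -/
noncomputable def gl : List W → List Wr
  | [] => []
  | a :: r => ⟨(match r with | [] => false | b :: _ => Nat.beq (Nat.land a.c b.b) 0), a.b, a.c, a.q,
      a.e⟩ :: gl r

/-- number of adjacent met pairs, plus 2 (for nonempty lists) -/
noncomputable def nxs (S : List W) : ℕ := nx (gl S)

/-- the code of a block of a special line -/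
def cod (x : Bool × ℕ) : ℕ := if x.1 then 0 else x.2

theorem rec_and (c x : Bool) : (Bool.rec false x c : Bool) = (c && x) := by cases c <;> rfl

theorem rec_or (x y : Bool) : (Bool.rec y true x : Bool) = (x || y) := by cases x <;> rfl

end Pool.Agent.EC4
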