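import Pool.Agent.Lib.MP_ec4eff_co.R5.Wlog
import Pool.Agent.Lib.MP_ec4eff_co.R5.Cnt
import Pool.Agent.Lib.MP_ec4eff_co.R5.AllReps

/-!
# There is no configuration `(25_4, 20_5)` (project R5)
-/

set_option autoImplicit false

namespace Pool.Agent.EC4

theorem no_five : ¬ ∃ (P : Set Pt) (L : Set Ln), IsConfig 5 P L := by
  rintro ⟨P, L, h⟩
  obtain ⟨N⟩ := exists_nf h
  exact N.no_nf all_reps

end Pool.Agent.EC4
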