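import Pool.Agent.Lib.MP_ec4eff_co.R5.Upd

/-!
# All vertices at an abscissa (project R5)

Proof plan.  `groups` for `h = fun i => N.f i x` and the slopes; `groups_mem`, `all_rev`.  `event`: by
induction on the list of the groups with an arbitrary list of wires `pre` in front,
`Ch (pre ++ S) ms (pre ++ S')`: a group with one wire does not change (`NF.single`; it is not a
configuration vertex by `N.k4`), a group `B` with at least two wires is a move (`NF.inner`, `Mv.mk`); its
balance is `-2` for a configuration vertex, `4` wires with `-1` in `N.del`, and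
`B.length * (B.length - 1)` otherwise, `B.length` wires with `2 * (B.length - 1)` in `N.del`
(`ncard_list`, `sum_groups`).  `special`: the same with `Sp.cons` and `NF.outer`; twice the number of pairs
of the block is `B.length * (B.length - 1)`, `B.length` wires with `B.length - 1` in `N.sig`.
`Good t`: by `N.n12` the blocks with `cfg = true` contain 12 wires (`sum_groups` or `ncard_list` for the
concatenation of these blocks), each of them has 3, so there are 4; the other blocks contain
`16 - 12 = 4` wires.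
-/

set_option autoImplicit false

namespace Pool.Agent.EC4

/-- split a relation between lists -/
theorem Evt_split {α β : Type} {R : α → β → Prop} (a b : List α) (S : List β)
    (h : List.Forall₂ R (a ++ b) S) :
    ∃ S1 S2, S = S1 ++ S2 ∧ List.Forall₂ R a S1 ∧ List.Forall₂ R b S2 := by
  induction a generalizing S with
  | nil => exact ⟨[], S, rfl, List.Forall₂.nil, h⟩
  | cons x a ih =>
    cases h with
    | cons h1 h2 =>
      obtain ⟨S1, S2, rfl, h3, h4⟩ := ih _ h2
      exact ⟨_ :: S1, S2, rfl, List.Forall₂.cons h1 h3, h4⟩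

theorem Evt_append {α β : Type} {R : α → β → Prop} {a b : List α} {S T : List β}
    (h : List.Forall₂ R a S) (h' : List.Forall₂ R b T) : List.Forall₂ R (a ++ b) (S ++ T) := by
  induction h with
  | nil => exact h'
  | cons h1 _ ih => exact List.Forall₂.cons h1 ih

/-- the sum of a constant function over a list -/
theorem Evt_sum (B : List (Fin 16)) (F : Fin 16 → ℤ) (c : ℤ) (h : ∀ i ∈ B, F i = c) :
    (B.map F).sum = B.length * c := by
  induction B with
  | nil => simp
  | cons a B ih =>
    rw [List.map_cons, List.sum_cons, ih (fun i hi => h i (List.mem_cons_of_mem _ hi)),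
      h a List.mem_cons_self, List.length_cons]
    push_cast
    ring

namespace NF

variable (N : NF)

open Classical in
/-- the summand of `del` -/
noncomputable def EvtG (x : ℝ) (i : Fin 16) : ℤ :=
  if N.K x (N.f i x) then -1 else 2 * (({j | N.f j x = N.f i x}.ncard : ℤ) - 1)

theorem Evt_del (x : ℝ) : N.del x = ∑ i : Fin 16, N.EvtG x i := rfl

theorem Evt_step (x : ℝ) (hx : ¬ N.spx x) (B : List (Fin 16)) (S : List W) (hB : B ≠ [])
    (hn : B.Nodup) (hy : ∀ i ∈ B, ∀ j, j ∈ B ↔ N.f j x = N.f i x)
    (hS : List.Forall₂ (N.R (Set.Iio x)) B S) :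
    ∃ (S' : List W), List.Forall₂ (N.R (Set.Iic x)) B.reverse S' ∧
      ∀ (pre r : List W), ∃ ms, Ch (pre ++ (S ++ r)) ms (pre ++ (S' ++ r)) ∧
        2 * bal ms = (B.map (N.EvtG x)).sum := by
  classical
  have hlen : S.length = B.length := hS.length_eq.symm
  have hcard : ∀ i ∈ B, ({j | N.f j x = N.f i x}.ncard : ℤ) = B.length := by
    intro i hi
    rw [ncard_list B hn (fun j => N.f j x = N.f i x) (hy i hi)]
  by_cases h1 : B.length = 1
  · obtain ⟨i, rfl⟩ := List.length_eq_one_iff.mp h1
    cases hS with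
    | @cons _ w _ T h2 h3 =>
      cases h3
      have h4 : ∀ j, j = i ↔ N.f j x = N.f i x := by
        intro j
        rw [← hy i List.mem_cons_self j, List.mem_singleton]
      refine ⟨[w], List.Forall₂.cons (N.single x hx i w h4 h2) List.Forall₂.nil, ?_⟩
      intro pre r
      refine ⟨[], Ch.nil _, ?_⟩
      have h5 : ¬ N.K x (N.f i x) := by
        intro hK
        have h6 := N.k4 x i (fun h => hx (Or.inl h)) (fun h => hx (Or.inr (Or.inl h)))
          (fun h => hx (Or.inr (Or.inr h))) hK
        have h7 := hcard i List.mem_cons_self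
        have h8 : {j | N.m j * x + N.b j = N.m i * x + N.b i} = {j | N.f j x = N.f i x} := rfl
        rw [h8] at h6
        rw [h6] at h7
        norm_num at h7
      have h9 : (List.map (N.EvtG x) [i]).sum = N.EvtG x i := by simp
      rw [h9, EvtG, if_neg h5, hcard i List.mem_cons_self]
      simp [bal]
  · have h2 : 2 ≤ B.length := by
      have h3 : B.length ≠ 0 := fun h => hB (List.length_eq_zero_iff.mp h)
      omega
    obtain ⟨cfg, hu, hc, hK, hR⟩ := N.inner x hx B S hB hn hy hS
    refine ⟨inn cfg S, hR, ?_⟩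
    intro pre r
    refine ⟨[⟨pre.length, S.length, cfg⟩], Ch.cons (Mv.mk pre S r cfg hu (by omega)
      (fun h => by rw [hlen]; exact hc h)) (Ch.nil _), ?_⟩
    cases cfg with
    | true =>
      have h3 : ∀ i ∈ B, N.EvtG x i = -1 := by
        intro i hi
        rw [EvtG, if_pos ((hK i hi).mp rfl)]
      rw [Evt_sum B _ _ h3, hc rfl]
      simp [bal, Mo.bal]
    | false =>
      have h3 : ∀ i ∈ B, N.EvtG x i = 2 * ((B.length : ℤ) - 1) := by
        intro i hi
        have h4 : ¬ N.K x (N.f i x) := by
          intro h5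
          have h6 := (hK i hi).mpr h5
          exact Bool.false_ne_true h6
        rw [EvtG, if_neg h4, hcard i hi]
      rw [Evt_sum B _ _ h3, hlen]
      simp only [bal, Mo.bal, List.map_cons, List.map_nil, List.sum_cons, List.sum_nil,
        Bool.false_eq_true, if_false]
      ring

theorem Evt_all (x : ℝ) (hx : ¬ N.spx x) (gs : List (List (Fin 16)))
    (hg : ∀ B ∈ gs, B ≠ [] ∧ B.Nodup ∧ ∀ i ∈ B, ∀ j, j ∈ B ↔ N.f j x = N.f i x)
    (S : List W) (hS : List.Forall₂ (N.R (Set.Iio x)) gs.flatten S) :
    ∃ (S' : List W), List.Forall₂ (N.R (Set.Iic x)) (gs.map List.reverse).flatten S' ∧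
      ∀ (pre : List W), ∃ ms, Ch (pre ++ S) ms (pre ++ S') ∧
        2 * bal ms = (gs.map fun B => (B.map (N.EvtG x)).sum).sum := by
  induction gs generalizing S with
  | nil =>
    cases hS
    exact ⟨[], List.Forall₂.nil, fun pre => ⟨[], Ch.nil _, by simp [bal]⟩⟩
  | cons B gs ih =>
    rw [List.flatten_cons] at hS
    obtain ⟨S1, S2, rfl, h1, h2⟩ := Evt_split B gs.flatten S hS
    obtain ⟨hB, hn, hy⟩ := hg B List.mem_cons_self
    obtain ⟨T1, hT1, hm1⟩ := N.Evt_step x hx B S1 hB hn hy h1
    obtain ⟨T2, hT2, hm2⟩ := ih (fun C hC => hg C (List.mem_cons_of_mem _ hC)) S2 h2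
    refine ⟨T1 ++ T2, ?_, ?_⟩
    · rw [List.map_cons, List.flatten_cons]
      exact Evt_append hT1 hT2
    · intro pre
      obtain ⟨m1, hc1, hb1⟩ := hm1 pre S2
      obtain ⟨m2, hc2, hb2⟩ := hm2 (pre ++ T1)
      refine ⟨m1 ++ m2, ?_, ?_⟩
      · rw [List.append_assoc, List.append_assoc] at hc2
        exact hc1.append hc2
      · rw [bal_append, mul_add, hb1, hb2, List.map_cons, List.sum_cons]

theorem event (x : ℝ) (hx : ¬ N.spx x) (l : List (Fin 16)) (S : List W) (hl : All l)
    (ho : l.Pairwise (N.bef x)) (hS : List.Forall₂ (N.R (Set.Iio x)) l S) :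
    ∃ (l' : List (Fin 16)) (S' : List W) (ms : List Mo), All l' ∧ l'.Pairwise (N.aft x) ∧
      List.Forall₂ (N.R (Set.Iic x)) l' S' ∧ Ch S ms S' ∧ 2 * bal ms = N.del x := by
  obtain ⟨gs, rfl, hg, hp, hr⟩ := groups (fun i => N.f i x) N.m l ho
  have hgm := groups_mem (fun i => N.f i x) gs hl hg hp
  obtain ⟨S', hS', hm⟩ := N.Evt_all x hx gs
    (fun B hB => ⟨(hg B hB).1, (hgm B hB).1, (hgm B hB).2⟩) S hS
  obtain ⟨ms, hc, hb⟩ := hm []
  refine ⟨(gs.map List.reverse).flatten, S', ms, all_rev gs hl, hr, hS', hc, ?_⟩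
  rw [hb, N.Evt_del, sum_groups gs hl]

end NF

end Pool.Agent.EC4
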