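import Pool.Agent.Lib.MP_ec4eff_co.R5.Nf

/-!
# The reflection which reverses the vertical order (project R5)

Proof plan.  `flip`: `y ↦ - y`; `flip.f i x = - N.f i x`, so all sets are the same.  The blocks on the
line at infinity: if `ss` is the list of the slopes for `N` then `(ss.map fun s => -s).reverse` is the
list for `flip`, and `flip.blk (-s) = N.blk s`.
-/

set_option autoImplicit false

namespace Pool.Agent.EC4

namespace NF

variable (N : NF)

theorem flp_e (i : Fin 16) (x : ℝ) : -(-N.m i * x + -N.b i) = N.m i * x + N.b i := by ring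

theorem flp_set (i : Fin 16) (x : ℝ) :
    {j | -N.m j * x + -N.b j = -N.m i * x + -N.b i} = {j | N.m j * x + N.b j = N.m i * x + N.b i} := by
  ext j
  simp only [Set.mem_ofPred_eq]
  constructor <;> intro h <;> linarith

theorem flp_seti (i : Fin 16) : {j | -N.m j = -N.m i} = {j | N.m j = N.m i} := by
  ext j
  simp only [Set.mem_ofPred_eq, neg_inj]

/-- the reflection `y ↦ - y` -/
def flip : NF where
  m i := -N.m i
  b i := -N.b i
  x1 := N.x1
  x2 := N.x2
  x3 := N.x3
  K x y := N.K x (-y)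
  Ki s := N.Ki (-s)
  h12 := N.h12
  h23 := N.h23
  inj := by
    intro i j h h'
    exact N.inj i j (neg_inj.mp h) (neg_inj.mp h')
  k4 := by
    intro x i h1 h2 h3 h
    rw [flp_e] at h
    rw [flp_set]
    exact N.k4 x i h1 h2 h3 h
  k3 := by
    intro x i h1 h
    rw [flp_e] at h
    rw [flp_set]
    exact N.k3 x i h1 h
  ki3 := by
    intro i h
    rw [neg_neg] at h
    rw [flp_seti]
    exact N.ki3 i h
  n12 := by
    intro x h
    simp only [flp_e]
    exact N.n12 x h
  ni12 := by
    simp only [neg_neg]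
    exact N.ni12
  n5 := by
    intro i
    simp only [flp_e, neg_neg]
    exact N.n5 i

theorem flip_f (i : Fin 16) (x : ℝ) : N.flip.f i x = -N.f i x := by
  simp only [f, flip]
  ring

theorem flip_K (i : Fin 16) (x : ℝ) : N.flip.K x (N.flip.f i x) ↔ N.K x (N.f i x) := by
  rw [flip_f]
  show N.K x (- -N.f i x) ↔ _
  rw [neg_neg]

theorem flip_Ki (i : Fin 16) : N.flip.Ki (N.flip.m i) ↔ N.Ki (N.m i) := by
  show N.Ki (- -N.m i) ↔ _
  rw [neg_neg]

theorem flip_set (i : Fin 16) (x : ℝ) :
    {j | N.flip.f j x = N.flip.f i x} = {j | N.f j x = N.f i x} := by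
  ext j
  simp only [Set.mem_ofPred_eq, flip_f, neg_inj]

theorem flip_seti (i : Fin 16) : {j | N.flip.m j = N.flip.m i} = {j | N.m j = N.m i} :=
  flp_seti N i

theorem flip_del (x : ℝ) : N.flip.del x = N.del x := by
  unfold del
  refine Finset.sum_congr rfl fun i _ => ?_
  by_cases h : N.K x (N.f i x)
  · rw [if_pos h, if_pos ((N.flip_K i x).mpr h)]
  · rw [if_neg h, if_neg fun h' => h ((N.flip_K i x).mp h'), flip_set]

theorem flip_sig (x : ℝ) : N.flip.sig x = N.sig x := by
  unfold sig
  refine Finset.sum_congr rfl fun i _ => ?_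
  by_cases h : N.K x (N.f i x)
  · rw [if_pos h, if_pos ((N.flip_K i x).mpr h)]
  · rw [if_neg h, if_neg fun h' => h ((N.flip_K i x).mp h'), flip_set]

theorem flip_sigi : N.flip.sigi = N.sigi := by
  unfold sigi
  refine Finset.sum_congr rfl fun i _ => ?_
  by_cases h : N.Ki (N.m i)
  · rw [if_pos h, if_pos ((N.flip_Ki i).mpr h)]
  · rw [if_neg h, if_neg fun h' => h ((N.flip_Ki i).mp h'), flip_seti]

theorem flip_C0 : N.flip.C0 = N.C0 := by
  unfold C0
  simp only [flip_del, flip_sig, flip_sigi]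
  rfl

theorem flip_C1 : N.flip.C1 = N.C1 := by
  unfold C1
  simp only [flip_del, flip_sig]
  rfl

theorem flip_C2 : N.flip.C2 = N.C2 := by
  unfold C2
  simp only [flip_del, flip_sig]
  rfl

theorem flip_C3 : N.flip.C3 = N.C3 := by
  unfold C3
  simp only [flip_del, flip_sig, flip_sigi]
  rfl

theorem flip_blk (s : ℝ) : N.flip.blk (-s) = N.blk s := by
  have h1 : N.flip.Ki (-s) ↔ N.Ki s := by
    show N.Ki (- -s) ↔ _
    rw [neg_neg]
  have h2 : {i | N.flip.m i = -s} = {i | N.m i = s} := by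
    ext i
    show -N.m i = -s ↔ N.m i = s
    rw [neg_inj]
  unfold blk
  rw [h2]
  exact Prod.ext (decide_eq_decide.mpr h1) rfl

theorem flip_tc {t : List (Bool × ℕ)} (h : N.TC t) : N.flip.TC t.reverse := by
  obtain ⟨ss, h1, h2, rfl⟩ := h
  refine ⟨(ss.map fun s => -s).reverse, ?_, ?_, ?_⟩
  · rw [List.pairwise_reverse, List.pairwise_map]
    exact h1.imp fun h => neg_lt_neg h
  · intro s
    rw [List.mem_reverse, List.mem_map]
    constructor
    · rintro ⟨a, ha, rfl⟩
      obtain ⟨i, hi⟩ := (h2 a).mp ha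
      refine ⟨i, ?_⟩
      show -N.m i = -a
      rw [hi]
    · rintro ⟨i, hi⟩
      refine ⟨-s, (h2 (-s)).mpr ⟨i, ?_⟩, neg_neg s⟩
      have hi' : -N.m i = s := hi
      rw [← hi', neg_neg]
  · rw [List.map_reverse, List.map_map]
    congr 1
    refine List.map_congr_left fun s _ => ?_
    exact (N.flip_blk s).symm

end NF

end Pool.Agent.EC4
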