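import Mathlib

/-!
# Finitely many lines in the affine plane with different slopes (project R5)

If every crossing of two of the lines is on a third one, then all lines pass through one point.  This
is Kelly's argument for the dual problem, with vertical distances.
-/

set_option autoImplicit false

namespace Pool.Agent.EC4

/-- the abscissa of the crossing of the lines `i` and `j` -/
noncomputable def xx {ι : Type*} (m b : ι → ℝ) (i j : ι) : ℝ := (b j - b i) / (m i - m j)

/-- the vertical distance of the line `k` from the crossing of the lines `i` and `j` -/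
noncomputable def vd {ι : Type*} (m b : ι → ℝ) (t : ι × ι × ι) : ℝ :=
  |m t.2.2 * xx m b t.1 t.2.1 + b t.2.2 - (m t.1 * xx m b t.1 t.2.1 + b t.1)|

theorem xx_eq {ι : Type*} {m b : ι → ℝ} (hm : Function.Injective m) {i j : ι} (hij : i ≠ j) {x : ℝ}
    (h : m i * x + b i = m j * x + b j) : xx m b i j = x := by
  have h1 : m i - m j ≠ 0 := sub_ne_zero.2 fun h => hij (hm h)
  rw [xx, div_eq_iff h1]
  linarith

theorem kelly {ι : Type*} [Finite ι] (m b : ι → ℝ) (hm : Function.Injective m)
    (h3 : ∀ i j, i ≠ j → ∃ (c : ι) (x : ℝ), c ≠ i ∧ c ≠ j ∧ m i * x + b i = m j * x + b j ∧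
      m c * x + b c = m i * x + b i)
    (hn : ∃ (i j k : ι) (x : ℝ), i ≠ j ∧ m i * x + b i = m j * x + b j ∧
      m k * x + b k ≠ m i * x + b i) : False := by
  classical
  have := Fintype.ofFinite ι
  obtain ⟨i0, j0, k0, x0, hij0, hx0, hk0⟩ := hn
  set s : Finset (ι × ι × ι) := Finset.univ.filter fun t => t.1 ≠ t.2.1 ∧ 0 < vd m b t with hs
  have hne : s.Nonempty := by
    refine ⟨(i0, j0, k0), ?_⟩
    rw [hs, Finset.mem_filter]
    refine ⟨Finset.mem_univ _, hij0, ?_⟩
    simp only [vd]
    rw [xx_eq hm hij0 hx0]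
    exact abs_pos.2 (sub_ne_zero.2 hk0)
  obtain ⟨⟨i, j, k⟩, ht, hmin⟩ := s.exists_min_image (vd m b) hne
  rw [hs, Finset.mem_filter] at ht
  obtain ⟨-, hij, hd⟩ := ht
  simp only at hij hd hmin
  obtain ⟨c, x, hci, hcj, e1, e2⟩ := h3 i j hij
  simp only [vd] at hd
  rw [xx_eq hm hij e1] at hd
  have hd0 : m k * x + b k ≠ m i * x + b i := fun h => by
    rw [h, sub_self, abs_zero] at hd
    exact lt_irrefl _ hd
  -- the key step: two lines through the crossing on the same side of `k`
  have key : ∀ u v : ι, m u * x + b u = m i * x + b i → m v * x + b v = m i * x + b i →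
      ((m k < m u ∧ m u < m v) ∨ (m v < m u ∧ m u < m k)) → False := by
    intro u v hu hv hlt
    have huv : m u ≠ m v := by
      rcases hlt with h | h
      · exact h.2.ne
      · exact h.1.ne'
    have hkv : m k ≠ m v := by
      rcases hlt with h | h
      · exact (h.1.trans h.2).ne
      · exact (h.1.trans h.2).ne'
    have hkv' : m k - m v ≠ 0 := sub_ne_zero.2 hkv
    have hkvi : k ≠ v := fun h => hkv (by rw [h])
    set X : ℝ := xx m b k v with hX
    have hXe : m k * X + b k = m v * X + b v := by
      rw [hX, xx]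
      field_simp
      ring
    -- distances
    have e3 : m k * x + b k - (m i * x + b i) = (m k - m v) * (x - X) := by
      rw [← hv]
      linarith
    have e4 : m u * X + b u - (m k * X + b k) = (m u - m v) * (X - x) := by
      have := hu.trans hv.symm
      rw [hXe]
      linarith
    have hXx : x - X ≠ 0 := by
      intro h
      rw [h, mul_zero] at e3
      exact hd0 (sub_eq_zero.1 e3)
    have hpos : 0 < vd m b (k, v, u) := by
      simp only [vd]
      rw [← hX, e4]
      refine abs_pos.2 (mul_ne_zero (sub_ne_zero.2 huv) ?_)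
      intro h
      exact hXx (by linarith)
    have hle := hmin (k, v, u) (by
      rw [hs, Finset.mem_filter]
      exact ⟨Finset.mem_univ _, hkvi, hpos⟩)
    have h1 : vd m b (i, j, k) = |m k - m v| * |x - X| := by
      simp only [vd]
      rw [xx_eq hm hij e1, e3, abs_mul]
    have h2 : vd m b (k, v, u) = |m u - m v| * |x - X| := by
      simp only [vd]
      rw [← hX, e4, abs_mul, abs_sub_comm X x]
    rw [h1, h2] at hle
    have hp : 0 < |x - X| := abs_pos.2 hXx
    have h3 : |m k - m v| ≤ |m u - m v| := le_of_mul_le_mul_right hle hp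
    rcases hlt with ⟨ha, hb⟩ | ⟨ha, hb⟩
    · rw [abs_of_neg (by linarith), abs_of_neg (by linarith)] at h3
      linarith
    · rw [abs_of_pos (by linarith), abs_of_pos (by linarith)] at h3
      linarith
  have hne' : ∀ u, m u * x + b u = m i * x + b i → m k ≠ m u := by
    intro u hu h
    have := hm h
    rw [this] at hd0
    exact hd0 hu
  have hi := hne' i rfl
  have hj := hne' j e1.symm
  have hc := hne' c e2
  have hmij : m i ≠ m j := fun h => hij (hm h)
  have hmci : m c ≠ m i := fun h => hci (hm h)
  have hmcj : m c ≠ m j := fun h => hcj (hm h)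
  have two : ∀ u v : ι, m u * x + b u = m i * x + b i → m v * x + b v = m i * x + b i →
      m u ≠ m v → ((m k < m u ∧ m k < m v) ∨ (m u < m k ∧ m v < m k)) → False := by
    intro u v hu hv huv h
    rcases lt_or_gt_of_ne huv with h1 | h1
    · rcases h with h | h
      · exact key u v hu hv (Or.inl ⟨h.1, h1⟩)
      · exact key v u hv hu (Or.inr ⟨h1, h.2⟩)
    · rcases h with h | h
      · exact key v u hv hu (Or.inl ⟨h.2, h1⟩)
      · exact key u v hu hv (Or.inr ⟨h1, h.1⟩)
  rcases lt_or_gt_of_ne hi with h1 | h1 <;> rcases lt_or_gt_of_ne hj with h2 | h2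
  · exact two i j rfl e1.symm hmij (Or.inl ⟨h1, h2⟩)
  · rcases lt_or_gt_of_ne hc with h4 | h4
    · exact two c i e2 rfl hmci (Or.inl ⟨h4, h1⟩)
    · exact two c j e2 e1.symm hmcj (Or.inr ⟨h4, h2⟩)
  · rcases lt_or_gt_of_ne hc with h4 | h4
    · exact two c j e2 e1.symm hmcj (Or.inl ⟨h4, h2⟩)
    · exact two c i e2 rfl hmci (Or.inr ⟨h4, h1⟩)
  · exact two i j rfl e1.symm hmij (Or.inr ⟨h1, h2⟩)

end Pool.Agent.EC4
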