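import Pool.Agent.Lib.MP_ec4eff_co.R5.Coo
import Pool.Agent.Lib.MP_ec4eff_co.R5.Kelly

/-!
# There is no configuration `(20_4, 16_5)` (project R5)

The 20 points give `20 * 6 = 120` pairs of lines through a point, so any two of the 16 lines meet in
one of the points, and this point is on four lines.  Choose a point which is on none of the lines and a
line through it which contains none of the points as vertical point at infinity and as line at
infinity, and use `kelly`.
-/

set_option autoImplicit false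

namespace Pool.Agent.EC4

theorem common_unique {l l' : Ln} (h : l ≠ l') {p q : Pt} (h1 : Inc p l) (h2 : Inc p l')
    (h3 : Inc q l) (h4 : Inc q l') : p = q := by
  obtain ⟨pt, pi, hc⟩ := exists_coo p l h1
  rcases hc.lines l' with rfl | ⟨x0, hv⟩ | ⟨m, b, hw⟩
  · exact absurd rfl h
  · rcases hc.all q with rfl | ⟨s, rfl⟩ | ⟨x, y, rfl⟩
    · rfl
    · exact absurd h4 (hv.2.1 s)
    · exact absurd h3 (hc.inf.2.2 x y)
  · exact absurd h2 hw.1

theorem ln_ne_top (l : Ln) : l.1 ≠ ⊤ := by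
  intro h
  have h2 := l.2
  rw [h, finrank_top, Module.finrank_fin_fun] at h2
  omega

theorem exists_outside (s : Finset (Submodule ℝ (Fin 3 → ℝ))) (hs : ⊤ ∉ s) :
    ∃ z : Fin 3 → ℝ, ∀ W ∈ s, z ∉ W := by
  have h := Subspace.biUnion_ne_univ_of_top_notMem hs
  rw [Set.ne_univ_iff_exists_notMem] at h
  obtain ⟨z, hz⟩ := h
  refine ⟨z, fun W hW hzW => hz ?_⟩
  simp only [Set.mem_iUnion]
  exact ⟨W, hW, hzW⟩

theorem exists_free_point {L : Set Ln} (hL : L.Finite) (hne : L.Nonempty) :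
    ∃ p0 : Pt, ∀ l ∈ L, ¬ Inc p0 l := by
  classical
  obtain ⟨z, hz⟩ := exists_outside (hL.toFinset.image fun l => l.1) (by
    intro h
    obtain ⟨l, -, h⟩ := Finset.mem_image.1 h
    exact ln_ne_top l h)
  have hz' : ∀ l ∈ L, z ∉ l.1 := fun l hl =>
    hz l.1 (Finset.mem_image.2 ⟨l, (hL.mem_toFinset).2 hl, rfl⟩)
  have hz0 : z ≠ 0 := by
    obtain ⟨l, hl⟩ := hne
    intro h
    exact hz' l hl (by rw [h]; exact l.1.zero_mem)
  exact ⟨Projectivization.mk ℝ z hz0, fun l hl h => hz' l hl ((inc_mk z hz0 l).1 h)⟩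

theorem finrank_pair_le (z v : Fin 3 → ℝ) :
    Module.finrank ℝ (Submodule.span ℝ {z, v}) ≤ 2 := by
  classical
  have h := finrank_span_finset_le_card (R := ℝ) (({z, v} : Finset (Fin 3 → ℝ)))
  have h2 : (({z, v} : Finset (Fin 3 → ℝ))).card ≤ 2 := Finset.card_le_two
  rw [Finset.coe_insert, Finset.coe_singleton] at h
  exact h.trans h2

theorem pair_ne_top (z v : Fin 3 → ℝ) : Submodule.span ℝ {z, v} ≠ ⊤ := by
  intro h
  have h2 := finrank_pair_le z v
  rw [h, finrank_top, Module.finrank_fin_fun] at h2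
  omega

theorem exists_free_line {P : Set Pt} (hP : P.Finite) {p0 : Pt} (h0 : p0 ∉ P) :
    ∃ l0 : Ln, Inc p0 l0 ∧ ∀ p ∈ P, ¬ Inc p l0 := by
  classical
  obtain ⟨w, hw⟩ := exists_outside (insert (Submodule.span ℝ {p0.rep, p0.rep})
    (hP.toFinset.image fun p => Submodule.span ℝ {p0.rep, p.rep})) (by
    intro h
    rcases Finset.mem_insert.1 h with h | h
    · exact pair_ne_top _ _ h.symm
    · obtain ⟨p, -, h⟩ := Finset.mem_image.1 h
      exact pair_ne_top _ _ h)
  have hw0 : w ∉ Submodule.span ℝ {p0.rep} := by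
    have := hw _ (Finset.mem_insert_self _ _)
    rwa [Set.pair_eq_singleton] at this
  have hwp : ∀ p ∈ P, w ∉ Submodule.span ℝ {p0.rep, p.rep} := fun p hp =>
    hw _ (Finset.mem_insert_of_mem (Finset.mem_image.2 ⟨p, (hP.mem_toFinset).2 hp, rfl⟩))
  have hli : LinearIndependent ℝ ![p0.rep, w] := by
    rw [LinearIndependent.pair_iff]
    intro s t hst
    have ht : t = 0 := by
      by_contra ht
      apply hw0
      rw [Submodule.mem_span_singleton]
      refine ⟨-(t⁻¹ * s), ?_⟩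
      have h1 : t • w = -(s • p0.rep) := eq_neg_of_add_eq_zero_right hst
      have h2 : w = t⁻¹ • (t • w) := by rw [smul_smul, inv_mul_cancel₀ ht, one_smul]
      rw [h2, h1, smul_neg, smul_smul, neg_smul]
    rw [ht, zero_smul, add_zero] at hst
    exact ⟨(smul_eq_zero.1 hst).resolve_right p0.rep_nonzero, ht⟩
  have hfr : Module.finrank ℝ (Submodule.span ℝ {p0.rep, w}) = 2 := by
    have h := finrank_span_eq_card hli
    rw [Matrix.range_cons, Matrix.range_cons, Matrix.range_empty, Set.union_empty,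
      Set.singleton_union] at h
    rw [h]
    simp
  refine ⟨⟨Submodule.span ℝ {p0.rep, w}, hfr⟩, ?_, ?_⟩
  · have h := inc_mk p0.rep p0.rep_nonzero ⟨Submodule.span ℝ {p0.rep, w}, hfr⟩
    rw [p0.mk_rep] at h
    exact h.2 (Submodule.subset_span (by simp))
  · intro p hp h
    have h' := inc_mk p.rep p.rep_nonzero ⟨Submodule.span ℝ {p0.rep, w}, hfr⟩
    rw [p.mk_rep] at h'
    have h1 := h'.1 h
    simp only at h1
    obtain ⟨s, t, hst⟩ := Submodule.mem_span_pair.1 h1
    by_cases ht : t = 0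
    · apply h0
      rw [ht, zero_smul, add_zero] at hst
      have hs : s ≠ 0 := by
        intro hs
        rw [hs, zero_smul] at hst
        exact p.rep_nonzero hst.symm
      have : p0 = p := by
        rw [← p0.mk_rep, ← p.mk_rep, Projectivization.mk_eq_mk_iff' ℝ _ _ p0.rep_nonzero
          p.rep_nonzero]
        refine ⟨s⁻¹, ?_⟩
        rw [← hst, smul_smul, inv_mul_cancel₀ hs, one_smul]
      rw [this]
      exact hp
    · apply hwp p hp
      rw [Submodule.mem_span_pair]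
      refine ⟨-(t⁻¹ * s), t⁻¹, ?_⟩
      rw [← hst, smul_add, smul_smul, smul_smul, inv_mul_cancel₀ ht, one_smul, neg_smul]
      abel

/-- any two lines of a configuration `(20_4, 16_5)` meet in a point of it -/
theorem four_pairs {P : Set Pt} {L : Set Ln} (h : IsConfig 4 P L) {l l' : Ln} (hl : l ∈ L)
    (hl' : l' ∈ L) (hne : l ≠ l') : ∃ p ∈ P, Inc p l ∧ Inc p l' := by
  classical
  obtain ⟨hP, hL, cP, cL, h4, h5⟩ := h
  set Pf := hP.toFinset with hPf
  set Lf := hL.toFinset with hLf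
  set F : Pt → Finset (Ln × Ln) := fun p => (Lf.filter fun l => Inc p l).offDiag with hF
  have c1 : ∀ p ∈ Pf, (Lf.filter fun l => Inc p l).card = 4 := by
    intro p hp
    have := h4 p ((hP.mem_toFinset).1 hp)
    rw [← this, ← Set.ncard_coe_finset]
    congr 1
    ext l
    simp [hLf]
  have hdis : ∀ p ∈ Pf, ∀ q ∈ Pf, p ≠ q → Disjoint (F p) (F q) := by
    intro p _ q _ hpq
    rw [Finset.disjoint_left]
    rintro ⟨a, b⟩ ha hb
    simp only [hF, Finset.mem_offDiag, Finset.mem_filter] at ha hb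
    exact hpq (common_unique ha.2.2 ha.1.2 ha.2.1.2 hb.1.2 hb.2.1.2)
  have hsub : Pf.biUnion F ⊆ Lf.offDiag := by
    intro x hx
    obtain ⟨p, -, hx⟩ := Finset.mem_biUnion.1 hx
    simp only [hF, Finset.mem_offDiag, Finset.mem_filter] at hx
    exact Finset.mem_offDiag.2 ⟨hx.1.1, hx.2.1.1, hx.2.2⟩
  have hcard : (Pf.biUnion F).card = 240 := by
    rw [Finset.card_biUnion hdis, Finset.sum_congr rfl (g := fun _ => 12), Finset.sum_const,
      ← Set.ncard_eq_toFinset_card P hP, cP]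
    · rfl
    · intro p hp
      rw [hF, Finset.offDiag_card, c1 p hp]
  have hcard' : Lf.offDiag.card = 240 := by
    rw [Finset.offDiag_card, ← Set.ncard_eq_toFinset_card L hL, cL]
  have heq := Finset.eq_of_subset_of_card_le hsub (by rw [hcard, hcard'])
  have hmem : (l, l') ∈ Lf.offDiag :=
    Finset.mem_offDiag.2 ⟨(hL.mem_toFinset).2 hl, (hL.mem_toFinset).2 hl', hne⟩
  rw [← heq] at hmem
  obtain ⟨p, hp, hx⟩ := Finset.mem_biUnion.1 hmem
  simp only [hF, Finset.mem_offDiag, Finset.mem_filter] at hx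
  exact ⟨p, (hP.mem_toFinset).1 hp, hx.1.2, hx.2.1.2⟩

theorem no_four : ¬ ∃ (P : Set Pt) (L : Set Ln), IsConfig 4 P L := by
  rintro ⟨P, L, h⟩
  have h' := h
  obtain ⟨hP, hL, cP, cL, h4, h5⟩ := h'
  have hLne : L.Nonempty := by
    rw [← Set.ncard_pos hL]
    omega
  obtain ⟨p0, hp0⟩ := exists_free_point hL hLne
  have hp0P : p0 ∉ P := by
    intro hp
    have h1 := h4 p0 hp
    have h2 : {l | l ∈ L ∧ Inc p0 l} = ∅ := by
      ext l
      simp only [Set.mem_ofPred_eq, Set.mem_empty_iff_false, iff_false, not_and]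
      exact hp0 l
    rw [h2, Set.ncard_empty] at h1
    omega
  obtain ⟨l0, hl0, hl0P⟩ := exists_free_line hP hp0P
  obtain ⟨pt, pi, hc⟩ := exists_coo p0 l0 hl0
  have hw : ∀ l : L, ∃ mb : ℝ × ℝ, Wire p0 pt pi l.1 mb.1 mb.2 := by
    intro l
    rcases hc.lines l.1 with h | ⟨x0, hv⟩ | ⟨m, b, hw⟩
    · exact absurd hl0 (h ▸ hp0 l.1 l.2)
    · exact absurd hv.1 (hp0 l.1 l.2)
    · exact ⟨(m, b), hw⟩
  choose mb hmb using hw
  -- a point of the configuration is affine
  have haff : ∀ p ∈ P, ∃ x y, p = pt x y := by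
    intro p hp
    rcases hc.all p with rfl | ⟨s, rfl⟩ | h
    · exact absurd hp hp0P
    · exact absurd (hc.inf.2.1 s) (hl0P _ hp)
    · exact h
  have : Finite L := hL
  have hcross : ∀ i j : L, i ≠ j → ∃ x y, pt x y ∈ P ∧ y = (mb i).1 * x + (mb i).2 ∧
      y = (mb j).1 * x + (mb j).2 := by
    intro i j hij
    obtain ⟨p, hp, h1, h2⟩ := four_pairs h i.2 j.2 (fun h => hij (Subtype.ext h))
    obtain ⟨x, y, rfl⟩ := haff p hp
    exact ⟨x, y, hp, ((hmb i).2.2 x y).1 h1, ((hmb j).2.2 x y).1 h2⟩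
  have hm : Function.Injective fun l : L => (mb l).1 := by
    intro i j hij
    by_contra hne
    obtain ⟨p, hp, h1, h2⟩ := four_pairs h i.2 j.2 (fun h => hne (Subtype.ext h))
    have h3 : Inc (pi (mb i).1) i.1 := ((hmb i).2.1 _).2 rfl
    have h4 : Inc (pi (mb i).1) j.1 := ((hmb j).2.1 _).2 hij
    have h5 := common_unique (fun h => hne (Subtype.ext h)) h1 h2 h3 h4
    exact hl0P p hp (h5 ▸ hc.inf.2.1 _)
  refine kelly (fun l : L => (mb l).1) (fun l => (mb l).2) hm ?_ ?_
  · intro i j hij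
    obtain ⟨x, y, hp, h1, h2⟩ := hcross i j hij
    have hcd := h4 _ hp
    have hex : ∃ c ∈ {l | l ∈ L ∧ Inc (pt x y) l}, c ∉ ({i.1, j.1} : Set Ln) := by
      by_contra hcon
      push Not at hcon
      have h6 := Set.ncard_le_ncard (s := {l | l ∈ L ∧ Inc (pt x y) l}) (t := {i.1, j.1}) hcon
        (Set.toFinite _)
      have h7 := Set.ncard_insert_le i.1 ({j.1} : Set Ln)
      rw [Set.ncard_singleton] at h7
      omega
    obtain ⟨c, ⟨hcL, hci⟩, hcn⟩ := hex
    simp only [Set.mem_insert_iff, Set.mem_singleton_iff, not_or] at hcn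
    refine ⟨⟨c, hcL⟩, x, fun h => hcn.1 (congrArg Subtype.val h),
      fun h => hcn.2 (congrArg Subtype.val h), ?_, ?_⟩
    · rw [← h1, ← h2]
    · rw [← h1]
      exact (((hmb ⟨c, hcL⟩).2.2 x y).1 hci).symm
  · obtain ⟨l, hl, l', hl', hne⟩ := (Set.one_lt_ncard hL).1 (by omega)
    obtain ⟨x, y, hp, h1, h2⟩ := hcross ⟨l, hl⟩ ⟨l', hl'⟩ (fun h => hne (congrArg Subtype.val h))
    have hcd := h4 _ hp
    have hex : ∃ k ∈ L, ¬ Inc (pt x y) k := by
      by_contra hcon
      push Not at hcon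
      have h6 : {l | l ∈ L ∧ Inc (pt x y) l} = L := by
        ext k
        exact ⟨fun h => h.1, fun h => ⟨h, hcon k h⟩⟩
      rw [h6, cL] at hcd
      omega
    obtain ⟨k, hk, hki⟩ := hex
    refine ⟨⟨l, hl⟩, ⟨l', hl'⟩, ⟨k, hk⟩, x, fun h => hne (congrArg Subtype.val h), ?_, ?_⟩
    · rw [← h1, ← h2]
    · rw [← h1]
      intro h
      exact hki (((hmb ⟨k, hk⟩).2.2 x y).2 h.symm)

end Pool.Agent.EC4
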