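import Pool.Agent.Lib.MP_ec4eff_co.R5.InfA

/-!
# The line at infinity (project R5)

Proof plan.  `start_inf`: as for a special abscissa.  The wires before the line at infinity are the
`ini0 i` in the order `0, ..., 15` (`S00 = (List.finRange 16).map fun i => ini0 i`), this order is
`N.Sorted`; the groups are those of `h = fun i => - N.m i` with the second key `N.b` (`groups`,
`groups_mem`, `all_rev`).  Before the line at infinity a wire has met only itself, so a block is pairwise
unmet; afterwards it has met the wires with the same slope, which is the relation `N.R ∅`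
(`he`: `e + 3 * q + 1 = (number of wires with the same slope) + 0 + 1`: a block with `k` wires which is
no configuration block gives `e = k`, `q = 0`; a configuration block has `3` wires by `N.ki3` and gives
`e = 0`, `q = 1`).  By induction on the list of the groups, with `Sp.cons`.  The blocks are
`N.blk s` for the slopes `s` of the groups, in decreasing order, which gives `N.TC t`.  `Good t`: by
`N.ni12` the blocks with `cfg = true` contain 12 wires (write the number 12 as a sum over the wires and
use `sum_groups`), each of them has 3, so there are 4; the other blocks contain `16 - 12 = 4` wires.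
`tc_unique`: two strictly decreasing lists with the same elements are equal.
-/

set_option autoImplicit false

namespace Pool.Agent.EC4

namespace NF

variable (N : NF)

variable {N}

theorem inf_nq {gs : List (List (Fin 16))} (h : ∀ B ∈ gs, N.InfBk B) (F : Fin 16 → ℤ)
    (hF : ∀ i, (N.Ki (N.m i) → F i = 1) ∧ (¬ N.Ki (N.m i) → F i = 0)) :
    (gs.map fun B => (B.map F).sum).sum =
      3 * (nq (gs.map fun B => (N.infCf B, B.length)) : ℤ) := by
  induction gs with
  | nil => rfl
  | cons B gs ih =>
    have hB := h B List.mem_cons_self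
    have h1 : nq ((B :: gs).map fun B => (N.infCf B, B.length)) =
        (if N.infCf B then 1 else 0) + nq (gs.map fun B => (N.infCf B, B.length)) := by
      unfold nq
      rw [List.map_cons, List.map_cons, List.sum_cons]
    rw [List.map_cons, List.sum_cons, h1, ih fun C hC => h C (List.mem_cons_of_mem _ hC)]
    cases hc : N.infCf B with
    | true =>
      have h2 : (B.map F).sum = (B.map F).length • (1 : ℤ) := by
        refine List.sum_eq_card_nsmul _ _ fun x hx => ?_
        obtain ⟨i, hi, rfl⟩ := List.mem_map.1 hx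
        refine (hF i).1 ?_
        rw [inf_bk_sl hB hi]
        exact (infCf_iff B).1 hc
      rw [h2, List.length_map, inf_bk_three hB hc]
      push_cast
      simp
      ring
    | false =>
      have h2 : (B.map F).sum = (B.map F).length • (0 : ℤ) := by
        refine List.sum_eq_card_nsmul _ _ fun x hx => ?_
        obtain ⟨i, hi, rfl⟩ := List.mem_map.1 hx
        refine (hF i).2 fun hk => ?_
        rw [inf_bk_sl hB hi, ← infCf_iff, hc] at hk
        exact absurd hk Bool.false_ne_true
      rw [h2, nsmul_zero]
      simp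

theorem inf_ne {gs : List (List (Fin 16))} (h : ∀ B ∈ gs, N.InfBk B) :
    (gs.map fun B => (B.map (fun _ => (1 : ℤ))).sum).sum =
      3 * (nq (gs.map fun B => (N.infCf B, B.length)) : ℤ) +
        (ne (gs.map fun B => (N.infCf B, B.length)) : ℤ) := by
  induction gs with
  | nil => rfl
  | cons B gs ih =>
    have hB := h B List.mem_cons_self
    have h1 : nq ((B :: gs).map fun B => (N.infCf B, B.length)) =
        (if N.infCf B then 1 else 0) + nq (gs.map fun B => (N.infCf B, B.length)) := by
      unfold nq
      rw [List.map_cons, List.map_cons, List.sum_cons]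
    have h1' : ne ((B :: gs).map fun B => (N.infCf B, B.length)) =
        (if N.infCf B then 0 else B.length) + ne (gs.map fun B => (N.infCf B, B.length)) := by
      unfold ne
      rw [List.map_cons, List.map_cons, List.sum_cons]
    have h2 : (B.map (fun _ => (1 : ℤ))).sum = (B.length : ℤ) := by
      simp
    rw [List.map_cons, List.sum_cons, h1, h1', h2,
      ih fun C hC => h C (List.mem_cons_of_mem _ hC)]
    cases hc : N.infCf B with
    | true =>
      rw [inf_bk_three hB hc]
      simp
      ring
    | false =>
      simp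
      ring

theorem inf_pb {gs : List (List (Fin 16))} (h : ∀ B ∈ gs, N.InfBk B) (F : Fin 16 → ℤ)
    (hF : ∀ i, (N.Ki (N.m i) → F i = 0) ∧
      (¬ N.Ki (N.m i) → F i = (({j | N.m j = N.m i}.ncard : ℤ) - 1))) :
    (gs.map fun B => (B.map F).sum).sum =
      2 * (pbn (gs.map fun B => (N.infCf B, B.length)) : ℤ) := by
  induction gs with
  | nil => rfl
  | cons B gs ih =>
    have hB := h B List.mem_cons_self
    have h1 : pbn ((B :: gs).map fun B => (N.infCf B, B.length)) =
        (if N.infCf B then 0 else B.length * (B.length - 1) / 2) +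
          pbn (gs.map fun B => (N.infCf B, B.length)) := by
      unfold pbn
      rw [List.map_cons, List.map_cons, List.sum_cons]
    rw [List.map_cons, List.sum_cons, h1, ih fun C hC => h C (List.mem_cons_of_mem _ hC)]
    cases hc : N.infCf B with
    | true =>
      have h2 : (B.map F).sum = (B.map F).length • (0 : ℤ) := by
        refine List.sum_eq_card_nsmul _ _ fun x hx => ?_
        obtain ⟨i, hi, rfl⟩ := List.mem_map.1 hx
        refine (hF i).1 ?_
        rw [inf_bk_sl hB hi]
        exact (infCf_iff B).1 hc
      rw [h2, nsmul_zero]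
      simp
    | false =>
      have h2 : (B.map F).sum = (B.map F).length • ((B.length : ℤ) - 1) := by
        refine List.sum_eq_card_nsmul _ _ fun x hx => ?_
        obtain ⟨i, hi, rfl⟩ := List.mem_map.1 hx
        rw [(hF i).2 fun hk => ?_, inf_bk_len' hB hi]
        rw [inf_bk_sl hB hi, ← infCf_iff, hc] at hk
        exact absurd hk Bool.false_ne_true
      have h3 : 2 * (B.length * (B.length - 1) / 2) = B.length * (B.length - 1) :=
        Nat.mul_div_cancel' (Nat.even_mul_pred_self _).two_dvd
      have h4 : ((B.length * (B.length - 1) : ℕ) : ℤ) = (B.length : ℤ) * ((B.length : ℤ) - 1) := by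
        have h5 : 1 ≤ B.length := List.length_pos_iff.2 hB.1
        rw [Nat.cast_mul, Nat.cast_sub h5, Nat.cast_one]
      have h6 : (2 : ℤ) * ((B.length * (B.length - 1) / 2 : ℕ) : ℤ) =
          (B.length : ℤ) * ((B.length : ℤ) - 1) := by
        rw [← h4]
        exact_mod_cast h3
      rw [h2, List.length_map, nsmul_eq_mul, if_neg Bool.false_ne_true, Nat.cast_add, mul_add,
        h6]

variable (N)

theorem start_inf (hs : N.Sorted) :
    ∃ (l : List (Fin 16)) (S : List W) (t : List (Bool × ℕ)), All l ∧
      l.Pairwise (fun i j => N.m j < N.m i ∨ N.m i = N.m j ∧ N.b i < N.b j) ∧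
      List.Forall₂ (N.R ∅) l S ∧ Sp S00 t S ∧ Good t ∧ N.TC t ∧ 2 * (pbn t : ℤ) = N.sigi := by
  classical
  have hA0 : All (List.finRange 16) := ⟨List.nodup_finRange 16, fun i => List.mem_finRange i⟩
  obtain ⟨gs, hfl, hgB, hgP, hrev⟩ := groups (fun i => - N.m i) N.b (List.finRange 16)
    ((List.pairwise_lt_finRange 16).imp fun {i j} hij => by
      rcases hs i j hij with h | ⟨h, h'⟩
      · exact Or.inl (neg_lt_neg h)
      · exact Or.inr ⟨congrArg Neg.neg h, h'⟩)
  have hA : All gs.flatten := by
    rw [hfl]
    exact hA0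
  have hmem := groups_mem (fun i => - N.m i) gs hA hgB hgP
  have hBk : ∀ B ∈ gs, N.InfBk B := by
    intro B hB
    refine ⟨(hgB B hB).1, (hmem B hB).1, fun i hi j => ?_⟩
    rw [(hmem B hB).2 i hi j]
    exact neg_inj
  have h3 : ∑ i : Fin 16, (if N.Ki (N.m i) then (1 : ℤ) else 0) = 12 := by
    rw [Finset.sum_boole]
    have h4 := N.ni12
    rw [Set.ncard_eq_toFinset_card', Set.toFinset_ofPred] at h4
    rw [h4]
    rfl
  have hq := inf_nq hBk (fun i => if N.Ki (N.m i) then (1 : ℤ) else 0)
    (fun i => ⟨fun h => if_pos h, fun h => if_neg h⟩)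
  rw [← sum_groups gs hA, h3] at hq
  have he := inf_ne (N := N) hBk
  rw [← sum_groups gs hA (fun _ => (1 : ℤ)), Finset.sum_const, Finset.card_univ,
    Fintype.card_fin, nsmul_eq_mul, mul_one] at he
  have hp := inf_pb hBk (fun i => if N.Ki (N.m i) then (0 : ℤ) else
    (({j | N.m j = N.m i}.ncard : ℤ) - 1)) (fun i => ⟨fun h => if_pos h, fun h => if_neg h⟩)
  rw [← sum_groups gs hA] at hp
  refine ⟨(gs.map List.reverse).flatten, (gs.map fun B => out (N.infCf B) (B.map infW)).flatten,
    gs.map fun B => (N.infCf B, B.length), all_rev gs hA, ?_, inf_F2 hBk, ?_, ?_, ?_, ?_⟩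
  · refine hrev.imp fun {i j} hij => ?_
    rcases hij with h | ⟨h, h'⟩
    · exact Or.inl (neg_lt_neg_iff.1 h)
    · exact Or.inr ⟨neg_inj.1 h, h'⟩
  · rw [inf_S00, ← hfl]
    exact inf_Sp hBk
  · constructor
    · omega
    · push_cast at he
      omega
  · refine ⟨gs.map N.infSl, ?_, fun s => ?_, ?_⟩
    · rw [List.pairwise_map]
      refine hgP.imp_of_mem fun {B C} hB hC hBC => ?_
      obtain ⟨i, hi⟩ := inf_bk_ex (hBk B hB)
      obtain ⟨j, hj⟩ := inf_bk_ex (hBk C hC)
      rw [← inf_bk_sl (hBk B hB) hi, ← inf_bk_sl (hBk C hC) hj]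
      exact neg_lt_neg_iff.1 (hBC i hi j hj)
    · constructor
      · intro h
        obtain ⟨B, hB, rfl⟩ := List.mem_map.1 h
        obtain ⟨i, hi⟩ := inf_bk_ex (hBk B hB)
        exact ⟨i, inf_bk_sl (hBk B hB) hi⟩
      · rintro ⟨i, rfl⟩
        obtain ⟨B, hB, hi⟩ := List.mem_flatten.1 (hA.2 i)
        exact List.mem_map.2 ⟨B, hB, (inf_bk_sl (hBk B hB) hi).symm⟩
    · rw [List.map_map]
      refine List.map_congr_left fun B hB => ?_
      exact (inf_bk_blk (hBk B hB)).symm
  · rw [← hp]
    unfold sigi
    refine Finset.sum_congr rfl fun i _ => ?_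
    by_cases h : N.Ki (N.m i)
    · exact (if_pos h).trans (if_pos h).symm
    · exact (if_neg h).trans (if_neg h).symm

theorem tc_unique {t t' : List (Bool × ℕ)} (h : N.TC t) (h' : N.TC t') : t = t' := by
  obtain ⟨ss, hp, hm, rfl⟩ := h
  obtain ⟨ss', hp', hm', rfl⟩ := h'
  have hn : ∀ l : List ℝ, l.Pairwise (fun a b => b < a) → l.Nodup := fun l hl =>
    hl.imp fun {a b} hab => ne_of_gt hab
  have hperm : ss.Perm ss' := (List.perm_ext_iff_of_nodup (hn ss hp) (hn ss' hp')).2 fun a => by
    rw [hm, hm']
  have heq : ss = ss' := List.Perm.eq_of_pairwise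
    (fun a b _ _ hab hba => absurd hab (lt_asymm hba)) hp hp' hperm
  rw [heq]

end NF

end Pool.Agent.EC4
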