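import Pool.Agent.Lib.MP_ec4eff_co.R5.MonoA

/-!
# Simple facts on moves (project R5)

Proof plan.  `Mv.mk` rewrites a factor `B` of the list by `inn cfg B`, which has the same length and the
same own bits in the reversed order; masks, `q` and `e` only grow.  `small`: a block which is not a
configuration block adds `B.length - 1` to the weight `e` of its wires, and `e ≤ 4` in the end.
`mono`: `nxs S = nx (gl S)` is 1 plus the number of wires with the status `false` (the last wire has
always the status `false`).  For the list `l ++ (B ++ r)` the move turns the `k - 1` inner gaps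
of `B` (status `true` since `B` is pairwise unmet) into `false` (the masks of the new block contain the
own bits of the block, which are not zero), and it changes at most the two gaps between `l` and `B`
and between `B` and `r`; so `nxs S' ≥ nxs S + (k - 1) - 2 + (number of missing end gaps)`.  For a
configuration block `k = 4`, `nxs S' ≥ nxs S + 1` and `bal = -2`; otherwise `nxs S' ≥ nxs S + k - 3` and
`bal = k (k - 1)`, `k ≥ 2`.
-/

set_option autoImplicit false

namespace Pool.Agent.EC4

/-! ### the moves -/

theorem Mv.len {S S' : List W} {m : Mo} (h : Mv S m S') : S'.length = S.length := by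
  cases h with
  | mk l B r cfg hB h2 h4 =>
    rw [List.length_append, List.length_append, List.length_append, List.length_append, ma_inn_length]

theorem Mv.two {S S' : List W} {m : Mo} (h : Mv S m S') : 2 ≤ m.k := by
  cases h with
  | mk l B r cfg hB h2 h4 => exact h2

theorem Mv.le {S S' : List W} {m : Mo} (h : Mv S m S') : m.i + m.k ≤ S.length := by
  cases h with
  | mk l B r cfg hB h2 h4 =>
    rw [List.length_append, List.length_append]
    show l.length + B.length ≤ _
    omega

theorem Mv.nz {S S' : List W} {m : Mo} (h : Mv S m S') (hz : Nz S) : Nz S' := by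
  cases h with
  | mk l B r cfg hB h2 h4 =>
    intro w hw
    rw [List.mem_append, List.mem_append] at hw
    rcases hw with hw | hw | hw
    · exact hz w (List.mem_append_left _ hw)
    · obtain ⟨x, hx, rfl⟩ := ma_of_inn hw
      exact hz x (List.mem_append_right _ (List.mem_append_left _ hx))
    · exact hz w (List.mem_append_right _ (List.mem_append_right _ hw))

theorem ma_upd_q (cfg : Bool) (M k : ℕ) (w : W) : w.q ≤ (upd cfg M k w).q := by
  cases cfg with
  | false => exact le_refl _
  | true => exact Nat.le_succ _

theorem ma_upd_e (cfg : Bool) (M k : ℕ) (w : W) : w.e ≤ (upd cfg M k w).e := by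
  cases cfg with
  | false => exact Nat.le_add_right _ _
  | true => exact le_refl _

theorem Mv.cap {S S' : List W} {m : Mo} (h : Mv S m S') (hc : Cap S') : Cap S := by
  cases h with
  | mk l B r cfg hB h2 h4 =>
    intro w hw
    rw [List.mem_append, List.mem_append] at hw
    rcases hw with hw | hw | hw
    · exact hc w (List.mem_append_left _ hw)
    · have h1 := hc _ (List.mem_append_right l (List.mem_append_left r (ma_to_inn (cfg := cfg) hw)))
      exact ⟨le_trans (ma_upd_q cfg _ _ w) h1.1, le_trans (ma_upd_e cfg _ _ w) h1.2⟩
    · exact hc w (List.mem_append_right _ (List.mem_append_right _ hw))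

theorem Mv.small {S S' : List W} {m : Mo} (h : Mv S m S') (hc : Cap S') : m.k ≤ 5 := by
  cases h with
  | mk l B r cfg hB h2 h4 =>
    show B.length ≤ 5
    cases cfg with
    | true =>
      rw [h4 rfl]
      omega
    | false =>
      cases B with
      | nil => exact Nat.zero_le _
      | cons a B =>
        have h1 := hc _ (List.mem_append_right l (List.mem_append_left r
          (ma_to_inn (cfg := false) (List.mem_cons_self (a := a) (l := B)))))
        have h3 : a.e + ((a :: B).length - 1) ≤ 4 := h1.2
        omega

theorem Mv.mono {S S' : List W} {m : Mo} (h : Mv S m S') (hz : Nz S) :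
    (2 * nxs S : ℤ) ≤ 2 * nxs S' + m.bal := by
  cases h with
  | mk l B r cfg hB h2 h4 =>
    have hz' : Nz B := fun w hw => hz w (List.mem_append_right _ (List.mem_append_left _ hw))
    have hn1 : l ++ (B ++ r) ≠ [] := by
      intro h0
      have h1 := List.append_eq_nil_iff.mp (List.append_eq_nil_iff.mp h0).2
      rw [h1.1] at h2
      exact absurd h2 (by decide)
    have hn2 : l ++ (inn cfg B ++ r) ≠ [] := by
      intro h0
      have h1 := List.append_eq_nil_iff.mp (List.append_eq_nil_iff.mp h0).2
      have h3 := ma_inn_length cfg B
      rw [h1.1, List.length_nil] at h3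
      omega
    rw [ma_nxs_eq' _ hn1, ma_nxs_eq' _ hn2]
    have e1 := mar_app_le l (B ++ r)
    have e2 := mar_app_le B r
    have e3 := le_mar_app l (inn cfg B ++ r)
    have e4 := le_mar_app (inn cfg B) r
    have e5 := mar_unmet B hB
    have e6 := mar_inn cfg B hz'
    have key : mar (l ++ (B ++ r)) + B.length ≤ mar (l ++ (inn cfg B ++ r)) + 3 := by omega
    cases cfg with
    | true =>
      have hb : (⟨l.length, B.length, true⟩ : Mo).bal = -2 := rfl
      rw [hb]
      have h5 := h4 rfl
      rw [h5] at key
      omega
    | false =>
      have hb : (⟨l.length, B.length, false⟩ : Mo).bal = (B.length : ℤ) * (B.length - 1) := rfl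
      rw [hb]
      have h6 : (2 : ℤ) ≤ (B.length : ℤ) := by exact_mod_cast h2
      have h7 : (6 : ℤ) - 2 * (B.length : ℤ) ≤ (B.length : ℤ) * (B.length - 1) := by nlinarith
      have h8 : (mar (l ++ (B ++ r)) : ℤ) + B.length ≤ mar (l ++ (inn false B ++ r)) + 3 := by
        exact_mod_cast key
      push_cast
      linarith

theorem Ch.len {S S' : List W} {ms : List Mo} (h : Ch S ms S') : S'.length = S.length := by
  induction h with
  | nil S => rfl
  | cons h h' ih => rw [ih, h.len]

theorem Ch.nz {S S' : List W} {ms : List Mo} (h : Ch S ms S') (hz : Nz S) : Nz S' := by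
  induction h with
  | nil S => exact hz
  | cons h h' ih => exact ih (h.nz hz)

theorem Ch.cap {S S' : List W} {ms : List Mo} (h : Ch S ms S') (hc : Cap S') : Cap S := by
  induction h with
  | nil S => exact hc
  | cons h h' ih => exact h.cap (ih hc)

theorem Ch.small {S S' : List W} {ms : List Mo} (h : Ch S ms S') (hc : Cap S') :
    ∀ m ∈ ms, m.k ≤ 5 := by
  induction h with
  | nil S =>
    intro m hm
    exact absurd hm List.not_mem_nil
  | cons h h' ih =>
    intro m hm
    rcases List.mem_cons.mp hm with h1 | h1
    · rw [h1]
      exact h.small (h'.cap hc)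
    · exact ih hc m h1

theorem Ch.mono {S S' : List W} {ms : List Mo} (h : Ch S ms S') (hz : Nz S) :
    (2 * nxs S : ℤ) ≤ 2 * nxs S' + bal ms := by
  induction h with
  | nil S =>
    have h0 : bal [] = 0 := rfl
    rw [h0, add_zero]
  | @cons S S' S'' m ms h h' ih =>
    have h0 : bal (m :: ms) = m.bal + bal ms := by
      unfold bal
      rw [List.map_cons, List.sum_cons]
    have h1 := h.mono hz
    have h2 := ih (h.nz hz)
    rw [h0]
    linarith

theorem nxs_le (S : List W) : nxs S ≤ S.length + 1 := by
  induction S with
  | nil => exact le_refl 1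
  | cons a r ih =>
    cases r with
    | nil => exact le_refl 2
    | cons b r =>
      rw [ma_nxs_cons, List.length_cons]
      have := maj_le a b
      omega

end Pool.Agent.EC4
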