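import Pool.Agent.Lib.MP_ec4eff_co.R5.Defs

/-!
# Numbers of a special line (project R5)

Proof plan.  `nine`, `ten`: `nxs S = nx (gl S)` is 1 plus the number of wires with the status `false`; the
last wire has the status `false`.  Before the special line the statuses inside a block are `true`
(`W.unmet`), so there are at most as many wires with status `false` as blocks, and there are at most 8
blocks (`Good`: 4 configuration blocks and at most 4 others since they have together 4 wires).  After the
special line the statuses inside a block are `false` (the mask contains the own bits, which are not zero);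
so at least `2 + (sum of (size - 1)) = 2 + 16 - (number of blocks)`, that is `10`.  For the induction on
`Sp` use `nxs S ≤ 1 + t.length` and `1 + (sum of (size - 1)) + (if t = [] then 0 else 1) ≤ nxs S'`.
-/

set_option autoImplicit false

namespace Pool.Agent.EC4

/-! ### auxiliary lemmas -/

theorem SpN_nil : nxs [] = 1 := rfl

theorem SpN_one (a : W) : nxs [a] = 2 := rfl

theorem SpN_two_unmet (a b : W) (r : List W) (h : Nat.land a.c b.b = 0) :
    nxs (a :: b :: r) = nxs (b :: r) := by
  have h1 : Nat.beq (Nat.land a.c b.b) 0 = true := by rw [h]; rfl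
  have h2 : nxs (a :: b :: r) = Bool.rec (Nat.succ (nxs (b :: r))) (nxs (b :: r))
      (Nat.beq (Nat.land a.c b.b) 0) := rfl
  rw [h2, h1]

theorem SpN_two_met (a b : W) (r : List W) (h : Nat.land a.c b.b ≠ 0) :
    nxs (a :: b :: r) = nxs (b :: r) + 1 := by
  have h1 : Nat.beq (Nat.land a.c b.b) 0 = false := by
    cases hb : Nat.beq (Nat.land a.c b.b) 0 with
    | false => rfl
    | true => exact absurd (Nat.eq_of_beq_eq_true hb) h
  have h2 : nxs (a :: b :: r) = Bool.rec (Nat.succ (nxs (b :: r))) (nxs (b :: r))
      (Nat.beq (Nat.land a.c b.b) 0) := rfl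
  rw [h2, h1]

theorem SpN_cons_le (a : W) (r : List W) : nxs (a :: r) ≤ nxs r + 1 := by
  cases r with
  | nil => rw [SpN_one, SpN_nil]
  | cons b r =>
    by_cases h : Nat.land a.c b.b = 0
    · rw [SpN_two_unmet a b r h]; omega
    · rw [SpN_two_met a b r h]

theorem SpN_le_cons (a : W) (r : List W) : nxs r ≤ nxs (a :: r) := by
  cases r with
  | nil => rw [SpN_one, SpN_nil]; omega
  | cons b r =>
    by_cases h : Nat.land a.c b.b = 0
    · rw [SpN_two_unmet a b r h]
    · rw [SpN_two_met a b r h]; omega

theorem SpN_block (B r : List W) (hB : B.Pairwise W.unmet) : nxs (B ++ r) ≤ nxs r + 1 := by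
  induction B with
  | nil => rw [List.nil_append]; omega
  | cons a B ih =>
    cases B with
    | nil => exact SpN_cons_le a r
    | cons b B =>
      have h1 : Nat.land a.c b.b = 0 :=
        (List.pairwise_cons.1 hB).1 b List.mem_cons_self
      have h2 := ih (List.pairwise_cons.1 hB).2
      change nxs (a :: b :: (B ++ r)) ≤ _
      rw [SpN_two_unmet a b _ h1]
      exact h2

theorem SpN_met (D r : List W) (hD : ∀ a ∈ D, ∀ b ∈ D, Nat.land a.c b.b ≠ 0) :
    nxs r + (D.length - 1) ≤ nxs (D ++ r) := by
  induction D with
  | nil => exact le_rfl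
  | cons a D ih =>
    cases D with
    | nil => exact SpN_le_cons a r
    | cons b D =>
      have h1 : Nat.land a.c b.b ≠ 0 :=
        hD a List.mem_cons_self b (List.mem_cons_of_mem _ List.mem_cons_self)
      have h2 := ih fun x hx y hy => hD x (List.mem_cons_of_mem _ hx) y (List.mem_cons_of_mem _ hy)
      change _ ≤ nxs (a :: b :: (D ++ r))
      rw [SpN_two_met a b _ h1]
      change _ ≤ nxs (b :: (D ++ r)) at h2
      simp only [List.length_cons] at h2 ⊢
      omega

theorem SpN_met_last (D : List W) (hD : ∀ a ∈ D, ∀ b ∈ D, Nat.land a.c b.b ≠ 0) (hn : D ≠ []) :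
    D.length + 1 ≤ nxs D := by
  induction D with
  | nil => exact absurd rfl hn
  | cons a D ih =>
    cases D with
    | nil => rw [SpN_one]; exact le_rfl
    | cons b D =>
      have h1 : Nat.land a.c b.b ≠ 0 :=
        hD a List.mem_cons_self b (List.mem_cons_of_mem _ List.mem_cons_self)
      have h2 := ih (fun x hx y hy => hD x (List.mem_cons_of_mem _ hx) y
        (List.mem_cons_of_mem _ hy)) (List.cons_ne_nil _ _)
      rw [SpN_two_met a b _ h1]
      simp only [List.length_cons] at h2 ⊢
      omega

theorem SpN_msk (B : List W) (w : W) (hw : w ∈ B) (i : ℕ) (h : w.b.testBit i = true) :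
    (msk B).testBit i = true := by
  induction B with
  | nil => exact absurd hw List.not_mem_nil
  | cons a B ih =>
    have h1 : msk (a :: B) = a.b ||| msk B := rfl
    rw [h1, Nat.testBit_or, Bool.or_eq_true]
    rcases List.mem_cons.1 hw with e | e
    · left; rw [← e]; exact h
    · right; exact ih e

theorem SpN_land (B : List W) (w : W) (hw : w ∈ B) (hz : w.b ≠ 0) (c : ℕ) :
    Nat.land (Nat.lor c (msk B)) w.b ≠ 0 := by
  intro h0
  obtain ⟨i, hi⟩ := Nat.exists_testBit_of_ne_zero hz
  have h1 : ((c ||| msk B) &&& w.b) = 0 := h0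
  have h2 : ((c ||| msk B) &&& w.b).testBit i = true := by
    rw [Nat.testBit_and, Nat.testBit_or, SpN_msk B w hw i hi, hi]
    simp
  rw [h1] at h2
  simp at h2

theorem SpN_mem_out {cfg : Bool} {B : List W} {w : W} (h : w ∈ out cfg B) :
    ∃ x ∈ B, w = upd cfg (msk B) B.length x := by
  unfold out at h
  rw [List.mem_reverse, List.mem_map] at h
  obtain ⟨x, hx, e⟩ := h
  exact ⟨x, hx, e.symm⟩

theorem SpN_out_met (cfg : Bool) (B : List W) (hz : ∀ w ∈ B, w.b ≠ 0) :
    ∀ a ∈ out cfg B, ∀ b ∈ out cfg B, Nat.land a.c b.b ≠ 0 := by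
  intro a ha b hb
  obtain ⟨x, hx, rfl⟩ := SpN_mem_out ha
  obtain ⟨y, hy, rfl⟩ := SpN_mem_out hb
  exact SpN_land B y hy (hz y hy) x.c

theorem SpN_out_len (cfg : Bool) (B : List W) : (out cfg B).length = B.length := by
  unfold out
  rw [List.length_reverse, List.length_map]

theorem SpN_count {S S' : List W} {t : List (Bool × ℕ)} (h : Sp S t S') :
    t.length ≤ nq t + ne t ∧ (t.map fun x => x.2 - 1).sum + t.length = 3 * nq t + ne t := by
  induction h with
  | nil => exact ⟨le_rfl, rfl⟩
  | @cons r r' t B cfg hB h1 h3 h ih =>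
    obtain ⟨i1, i2⟩ := ih
    cases cfg with
    | false =>
      have e1 : nq ((false, B.length) :: t) = 0 + nq t := rfl
      have e2 : ne ((false, B.length) :: t) = B.length + ne t := rfl
      have e3 : (List.map (fun x : Bool × ℕ => x.2 - 1) ((false, B.length) :: t)).sum =
        (B.length - 1) + (t.map fun x => x.2 - 1).sum := rfl
      rw [e1, e2, e3, List.length_cons]
      constructor <;> omega
    | true =>
      have h4 := h3 rfl
      have e1 : nq ((true, B.length) :: t) = 1 + nq t := rfl
      have e2 : ne ((true, B.length) :: t) = 0 + ne t := rfl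
      have e3 : (List.map (fun x : Bool × ℕ => x.2 - 1) ((true, B.length) :: t)).sum =
        (B.length - 1) + (t.map fun x => x.2 - 1).sum := rfl
      rw [e1, e2, e3, List.length_cons]
      constructor <;> omega

/-! ### the statements -/

theorem Sp.len {S S' : List W} {t : List (Bool × ℕ)} (h : Sp S t S') : S'.length = S.length := by
  induction h with
  | nil => rfl
  | @cons r r' t B cfg hB h1 h3 h ih =>
    rw [List.length_append, List.length_append, SpN_out_len, ih]

theorem Sp.nz {S S' : List W} {t : List (Bool × ℕ)} (h : Sp S t S') (hz : Nz S) : Nz S' := by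
  induction h with
  | nil => exact hz
  | @cons r r' t B cfg hB h1 h3 h ih =>
    intro w hw
    rcases List.mem_append.1 hw with e | e
    · obtain ⟨x, hx, rfl⟩ := SpN_mem_out e
      exact hz x (List.mem_append_left _ hx)
    · exact ih (fun x hx => hz x (List.mem_append_right _ hx)) w e

theorem Sp.cap {S S' : List W} {t : List (Bool × ℕ)} (h : Sp S t S') (hc : Cap S') : Cap S := by
  induction h with
  | nil => exact hc
  | @cons r r' t B cfg hB h1 h3 h ih =>
    intro w hw
    rcases List.mem_append.1 hw with e | e
    · have h5 : upd cfg (msk B) B.length w ∈ out cfg B := by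
        unfold out
        rw [List.mem_reverse, List.mem_map]
        exact ⟨w, e, rfl⟩
      have h6 := hc _ (List.mem_append_left _ h5)
      cases cfg with
      | false =>
        have h7 : w.q ≤ 5 ∧ w.e + B.length ≤ 4 := h6
        omega
      | true =>
        have h7 : w.q + 1 ≤ 5 ∧ w.e ≤ 4 := h6
        omega
    · exact ih (fun x hx => hc x (List.mem_append_right _ hx)) w e

theorem SpN_nine {S S' : List W} {t : List (Bool × ℕ)} (h : Sp S t S') :
    nxs S ≤ 1 + t.length := by
  induction h with
  | nil => exact le_rfl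
  | @cons r r' t B cfg hB h1 h3 h ih =>
    have h5 := SpN_block B r hB
    rw [List.length_cons]
    omega

theorem Sp.nine {S S' : List W} {t : List (Bool × ℕ)} (h : Sp S t S') (hg : Good t) :
    nxs S ≤ 9 := by
  have h1 := SpN_nine h
  have h2 := (SpN_count h).1
  rw [hg.1, hg.2] at h2
  omega

theorem SpN_ten {S S' : List W} {t : List (Bool × ℕ)} (h : Sp S t S') (hz : Nz S) :
    1 + (t.map fun x => x.2 - 1).sum + (if t = [] then 0 else 1) ≤ nxs S' := by
  induction h with
  | nil => exact le_rfl
  | @cons r r' t B cfg hB h1 h3 h ih =>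
    have hz1 : ∀ w ∈ B, w.b ≠ 0 := fun w hw => hz w (List.mem_append_left _ hw)
    have ih' := ih fun x hx => hz x (List.mem_append_right _ hx)
    have hm := SpN_out_met cfg B hz1
    rw [if_neg (List.cons_ne_nil _ _)]
    have e3 : (List.map (fun x : Bool × ℕ => x.2 - 1) ((cfg, B.length) :: t)).sum =
        (B.length - 1) + (t.map fun x => x.2 - 1).sum := rfl
    rw [e3]
    by_cases ht : t = []
    · subst ht
      have hr : r' = [] := by cases h; rfl
      subst hr
      have hn : out cfg B ≠ [] := by
        intro e
        have := SpN_out_len cfg B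
        rw [e] at this
        simp at this
        omega
      have h5 := SpN_met_last (out cfg B) hm hn
      rw [SpN_out_len] at h5
      rw [List.append_nil]
      have e4 : (List.map (fun x : Bool × ℕ => x.2 - 1) []).sum = 0 := rfl
      rw [e4]
      omega
    · rw [if_neg ht] at ih'
      have h5 := SpN_met (out cfg B) r' hm
      rw [SpN_out_len] at h5
      omega

theorem Sp.ten {S S' : List W} {t : List (Bool × ℕ)} (h : Sp S t S') (hg : Good t) (hz : Nz S) :
    10 ≤ nxs S' := by
  have h1 := SpN_ten h hz
  obtain ⟨h2, h3⟩ := SpN_count h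
  rw [hg.1, hg.2] at h2 h3
  have ht : t ≠ [] := by
    rintro rfl
    exact absurd hg.1 (by decide)
  rw [if_neg ht] at h1
  omega

theorem S00_len : S00.length = 16 := by
  unfold S00
  rw [List.length_map, List.length_range]

theorem S00_nz : Nz S00 := by
  intro w hw
  unfold S00 at hw
  rw [List.mem_map] at hw
  obtain ⟨i, _, rfl⟩ := hw
  exact pow_ne_zero i two_ne_zero

theorem fin5_cap {S : List W} (h : Fin5 S) : Cap S := by
  intro w hw
  obtain ⟨_, h2, h3⟩ := h w hw
  exact ⟨h2.le, h3.le⟩

end Pool.Agent.EC4
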