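import Pool.Agent.Lib.MP_ec4eff_co.R5.Upd

/-!
# A special abscissa (project R5)

Proof plan.  `groups` for `h = fun i => N.f i x` and the slopes; `groups_mem`, `all_rev`.  `special`: by
induction on the list of the groups, with `Sp.cons` and `NF.outer`; for a block `B` which is no
configuration block twice the number of pairs is `B.length * (B.length - 1)`, these are `B.length` wires
with `B.length - 1` in `N.sig` (`ncard_list`, `sum_groups`).  `Good t`: by `N.n12` the blocks with
`cfg = true` contain 12 wires (write the number 12 as a sum over the wires and use `sum_groups`), each of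
them has 3, so there are 4; the other blocks contain `16 - 12 = 4` wires.
`start_inf`: the same for the line at infinity: the wires are the `ini0 i` in the order `0, ..., 15`
(`N.Sorted`), the groups are those of `h = fun i => - N.m i` with the second key `N.b`; before the line
at infinity a wire has met only itself, afterwards it has met the wires with the same slope, which is the
relation `N.R ∅` (`he`: `e + 3 * q + 1 = (number of wires with the same slope) + 0 + 1`).  The blocks are
`N.blk s` for the slopes `s` of the groups, in decreasing order, which gives `N.TC t`.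
-/

set_option autoImplicit false

namespace Pool.Agent.EC4

/-- split a relation between lists -/
theorem Spe_split {α β : Type} {R : α → β → Prop} (a b : List α) (S : List β)
    (h : List.Forall₂ R (a ++ b) S) :
    ∃ S1 S2, S = S1 ++ S2 ∧ List.Forall₂ R a S1 ∧ List.Forall₂ R b S2 := by
  induction a generalizing S with
  | nil => exact ⟨[], S, rfl, List.Forall₂.nil, h⟩
  | cons x a ih =>
    cases h with
    | cons h1 h2 =>
      obtain ⟨S1, S2, rfl, h3, h4⟩ := ih _ h2
      exact ⟨_ :: S1, S2, rfl, List.Forall₂.cons h1 h3, h4⟩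

theorem Spe_append {α β : Type} {R : α → β → Prop} {a b : List α} {S T : List β}
    (h : List.Forall₂ R a S) (h' : List.Forall₂ R b T) : List.Forall₂ R (a ++ b) (S ++ T) := by
  induction h with
  | nil => exact h'
  | cons h1 _ ih => exact List.Forall₂.cons h1 ih

/-- the sum of a constant function over a list -/
theorem Spe_sum (B : List (Fin 16)) (F : Fin 16 → ℤ) (c : ℤ) (h : ∀ i ∈ B, F i = c) :
    (B.map F).sum = B.length * c := by
  induction B with
  | nil => simp
  | cons a B ih =>
    rw [List.map_cons, List.sum_cons, ih (fun i hi => h i (List.mem_cons_of_mem _ hi)),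
      h a List.mem_cons_self, List.length_cons]
    push_cast
    ring

open Classical in
/-- a count as a sum -/
theorem Spe_card (P : Fin 16 → Prop) :
    ∑ i : Fin 16, (if P i then (1 : ℤ) else 0) = ({i | P i}.ncard : ℤ) := by
  have e : {i | P i} = ((Finset.univ.filter P : Finset (Fin 16)) : Set (Fin 16)) := by
    ext i
    simp
  rw [e, Set.ncard_coe_finset, Finset.sum_boole]

theorem Spe_tri (k : ℕ) : 2 * ((k * (k - 1) / 2 : ℕ) : ℤ) = k * ((k : ℤ) - 1) := by
  have h1 : 2 * (k * (k - 1) / 2) = k * (k - 1) :=
    Nat.mul_div_cancel' (Nat.even_mul_pred_self k).two_dvd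
  have h2 : (2 * ((k * (k - 1) / 2 : ℕ) : ℤ)) = ((k * (k - 1) : ℕ) : ℤ) := by
    exact_mod_cast h1
  rw [h2]
  cases k with
  | zero => simp
  | succ n =>
    push_cast
    simp

namespace NF

variable (N : NF)

open Classical in
/-- the summand of `sig` -/
noncomputable def SpeG (x : ℝ) (i : Fin 16) : ℤ :=
  if N.K x (N.f i x) then 0 else (({j | N.f j x = N.f i x}.ncard : ℤ) - 1)

open Classical in
/-- the summand of the number of configuration wires -/
noncomputable def SpeK (x : ℝ) (i : Fin 16) : ℤ := if N.K x (N.f i x) then 1 else 0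

theorem Spe_sig (x : ℝ) : N.sig x = ∑ i : Fin 16, N.SpeG x i := rfl

theorem Spe_all (x : ℝ) (hx : N.spx x) (gs : List (List (Fin 16)))
    (hg : ∀ B ∈ gs, B ≠ [] ∧ B.Nodup ∧ ∀ i ∈ B, ∀ j, j ∈ B ↔ N.f j x = N.f i x)
    (S : List W) (hS : List.Forall₂ (N.R (Set.Iio x)) gs.flatten S) :
    ∃ (S' : List W) (t : List (Bool × ℕ)),
      List.Forall₂ (N.R (Set.Iic x)) (gs.map List.reverse).flatten S' ∧ Sp S t S' ∧
      (3 * nq t : ℤ) = (gs.map fun B => (B.map (N.SpeK x)).sum).sum ∧
      (ne t : ℤ) = (gs.map fun B => (B.map fun i => 1 - N.SpeK x i).sum).sum ∧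
      2 * (pbn t : ℤ) = (gs.map fun B => (B.map (N.SpeG x)).sum).sum := by
  classical
  induction gs generalizing S with
  | nil =>
    cases hS
    exact ⟨[], [], List.Forall₂.nil, Sp.nil, by simp [nq], by simp [ne], by simp [pbn]⟩
  | cons B gs ih =>
    rw [List.flatten_cons] at hS
    obtain ⟨S1, S2, rfl, h1, h2⟩ := Spe_split B gs.flatten S hS
    obtain ⟨hB, hn, hy⟩ := hg B List.mem_cons_self
    obtain ⟨cfg, hu, hc, hK, hR⟩ := N.outer x hx B S1 hB hn hy h1
    obtain ⟨T2, t2, hT2, hm2, e1, e2, e3⟩ :=
      ih (fun C hC => hg C (List.mem_cons_of_mem _ hC)) S2 h2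
    have hlen : S1.length = B.length := h1.length_eq.symm
    have hpos : 1 ≤ B.length := List.length_pos_iff.2 hB
    have hcard : ∀ i ∈ B, ({j | N.f j x = N.f i x}.ncard : ℤ) = B.length := by
      intro i hi
      rw [ncard_list B hn (fun j => N.f j x = N.f i x) (hy i hi)]
    refine ⟨out cfg S1 ++ T2, (cfg, S1.length) :: t2, ?_, ?_, ?_, ?_, ?_⟩
    · rw [List.map_cons, List.flatten_cons]
      exact Spe_append hR hT2
    · exact Sp.cons S1 cfg hu (by omega) (fun h => by rw [hlen]; exact hc h) hm2
    · rw [List.map_cons, List.sum_cons, ← e1]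
      cases cfg with
      | true =>
        have h3 : ∀ i ∈ B, N.SpeK x i = 1 := by
          intro i hi
          rw [SpeK, if_pos ((hK i hi).mp rfl)]
        rw [Spe_sum B _ _ h3, hc rfl]
        simp only [nq, List.map_cons, List.sum_cons, if_true]
        push_cast
        ring
      | false =>
        have h3 : ∀ i ∈ B, N.SpeK x i = 0 := by
          intro i hi
          rw [SpeK, if_neg]
          intro h5
          exact Bool.false_ne_true ((hK i hi).mpr h5)
        rw [Spe_sum B _ _ h3]
        simp [nq]
    · rw [List.map_cons, List.sum_cons, ← e2]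
      cases cfg with
      | true =>
        have h3 : ∀ i ∈ B, 1 - N.SpeK x i = 0 := by
          intro i hi
          rw [SpeK, if_pos ((hK i hi).mp rfl), sub_self]
        rw [Spe_sum B _ _ h3]
        simp [ne]
      | false =>
        have h3 : ∀ i ∈ B, 1 - N.SpeK x i = 1 := by
          intro i hi
          rw [SpeK, if_neg, sub_zero]
          intro h5
          exact Bool.false_ne_true ((hK i hi).mpr h5)
        rw [Spe_sum B _ _ h3, hlen]
        simp [ne]
    · rw [List.map_cons, List.sum_cons, ← e3]
      cases cfg with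
      | true =>
        have h3 : ∀ i ∈ B, N.SpeG x i = 0 := by
          intro i hi
          rw [SpeG, if_pos ((hK i hi).mp rfl)]
        rw [Spe_sum B _ _ h3]
        simp [pbn]
      | false =>
        have h3 : ∀ i ∈ B, N.SpeG x i = (B.length : ℤ) - 1 := by
          intro i hi
          rw [SpeG, if_neg, hcard i hi]
          intro h5
          exact Bool.false_ne_true ((hK i hi).mpr h5)
        rw [Spe_sum B _ _ h3, hlen, ← Spe_tri]
        simp only [pbn, List.map_cons, List.sum_cons, Bool.false_eq_true, if_false]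
        push_cast
        ring

theorem special (x : ℝ) (hx : N.spx x) (l : List (Fin 16)) (S : List W) (hl : All l)
    (ho : l.Pairwise (N.bef x)) (hS : List.Forall₂ (N.R (Set.Iio x)) l S) :
    ∃ (l' : List (Fin 16)) (S' : List W) (t : List (Bool × ℕ)), All l' ∧ l'.Pairwise (N.aft x) ∧
      List.Forall₂ (N.R (Set.Iic x)) l' S' ∧ Sp S t S' ∧ Good t ∧ 2 * (pbn t : ℤ) = N.sig x := by
  classical
  obtain ⟨gs, rfl, hg, hp, hr⟩ := groups (fun i => N.f i x) N.m l ho
  have hgm := groups_mem (fun i => N.f i x) gs hl hg hp
  obtain ⟨S', t, hS', hm, e1, e2, e3⟩ := N.Spe_all x hx gs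
    (fun B hB => ⟨(hg B hB).1, (hgm B hB).1, (hgm B hB).2⟩) S hS
  rw [← sum_groups gs hl] at e1 e2 e3
  have h12 : ∑ i : Fin 16, N.SpeK x i = 12 := by
    have h1 := N.n12 x hx
    have h2 := Spe_card (fun i => N.K x (N.f i x))
    have h3 : {i | N.K x (N.f i x)}.ncard = 12 := h1
    rw [h3] at h2
    exact h2
  have h4 : ∑ i : Fin 16, (1 - N.SpeK x i) = 4 := by
    rw [Finset.sum_sub_distrib, h12]
    simp
  rw [h12] at e1
  rw [h4] at e2
  refine ⟨(gs.map List.reverse).flatten, S', t, all_rev gs hl, hr, hS', hm, ⟨?_, ?_⟩, ?_⟩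
  · omega
  · omega
  · rw [e3, N.Spe_sig]

end NF

end Pool.Agent.EC4
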