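import Pool.Agent.Lib.MP_ec4eff_co.R5.Lune
import Pool.Agent.Lib.MP_ec4eff_co.R5.Spe
import Pool.Agent.Lib.MP_ec4eff_co.R5.Inf
import Pool.Agent.Lib.MP_ec4eff_co.R5.Mono
import Pool.Agent.Lib.MP_ec4eff_co.R5.SpN

/-!
# The whole sweep (project R5)

Proof plan.  Choose `a` below and `b` above all elements of `N.crit` (finite) and below `x1`, above `x3`.
The line at infinity (`start_inf`, `order_first`, `R_first`), the lune from `a` to `x1` (`lune`), the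
special abscissa `x1` (`special`), the lune from `x1` to `x2`, `special` at `x2`, the lune from `x2` to
`x3`, `special` at `x3`, the lune from `x3` to `b`, and `fin_last`.  The sums over `Set.Ioo a x1` and
`Set.Iio x1`, and those over `Set.Ioo x3 b` and `Set.Ioi x3` are equal (`del_zero`).  So
`N.C0 = 2 * (pbn t + bal m0 + pbn t1)` etc., and `c0 = pbn t + bal m0 + pbn t1 - 2` (`Int.toNat`).  This
number is not negative: by `Ch.mono` `2 * nxs S ≤ 2 * nxs E + bal m0`, and `10 ≤ nxs S` (`Sp.ten`),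
`nxs E ≤ 9` (`Sp.nine`); the same for the second and the third lune.  For the last lune use `h3`
(for the last lune the argument does not work directly; `h3` will be shown with the rotation).
-/

set_option autoImplicit false

namespace Pool.Agent.EC4

/-- the balance of a lune between two special lines -/
theorem Ful_bal {S0 S E S1 : List W} {t t1 : List (Bool × ℕ)} {ms : List Mo} (h0 : Sp S0 t S)
    (hc : Ch S ms E) (h1 : Sp E t1 S1) (hg : Good t) (hg1 : Good t1) (hz : Nz S0) :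
    2 ≤ (pbn t : ℤ) + bal ms + pbn t1 := by
  have e1 := h0.ten hg hz
  have e2 := h1.nine hg1
  have e3 := hc.mono (h0.nz hz)
  omega

namespace NF

variable (N : NF)

/-- the sum over an interval without the part outside all crossings -/
theorem Ful_sum (A B : Set ℝ) (h : ∀ x, ¬ N.spx x → x ∈ N.crit → (x ∈ A ↔ x ∈ B))
    (hA : ∀ x ∈ A, ¬ N.spx x) (hB : ∀ x ∈ B, ¬ N.spx x) :
    ∑ᶠ x ∈ A, N.del x = ∑ᶠ x ∈ B, N.del x := by
  refine finsum_mem_inter_support_eq' _ _ _ (fun x hx => ?_)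
  by_cases hs : N.spx x
  · exact ⟨fun h1 => absurd hs (hA x h1), fun h1 => absurd hs (hB x h1)⟩
  · refine h x hs ?_
    by_contra hc
    exact hx (N.del_zero hs hc)

/-- an abscissa below everything -/
theorem Ful_low : ∃ a : ℝ, a < N.x1 ∧ ∀ x, x ≤ a → x ∉ N.crit ∧ ¬ N.spx x := by
  obtain ⟨a0, ha0⟩ := N.crit_fin.bddBelow
  have h12 := N.h12
  have h23 := N.h23
  refine ⟨min a0 N.x1 - 1, by linarith [min_le_right a0 N.x1], fun x hx => ⟨fun hc => ?_, ?_⟩⟩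
  · have h1 : a0 ≤ x := ha0 hc
    linarith [min_le_left a0 N.x1]
  · have h2 := min_le_right a0 N.x1
    rintro (h | h | h) <;> linarith

/-- an abscissa above everything -/
theorem Ful_high : ∃ b : ℝ, N.x3 < b ∧ ∀ x, b ≤ x → x ∉ N.crit ∧ ¬ N.spx x := by
  obtain ⟨b0, hb0⟩ := N.crit_fin.bddAbove
  have h12 := N.h12
  have h23 := N.h23
  refine ⟨max b0 N.x3 + 1, by linarith [le_max_right b0 N.x3], fun x hx => ⟨fun hc => ?_, ?_⟩⟩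
  · have h1 : x ≤ b0 := hb0 hc
    linarith [le_max_left b0 N.x3]
  · have h2 := le_max_right b0 N.x3
    rintro (h | h | h) <;> linarith

/-- the whole sweep -/
theorem Ful_all (hs : N.Sorted) :
    ∃ (S0 E0 S1 E1 S2 E2 S3 E3 : List W) (m0 m1 m2 m3 : List Mo) (t t1 t2 t3 : List (Bool × ℕ)),
    N.TC t ∧
    Sp S00 t S0 ∧ Ch S0 m0 E0 ∧ Sp E0 t1 S1 ∧ Ch S1 m1 E1 ∧ Sp E1 t2 S2 ∧ Ch S2 m2 E2 ∧
    Sp E2 t3 S3 ∧ Ch S3 m3 E3 ∧ Fin5 E3 ∧ Good t ∧ Good t1 ∧ Good t2 ∧ Good t3 ∧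
    2 * ((pbn t : ℤ) + bal m0 + pbn t1) = N.C0 ∧ 2 * ((pbn t1 : ℤ) + bal m1 + pbn t2) = N.C1 ∧
    2 * ((pbn t2 : ℤ) + bal m2 + pbn t3) = N.C2 ∧ 2 * ((pbn t3 : ℤ) + bal m3 + pbn t) = N.C3 := by
  obtain ⟨a, ha1, ha⟩ := N.Ful_low
  obtain ⟨b, hbx, hb⟩ := N.Ful_high
  have h12 := N.h12
  have h23 := N.h23
  obtain ⟨l0, S0, t, hl0, ho0, hR0, hsp0, hg0, htc, hp0⟩ := N.start_inf hs
  obtain ⟨l0', E0, m0, hl0', ho0', hR0', hc0, hb0⟩ := N.lune ha1 (by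
    rintro x hx1 hx2 (h | h | h) <;> linarith) l0 S0 hl0
    (ho0.imp fun h => N.order_first (fun x hx => (ha x hx).1) h)
    (hR0.imp fun _ _ h => N.R_first ha h)
  obtain ⟨l1, S1, t1, hl1, ho1, hR1, hsp1, hg1, hp1⟩ := N.special N.x1 (Or.inl rfl) l0' E0 hl0'
    ho0' hR0'
  obtain ⟨l1', E1, m1, hl1', ho1', hR1', hc1, hb1⟩ := N.lune h12 (by
    rintro x hx1 hx2 (h | h | h) <;> linarith) l1 S1 hl1 ho1 hR1
  obtain ⟨l2, S2, t2, hl2, ho2, hR2, hsp2, hg2, hp2⟩ := N.special N.x2 (Or.inr (Or.inl rfl)) l1'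
    E1 hl1' ho1' hR1'
  obtain ⟨l2', E2, m2, hl2', ho2', hR2', hc2, hb2⟩ := N.lune h23 (by
    rintro x hx1 hx2 (h | h | h) <;> linarith) l2 S2 hl2 ho2 hR2
  obtain ⟨l3, S3, t3, hl3, ho3, hR3, hsp3, hg3, hp3⟩ := N.special N.x3 (Or.inr (Or.inr rfl)) l2'
    E2 hl2' ho2' hR2'
  obtain ⟨l3', E3, m3, hl3', ho3', hR3', hc3, hb3⟩ := N.lune hbx (by
    rintro x hx1 hx2 (h | h | h) <;> linarith) l3 S3 hl3 ho3 hR3
  have hfin := N.fin_last hb hR3'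
  have s0 : ∑ᶠ x ∈ Set.Ioo a N.x1, N.del x = ∑ᶠ x ∈ Set.Iio N.x1, N.del x := by
    refine N.Ful_sum _ _ (fun x hx hc => ⟨fun h => h.2, fun h => ⟨?_, h⟩⟩) ?_ ?_
    · by_contra h1
      exact (ha x (not_lt.1 h1)).1 hc
    · rintro x ⟨hx1, hx2⟩ (h | h | h) <;> linarith
    · rintro x hx (h | h | h) <;> linarith [Set.mem_Iio.1 hx]
  have s3 : ∑ᶠ x ∈ Set.Ioo N.x3 b, N.del x = ∑ᶠ x ∈ Set.Ioi N.x3, N.del x := by
    refine N.Ful_sum _ _ (fun x hx hc => ⟨fun h => h.1, fun h => ⟨h, ?_⟩⟩) ?_ ?_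
    · by_contra h1
      exact (hb x (not_lt.1 h1)).1 hc
    · rintro x ⟨hx1, hx2⟩ (h | h | h) <;> linarith
    · rintro x hx (h | h | h) <;> linarith [Set.mem_Ioi.1 hx]
  refine ⟨S0, E0, S1, E1, S2, E2, S3, E3, m0, m1, m2, m3, t, t1, t2, t3, htc, hsp0, hc0, hsp1,
    hc1, hsp2, hc2, hsp3, hc3, hfin, hg0, hg1, hg2, hg3, ?_, ?_, ?_, ?_⟩
  · unfold NF.C0
    rw [← s0, ← hb0, ← hp0, ← hp1]
    ring
  · unfold NF.C1
    rw [← hb1, ← hp1, ← hp2]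
    ring
  · unfold NF.C2
    rw [← hb2, ← hp2, ← hp3]
    ring
  · unfold NF.C3
    rw [← s3, ← hb3, ← hp0, ← hp3]
    ring

theorem C0_ge (hs : N.Sorted) : 4 ≤ N.C0 := by
  obtain ⟨S0, E0, S1, E1, S2, E2, S3, E3, m0, m1, m2, m3, t, t1, t2, t3, htc, hsp0, hc0, hsp1,
    hc1, hsp2, hc2, hsp3, hc3, hfin, hg0, hg1, hg2, hg3, e0, e1, e2, e3⟩ := N.Ful_all hs
  have h1 := Ful_bal hsp0 hc0 hsp1 hg0 hg1 S00_nz
  omega

theorem full (hs : N.Sorted) (h3 : 4 ≤ N.C3) :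
    ∃ (t : List (Bool × ℕ)) (c0 c1 c2 c3 : ℕ), N.TC t ∧
      Full t c0 c1 c2 c3 ∧ 2 * (c0 : ℤ) + 4 = N.C0 ∧ 2 * (c1 : ℤ) + 4 = N.C1 ∧
      2 * (c2 : ℤ) + 4 = N.C2 ∧ 2 * (c3 : ℤ) + 4 = N.C3 := by
  obtain ⟨S0, E0, S1, E1, S2, E2, S3, E3, m0, m1, m2, m3, t, t1, t2, t3, htc, hsp0, hc0, hsp1,
    hc1, hsp2, hc2, hsp3, hc3, hfin, hg0, hg1, hg2, hg3, e0, e1, e2, e3⟩ := N.Ful_all hs
  have z0 : Nz E0 := hc0.nz (hsp0.nz S00_nz)
  have z1 : Nz E1 := hc1.nz (hsp1.nz z0)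
  have b0 := Ful_bal hsp0 hc0 hsp1 hg0 hg1 S00_nz
  have b1 := Ful_bal hsp1 hc1 hsp2 hg1 hg2 z0
  have b2 := Ful_bal hsp2 hc2 hsp3 hg2 hg3 z1
  have f0 : (((pbn t : ℤ) + bal m0 + pbn t1 - 2).toNat : ℤ) = (pbn t : ℤ) + bal m0 + pbn t1 - 2 :=
    Int.toNat_of_nonneg (by omega)
  have f1 : (((pbn t1 : ℤ) + bal m1 + pbn t2 - 2).toNat : ℤ) =
      (pbn t1 : ℤ) + bal m1 + pbn t2 - 2 := Int.toNat_of_nonneg (by omega)
  have f2 : (((pbn t2 : ℤ) + bal m2 + pbn t3 - 2).toNat : ℤ) =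
      (pbn t2 : ℤ) + bal m2 + pbn t3 - 2 := Int.toNat_of_nonneg (by omega)
  have f3 : (((pbn t3 : ℤ) + bal m3 + pbn t - 2).toNat : ℤ) =
      (pbn t3 : ℤ) + bal m3 + pbn t - 2 := Int.toNat_of_nonneg (by omega)
  refine ⟨t, ((pbn t : ℤ) + bal m0 + pbn t1 - 2).toNat, ((pbn t1 : ℤ) + bal m1 + pbn t2 - 2).toNat,
    ((pbn t2 : ℤ) + bal m2 + pbn t3 - 2).toNat, ((pbn t3 : ℤ) + bal m3 + pbn t - 2).toNat, htc,
    ⟨S0, E0, S1, E1, S2, E2, S3, E3, m0, m1, m2, m3, t1, t2, t3, hsp0, hc0, hsp1, hc1, hsp2, hc2,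
      hsp3, hc3, hfin, hg0, hg1, hg2, hg3, ?_, ?_, ?_, ?_⟩, ?_, ?_, ?_, ?_⟩
  all_goals omega

end NF

end Pool.Agent.EC4
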