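import Pool.Agent.Lib.MP_ec4eff_co.R5.MvB

/-!
# The steps of the program inside a lune (project R5)

The state of the program is `lo`, `hi` (the pointer is at the first wire of `hi`, `lo` is reversed) with
`lo.reverse ++ hi = gl S`.  `step_sound`: if the model makes a move at the pointer, then the program
(`g2`) answers `true` if it answers `true` after the move (`node`).  The numbers `v`, `u` of the program
satisfy `v + 40 = 2 * nxs S + u`; a move adds its balance to `u`.

Proof plan.  `hi = gl (a :: ...)`, the block is `B = a :: b :: ...`, `2 ≤ B.length ≤ 5` (5 only if it is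
no configuration block, 4 for a configuration block).  All tests hold: the statuses inside the block are
`true`, `ok x y = true` for `x` before `y` in the block, `dd + 1 ≤ B.length`, the numbers `q`, `e`
are small enough since the new ones satisfy `Cap`.  So `g2 ih ... = true` follows from `mv ih ... = true`
for the right arguments (choices are `x || y`, tests are `c && x`, see `rec_or`, `rec_and`).  Then
`mv_eq`: `mv` changes the status of the last wire below the block; the new list is `gl` of the new
state.  The numbers: `nx (gl S)` is 1 plus the number of wires with status `false`; `inc o n` is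
`2 + 2 * (new - old)` where `new`, `old` are 1 for the status `false` and 0 for the status `true`.  If
nothing is below the block then `v` grows by 2, which fits to `inc` with equal statuses; the same holds
if nothing is above the block, as the last wire has always the status `false`.  So
`2 * nxs S' = 2 * nxs S + 2 * (k - 1) + (inc above - 2) + (inc below - 2)`, and
`v' = v + inc above + inc below + (k + 3) * (k - 2)` (no configuration block) or
`v' = v + inc above + inc below` (configuration block, `k = 4`), `u' = u + k * (k - 1)` or `u' = u - 2`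
(here `2 ≤ u` since `u = v + 40 - 2 * nxs S` and `nxs S ≤ 17`).
-/

set_option autoImplicit false

namespace Pool.Agent.EC4

open MvA

theorem MvA.nxs_le17 (S : List W) (hlen : S.length ≤ 16) : nxs S ≤ 17 := by
  unfold nxs
  rw [nx_eq]
  have h1 := cf_le (gl S)
  rw [gl_length] at h1
  omega

theorem MvA.gl_split (l B r : List W) (a : W) (B' : List W) (hB : B = a :: B') (lo hi : List Wr)
    (hs : lo.reverse ++ hi = gl (l ++ (B ++ r))) (hl : lo.length = l.length) :
    lo.reverse = glp l a ∧ hi = gl (B ++ r) := by
  subst hB
  have h1 : gl (l ++ (a :: B' ++ r)) = glp l a ++ gl (a :: B' ++ r) := gl_append l a (B' ++ r)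
  rw [h1] at hs
  refine List.append_inj hs ?_
  rw [List.length_reverse, glp_length, hl]

theorem step_sound (ih : List Wr → List Wr → ℕ → ℕ → ℕ → Bool) (tst : ℕ → Bool)
    (sa : List Wr → ℕ → ℕ → Bool) {S S' : List W} {m : Mo} (h : Mv S m S') (hz : Nz S)
    (hc : Cap S') (hlen : S.length ≤ 16) (lo hi : List Wr) (dd v u : ℕ)
    (hs : lo.reverse ++ hi = gl S) (hi' : lo.length = m.i) (hd : dd + 1 ≤ m.k)
    (hv : v + 40 = 2 * nxs S + u)
    (hn : ∀ (lo2 hi2 : List Wr) (v2 u2 : ℕ), lo2.reverse ++ hi2 = gl S' → lo2.length = m.i →
      v2 + 40 = 2 * nxs S' + u2 → (u2 : ℤ) = u + m.bal → node ih tst sa lo2 hi2 v2 u2 = true) :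
    ∃ (a : Wr) (r : List Wr), hi = a :: r ∧ a.g = true ∧ g2 ih tst sa lo a r dd v u = true := by
  cases h with
  | mk l B r cfg hB h2 h4 =>
  have hz' : ∀ w ∈ B, w.b ≠ 0 := fun w hw => hz w (by simp [hw])
  have hc' : ∀ w ∈ B, (upd cfg (msk B) (B.length - 1) w).q ≤ 5 ∧
      (upd cfg (msk B) (B.length - 1) w).e ≤ 4 := fun w hw => hc _ (by
    refine List.mem_append_right _ (List.mem_append_left _ ?_)
    unfold inn
    rw [List.mem_reverse]
    exact List.mem_map_of_mem hw)
  have hu : 2 ≤ u := by
    have := nxs_le17 _ hlen
    omega
  have hNE : ∀ u' : ℕ, cfg = false → u' = u + B.length * (B.length - 1) →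
      Nxt ih tst sa (l ++ (inn cfg B ++ r)) l.length u' := by
    intro u' hf hu' lo2 hi2 v2 e1 e2 e3
    refine hn lo2 hi2 v2 u' e1 e2 e3 ?_
    subst hf
    rw [hu']
    have h3 : ((B.length - 1 : ℕ) : ℤ) = (B.length : ℤ) - 1 := by omega
    simp [Mo.bal, h3]
  have hNQ : ∀ u' : ℕ, cfg = true → u' = u - 2 →
      Nxt ih tst sa (l ++ (inn cfg B ++ r)) l.length u' := by
    intro u' hf hu' lo2 hi2 v2 e1 e2 e3
    refine hn lo2 hi2 v2 u' e1 e2 e3 ?_
    subst hf
    rw [hu']
    simp only [Mo.bal, if_true]
    omega
  clear hn
  simp only at hi' hd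
  rcases B with _ | ⟨a, _ | ⟨b, _ | ⟨c, _ | ⟨d, _ | ⟨x, _ | ⟨y, B⟩⟩⟩⟩⟩⟩
  · simp at h2
  · simp at h2
  · obtain ⟨s1, s2⟩ := gl_split l _ r a _ rfl lo hi hs hi'
    have hcf : cfg = false := by
      cases cfg
      · rfl
      · simpa using h4 rfl
    subst hcf
    have ea := hc' a (by simp)
    have eb := hc' b (by simp)
    have za := hz' a (by simp)
    have hN := hNE (u + 2) rfl rfl
    simp only [List.pairwise_cons, List.mem_cons, List.not_mem_nil, or_false, forall_eq] at hB
    obtain ⟨uab, -⟩ := hB
    refine ⟨ws true a, ws (gst b.c r) b :: gl r, ?_, rfl, ?_⟩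
    · rw [s2]
      have k0 : gst a.c (b :: r) = true := beq_t uab
      simp only [List.cons_append, List.nil_append, gl_ws, k0]
    · simp [upd] at ea eb hd
      exact case2 ih tst sa l r a b za (by omega) (by omega) uab lo dd v u s1 (by omega) hv hN
  · obtain ⟨s1, s2⟩ := gl_split l _ r a _ rfl lo hi hs hi'
    have hcf : cfg = false := by
      cases cfg
      · rfl
      · simpa using h4 rfl
    subst hcf
    have ea := hc' a (by simp)
    have eb := hc' b (by simp)
    have ec := hc' c (by simp)
    have za := hz' a (by simp)
    have zb := hz' b (by simp)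
    have hN := hNE (u + 6) rfl rfl
    simp only [List.pairwise_cons, List.mem_cons, List.not_mem_nil, or_false, forall_eq_or_imp,
        forall_eq] at hB
    obtain ⟨⟨uab, uac⟩, ubc, -⟩ := hB
    refine ⟨ws true a, ws true b :: ws (gst c.c r) c :: gl r, ?_, rfl, ?_⟩
    · rw [s2]
      have k0 : gst a.c (b :: c :: r) = true := beq_t uab
      have k1 : gst b.c (c :: r) = true := beq_t ubc
      simp only [List.cons_append, List.nil_append, gl_ws, k0, k1]
    · simp [upd] at ea eb ec hd
      exact case3 ih tst sa l r a b c za zb (by omega) (by omega) (by omega) uab uac ubc lo dd v u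
          s1 (by omega) hv hN
  · obtain ⟨s1, s2⟩ := gl_split l _ r a _ rfl lo hi hs hi'
    cases cfg
    · have ea := hc' a (by simp)
      have eb := hc' b (by simp)
      have ec := hc' c (by simp)
      have ed := hc' d (by simp)
      have za := hz' a (by simp)
      have zb := hz' b (by simp)
      have zc := hz' c (by simp)
      have hN := hNE (u + 12) rfl rfl
      simp only [List.pairwise_cons, List.mem_cons, List.not_mem_nil, or_false, forall_eq_or_imp,
          forall_eq] at hB
      obtain ⟨⟨uab, uac, uad⟩, ⟨ubc, ubd⟩, ucd, -⟩ := hB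
      refine ⟨ws true a, ws true b :: ws true c :: ws (gst d.c r) d :: gl r, ?_, rfl, ?_⟩
      · rw [s2]
        have k0 : gst a.c (b :: c :: d :: r) = true := beq_t uab
        have k1 : gst b.c (c :: d :: r) = true := beq_t ubc
        have k2 : gst c.c (d :: r) = true := beq_t ucd
        simp only [List.cons_append, List.nil_append, gl_ws, k0, k1, k2]
      · simp [upd] at ea eb ec ed hd
        exact case4 ih tst sa l r a b c d za zb zc (by omega) (by omega) (by omega) (by omega) uab
            uac ubc uad ubd ucd lo dd v u s1 (by omega) hv hN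
    · have ea := hc' a (by simp)
      have eb := hc' b (by simp)
      have ec := hc' c (by simp)
      have ed := hc' d (by simp)
      have za := hz' a (by simp)
      have zb := hz' b (by simp)
      have zc := hz' c (by simp)
      have hN := hNQ (u - 2) rfl rfl
      simp only [List.pairwise_cons, List.mem_cons, List.not_mem_nil, or_false, forall_eq_or_imp,
          forall_eq] at hB
      obtain ⟨⟨uab, uac, uad⟩, ⟨ubc, ubd⟩, ucd, -⟩ := hB
      refine ⟨ws true a, ws true b :: ws true c :: ws (gst d.c r) d :: gl r, ?_, rfl, ?_⟩
      · rw [s2]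
        have k0 : gst a.c (b :: c :: d :: r) = true := beq_t uab
        have k1 : gst b.c (c :: d :: r) = true := beq_t ubc
        have k2 : gst c.c (d :: r) = true := beq_t ucd
        simp only [List.cons_append, List.nil_append, gl_ws, k0, k1, k2]
      · simp [upd] at ea eb ec ed hd
        exact case4q ih tst sa l r a b c d za zb zc (by omega) (by omega) (by omega) (by omega) uab
            uac ubc uad ubd ucd lo dd v u s1 (by omega) hu hv hN
  · obtain ⟨s1, s2⟩ := gl_split l _ r a _ rfl lo hi hs hi'
    have hcf : cfg = false := by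
      cases cfg
      · rfl
      · simpa using h4 rfl
    subst hcf
    have ea := hc' a (by simp)
    have eb := hc' b (by simp)
    have ec := hc' c (by simp)
    have ed := hc' d (by simp)
    have ex := hc' x (by simp)
    have za := hz' a (by simp)
    have zb := hz' b (by simp)
    have zc := hz' c (by simp)
    have zd := hz' d (by simp)
    have hN := hNE (u + 20) rfl rfl
    simp only [List.pairwise_cons, List.mem_cons, List.not_mem_nil, or_false, forall_eq_or_imp,
        forall_eq] at hB
    obtain ⟨⟨uab, uac, uad, uax⟩, ⟨ubc, ubd, ubx⟩, ⟨ucd, ucx⟩, udx, -⟩ := hB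
    refine ⟨ws true a, ws true b :: ws true c :: ws true d :: ws (gst x.c r) x :: gl r, ?_, rfl, ?_⟩
    · rw [s2]
      have k0 : gst a.c (b :: c :: d :: x :: r) = true := beq_t uab
      have k1 : gst b.c (c :: d :: x :: r) = true := beq_t ubc
      have k2 : gst c.c (d :: x :: r) = true := beq_t ucd
      have k3 : gst d.c (x :: r) = true := beq_t udx
      simp only [List.cons_append, List.nil_append, gl_ws, k0, k1, k2, k3]
    · simp [upd] at ea eb ec ed ex hd
      exact case5 ih tst sa l r a b c d x za zb zc zd (by omega) (by omega) (by omega) (by omega)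
          (by omega) uab uac ubc uad ubd ucd uax ubx ucx udx lo dd v u s1 (by omega) hv hN
  · exfalso
    cases cfg
    · have ea := (hc' a (by simp)).2
      simp [upd] at ea
      omega
    · simpa using h4 rfl

end Pool.Agent.EC4
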