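import Pool.Agent.Lib.MP_ec4eff_co.R5.Comm
import Pool.Agent.Lib.MP_ec4eff_co.R5.Mono
import Pool.Agent.Lib.MP_ec4eff_co.R5.MvS

/-!
# Soundness of the enumeration inside a lune (project R5)

Proof plan.  `back_eq`: the pointer goes back by `min 4 lo.length` wires.  `go_sound` by induction on the
fuel `n` (fuel `0` gives `true`).  There is a ready move (the first one), so by `hr` and
`m.i + m.k ≤ S.length` the list `hi` is not empty, `hi = a :: r1`.  If there is a ready move `m` with
`m.i = lo.length`, then `ms = l1 ++ m :: l2` and `comm_all` gives `T` with `Mv S m T`,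
`Ch T (l1 ++ l2) E`; `step_sound` gives that `g2` answers `true`, where `dd + 1 ≤ m.k` comes from `hr`
and the hypothesis `hn` is `node_step` below for the new state, with the remaining moves `l1 ++ l2`: if a
move `m'` is ready in `l1 ++ l2` and disjoint from `m`, then it was ready in `ms` (`ready_step`), so
`lo.length ≤ m'.i` and `lo.length + 1 ≤ m'.i + m'.k` (as `2 ≤ m'.k`); if it is not disjoint from `m` then
`lo.length = m.i < m'.i + m'.k`.  In both cases `lo.length + 1 ≤ m'.i + m'.k`.
`node_step`: the test `tst v` holds since `v ≤ ve`, by `Ch.mono`; if no move is left then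
`S = E`, `v = ve`, `u = ue` and `sa` answers `true`; otherwise the pointer goes back by
`d = min 4 lo.length` wires, and for every ready move `m'`: `m'.k ≤ 5` so `lo.length - d ≤ m'.i`, and
`(lo.length - d) + d + 1 ≤ m'.i + m'.k`.  If there is no ready move which starts at `lo.length` the
program goes on with `(a :: lo) r1 (dd - 1)`; all ready moves start at `lo.length + 1` or later, and
`m.i + m.k ≥ (lo.length + 1) + (dd - 1) + 1` as `2 ≤ m.k`.  `rap lo hi = lo.reverse ++ hi`.
`node_step` and `go_sound` can be one induction: first prove `node_step` for the fuel `n` from `go_sound`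
for the fuel `n`.
-/

set_option autoImplicit false

namespace Pool.Agent.EC4

theorem rap_eq (lo hi : List Wr) : rap lo hi = lo.reverse ++ hi := by
  induction lo generalizing hi with
  | nil => rfl
  | cons a lo ih =>
    have h : rap (a :: lo) hi = rap lo (a :: hi) := rfl
    rw [h, ih, List.reverse_cons, List.append_assoc, List.singleton_append]

theorem back_eq (n : ℕ) (lo hi : List Wr) (d : ℕ) (k : List Wr → List Wr → ℕ → Bool) :
    ∃ lo1 hi1 : List Wr, lo1.reverse ++ hi1 = lo.reverse ++ hi ∧
      lo1.length = lo.length - min n lo.length ∧ back n lo hi d k = k lo1 hi1 (d + min n lo.length) := by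
  induction n generalizing lo hi d with
  | zero => exact ⟨lo, hi, rfl, by simp, by simp [back]⟩
  | succ n ih =>
    cases lo with
    | nil => exact ⟨[], hi, rfl, by simp, by simp [back]⟩
    | cons y lo =>
      obtain ⟨lo1, hi1, h1, h2, h3⟩ := ih lo (y :: hi) (d + 1)
      refine ⟨lo1, hi1, ?_, ?_, ?_⟩
      · rw [h1, List.reverse_cons, List.append_assoc, List.singleton_append]
      · rw [h2, List.length_cons]; omega
      · have h : back (n + 1) (y :: lo) hi d k = back n lo (y :: hi) (d + 1) k := rfl
        rw [h, h3, List.length_cons]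
        have e : d + 1 + min n lo.length = d + min (n + 1) (lo.length + 1) := by omega
        rw [e]

/-- the statement for the fuel `n` -/
def GoOk (tst : ℕ → Bool) (sa : List Wr → ℕ → ℕ → Bool) (E : List W) (ue n : ℕ) : Prop :=
  ∀ (ms : List Mo) (S : List W) (lo hi : List Wr) (dd v u : ℕ), Ch S ms E → ms ≠ [] → Nz S →
    S.length ≤ 16 → lo.reverse ++ hi = gl S →
    (∀ m, Ready ms m → lo.length ≤ m.i ∧ lo.length + dd + 1 ≤ m.i + m.k) →
    v + 40 = 2 * nxs S + u → (ue : ℤ) = u + bal ms → go n tst sa lo hi dd v u = true

theorem goS_gl_len (S : List W) : (gl S).length = S.length := by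
  induction S with
  | nil => rfl
  | cons a r ih => simp [gl, ih]

theorem goS_two {S E : List W} {ms : List Mo} (h : Ch S ms E) : ∀ m ∈ ms, 2 ≤ m.k := by
  induction h with
  | nil => intro m hm; simp at hm
  | cons h1 _ ih =>
    intro m hm
    rcases List.mem_cons.1 hm with rfl | hm
    · exact h1.two
    · exact ih m hm

theorem goS_mem {ms : List Mo} {m : Mo} (h : Ready ms m) : m ∈ ms := by
  obtain ⟨l1, l2, rfl, _⟩ := h
  simp

theorem goS_bal_append (l1 l2 : List Mo) (m : Mo) :
    bal (l1 ++ m :: l2) = m.bal + bal (l1 ++ l2) := by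
  simp only [bal, List.map_append, List.map_cons, List.sum_append, List.sum_cons]
  ring

theorem node_step (tst : ℕ → Bool) (sa : List Wr → ℕ → ℕ → Bool) (E : List W) (ve ue n : ℕ)
    (hE : Cap E) (hve : ve + 40 = 2 * nxs E + ue) (ht : ∀ w ≤ ve, tst w = true)
    (hsa : sa (gl E) ve ue = true) (ih : GoOk tst sa E ue n) (ms : List Mo) (S : List W)
    (lo hi : List Wr) (v u : ℕ) (hC : Ch S ms E) (hz : Nz S) (hl : S.length ≤ 16)
    (hs : lo.reverse ++ hi = gl S) (hr : ∀ m, Ready ms m → lo.length + 1 ≤ m.i + m.k)
    (hv : v + 40 = 2 * nxs S + u) (hu : (ue : ℤ) = u + bal ms) :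
    node (go n tst sa) tst sa lo hi v u = true := by
  have hm := hC.mono hz
  have h1 : tst v = true := by
    apply ht
    omega
  have h2 : node (go n tst sa) tst sa lo hi v u =
      (tst v && (sa (rap lo hi) v u || back 4 lo hi 0 (fun lo hi d => go n tst sa lo hi d v u))) := by
    unfold node
    rw [rec_and, rec_or]
  rw [h2, h1, Bool.true_and]
  by_cases hms : ms = []
  · subst hms
    cases hC
    have e1 : u = ue := by
      have : bal [] = 0 := rfl
      omega
    have e2 : v = ve := by omega
    rw [rap_eq, hs, e1, e2, hsa, Bool.true_or]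
  · obtain ⟨lo1, hi1, k1, k2, k3⟩ := back_eq 4 lo hi 0 (fun lo hi d => go n tst sa lo hi d v u)
    have h3 : go n tst sa lo1 hi1 (0 + min 4 lo.length) v u = true := by
      apply ih ms S lo1 hi1 (0 + min 4 lo.length) v u hC hms hz hl (k1.trans hs) _ hv hu
      intro m hm'
      have a1 := hr m hm'
      have a2 := hC.small hE m (goS_mem hm')
      rw [k2]
      constructor <;> omega
    rw [k3, h3, Bool.or_true]

theorem go_sound (tst : ℕ → Bool) (sa : List Wr → ℕ → ℕ → Bool) (E : List W) (ve ue : ℕ)
    (hE : Cap E) (hve : ve + 40 = 2 * nxs E + ue) (ht : ∀ w ≤ ve, tst w = true)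
    (hsa : sa (gl E) ve ue = true) : ∀ n : ℕ, GoOk tst sa E ue n := by
  intro n
  induction n with
  | zero => intro ms S lo hi dd v u _ _ _ _ _ _ _ _; rfl
  | succ n ih =>
    intro ms S lo hi dd v u hC hms hz hl hs hr hv hu
    have hgo : go (n + 1) tst sa lo hi dd v u = g1 (go n tst sa) tst sa lo hi dd v u := rfl
    rw [hgo]
    have hlen : lo.length + hi.length = S.length := by
      have := congrArg List.length hs
      rw [List.length_append, List.length_reverse, goS_gl_len] at this
      exact this
    by_cases hA : ∃ m, Ready ms m ∧ m.i = lo.length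
    · obtain ⟨m, hm, hmi⟩ := hA
      have hrm := hr m hm
      obtain ⟨l1, l2, e, hd⟩ := hm
      subst e
      obtain ⟨T, hT, hC'⟩ := comm_all hC hd
      have hcT : Cap T := hC'.cap hE
      obtain ⟨a, r, e, ha, hg⟩ := step_sound (go n tst sa) tst sa hT hz hcT hl lo hi dd v u hs
        hmi.symm (by omega) hv (by
          intro lo2 hi2 v2 u2 b1 b2 b3 b4
          apply node_step tst sa E ve ue n hE hve ht hsa ih (l1 ++ l2) T lo2 hi2 v2 u2 hC'
            (hT.nz hz) (by rw [hT.len]; exact hl) b1 _ b3
          · rw [goS_bal_append] at hu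
            rw [b4, hu]; ring
          · intro m' hm'
            have h2 := goS_two hC' m' (goS_mem hm')
            by_cases hdis : disj m' m
            · have := (hr m' (ready_step hd hm' hdis)).1
              omega
            · unfold disj at hdis
              omega)
      subst e
      have h : g1 (go n tst sa) tst sa lo (a :: r) dd v u =
          ((a.g && g2 (go n tst sa) tst sa lo a r dd v u) ||
            go n tst sa (a :: lo) r (Nat.pred dd) v u) := by
        rw [← rec_or, ← rec_and]
        rfl
      rw [h, ha, hg]
      rfl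
    · have hlt : lo.length < S.length := by
        cases hC with
        | nil => exact absurd rfl hms
        | cons h1 h2 =>
          have a1 := (hr _ (ready_head _ _)).2
          have a2 := h1.le
          omega
      cases hi with
      | nil => simp at hlen; omega
      | cons a r =>
        have h : g1 (go n tst sa) tst sa lo (a :: r) dd v u =
            ((a.g && g2 (go n tst sa) tst sa lo a r dd v u) ||
              go n tst sa (a :: lo) r (Nat.pred dd) v u) := by
          rw [← rec_or, ← rec_and]
          rfl
        have h3 : go n tst sa (a :: lo) r (Nat.pred dd) v u = true := by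
          apply ih ms S (a :: lo) r (Nat.pred dd) v u hC hms hz hl _ _ hv hu
          · rw [List.reverse_cons, List.append_assoc, List.singleton_append]
            exact hs
          · intro m hm
            have a1 := hr m hm
            have a2 := goS_two hC m (goS_mem hm)
            have a3 : m.i ≠ lo.length := fun hh => hA ⟨m, hm, hh⟩
            rw [List.length_cons, Nat.pred_eq_sub_one]
            constructor <;> omega
        rw [h, h3, Bool.or_true]

end Pool.Agent.EC4
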