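import Pool.Agent.Lib.MP_ec4eff_co.R5.Nf

/-!
# Groups of a sorted list (project R5)

Proof plan.  `groups`: induction on `l`: for `l = a :: r` either `a` joins the first group of `r` (if
it has the value `h a`) or it forms a new group; by the order all values of `h` on the rest are larger
than `h a`.  In the group the second key is decreasing, in the reversed group it is increasing.
`groups_mem`: an element `j` with `h j = h i` is in some group `C`, which is `B` by the strict order
of the groups.
-/

set_option autoImplicit false

namespace Pool.Agent.EC4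

theorem groups (h m : Fin 16 → ℝ) (l : List (Fin 16))
    (hl : l.Pairwise fun i j => h i < h j ∨ h i = h j ∧ m j < m i) :
    ∃ gs : List (List (Fin 16)), gs.flatten = l ∧
      (∀ B ∈ gs, B ≠ [] ∧ ∀ i ∈ B, ∀ j ∈ B, h i = h j) ∧
      gs.Pairwise (fun B C => ∀ i ∈ B, ∀ j ∈ C, h i < h j) ∧
      (gs.map List.reverse).flatten.Pairwise fun i j => h i < h j ∨ h i = h j ∧ m i < m j := by
  induction l with
  | nil => exact ⟨[], rfl, by simp, List.Pairwise.nil, by simp⟩
  | cons a r ih =>
    obtain ⟨h1, h2⟩ := List.pairwise_cons.1 hl
    obtain ⟨gs, g1, g2, g3, g4⟩ := ih h2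
    cases gs with
    | nil =>
      refine ⟨[[a]], ?_, ?_, ?_, ?_⟩
      · simp only [List.flatten_nil] at g1
        subst g1
        rfl
      · intro B hB
        rw [List.mem_singleton] at hB
        subst hB
        refine ⟨by simp, ?_⟩
        intro i hi j hj
        rw [List.mem_singleton] at hi hj
        rw [hi, hj]
      · exact List.pairwise_singleton _ _
      · simp
    | cons B gs' =>
      obtain ⟨g5, g6⟩ := List.pairwise_cons.1 g3
      have hBr : ∀ j ∈ B, j ∈ r := by
        intro j hj
        rw [← g1, List.flatten_cons]
        exact List.mem_append_left _ hj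
      have hCr : ∀ C ∈ gs', ∀ j ∈ C, j ∈ r := by
        intro C hC j hj
        rw [← g1, List.flatten_cons]
        exact List.mem_append_right _ (List.mem_flatten.2 ⟨C, hC, hj⟩)
      obtain ⟨hBne, hBc⟩ := g2 B (List.mem_cons_self)
      obtain ⟨b, hb⟩ := List.exists_mem_of_ne_nil B hBne
      have hge : ∀ j ∈ r, h a ≤ h j := by
        intro j hj
        rcases h1 j hj with h' | h'
        · exact h'.le
        · exact h'.1.le
      by_cases hab : h a = h b
      · refine ⟨(a :: B) :: gs', ?_, ?_, ?_, ?_⟩
        · rw [List.flatten_cons, List.cons_append, ← List.flatten_cons, g1]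
        · intro C hC
          rcases List.mem_cons.1 hC with rfl | hC
          · refine ⟨by simp, ?_⟩
            have hv : ∀ i ∈ (a :: B), h i = h b := by
              intro i hi
              rcases List.mem_cons.1 hi with rfl | hi
              · exact hab
              · exact hBc i hi b hb
            intro i hi j hj
            rw [hv i hi, hv j hj]
          · exact g2 C (List.mem_cons_of_mem _ hC)
        · refine List.pairwise_cons.2 ⟨?_, g6⟩
          intro C hC i hi j hj
          rcases List.mem_cons.1 hi with rfl | hi
          · rw [hab]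
            exact g5 C hC b hb j hj
          · exact g5 C hC i hi j hj
        · rw [List.map_cons, List.flatten_cons] at g4 ⊢
          rw [List.reverse_cons, List.append_assoc]
          obtain ⟨p1, p2, p3⟩ := List.pairwise_append.1 g4
          refine List.pairwise_append.2 ⟨p1, ?_, ?_⟩
          · rw [List.singleton_append]
            refine List.pairwise_cons.2 ⟨?_, p2⟩
            intro j hj
            obtain ⟨C', hC', hj'⟩ := List.mem_flatten.1 hj
            obtain ⟨C, hC, rfl⟩ := List.mem_map.1 hC'
            left
            rw [hab]
            exact g5 C hC b hb j (List.mem_reverse.1 hj')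
          · intro i hi j hj
            rw [List.singleton_append] at hj
            rcases List.mem_cons.1 hj with rfl | hj
            · right
              have hi' := List.mem_reverse.1 hi
              have e1 : h i = h j := by rw [hab, hBc i hi' b hb]
              refine ⟨e1, ?_⟩
              rcases h1 i (hBr i hi') with h' | h'
              · rw [e1] at h'
                exact absurd h' (lt_irrefl _)
              · exact h'.2
            · exact p3 i hi j hj
      · have hlt : h a < h b := lt_of_le_of_ne (hge b (hBr b hb)) hab
        refine ⟨[a] :: B :: gs', ?_, ?_, ?_, ?_⟩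
        · rw [List.flatten_cons, g1]
          rfl
        · intro C hC
          rcases List.mem_cons.1 hC with rfl | hC
          · refine ⟨by simp, ?_⟩
            intro i hi j hj
            rw [List.mem_singleton] at hi hj
            rw [hi, hj]
          · exact g2 C hC
        · refine List.pairwise_cons.2 ⟨?_, g3⟩
          intro C hC i hi j hj
          rw [List.mem_singleton] at hi
          subst hi
          rcases List.mem_cons.1 hC with rfl | hC
          · rw [hBc j hj b hb]
            exact hlt
          · exact hlt.trans (g5 C hC b hb j hj)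
        · rw [List.map_cons, List.flatten_cons, List.reverse_singleton, List.singleton_append]
          refine List.pairwise_cons.2 ⟨?_, g4⟩
          intro j hj
          left
          obtain ⟨C', hC', hj'⟩ := List.mem_flatten.1 hj
          obtain ⟨C, hC, rfl⟩ := List.mem_map.1 hC'
          have hj'' := List.mem_reverse.1 hj'
          rcases List.mem_cons.1 hC with rfl | hC
          · rw [hBc j hj'' b hb]
            exact hlt
          · exact hlt.trans (g5 C hC b hb j hj'')

theorem groups_mem (h : Fin 16 → ℝ) (gs : List (List (Fin 16))) (hA : All gs.flatten)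
    (hB : ∀ B ∈ gs, B ≠ [] ∧ ∀ i ∈ B, ∀ j ∈ B, h i = h j)
    (hP : gs.Pairwise (fun B C => ∀ i ∈ B, ∀ j ∈ C, h i < h j)) :
    ∀ B ∈ gs, B.Nodup ∧ ∀ i ∈ B, ∀ j, j ∈ B ↔ h j = h i := by
  intro B hBg
  obtain ⟨hn, hall⟩ := hA
  refine ⟨(List.nodup_flatten.1 hn).1 B hBg, ?_⟩
  intro i hi j
  constructor
  · intro hj
    exact (hB B hBg).2 j hj i hi
  · intro hj
    obtain ⟨C, hC, hjC⟩ := List.mem_flatten.1 (hall j)
    by_cases hBC : C = B
    · rw [← hBC]
      exact hjC
    · exfalso
      have hsym : gs.Pairwise (fun B C => ∀ i ∈ B, ∀ j ∈ C, h i ≠ h j) :=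
        hP.imp (fun hh i hi j hj => (hh i hi j hj).ne)
      have : Std.Symm (fun B C : List (Fin 16) => ∀ i ∈ B, ∀ j ∈ C, h i ≠ h j) :=
        ⟨fun B C hh i hi j hj e => hh j hj i hi e.symm⟩
      exact (hsym.forall hC hBg hBC) j hjC i hi hj

theorem flatten_perm_rev (gs : List (List (Fin 16))) :
    (gs.map List.reverse).flatten.Perm gs.flatten := by
  induction gs with
  | nil => simp
  | cons B gs ih =>
    rw [List.map_cons, List.flatten_cons, List.flatten_cons]
    exact (List.reverse_perm B).append ih

theorem all_rev (gs : List (List (Fin 16))) (hA : All gs.flatten) :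
    All (gs.map List.reverse).flatten := by
  obtain ⟨h1, h2⟩ := hA
  have hp := flatten_perm_rev gs
  exact ⟨hp.nodup_iff.2 h1, fun i => hp.mem_iff.2 (h2 i)⟩

/-- a sum over all wires is the sum over the groups -/
theorem sum_groups (gs : List (List (Fin 16))) (hA : All gs.flatten) (F : Fin 16 → ℤ) :
    ∑ i : Fin 16, F i = (gs.map fun B => (B.map F).sum).sum := by
  obtain ⟨h1, h2⟩ := hA
  have e1 : ∑ i : Fin 16, F i = (gs.flatten.map F).sum := by
    have e2 : (Finset.univ : Finset (Fin 16)) = gs.flatten.toFinset := by
      ext i
      simp only [Finset.mem_univ, List.mem_toFinset, true_iff]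
      exact h2 i
    rw [e2, List.sum_toFinset _ h1]
  rw [e1]
  clear e1 h1 h2
  induction gs with
  | nil => simp
  | cons B gs ih =>
    rw [List.flatten_cons, List.map_append, List.sum_append, ih, List.map_cons, List.sum_cons]

theorem ncard_list (B : List (Fin 16)) (hn : B.Nodup) (P : Fin 16 → Prop)
    (h : ∀ j, j ∈ B ↔ P j) : {j | P j}.ncard = B.length := by
  have e : {j | P j} = ((B.toFinset : Finset (Fin 16)) : Set (Fin 16)) := by
    ext j
    simp only [Set.mem_ofPred_eq, List.coe_toFinset]
    exact (h j).symm
  rw [e, Set.ncard_coe_finset, List.toFinset_card_of_nodup hn]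

theorem Ch.append {S S' S'' : List W} {m1 m2 : List Mo} (h : Ch S m1 S') (h' : Ch S' m2 S'') :
    Ch S (m1 ++ m2) S'' := by
  induction h with
  | nil S => exact h'
  | cons hm _ ih => exact Ch.cons hm (ih h')

theorem bal_append (m1 m2 : List Mo) : bal (m1 ++ m2) = bal m1 + bal m2 := by
  unfold bal
  rw [List.map_append, List.sum_append]

end Pool.Agent.EC4
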