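import Pool.Agent.Lib.MP_ec4eff_co.R5.Grp

/-!
# The blocks of the line at infinity (project R5, auxiliary file for Inf)
-/

set_option autoImplicit false

namespace Pool.Agent.EC4

/-- the wire `i` before the line at infinity -/
def infW (i : Fin 16) : W := ini0 (i : ℕ)

theorem inf_S00 : S00 = (List.finRange 16).map infW := by
  unfold S00
  rw [← List.map_coe_finRange_eq_range, List.map_map]
  rfl

theorem inf_unmet (i j : Fin 16) (h : i ≠ j) : W.unmet (infW i) (infW j) := by
  change (2 ^ (i : ℕ)) &&& (2 ^ (j : ℕ)) = 0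
  apply Nat.eq_of_testBit_eq
  intro k
  rw [Nat.testBit_and, Nat.testBit_two_pow, Nat.testBit_two_pow, Nat.zero_testBit]
  by_cases h1 : (i : ℕ) = k
  · have h2 : ¬ (j : ℕ) = k := fun h2 => h (Fin.ext (h1.trans h2.symm))
    rw [decide_eq_false h2, Bool.and_false]
  · rw [decide_eq_false h1, Bool.false_and]

theorem inf_msk (B : List (Fin 16)) (k : ℕ) :
    (msk (B.map infW)).testBit k = true ↔ ∃ i ∈ B, (i : ℕ) = k := by
  induction B with
  | nil =>
    constructor
    · intro h
      have h1 : (msk (([] : List (Fin 16)).map infW)).testBit k = false := Nat.zero_testBit k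
      rw [h1] at h
      exact absurd h Bool.false_ne_true
    · rintro ⟨i, hi, -⟩
      exact absurd hi List.not_mem_nil
  | cons a B ih =>
    have h1 : msk ((a :: B).map infW) = (2 ^ (a : ℕ)) ||| msk (B.map infW) := rfl
    rw [h1, Nat.testBit_or, Nat.testBit_two_pow, Bool.or_eq_true, decide_eq_true_iff, ih]
    constructor
    · rintro (h | ⟨i, hi, h⟩)
      · exact ⟨a, List.mem_cons_self, h⟩
      · exact ⟨i, List.mem_cons_of_mem _ hi, h⟩
    · rintro ⟨i, hi, h⟩
      rcases List.mem_cons.1 hi with h2 | hi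
      · rw [h2] at h
        exact Or.inl h
      · exact Or.inr ⟨i, hi, h⟩

theorem inf_msk_lt (B : List (Fin 16)) : msk (B.map infW) < 2 ^ 16 := by
  induction B with
  | nil => exact Nat.two_pow_pos 16
  | cons a B ih =>
    have h1 : msk ((a :: B).map infW) = (2 ^ (a : ℕ)) ||| msk (B.map infW) := rfl
    rw [h1]
    exact Nat.or_lt_two_pow (Nat.pow_lt_pow_right (by norm_num) a.2) ih

namespace NF

variable (N : NF)

/-- a block of the line at infinity -/
def InfBk (B : List (Fin 16)) : Prop :=
  B ≠ [] ∧ B.Nodup ∧ ∀ i ∈ B, ∀ j, j ∈ B ↔ N.m j = N.m i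

/-- the slope of a block -/
noncomputable def infSl (B : List (Fin 16)) : ℝ := N.m (B.headD 0)

/-- is it a configuration block -/
noncomputable def infCf (B : List (Fin 16)) : Bool := (N.blk (N.infSl B)).1

variable {N}

theorem infCf_iff (B : List (Fin 16)) : N.infCf B = true ↔ N.Ki (N.infSl B) := by
  unfold infCf blk
  exact @decide_eq_true_iff _ (Classical.propDecidable _)

theorem inf_bk_ex {B : List (Fin 16)} (h : N.InfBk B) : ∃ i, i ∈ B := List.exists_mem_of_ne_nil B h.1

theorem inf_bk_sl {B : List (Fin 16)} (h : N.InfBk B) {i : Fin 16} (hi : i ∈ B) : N.m i = N.infSl B := by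
  cases B with
  | nil => exact absurd rfl h.1
  | cons a r => exact ((h.2.2 i hi a).1 List.mem_cons_self).symm

theorem inf_bk_len {B : List (Fin 16)} (h : N.InfBk B) : {i | N.m i = N.infSl B}.ncard = B.length := by
  obtain ⟨i, hi⟩ := inf_bk_ex h
  refine ncard_list B h.2.1 (fun j => N.m j = N.infSl B) fun j => ?_
  rw [← inf_bk_sl h hi]
  exact h.2.2 i hi j

theorem inf_bk_len' {B : List (Fin 16)} (h : N.InfBk B) {i : Fin 16} (hi : i ∈ B) :
    {j | N.m j = N.m i}.ncard = B.length := by
  rw [inf_bk_sl h hi]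
  exact inf_bk_len h

theorem inf_bk_three {B : List (Fin 16)} (h : N.InfBk B) (hc : N.infCf B = true) : B.length = 3 := by
  obtain ⟨i, hi⟩ := inf_bk_ex h
  rw [← inf_bk_len' h hi]
  refine N.ki3 i ?_
  rw [inf_bk_sl h hi]
  exact (infCf_iff B).1 hc

theorem inf_bk_blk {B : List (Fin 16)} (h : N.InfBk B) : N.blk (N.infSl B) = (N.infCf B, B.length) := by
  refine Prod.ext rfl ?_
  exact inf_bk_len h

theorem inf_met (i j : Fin 16) : N.met ∅ i j ↔ N.m j = N.m i := by
  unfold met
  constructor
  · rintro (h | ⟨x, hx, -⟩)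
    · exact h.symm
    · exact absurd hx (Set.notMem_empty x)
  · intro h
    exact Or.inl h.symm

theorem inf_bk_R {B : List (Fin 16)} (h : N.InfBk B) {i : Fin 16} (hi : i ∈ B) :
    N.R ∅ i (upd (N.infCf B) (msk (B.map infW)) (B.map infW).length (infW i)) := by
  have hK : N.Ki (N.m i) ↔ N.infCf B = true := by rw [infCf_iff, inf_bk_sl h hi]
  have hm : {j | N.met ∅ i j}.ncard = B.length := by
    rw [← inf_bk_len' h hi]
    refine congrArg Set.ncard (Set.ext fun j => ?_)
    exact inf_met i j
  have h0 : {x : ℝ | x ∈ (∅ : Set ℝ) ∧ N.K x (N.f i x)}.ncard = 0 := by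
    have h1 : {x : ℝ | x ∈ (∅ : Set ℝ) ∧ N.K x (N.f i x)} = ∅ :=
      Set.eq_empty_of_forall_notMem fun x hx => Set.notMem_empty x hx.1
    rw [h1, Set.ncard_empty]
  have h0' : {x : ℝ | x ∈ (∅ : Set ℝ) ∧ N.spx x}.ncard = 0 := by
    have h1 : {x : ℝ | x ∈ (∅ : Set ℝ) ∧ N.spx x} = ∅ :=
      Set.eq_empty_of_forall_notMem fun x hx => Set.notMem_empty x hx.1
    rw [h1, Set.ncard_empty]
  have hq : (upd (N.infCf B) (msk (B.map infW)) (B.map infW).length (infW i)).q =
      {_u : Unit | N.Ki (N.m i)}.ncard := by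
    cases hc : N.infCf B with
    | true =>
      have h1 : {_u : Unit | N.Ki (N.m i)} = Set.univ :=
        Set.eq_univ_of_forall fun _ => hK.2 hc
      rw [h1, Set.ncard_univ, Nat.card_unique]
      rfl
    | false =>
      have h1 : {_u : Unit | N.Ki (N.m i)} = ∅ :=
        Set.eq_empty_of_forall_notMem fun _ hx => by
          rw [hK.1 hx] at hc
          exact absurd hc Bool.true_eq_false_eq_False
      rw [h1, Set.ncard_empty]
      rfl
  refine ⟨rfl, ?_, fun j => ?_, ?_, ?_⟩
  · exact Nat.or_lt_two_pow (Nat.pow_lt_pow_right (by norm_num) i.2) (inf_msk_lt B)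
  · rw [inf_met]
    change ((2 ^ (i : ℕ)) ||| msk (B.map infW)).testBit j = true ↔ _
    rw [Nat.testBit_or, Nat.testBit_two_pow, Bool.or_eq_true, decide_eq_true_iff, inf_msk]
    constructor
    · rintro (h1 | ⟨k, hk, h1⟩)
      · rw [Fin.ext h1]
      · rw [← Fin.ext h1]
        exact (h.2.2 i hi k).1 hk
    · intro h1
      exact Or.inr ⟨j, (h.2.2 i hi j).2 h1, rfl⟩
  · rw [h0, Nat.zero_add]
    exact hq
  · rw [hm, h0']
    cases hc : N.infCf B with
    | true =>
      rw [inf_bk_three h hc]
      rfl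
    | false =>
      change (0 + (B.map infW).length) + 3 * 0 + 1 = B.length + 0 + 1
      rw [List.length_map]
      omega

theorem inf_bk_F2 {B : List (Fin 16)} (h : N.InfBk B) :
    List.Forall₂ (N.R ∅) B.reverse (out (N.infCf B) (B.map infW)) := by
  unfold out
  rw [List.forall₂_reverse_iff, List.map_map, List.forall₂_map_right_iff, List.forall₂_same]
  intro i hi
  exact inf_bk_R h hi

theorem inf_F2 {gs : List (List (Fin 16))} (h : ∀ B ∈ gs, N.InfBk B) :
    List.Forall₂ (N.R ∅) (gs.map List.reverse).flatten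
      (gs.map fun B => out (N.infCf B) (B.map infW)).flatten := by
  induction gs with
  | nil => exact List.Forall₂.nil
  | cons B gs ih =>
    rw [List.map_cons, List.map_cons, List.flatten_cons, List.flatten_cons]
    exact List.rel_append (inf_bk_F2 (h B List.mem_cons_self))
      (ih fun C hC => h C (List.mem_cons_of_mem _ hC))

theorem inf_Sp {gs : List (List (Fin 16))} (h : ∀ B ∈ gs, N.InfBk B) :
    Sp (gs.flatten.map infW) (gs.map fun B => (N.infCf B, B.length))
      (gs.map fun B => out (N.infCf B) (B.map infW)).flatten := by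
  induction gs with
  | nil => exact Sp.nil
  | cons B gs ih =>
    have hB := h B List.mem_cons_self
    rw [List.map_cons, List.map_cons, List.flatten_cons, List.flatten_cons, List.map_append]
    have h1 := Sp.cons (B.map infW) (N.infCf B) ?_ ?_ ?_
      (ih fun C hC => h C (List.mem_cons_of_mem _ hC))
    · rw [List.length_map] at h1
      exact h1
    · rw [List.pairwise_map]
      exact hB.2.1.imp fun {i j} hij => inf_unmet i j hij
    · rw [List.length_map]
      exact List.length_pos_iff.2 hB.1
    · intro hc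
      rw [List.length_map]
      exact inf_bk_three hB hc

end NF

end Pool.Agent.EC4
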