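import Pool.Agent.Lib.MP_ec4eff_co.R5.SpS0

/-!
# Soundness of the special lines of the program (project R5)

Proof plan.  `spec` runs through the wires `hi` (with their statuses) and accumulates the new wires in
`lo` (reversed, with the status `false`); `nq`, `ne` count the configuration blocks and the wires in the
other blocks, both have to be 4 in the end; `rst lo []` is the reversed list with the right statuses.
`spec_sound` goes by induction on `h : Sp hs t hs'` (fuel `0` gives `true`, so the fuel does not matter):
for a block `B` with `hi = gl (B ++ r)` the length of `B` is 3 for a configuration block, and at most 4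
otherwise since `b + ne t = 4`; the program reaches the step of the block (`ste1`, `ste2`, `stq3`,
`ste3` or `ste4`), since the statuses inside the block are `true` and `ok x y = true` for all `x` before
`y` in the block (`W.unmet`), the tests for the numbers hold by `Cap hs'` and by `a + nq t = 4`,
`b + ne t = 4`.  Every choice in `sp1`, ..., `sp4` is of the form `Bool.rec y true x`, that is `x || y`
(`rec_or`), every test is of the form `Bool.rec false x c`, that is `c && x` (`rec_and`).
`Nat.land`, `Nat.lor` etc. of the program are the same as in the model (`W.unmet`, `msk`, `upd`): the mask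
of a block `[a, b, c]` is `a.b ||| (b.b ||| (c.b ||| 0))` in the model.
-/

set_option autoImplicit false

namespace Pool.Agent.EC4

theorem sps_gl_cons (a : Wr) (S : List W) :
    gl (er a :: S) = stg (gap a (gl S)) a :: gl S := by
  cases S <;> rfl

theorem sps_rst (lo : List Wr) : ∀ S : List W, rst lo (gl S) = gl ((lo.map er).reverse ++ S) := by
  induction lo with
  | nil => intro S; rfl
  | cons a lo ih =>
    intro S
    show rst lo (stg (gap a (gl S)) a :: gl S) = _
    rw [← sps_gl_cons, ih]
    simp

theorem rst_eq (lo : List Wr) : rst lo [] = gl ((lo.map er).reverse) := by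
  have h := sps_rst lo []
  rw [List.append_nil] at h
  exact h

theorem spec_sound {hs hs' : List W} {t : List (Bool × ℕ)} (h : Sp hs t hs') (hc : Cap hs') :
    ∀ (n : ℕ) (lo hi : List Wr) (a b pb : ℕ) (k : List Wr → ℕ → Bool), hi = gl hs →
      a + nq t = 4 → b + ne t = 4 →
      (∀ lo' : List Wr, (lo'.map er).reverse = (lo.map er).reverse ++ hs' →
        k lo' (pb + pbn t) = true) →
      spec n lo hi a b pb k = true := by
  induction h with
  | nil =>
    intro n lo hi a b pb k hhi ha hb hk
    subst hhi
    cases n with
    | zero => rfl
    | succ n =>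
      show sp1 (spec n) lo [] a b pb k = true
      rw [sps_nil]
      have h1 : a = 4 := by simpa [nq] using ha
      have h2 : b = 4 := by simpa [ne] using hb
      subst h1; subst h2
      have h3 := hk lo (by simp)
      have h4 : pbn [] = 0 := rfl
      rw [h4, Nat.add_zero] at h3
      rw [h3]
      rfl
  | @cons r r' t B cfg hB h1 h3 hS ihS =>
    intro n lo hi a b pb k hhi ha hb hk
    subst hhi
    cases n with
    | zero => rfl
    | succ n =>
      show sp1 (spec n) lo (gl (B ++ r)) a b pb k = true
      have hcr : Cap r' := fun w hw => hc w (List.mem_append_right _ hw)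
      have hcB : ∀ w ∈ B, (upd cfg (msk B) B.length w).q ≤ 5 ∧ (upd cfg (msk B) B.length w).e ≤ 4 := by
        intro w hw
        apply hc
        apply List.mem_append_left
        rw [out, List.mem_reverse]
        exact List.mem_map_of_mem hw
      cases cfg with
      | true =>
        have hl := h3 rfl
        match B, hl with
        | [x, y, z], _ =>
          have hne : ne ((true, 3) :: t) = ne t := by simp [ne]
          have hnq : nq ((true, 3) :: t) = 1 + nq t := by simp [nq]
          have hpb : pbn ((true, 3) :: t) = pbn t := by simp [pbn]
          rw [show ([x, y, z] : List W).length = 3 from rfl, hne] at hb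
          rw [show ([x, y, z] : List W).length = 3 from rfl, hnq] at ha
          rw [show ([x, y, z] : List W).length = 3 from rfl, hpb] at hk
          simp only [List.pairwise_cons, List.mem_cons, List.not_mem_nil, or_false, forall_eq_or_imp,
            forall_eq] at hB
          obtain ⟨⟨hxy, hxz⟩, hyz, -⟩ := hB
          obtain ⟨g, hg⟩ := sps_gl_one z r
          have e : gl ([x, y, z] ++ r) =
              sps_gw true x :: sps_gw true y :: sps_gw g z :: gl r := by
            rw [show [x, y, z] ++ r = x :: y :: z :: r from rfl, sps_gl_two x y _ hxy,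
              sps_gl_two y z _ hyz, hg]
          have ho : out true [x, y, z] = [⟨z.b, Nat.lor z.c (Nat.lor x.b (Nat.lor y.b z.b)), z.q + 1,
              z.e⟩, ⟨y.b, Nat.lor y.c (Nat.lor x.b (Nat.lor y.b z.b)), y.q + 1, y.e⟩,
              ⟨x.b, Nat.lor x.c (Nat.lor x.b (Nat.lor y.b z.b)), x.q + 1, x.e⟩] := by
            rw [out, sps_m3]; rfl
          have h4 := sps_q3 (spec n) lo (sps_gw true x) (sps_gw true y) (sps_gw g z) (gl r) a b pb k
            (by omega) (hcB x (by simp)).1 (hcB y (by simp)).1 (hcB z (by simp)).1
            (ihS hcr n _ (gl r) (a + 1) b pb k rfl (by omega) hb (fun lo' h' => by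
              apply hk
              rw [h', ho]
              simp [er, upQ, sps_gw]))
          rw [e, sps_1, sps_2, sps_3, h4, sps_ok _ _ _ _ hxz]
          simp [sps_gw]
      | false =>
        have hne : ne ((false, B.length) :: t) = B.length + ne t := by simp [ne]
        have hnq : nq ((false, B.length) :: t) = nq t := by simp [nq]
        rw [hne] at hb
        rw [hnq] at ha
        have hl : B.length ≤ 4 := by omega
        match B, h1, hl with
        | [x], _, _ =>
          have hpb : pbn ((false, 1) :: t) = pbn t := by simp [pbn]
          rw [show ([x] : List W).length = 1 from rfl] at hb hk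
          rw [hpb] at hk
          obtain ⟨g, hg⟩ := sps_gl_one x r
          have e : gl ([x] ++ r) = sps_gw g x :: gl r := hg
          have ho : out false [x] = [⟨x.b, Nat.lor x.c x.b, x.q, x.e + 1⟩] := by
            rw [out, sps_m1]; rfl
          have h4 := sps_e1 (spec n) lo (sps_gw g x) (gl r) a b pb k
            (by omega) (hcB x (by simp)).2
            (ihS hcr n _ (gl r) a (b + 1) pb k rfl ha (by omega) (fun lo' h' => by
              apply hk
              rw [h', ho]
              simp [er, upE, sps_gw]))
          rw [e, sps_1, h4]
          rfl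
        | [x, y], _, _ =>
          have hpb : pbn ((false, 2) :: t) = 1 + pbn t := by simp [pbn]
          rw [show ([x, y] : List W).length = 2 from rfl] at hb hk
          rw [hpb] at hk
          simp only [List.pairwise_cons, List.mem_cons, List.not_mem_nil, or_false, forall_eq] at hB
          obtain ⟨hxy, -⟩ := hB
          obtain ⟨g, hg⟩ := sps_gl_one y r
          have e : gl ([x, y] ++ r) = sps_gw true x :: sps_gw g y :: gl r := by
            rw [show [x, y] ++ r = x :: y :: r from rfl, sps_gl_two x y _ hxy, hg]
          have ho : out false [x, y] = [⟨y.b, Nat.lor y.c (Nat.lor x.b y.b), y.q, y.e + 2⟩,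
              ⟨x.b, Nat.lor x.c (Nat.lor x.b y.b), x.q, x.e + 2⟩] := by
            rw [out, sps_m2]; rfl
          have h4 := sps_e2 (spec n) lo (sps_gw true x) (sps_gw g y) (gl r) a b pb k
            (by omega) (hcB x (by simp)).2 (hcB y (by simp)).2
            (ihS hcr n _ (gl r) a (b + 2) (pb + 1) k rfl ha (by omega) (fun lo' h' => by
              rw [Nat.add_assoc]
              apply hk
              rw [h', ho]
              simp [er, upE, sps_gw]))
          rw [e, sps_1, sps_2, h4]
          simp [sps_gw]
        | [x, y, z], _, _ =>
          have hpb : pbn ((false, 3) :: t) = 3 + pbn t := by simp [pbn]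
          rw [show ([x, y, z] : List W).length = 3 from rfl] at hb hk
          rw [hpb] at hk
          simp only [List.pairwise_cons, List.mem_cons, List.not_mem_nil, or_false, forall_eq_or_imp,
            forall_eq] at hB
          obtain ⟨⟨hxy, hxz⟩, hyz, -⟩ := hB
          obtain ⟨g, hg⟩ := sps_gl_one z r
          have e : gl ([x, y, z] ++ r) =
              sps_gw true x :: sps_gw true y :: sps_gw g z :: gl r := by
            rw [show [x, y, z] ++ r = x :: y :: z :: r from rfl, sps_gl_two x y _ hxy,
              sps_gl_two y z _ hyz, hg]
          have ho : out false [x, y, z] = [⟨z.b, Nat.lor z.c (Nat.lor x.b (Nat.lor y.b z.b)), z.q,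
              z.e + 3⟩, ⟨y.b, Nat.lor y.c (Nat.lor x.b (Nat.lor y.b z.b)), y.q, y.e + 3⟩,
              ⟨x.b, Nat.lor x.c (Nat.lor x.b (Nat.lor y.b z.b)), x.q, x.e + 3⟩] := by
            rw [out, sps_m3]; rfl
          have h4 := sps_e3 (spec n) lo (sps_gw true x) (sps_gw true y) (sps_gw g z) (gl r) a b pb k
            (by omega) (hcB x (by simp)).2 (hcB y (by simp)).2 (hcB z (by simp)).2
            (ihS hcr n _ (gl r) a (b + 3) (pb + 3) k rfl ha (by omega) (fun lo' h' => by
              rw [Nat.add_assoc]
              apply hk
              rw [h', ho]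
              simp [er, upE, sps_gw]))
          rw [e, sps_1, sps_2, sps_3, h4, sps_ok _ _ _ _ hxz]
          simp [sps_gw]
        | [x, y, z, w], _, _ =>
          have hpb : pbn ((false, 4) :: t) = 6 + pbn t := by simp [pbn]
          rw [show ([x, y, z, w] : List W).length = 4 from rfl] at hb hk
          rw [hpb] at hk
          simp only [List.pairwise_cons, List.mem_cons, List.not_mem_nil, or_false, forall_eq_or_imp,
            forall_eq] at hB
          obtain ⟨⟨hxy, hxz, hxw⟩, ⟨hyz, hyw⟩, hzw, -⟩ := hB
          obtain ⟨g, hg⟩ := sps_gl_one w r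
          have e : gl ([x, y, z, w] ++ r) =
              sps_gw true x :: sps_gw true y :: sps_gw true z :: sps_gw g w :: gl r := by
            rw [show [x, y, z, w] ++ r = x :: y :: z :: w :: r from rfl, sps_gl_two x y _ hxy,
              sps_gl_two y z _ hyz, sps_gl_two z w _ hzw, hg]
          have ho : out false [x, y, z, w] =
              [⟨w.b, Nat.lor w.c (Nat.lor x.b (Nat.lor y.b (Nat.lor z.b w.b))), w.q, w.e + 4⟩,
              ⟨z.b, Nat.lor z.c (Nat.lor x.b (Nat.lor y.b (Nat.lor z.b w.b))), z.q, z.e + 4⟩,
              ⟨y.b, Nat.lor y.c (Nat.lor x.b (Nat.lor y.b (Nat.lor z.b w.b))), y.q, y.e + 4⟩,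
              ⟨x.b, Nat.lor x.c (Nat.lor x.b (Nat.lor y.b (Nat.lor z.b w.b))), x.q, x.e + 4⟩] := by
            rw [out, sps_m4]; rfl
          have h4 := sps_e4 (spec n) lo (sps_gw true x) (sps_gw true y) (sps_gw true z) (sps_gw g w)
            (gl r) a b pb k
            (by omega) (hcB x (by simp)).2 (hcB y (by simp)).2 (hcB z (by simp)).2
            (hcB w (by simp)).2
            (ihS hcr n _ (gl r) a (b + 4) (pb + 6) k rfl ha (by omega) (fun lo' h' => by
              rw [Nat.add_assoc]
              apply hk
              rw [h', ho]
              simp [er, upE, sps_gw]))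
          rw [e, sps_1, sps_2, sps_3, sps_4, h4, sps_ok _ _ _ _ hxz, sps_ok _ _ _ _ hxw,
            sps_ok _ _ _ _ hyw]
          simp [sps_gw]

end Pool.Agent.EC4
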