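import Pool.Agent.Lib.MP_ec4eff_co.R5.GoS
import Pool.Agent.Lib.MP_ec4eff_co.R5.SpS
import Pool.Agent.Lib.MP_ec4eff_co.R5.SpN

/-!
# Soundness of a lune (project R5)

Proof plan.  `lun` starts with `node` for `lo = []`, `hi = gl S`, `v = 2 * nx (gl S) + pa - 20`,
`u = pa + 20`; as `10 ≤ nxs S` we have `v + 40 = 2 * nxs S + u`.  Use `node_step` with
`ue = pa + 20 + bal ms` (a natural number, since `ue + 2 = c + 22 - pbn t + 2 ...`, more precisely
`c + 22 = ue + pbn t` and `ue` is nonnegative because `ve + 40 = 2 * nxs E + ue` with `ve` the value of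
`v` in the end; get `0 ≤ ue` from `Ch.mono`: `2 * nxs S ≤ 2 * nxs E + bal ms`, so
`pa + 20 + bal ms ≥ pa + 20 + 20 - 2 * nxs E` and `nxs E ≤ 9`, so it is even at least `22`), and
`ve = 2 * nxs E + ue - 40`.  The test: `v ≤ ve ≤ c ≤ cap` since `nxs E ≤ 9`
(`Sp.nine`).  At the end state `att` answers `true`: `ve + 22 ≤ ue` by `nxs E ≤ 9`,
`ue ≤ cap + 22` by `c + 22 = ue + pbn t`, and `spec_sound` with `rst_eq`.  Every ready move satisfies
`1 ≤ m.i + m.k` by `Mv.two` and `comm_all` (or by `Ch`).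
-/

set_option autoImplicit false

namespace Pool.Agent.EC4

theorem lun_two {S E : List W} {ms : List Mo} (h : Ch S ms E) : ∀ m ∈ ms, 2 ≤ m.k := by
  induction h with
  | nil S => intro m hm; exact absurd hm List.not_mem_nil
  | cons h h' ih =>
    intro m hm
    rcases List.mem_cons.1 hm with rfl | hm
    · exact h.two
    · exact ih m hm

theorem lun_ready {S E : List W} {ms : List Mo} (h : Ch S ms E) (m : Mo) (hm : Ready ms m) :
    ([] : List Wr).length + 1 ≤ m.i + m.k := by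
  obtain ⟨l1, l2, h1, _⟩ := hm
  have h2 := lun_two h m (by rw [h1]; simp)
  simp only [List.length_nil]
  omega

theorem fin_gl {E : List W} (h : Fin5 E) : fin (gl E) = true := by
  induction E with
  | nil => rfl
  | cons a r ih =>
    have h1 := h a (List.mem_cons_self)
    have h2 := ih fun w hw => h w (List.mem_cons_of_mem a hw)
    show (Bool.rec false (Bool.rec false (fin (gl r)) (Nat.beq a.q 5)) (Nat.beq a.c 65535) : Bool) =
      true
    rw [rec_and, rec_and, h1.1, h1.2.1, h2]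
    rfl

theorem lun_sound (cap c0 : ℕ) (nxt : ℕ → List Wr → ℕ → Bool) {S E S' : List W} {ms : List Mo}
    {t : List (Bool × ℕ)} {pa c : ℕ} (hC : Ch S ms E) (hS : Sp E t S') (hg : Good t)
    (hc : Cap S') (hz : Nz S) (hlen : S.length = 16) (h10 : 10 ≤ nxs S)
    (hcost : (c : ℤ) + 2 = pa + bal ms + pbn t) (h1 : c ≤ cap) (h0 : c0 ≤ c)
    (hn : nxt c (gl S') (pbn t) = true) :
    lun (fun v => Nat.ble v cap) (att cap c0 nxt) (gl S) pa = true := by
  have hmono := hC.mono hz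
  have h9 := hS.nine hg
  obtain ⟨ue, hue⟩ : ∃ ue : ℕ, (ue : ℤ) = pa + 20 + bal ms :=
    ⟨((pa : ℤ) + 20 + bal ms).toNat, Int.toNat_of_nonneg (by omega)⟩
  have huc : ue + pbn t = c + 22 := by omega
  obtain ⟨ve, hve⟩ : ∃ ve : ℕ, ve + 40 = 2 * nxs E + ue :=
    ⟨2 * nxs E + ue - 40, Nat.sub_add_cancel (by omega)⟩
  have ht : ∀ w ≤ ve, (fun v => Nat.ble v cap) w = true := fun w hw =>
    Nat.ble_eq_true_of_le (by omega)
  have hsa : att cap c0 nxt (gl E) ve ue = true := by
    unfold att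
    rw [rec_and, rec_and, Bool.and_eq_true, Bool.and_eq_true]
    refine ⟨Nat.ble_eq_true_of_le (show ve + 22 ≤ ue by omega), Nat.ble_eq_true_of_le (show ue ≤ cap + 22 by omega),
      ?_⟩
    refine spec_sound hS hc _ _ _ _ _ _ _ rfl (by rw [Nat.zero_add]; exact hg.1)
      (by rw [Nat.zero_add]; exact hg.2) ?_
    intro lo' hlo
    have h2 : rst lo' [] = gl S' := by
      rw [rst_eq, hlo]
      rfl
    have h3 : Nat.add ue (0 + pbn t) = c + 22 := by
      rw [Nat.zero_add]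
      exact huc
    beta_reduce
    rw [rec_and, rec_and, Bool.and_eq_true, Bool.and_eq_true, h2, h3]
    refine ⟨Nat.ble_eq_true_of_le (show c + 22 ≤ cap + 22 by omega),
      Nat.ble_eq_true_of_le (show c0 + 22 ≤ c + 22 by omega), ?_⟩
    have h4 : Nat.sub (c + 22) 22 = c := Nat.add_sub_cancel c 22
    rw [Nat.zero_add]
    show nxt (Nat.sub (c + 22) 22) (gl S') (pbn t) = true
    rw [h4]
    exact hn
  have hE : Cap E := hS.cap hc
  unfold lun
  refine node_step _ _ E ve ue 400 hE hve ht hsa (go_sound _ _ E ve ue hE hve ht hsa 400) ms S [] _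
    _ _ hC hz (by omega) rfl (lun_ready hC) ?_ ?_
  · show 2 * nx (gl S) + pa - 20 + 40 = 2 * nxs S + (pa + 20)
    have : nx (gl S) = nxs S := rfl
    omega
  · show (ue : ℤ) = ((pa + 20 : ℕ) : ℤ) + bal ms
    push_cast
    omega

theorem lun3_sound {S E : List W} {ms : List Mo} {pa : ℕ} (hC : Ch S ms E) (hF : Fin5 E)
    (hz : Nz S) (hlen : S.length = 16) (h10 : 10 ≤ nxs S) : lun3 (gl S) pa = true := by
  have hmono := hC.mono hz
  have h17 := nxs_le E
  have hlen' := hC.len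
  obtain ⟨ue, hue⟩ : ∃ ue : ℕ, (ue : ℤ) = pa + 20 + bal ms :=
    ⟨((pa : ℤ) + 20 + bal ms).toNat, Int.toNat_of_nonneg (by omega)⟩
  obtain ⟨ve, hve⟩ : ∃ ve : ℕ, ve + 40 = 2 * nxs E + ue :=
    ⟨2 * nxs E + ue - 40, Nat.sub_add_cancel (by omega)⟩
  have hE : Cap E := fin5_cap hF
  have hsa : (fun (S : List Wr) (_ _ : ℕ) => fin S) (gl E) ve ue = true := fin_gl hF
  unfold lun3 lun
  refine node_step _ _ E ve ue 400 hE hve (fun _ _ => rfl) hsa
    (go_sound _ _ E ve ue hE hve (fun _ _ => rfl) hsa 400) ms S [] _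
    _ _ hC hz (by omega) rfl (lun_ready hC) ?_ ?_
  · show 2 * nx (gl S) + pa - 20 + 40 = 2 * nxs S + (pa + 20)
    have : nx (gl S) = nxs S := rfl
    omega
  · show (ue : ℤ) = ((pa + 20 : ℕ) : ℤ) + bal ms
    push_cast
    omega

end Pool.Agent.EC4
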