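import Pool.Agent.Lib.MP_ec4eff_co.R5.Evt
import Pool.Agent.Lib.MP_ec4eff_co.R5.Cst

/-!
# A lune (project R5)

Proof plan.  Induction on the number of elements of `N.crit ∩ Set.Ioo a b` (finite by `N.crit_fin`).  If
there is none, `order_between` and `R_between` give the claim with `l' = l`, `S' = S`, `ms = []`, and the
sum is zero by `N.del_zero`.  Otherwise let `c` be the smallest one: nothing happens between `a` and `c`,
then `NF.event` at `c`, then the induction hypothesis for `c`, `b`.  The sum over `Set.Ioo a b` is the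
sum over `Set.Ioo a c` (zero), the term at `c`, and the sum over `Set.Ioo c b`: all these sums are finite
sums over subsets of `N.crit` by `N.del_zero`.
-/

set_option autoImplicit false

namespace Pool.Agent.EC4

theorem lune_app {S S' S'' : List W} {ms ms' : List Mo} (h : Ch S ms S') (h' : Ch S' ms' S'') :
    Ch S (ms ++ ms') S'' := by
  induction h with
  | nil S => exact h'
  | cons h1 _ ih => exact Ch.cons h1 (ih h')

theorem lune_bal (ms ms' : List Mo) : bal (ms ++ ms') = bal ms + bal ms' := by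
  unfold bal
  rw [List.map_append, List.sum_append]

namespace NF

variable (N : NF)

/-- nothing happens between `a` and `b` -/
theorem lune_zero {a b : ℝ} (hsp : ∀ x, a < x → x < b → ¬ N.spx x)
    (hc : ∀ x, a < x → x < b → x ∉ N.crit) : ∑ᶠ x ∈ Set.Ioo a b, N.del x = 0 :=
  finsum_mem_of_eqOn_zero fun x hx => N.del_zero (hsp x hx.1 hx.2) (hc x hx.1 hx.2)

/-- the support of `del` in a lune is finite -/
theorem lune_fin {a b : ℝ} (hsp : ∀ x, a < x → x < b → ¬ N.spx x) :
    (Set.Ioo a b ∩ Function.support N.del).Finite := by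
  refine N.crit_fin.subset ?_
  rintro x ⟨hx, hx'⟩
  by_contra h
  exact hx' (N.del_zero (hsp x hx.1 hx.2) h)

/-- the sum over a lune, split at `c` -/
theorem lune_sum {a b c : ℝ} (hac : a < c) (hcb : c < b)
    (hsp : ∀ x, a < x → x < b → ¬ N.spx x) (hc : ∀ x, a < x → x < c → x ∉ N.crit) :
    ∑ᶠ x ∈ Set.Ioo a b, N.del x = N.del c + ∑ᶠ x ∈ Set.Ioo c b, N.del x := by
  have h1 : Set.Ioo a b = Set.Ioo a c ∪ insert c (Set.Ioo c b) := by
    ext x
    simp only [Set.mem_Ioo, Set.mem_union, Set.mem_insert_iff]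
    constructor
    · rintro ⟨h1, h2⟩
      rcases lt_trichotomy x c with h | h | h
      · exact Or.inl ⟨h1, h⟩
      · exact Or.inr (Or.inl h)
      · exact Or.inr (Or.inr ⟨h, h2⟩)
    · rintro (⟨h1, h2⟩ | h | ⟨h1, h2⟩)
      · exact ⟨h1, h2.trans hcb⟩
      · exact ⟨h ▸ hac, h ▸ hcb⟩
      · exact ⟨hac.trans h1, h2⟩
  have hf1 := N.lune_fin (a := a) (b := c) fun x h h' => hsp x h (h'.trans hcb)
  have hf2 := N.lune_fin (a := c) (b := b) fun x h h' => hsp x (hac.trans h) h'
  have hdis : Disjoint (Set.Ioo a c) (insert c (Set.Ioo c b)) := by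
    rw [Set.disjoint_left]
    rintro x ⟨_, h2⟩ (h | h)
    · exact absurd h2 (by rw [h]; exact lt_irrefl c)
    · exact absurd h2 (not_lt.2 h.1.le)
  have hf3 : (insert c (Set.Ioo c b) ∩ Function.support N.del).Finite := by
    refine ((hf2.insert c)).subset ?_
    rintro x ⟨h | h, h'⟩
    · exact Set.mem_insert_iff.2 (Or.inl h)
    · exact Set.mem_insert_iff.2 (Or.inr ⟨h, h'⟩)
  rw [h1, finsum_mem_union' hdis hf1 hf3,
    N.lune_zero (fun x h h' => hsp x h (h'.trans hcb)) hc, zero_add,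
    finsum_mem_insert' _ (fun h => lt_irrefl c h.1) hf2]

theorem lune_aux (n : ℕ) : ∀ {a b : ℝ}, a < b → (∀ x, a < x → x < b → ¬ N.spx x) →
    (N.crit ∩ Set.Ioo a b).ncard = n →
    ∀ (l : List (Fin 16)) (S : List W), All l → l.Pairwise (N.aft a) →
    List.Forall₂ (N.R (Set.Iic a)) l S →
    ∃ (l' : List (Fin 16)) (S' : List W) (ms : List Mo), All l' ∧ l'.Pairwise (N.bef b) ∧
      List.Forall₂ (N.R (Set.Iio b)) l' S' ∧ Ch S ms S' ∧
      2 * bal ms = ∑ᶠ x ∈ Set.Ioo a b, N.del x := by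
  induction n with
  | zero =>
    intro a b hab hsp hn l S hl ho hS
    have h0 : N.crit ∩ Set.Ioo a b = ∅ :=
      (Set.ncard_eq_zero (N.crit_fin.subset Set.inter_subset_left)).1 hn
    have hc : ∀ x, a < x → x < b → x ∉ N.crit := fun x h h' hx => by
      have : x ∈ N.crit ∩ Set.Ioo a b := ⟨hx, h, h'⟩
      rw [h0] at this
      exact this
    refine ⟨l, S, [], hl, ho.imp fun h => N.order_between hab hc h,
      hS.imp fun i w h => N.R_between hab (fun x h1 h2 => ⟨hc x h1 h2, hsp x h1 h2⟩) h, Ch.nil S,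
      ?_⟩
    rw [N.lune_zero hsp hc]
    rfl
  | succ n ih =>
    intro a b hab hsp hn l S hl ho hS
    have hfin : (N.crit ∩ Set.Ioo a b).Finite := N.crit_fin.subset Set.inter_subset_left
    have hne : (N.crit ∩ Set.Ioo a b).Nonempty := by
      rw [← Set.ncard_pos hfin, hn]
      exact Nat.succ_pos n
    obtain ⟨c, ⟨hcc, hac, hcb⟩, hmin⟩ := Set.exists_min_image _ id hfin hne
    have hc : ∀ x, a < x → x < c → x ∉ N.crit := fun x h h' hx =>
      absurd (hmin x ⟨hx, h, h'.trans hcb⟩) (not_le.2 h')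
    have hsp1 : ∀ x, a < x → x < c → ¬ N.spx x := fun x h h' => hsp x h (h'.trans hcb)
    have hsp2 : ∀ x, c < x → x < b → ¬ N.spx x := fun x h h' => hsp x (hac.trans h) h'
    obtain ⟨l1, S1, ms1, hl1, ho1, hS1, hC1, hb1⟩ := N.event c (hsp c hac hcb) l S hl
      (ho.imp fun h => N.order_between hac hc h)
      (hS.imp fun i w h => N.R_between hac (fun x h1 h2 => ⟨hc x h1 h2, hsp1 x h1 h2⟩) h)
    have hins : N.crit ∩ Set.Ioo a b = insert c (N.crit ∩ Set.Ioo c b) := by
      ext x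
      constructor
      · rintro ⟨hx, h1, h2⟩
        rcases lt_trichotomy x c with h | h | h
        · exact absurd hx (hc x h1 h)
        · exact Or.inl h
        · exact Or.inr ⟨hx, h, h2⟩
      · rintro (h | ⟨hx, h1, h2⟩)
        · rw [h]
          exact ⟨hcc, hac, hcb⟩
        · exact ⟨hx, hac.trans h1, h2⟩
    have hn' : (N.crit ∩ Set.Ioo c b).ncard = n := by
      have h1 := Set.ncard_insert_of_notMem (a := c) (s := N.crit ∩ Set.Ioo c b)
        (fun h => lt_irrefl c h.2.1) (N.crit_fin.subset Set.inter_subset_left)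
      rw [← hins, hn] at h1
      exact (Nat.succ.inj h1).symm
    obtain ⟨l2, S2, ms2, hl2, ho2, hS2, hC2, hb2⟩ := ih hcb hsp2 hn' l1 S1 hl1 ho1 hS1
    refine ⟨l2, S2, ms1 ++ ms2, hl2, ho2, hS2, lune_app hC1 hC2, ?_⟩
    rw [lune_bal, mul_add, hb1, hb2, N.lune_sum hac hcb hsp hc]

theorem lune {a b : ℝ} (hab : a < b) (hsp : ∀ x, a < x → x < b → ¬ N.spx x)
    (l : List (Fin 16)) (S : List W) (hl : All l) (ho : l.Pairwise (N.aft a))
    (hS : List.Forall₂ (N.R (Set.Iic a)) l S) :
    ∃ (l' : List (Fin 16)) (S' : List W) (ms : List Mo), All l' ∧ l'.Pairwise (N.bef b) ∧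
      List.Forall₂ (N.R (Set.Iio b)) l' S' ∧ Ch S ms S' ∧
      2 * bal ms = ∑ᶠ x ∈ Set.Ioo a b, N.del x :=
  N.lune_aux _ hab hsp rfl l S hl ho hS

end NF

end Pool.Agent.EC4
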