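import Pool.Agent.Lib.MP_ec4eff_co.R5.Defs

/-!
# Auxiliary facts for the moves (project R5)

Bits of the masks and the number `mar` of adjacent met pairs.
-/

set_option autoImplicit false

namespace Pool.Agent.EC4

/-! ### bits -/

theorem ma_lor (a b i : ℕ) : (Nat.lor a b).testBit i = (a.testBit i || b.testBit i) :=
  Nat.testBit_or a b i

theorem ma_land (a b i : ℕ) : (Nat.land a b).testBit i = (a.testBit i && b.testBit i) :=
  Nat.testBit_and a b i

theorem ma_msk {B : List W} {w : W} (hw : w ∈ B) (i : ℕ) (hi : w.b.testBit i = true) :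
    (msk B).testBit i = true := by
  induction B with
  | nil => exact absurd hw List.not_mem_nil
  | cons a B ih =>
    have h : msk (a :: B) = Nat.lor a.b (msk B) := rfl
    rw [h, ma_lor, Bool.or_eq_true]
    rcases List.mem_cons.mp hw with h1 | h1
    · left
      rw [← h1]
      exact hi
    · right
      exact ih h1

theorem ma_land_ne {B : List W} {w : W} (hw : w ∈ B) (hb : w.b ≠ 0) (c : ℕ) :
    Nat.land (Nat.lor c (msk B)) w.b ≠ 0 := by
  intro h
  apply hb
  apply Nat.eq_of_testBit_eq
  intro i
  rw [Nat.zero_testBit]
  have h1 : (Nat.land (Nat.lor c (msk B)) w.b).testBit i = false := by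
    rw [h]
    exact Nat.zero_testBit i
  rw [ma_land, ma_lor] at h1
  rcases hw' : w.b.testBit i with _ | _
  · rfl
  · rw [hw', ma_msk hw i hw'] at h1
    simp at h1

/-! ### the new block -/

theorem ma_inn_length (cfg : Bool) (B : List W) : (inn cfg B).length = B.length := by
  unfold inn
  rw [List.length_reverse, List.length_map]

theorem ma_of_inn {cfg : Bool} {B : List W} {x : W} (h : x ∈ inn cfg B) :
    ∃ w ∈ B, upd cfg (msk B) (B.length - 1) w = x := by
  unfold inn at h
  rw [List.mem_reverse, List.mem_map] at h
  exact h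

theorem ma_to_inn {cfg : Bool} {B : List W} {w : W} (h : w ∈ B) :
    upd cfg (msk B) (B.length - 1) w ∈ inn cfg B := by
  unfold inn
  rw [List.mem_reverse]
  exact List.mem_map_of_mem h

/-! ### the number of met adjacent pairs -/

/-- one if `a` has met `b`, else zero -/
def maj (a b : W) : ℕ := if Nat.land a.c b.b = 0 then 0 else 1

/-- the number of adjacent met pairs -/
def mar : List W → ℕ
  | [] => 0
  | a :: r => (match r with | [] => 0 | b :: _ => maj a b) + mar r

theorem mar_nil : mar [] = 0 := rfl

theorem mar_one (a : W) : mar [a] = 0 := rfl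

theorem mar_cons (a b : W) (r : List W) : mar (a :: b :: r) = maj a b + mar (b :: r) := rfl

theorem maj_le (a b : W) : maj a b ≤ 1 := by
  unfold maj
  split_ifs
  · exact Nat.zero_le 1
  · exact le_refl 1

theorem ma_nxs_nil : nxs [] = 1 := rfl

theorem ma_nxs_one (a : W) : nxs [a] = 2 := rfl

theorem ma_nxs_cons (a b : W) (r : List W) : nxs (a :: b :: r) = maj a b + nxs (b :: r) := by
  have h : nxs (a :: b :: r) = (Bool.rec (Nat.succ (nxs (b :: r))) (nxs (b :: r))
      (Nat.beq (Nat.land a.c b.b) 0) : ℕ) := rfl
  rw [h]
  unfold maj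
  by_cases h0 : Nat.land a.c b.b = 0
  · rw [if_pos h0, h0, Nat.zero_add]
    rfl
  · rw [if_neg h0]
    have h1 : Nat.beq (Nat.land a.c b.b) 0 = false := by
      rw [Bool.eq_false_iff]
      intro h2
      exact h0 (Nat.eq_of_beq_eq_true h2)
    rw [h1]
    show Nat.succ (nxs (b :: r)) = 1 + nxs (b :: r)
    rw [Nat.add_comm]

theorem ma_nxs_eq (a : W) (r : List W) : nxs (a :: r) = mar (a :: r) + 2 := by
  induction r generalizing a with
  | nil => rfl
  | cons b r ih => rw [ma_nxs_cons, mar_cons, ih b, Nat.add_assoc]

theorem ma_nxs_eq' (S : List W) (h : S ≠ []) : nxs S = mar S + 2 := by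
  cases S with
  | nil => exact absurd rfl h
  | cons a r => exact ma_nxs_eq a r

theorem mar_app_le (l r : List W) : mar (l ++ r) ≤ mar l + 1 + mar r := by
  induction l with
  | nil =>
    rw [List.nil_append, mar_nil]
    omega
  | cons a l ih =>
    cases l with
    | nil =>
      cases r with
      | nil => exact Nat.zero_le _
      | cons b r =>
        show maj a b + mar (b :: r) ≤ mar [a] + 1 + mar (b :: r)
        rw [mar_one]
        have := maj_le a b
        omega
    | cons b l =>
      show maj a b + mar ((b :: l) ++ r) ≤ maj a b + mar (b :: l) + 1 + mar r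
      omega

theorem le_mar_app (l r : List W) : mar l + mar r ≤ mar (l ++ r) := by
  induction l with
  | nil =>
    rw [List.nil_append, mar_nil, Nat.zero_add]
  | cons a l ih =>
    cases l with
    | nil =>
      cases r with
      | nil => exact Nat.zero_le _
      | cons b r =>
        show mar [a] + mar (b :: r) ≤ maj a b + mar (b :: r)
        rw [mar_one]
        omega
    | cons b l =>
      show maj a b + mar (b :: l) + mar r ≤ maj a b + mar ((b :: l) ++ r)
      omega

theorem mar_unmet (B : List W) (hB : B.Pairwise W.unmet) : mar B = 0 := by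
  induction B with
  | nil => rfl
  | cons a B ih =>
    rw [List.pairwise_cons] at hB
    cases B with
    | nil => rfl
    | cons b B =>
      rw [mar_cons, ih hB.2]
      have h1 : Nat.land a.c b.b = 0 := hB.1 b List.mem_cons_self
      unfold maj
      rw [if_pos h1]

theorem mar_met (B : List W) (h : ∀ a ∈ B, ∀ b ∈ B, Nat.land a.c b.b ≠ 0) :
    B.length ≤ mar B + 1 := by
  induction B with
  | nil => exact Nat.zero_le _
  | cons a B ih =>
    cases B with
    | nil => exact le_refl 1
    | cons b B =>
      rw [mar_cons]
      have h1 : maj a b = 1 := by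
        unfold maj
        exact if_neg (h a List.mem_cons_self b (List.mem_cons_of_mem a List.mem_cons_self))
      have h2 := ih (fun x hx y hy => h x (List.mem_cons_of_mem a hx) y (List.mem_cons_of_mem a hy))
      rw [h1, List.length_cons]
      omega

theorem mar_inn (cfg : Bool) (B : List W) (hz : Nz B) : B.length ≤ mar (inn cfg B) + 1 := by
  have h := mar_met (inn cfg B) (fun x hx y hy => by
    obtain ⟨w, _, rfl⟩ := ma_of_inn hx
    obtain ⟨z, hz1, rfl⟩ := ma_of_inn hy
    exact ma_land_ne hz1 (hz z hz1) w.c)
  rw [ma_inn_length] at h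
  exact h

end Pool.Agent.EC4
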