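import Pool.Agent.Lib.MP_ec4eff_co.R5.Defs

/-!
# The steps of the program inside a lune, part 1 (project R5)

General facts: statuses, the number of met gaps, the unfolding of the program.
-/

set_option autoImplicit false

namespace Pool.Agent.EC4

namespace MvA
end MvA

open MvA

/-- the statuses of the wires `l` if the next wire above is `c` -/
noncomputable def glp : List W → W → List Wr
  | [], _ => []
  | [a], c => [⟨Nat.beq (Nat.land a.c c.b) 0, a.b, a.c, a.q, a.e⟩]
  | a :: b :: l, c => ⟨Nat.beq (Nat.land a.c b.b) 0, a.b, a.c, a.q, a.e⟩ :: glp (b :: l) c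

/-- number of wires with the status `false` -/
def cf (l : List Wr) : ℕ := (l.filter fun w => !w.g).length

theorem gl_append (l : List W) (c : W) (r : List W) : gl (l ++ c :: r) = glp l c ++ gl (c :: r) :=
    by
  induction l with
  | nil => rfl
  | cons a l ih =>
    cases l with
    | nil => rfl
    | cons b l =>
      have h1 : gl ((a :: b :: l) ++ c :: r) =
          ⟨Nat.beq (Nat.land a.c b.b) 0, a.b, a.c, a.q, a.e⟩ :: gl ((b :: l) ++ c :: r) := rfl
      rw [h1, ih]
      rfl

theorem nx_eq (l : List Wr) : nx l = cf l + 1 := by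
  induction l with
  | nil => rfl
  | cons a l ih =>
    have h1 : nx (a :: l) = (Bool.rec (Nat.succ (nx l)) (nx l) a.g : ℕ) := rfl
    rw [h1, ih]
    cases h : a.g <;> simp [cf, h]

theorem MvA.cf_append (l r : List Wr) : cf (l ++ r) = cf l + cf r := by
  simp [cf]

/-- 1 for the status `false`, 0 for the status `true` -/
def MvA.bn (g : Bool) : ℕ := cond g 0 1

theorem MvA.cf_cons (a : Wr) (r : List Wr) : cf (a :: r) = bn a.g + cf r := by
  cases h : a.g <;> simp [cf, h, bn, Nat.add_comm]

theorem MvA.cf_le (l : List Wr) : cf l ≤ l.length := by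
  unfold cf
  exact List.length_filter_le _ _

theorem MvA.gl_length (S : List W) : (gl S).length = S.length := by
  induction S with
  | nil => rfl
  | cons a S ih =>
    have h : (gl (a :: S)).length = (gl S).length + 1 := rfl
    rw [h, ih, List.length_cons]

theorem glp_length (l : List W) (c : W) : (glp l c).length = l.length := by
  induction l with
  | nil => rfl
  | cons a l ih =>
    cases l with
    | nil => rfl
    | cons b l =>
      have h1 : (glp (a :: b :: l) c).length = (glp (b :: l) c).length + 1 := rfl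
      rw [h1, ih, List.length_cons (a := a)]

theorem MvA.glp_concat (l : List W) (p c : W) :
    glp (l ++ [p]) c = glp l p ++ [⟨Nat.beq (Nat.land p.c c.b) 0, p.b, p.c, p.q, p.e⟩] := by
  induction l with
  | nil => rfl
  | cons a l ih =>
    cases l with
    | nil => rfl
    | cons b l =>
      have h1 : glp ((a :: b :: l) ++ [p]) c =
          ⟨Nat.beq (Nat.land a.c b.b) 0, a.b, a.c, a.q, a.e⟩ :: glp ((b :: l) ++ [p]) c := rfl
      rw [h1, ih]
      rfl

theorem MvA.inc_eq (o n : Bool) : inc o n + 2 * bn o = 2 + 2 * bn n := by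
  cases o <;> cases n <;> rfl

theorem mv_eq (ih : List Wr → List Wr → ℕ → ℕ → ℕ → Bool) (tst : ℕ → Bool)
    (sa : List Wr → ℕ → ℕ → Bool) (l : List W) (a z : W) (lo : List Wr) (z' : Wr) (x' : List Wr)
    (v u : ℕ) (hlo : lo.reverse = glp l a) (hz : er z' = z) :
    ∃ (lo2 : List Wr) (v2 : ℕ), mv ih tst sa lo z' x' v u = node ih tst sa lo2 (z' :: x') v2 u ∧
      lo2.reverse = glp l z ∧ v2 + 2 * cf (glp l a) = v + 2 + 2 * cf (glp l z) := by
  rcases List.eq_nil_or_concat l with rfl | ⟨l', p, rfl⟩
  · have h0 : lo = [] := by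
      have h1 : glp [] a = [] := rfl
      rw [h1] at hlo
      exact List.reverse_eq_nil_iff.mp hlo
    subst h0
    refine ⟨[], v + 2, rfl, rfl, ?_⟩
    have h1 : glp [] a = [] := rfl
    have h2 : glp [] z = [] := rfl
    rw [h1, h2]
  · rw [List.concat_eq_append] at hlo ⊢
    rw [glp_concat] at hlo
    cases lo with
    | nil => simp at hlo
    | cons y lo' =>
      rw [List.reverse_cons] at hlo
      have h1 := List.append_inj' hlo rfl
      have h2 : y = ⟨Nat.beq (Nat.land p.c a.b) 0, p.b, p.c, p.q, p.e⟩ := by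
        have := h1.2
        simpa using this
      refine ⟨stg (ok y z') y :: lo', v + inc y.g (ok y z'), rfl, ?_, ?_⟩
      · rw [List.reverse_cons, h1.1, glp_concat, h2, ← hz]
        rfl
      · rw [glp_concat, glp_concat, cf_append, cf_append, cf_cons, cf_cons]
        have h3 := inc_eq y.g (ok y z')
        have h4 : ok y z' = Nat.beq (Nat.land p.c z.b) 0 := by
          rw [h2, ← hz]
          rfl
        have h5 : y.g = Nat.beq (Nat.land p.c a.b) 0 := by rw [h2]
        have h6 : cf [] = 0 := rfl
        rw [h6]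
        rw [h4, h5] at h3 ⊢
        simp only
        omega

theorem MvA.beq_t {x : ℕ} (h : x = 0) : Nat.beq x 0 = true := by
  rw [h]; rfl

theorem MvA.beq_f {x : ℕ} (h : x ≠ 0) : Nat.beq x 0 = false := by
  cases x with
  | zero => exact absurd rfl h
  | succ n => rfl

theorem MvA.land_lor_f {c M y : ℕ} (hy : y ≠ 0) (h : Nat.land M y = y) :
    Nat.beq (Nat.land (Nat.lor c M) y) 0 = false := by
  apply beq_f
  intro h0
  apply hy
  rw [← h]
  have h0' : (c ||| M) &&& y = 0 := h0
  have : M &&& y = 0 := by
    apply Nat.eq_of_testBit_eq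
    intro i
    have h3 : ((c ||| M) &&& y).testBit i = (0 : ℕ).testBit i := by rw [h0']
    simp only [Nat.testBit_and, Nat.testBit_or, Nat.zero_testBit] at h3 ⊢
    cases h1 : M.testBit i <;> cases h2 : y.testBit i <;> simp_all
  exact this

theorem MvA.land_lor_l (x y : ℕ) : Nat.land (Nat.lor x y) x = x := by
  apply Nat.eq_of_testBit_eq
  intro i
  have h : (Nat.land (Nat.lor x y) x) = ((x ||| y) &&& x) := rfl
  rw [h]
  simp only [Nat.testBit_and, Nat.testBit_or]
  cases x.testBit i <;> cases y.testBit i <;> rfl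

theorem MvA.land_lor_r {x M y : ℕ} (h : Nat.land M y = y) : Nat.land (Nat.lor x M) y = y := by
  apply Nat.eq_of_testBit_eq
  intro i
  have h3 : (M &&& y).testBit i = y.testBit i := by
    have : M &&& y = y := h
    rw [this]
  have h' : (Nat.land (Nat.lor x M) y) = ((x ||| M) &&& y) := rfl
  rw [h']
  simp only [Nat.testBit_and, Nat.testBit_or] at h3 ⊢
  cases h1 : x.testBit i <;> cases h2 : M.testBit i <;> cases h4 : y.testBit i <;> simp_all

end Pool.Agent.EC4
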