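import Pool.Agent.Lib.MP_ec4eff_co.R5.MvU

/-!
# The steps of the program inside a lune, part 2 (project R5)

The five kinds of moves: blocks of 2, 3, 4, 5 wires and configuration blocks.
-/

set_option autoImplicit false

namespace Pool.Agent.EC4

open MvA

theorem MvA.case2 (ih : List Wr → List Wr → ℕ → ℕ → ℕ → Bool) (tst : ℕ → Bool)
    (sa : List Wr → ℕ → ℕ → Bool) (l r : List W) (a b : W) (ha : a.b ≠ 0)
    (ea : a.e ≤ 3) (eb : b.e ≤ 3)
    (uab : a.unmet b)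
    (lo : List Wr) (dd v u : ℕ) (hlo : lo.reverse = glp l a) (hdd : dd ≤ 1)
    (hv : v + 40 = 2 * nxs (l ++ ([a, b] ++ r)) + u)
    (hn : Nxt ih tst sa (l ++ (inn false [a, b] ++ r)) l.length (u + 2)) :
    g2 ih tst sa lo (ws true a) (ws (gst b.c r) b :: gl r) dd v u = true := by
  have hinn : inn false [a, b] = [upd false (Nat.lor a.b b.b) 1 b,
      upd false (Nat.lor a.b b.b) 1 a] := by
    simp [inn, msk_cons, msk_nil]
  rw [hinn] at hn
  refine g2_t ih tst sa lo _ _ _ dd v u ?_ hdd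
  unfold gte2
  have f0 : (ws true a).e ≤ 3 := ea
  have f1 : (ws (gst b.c r) b).e ≤ 3 := eb
  rw [Nat.ble_eq_true_of_le f0, Nat.ble_eq_true_of_le f1]
  have g0 := gst_upd false (Nat.lor a.b b.b) 1 b (upd false (Nat.lor a.b b.b) 1 a)
    (r) ha (land_lor_l _ _)
  have k0 : gst a.c (b :: r) = true := beq_t uab
  refine mv_sound ih tst sa l a (upd false (Nat.lor a.b b.b) 1 b) [b]
    [upd false (Nat.lor a.b b.b) 1 a] r lo _ _ v u _ (u + 2) hlo rfl ?_ hv ?_ hn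
  · simp only [List.cons_append, List.nil_append, gl_ws, g0, gp_eq]
    rfl
  · simp only [List.cons_append, List.nil_append, gl_ws, g0, gp_eq, k0, cf_cons]
    simp only [ws, upd]
    have h := inc_eq (gst b.c r) (gst (Nat.lor a.c (Nat.lor a.b b.b)) r)
    have h0 : bn false = 1 := rfl
    have h1 : bn true = 0 := rfl
    rw [h0, h1]
    simp only [Nat.add_eq]
    omega

theorem MvA.case3 (ih : List Wr → List Wr → ℕ → ℕ → ℕ → Bool) (tst : ℕ → Bool)
    (sa : List Wr → ℕ → ℕ → Bool) (l r : List W) (a b c : W) (ha : a.b ≠ 0) (hb : b.b ≠ 0)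
    (ea : a.e ≤ 2) (eb : b.e ≤ 2) (ec : c.e ≤ 2)
    (uab : a.unmet b) (uac : a.unmet c) (ubc : b.unmet c)
    (lo : List Wr) (dd v u : ℕ) (hlo : lo.reverse = glp l a) (hdd : dd ≤ 2)
    (hv : v + 40 = 2 * nxs (l ++ ([a, b, c] ++ r)) + u)
    (hn : Nxt ih tst sa (l ++ (inn false [a, b, c] ++ r)) l.length (u + 6)) :
    g2 ih tst sa lo (ws true a) (ws true b :: ws (gst c.c r) c :: gl r) dd v u = true := by
  have hinn : inn false [a, b, c] = [upd false (Nat.lor a.b (Nat.lor b.b c.b)) 2 c,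
      upd false (Nat.lor a.b (Nat.lor b.b c.b)) 2 b,
      upd false (Nat.lor a.b (Nat.lor b.b c.b)) 2 a] := by
    simp [inn, msk_cons, msk_nil]
  rw [hinn] at hn
  refine g2_g ih tst sa lo _ _ _ dd v u ?_ rfl
  refine g3_t ih tst sa lo _ _ _ _ dd v u (beq_t uac) ?_ hdd
  unfold gte3
  have f0 : (ws true a).e ≤ 2 := ea
  have f1 : (ws true b).e ≤ 2 := eb
  have f2 : (ws (gst c.c r) c).e ≤ 2 := ec
  rw [Nat.ble_eq_true_of_le f0, Nat.ble_eq_true_of_le f1, Nat.ble_eq_true_of_le f2]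
  have g0 := gst_upd false (Nat.lor a.b (Nat.lor b.b c.b)) 2 c (upd false (Nat.lor a.b (Nat.lor b.b
      c.b)) 2 b)
    (upd false (Nat.lor a.b (Nat.lor b.b c.b)) 2 a :: r) hb (land_lor_r (land_lor_l _ _))
  have g1 := gst_upd false (Nat.lor a.b (Nat.lor b.b c.b)) 2 b (upd false (Nat.lor a.b (Nat.lor b.b
      c.b)) 2 a)
    (r) ha (land_lor_l _ _)
  have k0 : gst a.c (b :: c :: r) = true := beq_t uab
  have k1 : gst b.c (c :: r) = true := beq_t ubc
  refine mv_sound ih tst sa l a (upd false (Nat.lor a.b (Nat.lor b.b c.b)) 2 c) [b, c]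
    [upd false (Nat.lor a.b (Nat.lor b.b c.b)) 2 b, upd false (Nat.lor a.b (Nat.lor b.b c.b)) 2 a]
        r lo _ _ v u _ (u + 6) hlo rfl ?_ hv ?_ hn
  · simp only [List.cons_append, List.nil_append, gl_ws, g0, g1, gp_eq]
    rfl
  · simp only [List.cons_append, List.nil_append, gl_ws, g0, g1, gp_eq, k0, k1, cf_cons]
    simp only [ws, upd]
    have h := inc_eq (gst c.c r) (gst (Nat.lor a.c (Nat.lor a.b (Nat.lor b.b c.b))) r)
    have h0 : bn false = 1 := rfl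
    have h1 : bn true = 0 := rfl
    rw [h0, h1]
    simp only [Nat.add_eq]
    omega

theorem MvA.case4q (ih : List Wr → List Wr → ℕ → ℕ → ℕ → Bool) (tst : ℕ → Bool)
    (sa : List Wr → ℕ → ℕ → Bool) (l r : List W) (a b c d : W) (ha : a.b ≠ 0) (hb : b.b ≠ 0) (hc :
        c.b ≠ 0)
    (ea : a.q ≤ 4) (eb : b.q ≤ 4) (ec : c.q ≤ 4) (ed : d.q ≤ 4)
    (uab : a.unmet b) (uac : a.unmet c) (ubc : b.unmet c) (uad : a.unmet d) (ubd : b.unmet d) (ucd
        : c.unmet d)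
    (lo : List Wr) (dd v u : ℕ) (hlo : lo.reverse = glp l a) (hdd : dd ≤ 3) (hu : 2 ≤ u)
    (hv : v + 40 = 2 * nxs (l ++ ([a, b, c, d] ++ r)) + u)
    (hn : Nxt ih tst sa (l ++ (inn true [a, b, c, d] ++ r)) l.length (u - 2)) :
    g2 ih tst sa lo (ws true a) (ws true b :: ws true c :: ws (gst d.c r) d :: gl r) dd v u = true
        := by
  have hinn : inn true [a, b, c, d] = [upd true (Nat.lor a.b (Nat.lor b.b (Nat.lor c.b d.b))) 3 d,
      upd true (Nat.lor a.b (Nat.lor b.b (Nat.lor c.b d.b))) 3 c,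
      upd true (Nat.lor a.b (Nat.lor b.b (Nat.lor c.b d.b))) 3 b,
      upd true (Nat.lor a.b (Nat.lor b.b (Nat.lor c.b d.b))) 3 a] := by
    simp [inn, msk_cons, msk_nil]
  rw [hinn] at hn
  refine g2_g ih tst sa lo _ _ _ dd v u ?_ rfl
  refine g3_g ih tst sa lo _ _ _ _ dd v u (beq_t uac) ?_ rfl
  refine g4_t ih tst sa lo _ _ _ _ _ dd v u (beq_t uad) (beq_t ubd) (Or.inl ?_) hdd
  unfold gtq4
  have f0 : (ws true a).q ≤ 4 := ea
  have f1 : (ws true b).q ≤ 4 := eb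
  have f2 : (ws true c).q ≤ 4 := ec
  have f3 : (ws (gst d.c r) d).q ≤ 4 := ed
  rw [Nat.ble_eq_true_of_le f0, Nat.ble_eq_true_of_le f1, Nat.ble_eq_true_of_le f2,
      Nat.ble_eq_true_of_le f3]
  have g0 := gst_upd true (Nat.lor a.b (Nat.lor b.b (Nat.lor c.b d.b))) 3 d (upd true (Nat.lor a.b
      (Nat.lor b.b (Nat.lor c.b d.b))) 3 c)
    (upd true (Nat.lor a.b (Nat.lor b.b (Nat.lor c.b d.b))) 3 b :: upd true (Nat.lor a.b (Nat.lor
        b.b (Nat.lor c.b d.b))) 3 a :: r) hc (land_lor_r (land_lor_r (land_lor_l _ _)))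
  have g1 := gst_upd true (Nat.lor a.b (Nat.lor b.b (Nat.lor c.b d.b))) 3 c (upd true (Nat.lor a.b
      (Nat.lor b.b (Nat.lor c.b d.b))) 3 b)
    (upd true (Nat.lor a.b (Nat.lor b.b (Nat.lor c.b d.b))) 3 a :: r) hb (land_lor_r (land_lor_l _
        _))
  have g2 := gst_upd true (Nat.lor a.b (Nat.lor b.b (Nat.lor c.b d.b))) 3 b (upd true (Nat.lor a.b
      (Nat.lor b.b (Nat.lor c.b d.b))) 3 a)
    (r) ha (land_lor_l _ _)
  have k0 : gst a.c (b :: c :: d :: r) = true := beq_t uab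
  have k1 : gst b.c (c :: d :: r) = true := beq_t ubc
  have k2 : gst c.c (d :: r) = true := beq_t ucd
  refine mv_sound ih tst sa l a (upd true (Nat.lor a.b (Nat.lor b.b (Nat.lor c.b d.b))) 3 d) [b, c,
      d]
    [upd true (Nat.lor a.b (Nat.lor b.b (Nat.lor c.b d.b))) 3 c, upd true (Nat.lor a.b (Nat.lor b.b
        (Nat.lor c.b d.b))) 3 b, upd true (Nat.lor a.b (Nat.lor b.b (Nat.lor c.b d.b))) 3 a] r lo _
        _ v u _ (u - 2) hlo rfl ?_ hv ?_ hn
  · simp only [List.cons_append, List.nil_append, gl_ws, g0, g1, g2, gp_eq]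
    rfl
  · simp only [List.cons_append, List.nil_append, gl_ws, g0, g1, g2, gp_eq, k0, k1, k2, cf_cons]
    simp only [ws, upd]
    have h := inc_eq (gst d.c r) (gst (Nat.lor a.c (Nat.lor a.b (Nat.lor b.b (Nat.lor c.b d.b)))) r)
    have h0 : bn false = 1 := rfl
    have h1 : bn true = 0 := rfl
    rw [h0, h1]
    simp only [Nat.add_eq]
    omega

theorem MvA.case4 (ih : List Wr → List Wr → ℕ → ℕ → ℕ → Bool) (tst : ℕ → Bool)
    (sa : List Wr → ℕ → ℕ → Bool) (l r : List W) (a b c d : W) (ha : a.b ≠ 0) (hb : b.b ≠ 0) (hc :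
        c.b ≠ 0)
    (ea : a.e ≤ 1) (eb : b.e ≤ 1) (ec : c.e ≤ 1) (ed : d.e ≤ 1)
    (uab : a.unmet b) (uac : a.unmet c) (ubc : b.unmet c) (uad : a.unmet d) (ubd : b.unmet d) (ucd
        : c.unmet d)
    (lo : List Wr) (dd v u : ℕ) (hlo : lo.reverse = glp l a) (hdd : dd ≤ 3)
    (hv : v + 40 = 2 * nxs (l ++ ([a, b, c, d] ++ r)) + u)
    (hn : Nxt ih tst sa (l ++ (inn false [a, b, c, d] ++ r)) l.length (u + 12)) :
    g2 ih tst sa lo (ws true a) (ws true b :: ws true c :: ws (gst d.c r) d :: gl r) dd v u = true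
        := by
  have hinn : inn false [a, b, c, d] = [upd false (Nat.lor a.b (Nat.lor b.b (Nat.lor c.b d.b))) 3 d,
      upd false (Nat.lor a.b (Nat.lor b.b (Nat.lor c.b d.b))) 3 c,
      upd false (Nat.lor a.b (Nat.lor b.b (Nat.lor c.b d.b))) 3 b,
      upd false (Nat.lor a.b (Nat.lor b.b (Nat.lor c.b d.b))) 3 a] := by
    simp [inn, msk_cons, msk_nil]
  rw [hinn] at hn
  refine g2_g ih tst sa lo _ _ _ dd v u ?_ rfl
  refine g3_g ih tst sa lo _ _ _ _ dd v u (beq_t uac) ?_ rfl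
  refine g4_t ih tst sa lo _ _ _ _ _ dd v u (beq_t uad) (beq_t ubd) (Or.inr ?_) hdd
  unfold gte4
  have f0 : (ws true a).e ≤ 1 := ea
  have f1 : (ws true b).e ≤ 1 := eb
  have f2 : (ws true c).e ≤ 1 := ec
  have f3 : (ws (gst d.c r) d).e ≤ 1 := ed
  rw [Nat.ble_eq_true_of_le f0, Nat.ble_eq_true_of_le f1, Nat.ble_eq_true_of_le f2,
      Nat.ble_eq_true_of_le f3]
  have g0 := gst_upd false (Nat.lor a.b (Nat.lor b.b (Nat.lor c.b d.b))) 3 d (upd false (Nat.lor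
      a.b (Nat.lor b.b (Nat.lor c.b d.b))) 3 c)
    (upd false (Nat.lor a.b (Nat.lor b.b (Nat.lor c.b d.b))) 3 b :: upd false (Nat.lor a.b (Nat.lor
        b.b (Nat.lor c.b d.b))) 3 a :: r) hc (land_lor_r (land_lor_r (land_lor_l _ _)))
  have g1 := gst_upd false (Nat.lor a.b (Nat.lor b.b (Nat.lor c.b d.b))) 3 c (upd false (Nat.lor
      a.b (Nat.lor b.b (Nat.lor c.b d.b))) 3 b)
    (upd false (Nat.lor a.b (Nat.lor b.b (Nat.lor c.b d.b))) 3 a :: r) hb (land_lor_r (land_lor_l _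
        _))
  have g2 := gst_upd false (Nat.lor a.b (Nat.lor b.b (Nat.lor c.b d.b))) 3 b (upd false (Nat.lor
      a.b (Nat.lor b.b (Nat.lor c.b d.b))) 3 a)
    (r) ha (land_lor_l _ _)
  have k0 : gst a.c (b :: c :: d :: r) = true := beq_t uab
  have k1 : gst b.c (c :: d :: r) = true := beq_t ubc
  have k2 : gst c.c (d :: r) = true := beq_t ucd
  refine mv_sound ih tst sa l a (upd false (Nat.lor a.b (Nat.lor b.b (Nat.lor c.b d.b))) 3 d) [b,
      c, d]
    [upd false (Nat.lor a.b (Nat.lor b.b (Nat.lor c.b d.b))) 3 c, upd false (Nat.lor a.b (Nat.lor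
        b.b (Nat.lor c.b d.b))) 3 b, upd false (Nat.lor a.b (Nat.lor b.b (Nat.lor c.b d.b))) 3 a] r
        lo _ _ v u _ (u + 12) hlo rfl ?_ hv ?_ hn
  · simp only [List.cons_append, List.nil_append, gl_ws, g0, g1, g2, gp_eq]
    rfl
  · simp only [List.cons_append, List.nil_append, gl_ws, g0, g1, g2, gp_eq, k0, k1, k2, cf_cons]
    simp only [ws, upd]
    have h := inc_eq (gst d.c r) (gst (Nat.lor a.c (Nat.lor a.b (Nat.lor b.b (Nat.lor c.b d.b)))) r)
    have h0 : bn false = 1 := rfl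
    have h1 : bn true = 0 := rfl
    rw [h0, h1]
    simp only [Nat.add_eq]
    omega

theorem MvA.case5 (ih : List Wr → List Wr → ℕ → ℕ → ℕ → Bool) (tst : ℕ → Bool)
    (sa : List Wr → ℕ → ℕ → Bool) (l r : List W) (a b c d x : W) (ha : a.b ≠ 0) (hb : b.b ≠ 0) (hc
        : c.b ≠ 0) (hd : d.b ≠ 0)
    (ea : a.e ≤ 0) (eb : b.e ≤ 0) (ec : c.e ≤ 0) (ed : d.e ≤ 0) (ex : x.e ≤ 0)
    (uab : a.unmet b) (uac : a.unmet c) (ubc : b.unmet c) (uad : a.unmet d) (ubd : b.unmet d) (ucd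
        : c.unmet d) (uax : a.unmet x) (ubx : b.unmet x) (ucx : c.unmet x) (udx : d.unmet x)
    (lo : List Wr) (dd v u : ℕ) (hlo : lo.reverse = glp l a) (hdd : dd ≤ 4)
    (hv : v + 40 = 2 * nxs (l ++ ([a, b, c, d, x] ++ r)) + u)
    (hn : Nxt ih tst sa (l ++ (inn false [a, b, c, d, x] ++ r)) l.length (u + 20)) :
    g2 ih tst sa lo (ws true a) (ws true b :: ws true c :: ws true d :: ws (gst x.c r) x :: gl r)
        dd v u = true := by
  have hinn : inn false [a, b, c, d, x] = [upd false (Nat.lor a.b (Nat.lor b.b (Nat.lor c.b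
      (Nat.lor d.b x.b)))) 4 x,
      upd false (Nat.lor a.b (Nat.lor b.b (Nat.lor c.b (Nat.lor d.b x.b)))) 4 d,
      upd false (Nat.lor a.b (Nat.lor b.b (Nat.lor c.b (Nat.lor d.b x.b)))) 4 c,
      upd false (Nat.lor a.b (Nat.lor b.b (Nat.lor c.b (Nat.lor d.b x.b)))) 4 b,
      upd false (Nat.lor a.b (Nat.lor b.b (Nat.lor c.b (Nat.lor d.b x.b)))) 4 a] := by
    simp [inn, msk_cons, msk_nil]
  rw [hinn] at hn
  refine g2_g ih tst sa lo _ _ _ dd v u ?_ rfl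
  refine g3_g ih tst sa lo _ _ _ _ dd v u (beq_t uac) ?_ rfl
  refine g4_g ih tst sa lo _ _ _ _ _ dd v u (beq_t uad) (beq_t ubd) ?_ rfl
  refine g5_t ih tst sa lo _ _ _ _ _ _ dd v u (beq_t uax) (beq_t ubx) (beq_t ucx) ?_ hdd
  unfold gte5
  have f0 : (ws true a).e ≤ 0 := ea
  have f1 : (ws true b).e ≤ 0 := eb
  have f2 : (ws true c).e ≤ 0 := ec
  have f3 : (ws true d).e ≤ 0 := ed
  have f4 : (ws (gst x.c r) x).e ≤ 0 := ex
  rw [Nat.ble_eq_true_of_le f0, Nat.ble_eq_true_of_le f1, Nat.ble_eq_true_of_le f2,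
      Nat.ble_eq_true_of_le f3, Nat.ble_eq_true_of_le f4]
  have g0 := gst_upd false (Nat.lor a.b (Nat.lor b.b (Nat.lor c.b (Nat.lor d.b x.b)))) 4 x (upd
      false (Nat.lor a.b (Nat.lor b.b (Nat.lor c.b (Nat.lor d.b x.b)))) 4 d)
    (upd false (Nat.lor a.b (Nat.lor b.b (Nat.lor c.b (Nat.lor d.b x.b)))) 4 c :: upd false
        (Nat.lor a.b (Nat.lor b.b (Nat.lor c.b (Nat.lor d.b x.b)))) 4 b :: upd false (Nat.lor a.b
        (Nat.lor b.b (Nat.lor c.b (Nat.lor d.b x.b)))) 4 a :: r) hd (land_lor_r (land_lor_r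
        (land_lor_r (land_lor_l _ _))))
  have g1 := gst_upd false (Nat.lor a.b (Nat.lor b.b (Nat.lor c.b (Nat.lor d.b x.b)))) 4 d (upd
      false (Nat.lor a.b (Nat.lor b.b (Nat.lor c.b (Nat.lor d.b x.b)))) 4 c)
    (upd false (Nat.lor a.b (Nat.lor b.b (Nat.lor c.b (Nat.lor d.b x.b)))) 4 b :: upd false
        (Nat.lor a.b (Nat.lor b.b (Nat.lor c.b (Nat.lor d.b x.b)))) 4 a :: r) hc (land_lor_r
        (land_lor_r (land_lor_l _ _)))
  have g2 := gst_upd false (Nat.lor a.b (Nat.lor b.b (Nat.lor c.b (Nat.lor d.b x.b)))) 4 c (upd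
      false (Nat.lor a.b (Nat.lor b.b (Nat.lor c.b (Nat.lor d.b x.b)))) 4 b)
    (upd false (Nat.lor a.b (Nat.lor b.b (Nat.lor c.b (Nat.lor d.b x.b)))) 4 a :: r) hb (land_lor_r
        (land_lor_l _ _))
  have g3 := gst_upd false (Nat.lor a.b (Nat.lor b.b (Nat.lor c.b (Nat.lor d.b x.b)))) 4 b (upd
      false (Nat.lor a.b (Nat.lor b.b (Nat.lor c.b (Nat.lor d.b x.b)))) 4 a)
    (r) ha (land_lor_l _ _)
  have k0 : gst a.c (b :: c :: d :: x :: r) = true := beq_t uab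
  have k1 : gst b.c (c :: d :: x :: r) = true := beq_t ubc
  have k2 : gst c.c (d :: x :: r) = true := beq_t ucd
  have k3 : gst d.c (x :: r) = true := beq_t udx
  refine mv_sound ih tst sa l a (upd false (Nat.lor a.b (Nat.lor b.b (Nat.lor c.b (Nat.lor d.b
      x.b)))) 4 x) [b, c, d, x]
    [upd false (Nat.lor a.b (Nat.lor b.b (Nat.lor c.b (Nat.lor d.b x.b)))) 4 d, upd false (Nat.lor
        a.b (Nat.lor b.b (Nat.lor c.b (Nat.lor d.b x.b)))) 4 c, upd false (Nat.lor a.b (Nat.lor b.b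
        (Nat.lor c.b (Nat.lor d.b x.b)))) 4 b, upd false (Nat.lor a.b (Nat.lor b.b (Nat.lor c.b
        (Nat.lor d.b x.b)))) 4 a] r lo _ _ v u _ (u + 20) hlo rfl ?_ hv ?_ hn
  · simp only [List.cons_append, List.nil_append, gl_ws, g0, g1, g2, g3, gp_eq]
    rfl
  · simp only [List.cons_append, List.nil_append, gl_ws, g0, g1, g2, g3, gp_eq, k0, k1, k2, k3,
      cf_cons]
    simp only [ws, upd]
    have h := inc_eq (gst x.c r) (gst (Nat.lor a.c (Nat.lor a.b (Nat.lor b.b (Nat.lor c.b (Nat.lor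
        d.b x.b))))) r)
    have h0 : bn false = 1 := rfl
    have h1 : bn true = 0 := rfl
    rw [h0, h1]
    simp only [Nat.add_eq]
    omega

end Pool.Agent.EC4
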