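import Pool.Agent.Lib.MP_ec4eff_co.R5.MvA

/-!
# The steps of the program inside a lune, part 1b (project R5)

The unfolding of the program and the common end of all cases.
-/

set_option autoImplicit false

namespace Pool.Agent.EC4

open MvA

/-- the mask of a block -/
theorem MvA.msk_cons (a : W) (B : List W) : msk (a :: B) = Nat.lor a.b (msk B) := rfl

theorem MvA.msk_nil : msk [] = 0 := rfl

theorem MvA.lor_zero' (x : ℕ) : Nat.lor x 0 = x := Nat.or_zero x

theorem MvA.gl_cons2 (a b : W) (r : List W) :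
    gl (a :: b :: r) = ⟨Nat.beq (Nat.land a.c b.b) 0, a.b, a.c, a.q, a.e⟩ :: gl (b :: r) := rfl

/-- the status of the last wire of a block -/
noncomputable def MvA.gst (c : ℕ) : List W → Bool
  | [] => false
  | b :: _ => Nat.beq (Nat.land c b.b) 0

theorem MvA.gl_cons1 (a : W) (r : List W) :
    gl (a :: r) = ⟨gst a.c r, a.b, a.c, a.q, a.e⟩ :: gl r := by
  cases r <;> rfl

theorem MvA.gp_eq (c : ℕ) (r : List W) : gp c (gl r) = gst c r := by
  cases r <;> rfl

theorem MvA.ok_eq (a b : Wr) : ok a b = Nat.beq (Nat.land a.c b.b) 0 := rfl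

section unfold

variable (ih : List Wr → List Wr → ℕ → ℕ → ℕ → Bool) (tst : ℕ → Bool)
    (sa : List Wr → ℕ → ℕ → Bool) (lo : List Wr) (a b c d x : Wr) (r : List Wr) (dd v u : ℕ)

theorem MvA.g2_t (h : gte2 ih tst sa lo a b r v u = true) (hd : dd ≤ 1) :
    g2 ih tst sa lo a (b :: r) dd v u = true := by
  have h1 : g2 ih tst sa lo a (b :: r) dd v u =
      Bool.rec (Bool.rec false (g3 ih tst sa lo a b r dd v u) (b.g)) true
        (Bool.rec false (gte2 ih tst sa lo a b r v u) (Nat.ble dd 1)) := rfl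
  rw [h1, h, Nat.ble_eq_true_of_le hd]

theorem MvA.g2_g (h : g3 ih tst sa lo a b r dd v u = true) (hg : b.g = true) :
    g2 ih tst sa lo a (b :: r) dd v u = true := by
  have h1 : g2 ih tst sa lo a (b :: r) dd v u =
      Bool.rec (Bool.rec false (g3 ih tst sa lo a b r dd v u) (b.g)) true
        (Bool.rec false (gte2 ih tst sa lo a b r v u) (Nat.ble dd 1)) := rfl
  rw [h1, h, hg, rec_or]
  simp

theorem MvA.g3_t (hac : ok a c = true) (h : gte3 ih tst sa lo a b c r v u = true) (hd : dd ≤ 2) :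
    g3 ih tst sa lo a b (c :: r) dd v u = true := by
  have h1 : g3 ih tst sa lo a b (c :: r) dd v u =
      Bool.rec false (Bool.rec (Bool.rec false (g4 ih tst sa lo a b c r dd v u) (c.g)) true
        (Bool.rec false (gte3 ih tst sa lo a b c r v u) (Nat.ble dd 2))) (ok a c) := rfl
  rw [h1, h, hac, Nat.ble_eq_true_of_le hd]

theorem MvA.g3_g (hac : ok a c = true) (h : g4 ih tst sa lo a b c r dd v u = true) (hg : c.g =
    true) :
    g3 ih tst sa lo a b (c :: r) dd v u = true := by
  have h1 : g3 ih tst sa lo a b (c :: r) dd v u =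
      Bool.rec false (Bool.rec (Bool.rec false (g4 ih tst sa lo a b c r dd v u) (c.g)) true
        (Bool.rec false (gte3 ih tst sa lo a b c r v u) (Nat.ble dd 2))) (ok a c) := rfl
  rw [h1, h, hac, hg, rec_or]
  simp

theorem MvA.g4_t (had : ok a d = true) (hbd : ok b d = true)
    (h : gtq4 ih tst sa lo a b c d r v u = true ∨ gte4 ih tst sa lo a b c d r v u = true)
    (hd : dd ≤ 3) : g4 ih tst sa lo a b c (d :: r) dd v u = true := by
  have h1 : g4 ih tst sa lo a b c (d :: r) dd v u =
      Bool.rec false (Bool.rec false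
        (Bool.rec (Bool.rec false (g5 ih tst sa lo a b c d r dd v u) (d.g)) true
          (Bool.rec false (Bool.rec (gte4 ih tst sa lo a b c d r v u) true
            (gtq4 ih tst sa lo a b c d r v u)) (Nat.ble dd 3))) (ok b d)) (ok a d) := rfl
  rw [h1, had, hbd, Nat.ble_eq_true_of_le hd]
  rcases h with h | h
  · rw [h]
  · rw [h, rec_or (gtq4 ih tst sa lo a b c d r v u) true]
    simp

theorem MvA.g4_g (had : ok a d = true) (hbd : ok b d = true)
    (h : g5 ih tst sa lo a b c d r dd v u = true) (hg : d.g = true) :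
    g4 ih tst sa lo a b c (d :: r) dd v u = true := by
  have h1 : g4 ih tst sa lo a b c (d :: r) dd v u =
      Bool.rec false (Bool.rec false
        (Bool.rec (Bool.rec false (g5 ih tst sa lo a b c d r dd v u) (d.g)) true
          (Bool.rec false (Bool.rec (gte4 ih tst sa lo a b c d r v u) true
            (gtq4 ih tst sa lo a b c d r v u)) (Nat.ble dd 3))) (ok b d)) (ok a d) := rfl
  rw [h1, had, hbd, h, hg, rec_or]
  simp

theorem MvA.g5_t (hax : ok a x = true) (hbx : ok b x = true) (hcx : ok c x = true)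
    (h : gte5 ih tst sa lo a b c d x r v u = true) (hd : dd ≤ 4) :
    g5 ih tst sa lo a b c d (x :: r) dd v u = true := by
  have h1 : g5 ih tst sa lo a b c d (x :: r) dd v u =
      Bool.rec false (Bool.rec false (Bool.rec false (Bool.rec false
        (gte5 ih tst sa lo a b c d x r v u) (Nat.ble dd 4)) (ok c x)) (ok b x)) (ok a x) := rfl
  rw [h1, hax, hbx, hcx, h, Nat.ble_eq_true_of_le hd]

end unfold

/-- the hypothesis on the states after the move -/
def MvA.Nxt (ih : List Wr → List Wr → ℕ → ℕ → ℕ → Bool) (tst : ℕ → Bool)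
    (sa : List Wr → ℕ → ℕ → Bool) (S' : List W) (i u' : ℕ) : Prop :=
  ∀ (lo2 hi2 : List Wr) (v2 : ℕ), lo2.reverse ++ hi2 = gl S' → lo2.length = i →
      v2 + 40 = 2 * nxs S' + u' → node ih tst sa lo2 hi2 v2 u' = true

/-- the common end of all cases: `B` is the old block with first wire `a`, `C` the new one -/
theorem MvA.mv_sound (ih : List Wr → List Wr → ℕ → ℕ → ℕ → Bool) (tst : ℕ → Bool)
    (sa : List Wr → ℕ → ℕ → Bool) (l : List W) (a z : W) (B C r : List W) (lo : List Wr)
    (z' : Wr) (x' : List Wr) (v u v' u' : ℕ) (hlo : lo.reverse = glp l a) (hz : er z' = z)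
    (hx : z' :: x' = gl (z :: C ++ r)) (hv : v + 40 = 2 * nxs (l ++ (a :: B ++ r)) + u)
    (hv' : v' + 2 + 2 * cf (gl (a :: B ++ r)) + u = v + 2 * cf (gl (z :: C ++ r)) + u')
    (hn : Nxt ih tst sa (l ++ (z :: C ++ r)) l.length u') :
    mv ih tst sa lo z' x' v' u' = true := by
  obtain ⟨lo2, v2, h1, h2, h3⟩ := mv_eq ih tst sa l a z lo z' x' v' u' hlo hz
  rw [h1]
  refine hn lo2 (z' :: x') v2 ?_ ?_ ?_
  · rw [h2, hx, List.cons_append, gl_append]
  · rw [← List.length_reverse, h2, glp_length]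
  · have h4 : nxs (l ++ (a :: B ++ r)) = cf (glp l a) + cf (gl (a :: B ++ r)) + 1 := by
      unfold nxs
      rw [nx_eq, List.cons_append, gl_append, cf_append]
    have h5 : nxs (l ++ (z :: C ++ r)) = cf (glp l z) + cf (gl (z :: C ++ r)) + 1 := by
      unfold nxs
      rw [nx_eq, List.cons_append, gl_append, cf_append]
    rw [h4] at hv
    rw [h5]
    omega

theorem MvA.land_self' (y : ℕ) : Nat.land y y = y := Nat.and_self y

theorem MvA.gst_cons (c : ℕ) (b : W) (r : List W) : gst c (b :: r) = Nat.beq (Nat.land c b.b) 0 :=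
    rfl

/-- put a status on a wire -/
def MvA.ws (g : Bool) (a : W) : Wr := ⟨g, a.b, a.c, a.q, a.e⟩

theorem MvA.gl_ws (a : W) (r : List W) : gl (a :: r) = ws (gst a.c r) a :: gl r := gl_cons1 a r

theorem MvA.upE_ws (g g' : Bool) (M k : ℕ) (a : W) : upE g M k (ws g' a) = ws g (upd false M k a)
    := rfl

theorem MvA.upQ_ws (g g' : Bool) (M k : ℕ) (a : W) : upQ g M (ws g' a) = ws g (upd true M k a) :=
    rfl

theorem MvA.gst_upd (cfg : Bool) (M k : ℕ) (a c : W) (r : List W) (h : c.b ≠ 0)
    (hM : Nat.land M c.b = c.b) : gst (upd cfg M k a).c (c :: r) = false :=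
  land_lor_f h hM

end Pool.Agent.EC4
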