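import Pool.Agent.Lib.MP_ec4eff_co.R5.Defs

/-!
# The normal form of a configuration (project R5)

One configuration point is the vertical point at infinity, the four lines through it are the line at
infinity and the vertical lines `x = x1`, `x = x2`, `x = x3`.  The other 16 lines are the wires
`y = m i * x + b i`.  `K x y`: the point `(x, y)` is a configuration point, `Ki s`: the point at infinity
with slope `s` is a configuration point.
-/

set_option autoImplicit false

namespace Pool.Agent.EC4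

/-- the normal form of a configuration `(25_4, 20_5)` with a marked point and a marked line -/
structure NF where
  m : Fin 16 → ℝ
  b : Fin 16 → ℝ
  x1 : ℝ
  x2 : ℝ
  x3 : ℝ
  K : ℝ → ℝ → Prop
  Ki : ℝ → Prop
  h12 : x1 < x2
  h23 : x2 < x3
  inj : ∀ i j, m i = m j → b i = b j → i = j
  k4 : ∀ x i, x ≠ x1 → x ≠ x2 → x ≠ x3 → K x (m i * x + b i) →
    {j | m j * x + b j = m i * x + b i}.ncard = 4
  k3 : ∀ x i, (x = x1 ∨ x = x2 ∨ x = x3) → K x (m i * x + b i) →
    {j | m j * x + b j = m i * x + b i}.ncard = 3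
  ki3 : ∀ i, Ki (m i) → {j | m j = m i}.ncard = 3
  n12 : ∀ x, (x = x1 ∨ x = x2 ∨ x = x3) → {i | K x (m i * x + b i)}.ncard = 12
  ni12 : {i | Ki (m i)}.ncard = 12
  n5 : ∀ i, {x | K x (m i * x + b i)}.ncard + {_u : Unit | Ki (m i)}.ncard = 5

namespace NF

variable (N : NF)

/-- the height of the wire `i` at `x` -/
def f (i : Fin 16) (x : ℝ) : ℝ := N.m i * x + N.b i

/-- special abscissas -/
def spx (x : ℝ) : Prop := x = N.x1 ∨ x = N.x2 ∨ x = N.x3

/-- the wires `i` and `j` have met if `U` are the abscissas passed -/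
def met (U : Set ℝ) (i j : Fin 16) : Prop := N.m i = N.m j ∨ ∃ x ∈ U, N.f i x = N.f j x

/-- crossing abscissas -/
def crit : Set ℝ := {x | ∃ i j, N.m i ≠ N.m j ∧ N.f i x = N.f j x}

/-- the wire of the model after the line at infinity and the abscissas in `U` -/
structure R (U : Set ℝ) (i : Fin 16) (w : W) : Prop where
  hb : w.b = 2 ^ (i : ℕ)
  hc : w.c < 2 ^ 16
  ht : ∀ j : Fin 16, w.c.testBit j = true ↔ N.met U i j
  hq : w.q = {x | x ∈ U ∧ N.K x (N.f i x)}.ncard + {_u : Unit | N.Ki (N.m i)}.ncard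
  he : w.e + 3 * w.q + 1 = {j | N.met U i j}.ncard + {x | x ∈ U ∧ N.spx x}.ncard + 1

/-- order just before `x` -/
def bef (x : ℝ) (i j : Fin 16) : Prop := N.f i x < N.f j x ∨ N.f i x = N.f j x ∧ N.m j < N.m i

/-- order just after `x` -/
def aft (x : ℝ) (i j : Fin 16) : Prop := N.f i x < N.f j x ∨ N.f i x = N.f j x ∧ N.m i < N.m j

open Classical in
/-- twice the balance of the abscissa `x` -/
noncomputable def del (x : ℝ) : ℤ :=
  ∑ i : Fin 16, if N.K x (N.f i x) then -1 else 2 * (({j | N.f j x = N.f i x}.ncard : ℤ) - 1)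

open Classical in
/-- twice the number of pairs in the other blocks of the special abscissa `x` -/
noncomputable def sig (x : ℝ) : ℤ :=
  ∑ i : Fin 16, if N.K x (N.f i x) then 0 else (({j | N.f j x = N.f i x}.ncard : ℤ) - 1)

open Classical in
/-- the same for the line at infinity -/
noncomputable def sigi : ℤ :=
  ∑ i : Fin 16, if N.Ki (N.m i) then 0 else (({j | N.m j = N.m i}.ncard : ℤ) - 1)

/-- `2 c + 4` for the costs `c` of the four lunes -/
noncomputable def C0 : ℤ := N.sigi + ∑ᶠ x ∈ Set.Iio N.x1, N.del x + N.sig N.x1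
noncomputable def C1 : ℤ := N.sig N.x1 + ∑ᶠ x ∈ Set.Ioo N.x1 N.x2, N.del x + N.sig N.x2
noncomputable def C2 : ℤ := N.sig N.x2 + ∑ᶠ x ∈ Set.Ioo N.x2 N.x3, N.del x + N.sig N.x3
noncomputable def C3 : ℤ := N.sig N.x3 + ∑ᶠ x ∈ Set.Ioi N.x3, N.del x + N.sigi

open Classical in
/-- the block of the slope `s` on the line at infinity -/
noncomputable def blk (s : ℝ) : Bool × ℕ := (decide (N.Ki s), {i | N.m i = s}.ncard)

/-- the blocks on the line at infinity -/
def TC (t : List (Bool × ℕ)) : Prop := ∃ ss : List ℝ, ss.Pairwise (fun a b => b < a) ∧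
  (∀ s, s ∈ ss ↔ ∃ i, N.m i = s) ∧ t = ss.map N.blk

/-- the wires are numbered in the order before the line at infinity -/
def Sorted : Prop := ∀ i j : Fin 16, i < j → N.m j < N.m i ∨ N.m i = N.m j ∧ N.b j < N.b i

end NF

/-- all wires, each once -/
def All (l : List (Fin 16)) : Prop := l.Nodup ∧ ∀ i, i ∈ l

end Pool.Agent.EC4
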