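import Pool.Agent.Lib.MP_ec4eff_co.R5.AllS
import Pool.Agent.Lib.MP_ec4eff_co.R5.Dec
import Pool.Agent.Lib.MP_ec4eff_co.R5.Reps

/-!
# No complete sweep (project R5)

`no_full`: the soundness of the search; `reps_or`: every composition or the reversed one is in the
list `reps`.
-/

set_option autoImplicit false

namespace Pool.Agent.EC4

theorem no_full {t : List (Bool × ℕ)} {c0 c1 c2 c3 : ℕ} (h : Full t c0 c1 c2 c3)
    (h01 : c0 ≤ c1) (h02 : c0 ≤ c2) (h03 : c0 ≤ c3) (h13 : c1 ≤ c3) (hr : NoRun (t.map cod)) :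
    False := by
  obtain ⟨S1, pb1, h1, h2⟩ := run_sound h h01 h02 h03 h13
  exact hr c0 S1 pb1 h1 h2

/-- the lists with `n` zeros and sum `s` (fuel `f`) -/
def gen : ℕ → ℕ → ℕ → List (List ℕ)
  | 0, n, s => if n = 0 ∧ s = 0 then [[]] else []
  | f + 1, n, s => (if n = 0 ∧ s = 0 then [[]] else []) ++
      ((if 0 < n then (gen f (n - 1) s).map (List.cons 0) else []) ++
      ((List.range s).flatMap fun k => (gen f n (s - 1 - k)).map (List.cons (k + 1))))

theorem mem_gen : ∀ (t : List ℕ) (f n s : ℕ), t.length ≤ f → t.count 0 = n → t.sum = s →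
    t ∈ gen f n s
  | [], f, n, s, _, hn, hs => by
    have hn' : n = 0 := by simpa using hn.symm
    have hs' : s = 0 := by simpa using hs.symm
    cases f <;> simp [gen, hn', hs']
  | a :: t, 0, n, s, hl, _, _ => by simp at hl
  | a :: t, f + 1, n, s, hl, hn, hs => by
    have hl' : t.length ≤ f := by simpa using hl
    rw [gen, List.mem_append, List.mem_append]
    by_cases ha : a = 0
    · subst ha
      have hn1 : t.count 0 + 1 = n := by simpa using hn
      have hs1 : t.sum = s := by simpa using hs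
      refine Or.inr (Or.inl ?_)
      rw [if_pos (by omega)]
      exact List.mem_map.2 ⟨t, mem_gen t f (n - 1) s hl' (by omega) hs1, rfl⟩
    · have hn1 : t.count 0 = n := by
        rw [List.count_cons_of_ne ha] at hn
        exact hn
      have hs1 : a + t.sum = s := by simpa using hs
      refine Or.inr (Or.inr ?_)
      refine List.mem_flatMap.2 ⟨a - 1, List.mem_range.2 (by omega), List.mem_map.2 ⟨t,
        mem_gen t f n (s - 1 - (a - 1)) hl' hn1 (by omega), ?_⟩⟩
      rw [Nat.sub_add_cancel (by omega)]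

theorem gen_reps : ∀ t ∈ gen 8 4 4, t ∈ reps ∨ t.reverse ∈ reps := by
  decide +kernel

theorem cod_count : ∀ t : List (Bool × ℕ), (∀ x ∈ t, 1 ≤ x.2) →
    (t.map cod).count 0 = nq t ∧ (t.map cod).sum = ne t ∧ t.length ≤ nq t + ne t
  | [], _ => by simp [nq, ne]
  | (true, k) :: t, h => by
    obtain ⟨h1, h2, h3⟩ := cod_count t fun x hx => h x (List.mem_cons_of_mem _ hx)
    simp only [nq, ne, List.map_cons, List.sum_cons, cod, if_true, List.count_cons_self,
      List.length_cons] at h1 h2 h3 ⊢
    omega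
  | (false, k) :: t, h => by
    obtain ⟨h1, h2, h3⟩ := cod_count t fun x hx => h x (List.mem_cons_of_mem _ hx)
    have hk : 1 ≤ k := h (false, k) List.mem_cons_self
    have hk0 : k ≠ 0 := by omega
    have hc : cod (false, k) = k := rfl
    simp only [nq, ne, List.map_cons, List.sum_cons, hc, List.count_cons_of_ne hk0,
      List.length_cons, Bool.false_eq_true, if_false] at h1 h2 h3 ⊢
    omega

theorem reps_or {t : List (Bool × ℕ)} (hg : Good t) (h1 : ∀ x ∈ t, 1 ≤ x.2) :
    t.map cod ∈ reps ∨ t.reverse.map cod ∈ reps := by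
  obtain ⟨h2, h3, h4⟩ := cod_count t h1
  rw [hg.1] at h2 h4
  rw [hg.2] at h3 h4
  have := gen_reps _ (mem_gen (t.map cod) 8 4 4 (by simpa using h4) h2 h3)
  rwa [← List.map_reverse] at this

theorem Sp.pos {S S' : List W} {t : List (Bool × ℕ)} (h : Sp S t S') : ∀ x ∈ t, 1 ≤ x.2 := by
  induction h with
  | nil => intro x hx; simp at hx
  | cons B cfg hB h1 h3 h ih =>
    intro x hx
    rcases List.mem_cons.1 hx with rfl | hx
    · exact h1
    · exact ih x hx

end Pool.Agent.EC4
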