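import Pool.Agent.Lib.MP_ec4eff_co.R5.Nf

/-!
# Renumbering of the wires (project R5)

Proof plan.  `perm`: renumbering of the wires with a permutation `σ`; all sums are reindexed
(`Equiv.sum_comp`), all cardinalities are the same (the set for `perm` is the preimage under `σ`).
`exists_sorted`: the 16 pairs `(m i, b i)` are different (`N.inj`), sort them: e.g. `Tuple.sort` for the
function `i ↦ toLex (-(N.m i), -(N.b i))` into `ℝ ×ₗ ℝ`, monotone and injective, so strictly
monotone.
-/

set_option autoImplicit false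

namespace Pool.Agent.EC4

theorem ncard_perm (σ : Equiv.Perm (Fin 16)) (p : Fin 16 → Prop) :
    {j | p (σ j)}.ncard = {j | p j}.ncard := by
  have h : {j | p (σ j)} = σ.symm '' {j | p j} := by
    ext j
    constructor
    · intro hj
      exact ⟨σ j, hj, by simp⟩
    · rintro ⟨k, hk, rfl⟩
      simpa using hk
  rw [h, Set.ncard_image_of_injective _ σ.symm.injective]

namespace NF

variable (N : NF)

/-- renumbering with the permutation `σ` -/
def perm (σ : Equiv.Perm (Fin 16)) : NF where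
  m i := N.m (σ i)
  b i := N.b (σ i)
  x1 := N.x1
  x2 := N.x2
  x3 := N.x3
  K := N.K
  Ki := N.Ki
  h12 := N.h12
  h23 := N.h23
  inj := by
    intro i j h1 h2
    exact σ.injective (N.inj _ _ h1 h2)
  k4 := by
    intro x i h1 h2 h3 hK
    rw [ncard_perm σ (fun j => N.m j * x + N.b j = N.m (σ i) * x + N.b (σ i))]
    exact N.k4 x (σ i) h1 h2 h3 hK
  k3 := by
    intro x i h1 hK
    rw [ncard_perm σ (fun j => N.m j * x + N.b j = N.m (σ i) * x + N.b (σ i))]
    exact N.k3 x (σ i) h1 hK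
  ki3 := by
    intro i hK
    rw [ncard_perm σ (fun j => N.m j = N.m (σ i))]
    exact N.ki3 (σ i) hK
  n12 := by
    intro x hx
    rw [ncard_perm σ (fun i => N.K x (N.m i * x + N.b i))]
    exact N.n12 x hx
  ni12 := by
    rw [ncard_perm σ (fun i => N.Ki (N.m i))]
    exact N.ni12
  n5 := by
    intro i
    exact N.n5 (σ i)

theorem perm_del (σ : Equiv.Perm (Fin 16)) (x : ℝ) : (N.perm σ).del x = N.del x := by
  classical
  unfold del
  rw [← Equiv.sum_comp σ (fun i => if N.K x (N.f i x) then (-1 : ℤ)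
    else 2 * (({j | N.f j x = N.f i x}.ncard : ℤ) - 1))]
  refine Finset.sum_congr rfl fun i _ => ?_
  have h : {j | (N.perm σ).f j x = (N.perm σ).f i x}.ncard = {j | N.f j x = N.f (σ i) x}.ncard :=
    ncard_perm σ (fun j => N.f j x = N.f (σ i) x)
  rw [h]
  rfl

theorem perm_sig (σ : Equiv.Perm (Fin 16)) (x : ℝ) : (N.perm σ).sig x = N.sig x := by
  classical
  unfold sig
  rw [← Equiv.sum_comp σ (fun i => if N.K x (N.f i x) then (0 : ℤ)
    else (({j | N.f j x = N.f i x}.ncard : ℤ) - 1))]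
  refine Finset.sum_congr rfl fun i _ => ?_
  have h : {j | (N.perm σ).f j x = (N.perm σ).f i x}.ncard = {j | N.f j x = N.f (σ i) x}.ncard :=
    ncard_perm σ (fun j => N.f j x = N.f (σ i) x)
  rw [h]
  rfl

theorem perm_sigi (σ : Equiv.Perm (Fin 16)) : (N.perm σ).sigi = N.sigi := by
  classical
  unfold sigi
  rw [← Equiv.sum_comp σ (fun i => if N.Ki (N.m i) then (0 : ℤ)
    else (({j | N.m j = N.m i}.ncard : ℤ) - 1))]
  refine Finset.sum_congr rfl fun i _ => ?_
  have h : {j | (N.perm σ).m j = (N.perm σ).m i}.ncard = {j | N.m j = N.m (σ i)}.ncard :=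
    ncard_perm σ (fun j => N.m j = N.m (σ i))
  rw [h]
  rfl

theorem perm_C0 (σ : Equiv.Perm (Fin 16)) : (N.perm σ).C0 = N.C0 := by
  unfold C0
  simp only [perm_del, perm_sig, perm_sigi]
  rfl

theorem perm_C1 (σ : Equiv.Perm (Fin 16)) : (N.perm σ).C1 = N.C1 := by
  unfold C1
  simp only [perm_del, perm_sig]
  rfl

theorem perm_C2 (σ : Equiv.Perm (Fin 16)) : (N.perm σ).C2 = N.C2 := by
  unfold C2
  simp only [perm_del, perm_sig]
  rfl

theorem perm_C3 (σ : Equiv.Perm (Fin 16)) : (N.perm σ).C3 = N.C3 := by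
  unfold C3
  simp only [perm_del, perm_sig, perm_sigi]
  rfl

theorem perm_blk (σ : Equiv.Perm (Fin 16)) (s : ℝ) : (N.perm σ).blk s = N.blk s := by
  classical
  unfold blk
  have h : {i | (N.perm σ).m i = s}.ncard = {i | N.m i = s}.ncard :=
    ncard_perm σ (fun i => N.m i = s)
  rw [h]
  rfl

theorem perm_tc {t : List (Bool × ℕ)} (σ : Equiv.Perm (Fin 16)) (h : N.TC t) :
    (N.perm σ).TC t := by
  obtain ⟨ss, h1, h2, h3⟩ := h
  refine ⟨ss, h1, ?_, ?_⟩
  · intro s
    rw [h2]
    constructor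
    · rintro ⟨i, hi⟩
      refine ⟨σ.symm i, ?_⟩
      show N.m (σ (σ.symm i)) = s
      rw [Equiv.apply_symm_apply]
      exact hi
    · rintro ⟨i, hi⟩
      exact ⟨σ i, hi⟩
  · rw [h3]
    refine List.map_congr_left fun s _ => ?_
    exact (N.perm_blk σ s).symm

theorem exists_sorted : ∃ σ : Equiv.Perm (Fin 16), (N.perm σ).Sorted := by
  classical
  let g : Fin 16 → ℝ ×ₗ ℝ := fun i => toLex (-(N.m i), -(N.b i))
  have hmono := Tuple.monotone_sort g
  refine ⟨Tuple.sort g, ?_⟩
  intro i j hij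
  have h1 : g (Tuple.sort g i) ≤ g (Tuple.sort g j) := hmono hij.le
  have hne : g (Tuple.sort g i) ≠ g (Tuple.sort g j) := by
    intro h
    have h2 : (-(N.m (Tuple.sort g i)), -(N.b (Tuple.sort g i))) =
        (-(N.m (Tuple.sort g j)), -(N.b (Tuple.sort g j))) := toLex.injective h
    have h3 := (Prod.mk.inj h2).1
    have h4 := (Prod.mk.inj h2).2
    have h5 := N.inj _ _ (neg_injective h3) (neg_injective h4)
    exact hij.ne ((Tuple.sort g).injective h5)
  have hlt := lt_of_le_of_ne h1 hne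
  rw [Prod.Lex.lt_iff] at hlt
  rcases hlt with h | ⟨h, h'⟩
  · left
    have h2 : -(N.m (Tuple.sort g i)) < -(N.m (Tuple.sort g j)) := h
    show N.m (Tuple.sort g j) < N.m (Tuple.sort g i)
    linarith
  · right
    have h2 : -(N.m (Tuple.sort g i)) = -(N.m (Tuple.sort g j)) := h
    have h3 : -(N.b (Tuple.sort g i)) < -(N.b (Tuple.sort g j)) := h'
    refine ⟨neg_injective h2, ?_⟩
    show N.b (Tuple.sort g j) < N.b (Tuple.sort g i)
    linarith

end NF

end Pool.Agent.EC4
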