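import Pool.Agent.Lib.MP_ec4eff_co.R5.Nf

/-!
# The reflection of the normal form which reverses the horizontal order (project R5)

Proof plan.  `ref`: `x ↦ - x`; `ref.f i x = N.f i (-x)`, so all sets are the same up to `x ↦ - x`;
the sums with `finsum_mem_eq_of_bijOn` for `x ↦ - x`.
-/

set_option autoImplicit false

namespace Pool.Agent.EC4

theorem ncard_neg (P : ℝ → Prop) : {x | P (-x)}.ncard = {x | P x}.ncard := by
  refine Set.ncard_congr (fun x _ => -x) (fun x hx => hx) (fun x y _ _ h => neg_injective h) ?_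
  intro y hy
  refine ⟨-y, ?_, neg_neg y⟩
  change P (- -y)
  rw [neg_neg]
  exact hy

namespace NF

variable (N : NF)

/-- the reflection `x ↦ - x` -/
def ref : NF where
  m i := -N.m i
  b i := N.b i
  x1 := -N.x3
  x2 := -N.x2
  x3 := -N.x1
  K x y := N.K (-x) y
  Ki s := N.Ki (-s)
  h12 := by
    exact neg_lt_neg N.h23
  h23 := by
    exact neg_lt_neg N.h12
  inj := by
    intro i j h1 h2
    exact N.inj i j (neg_injective h1) h2
  k4 := by
    intro x i h1 h2 h3 h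
    simp only [neg_mul_comm] at h ⊢
    refine N.k4 (-x) i ?_ ?_ ?_ h
    · intro h4; exact h3 (neg_eq_iff_eq_neg.1 h4)
    · intro h4; exact h2 (neg_eq_iff_eq_neg.1 h4)
    · intro h4; exact h1 (neg_eq_iff_eq_neg.1 h4)
  k3 := by
    intro x i h1 h
    simp only [neg_mul_comm] at h ⊢
    refine N.k3 (-x) i ?_ h
    rcases h1 with h1 | h1 | h1
    · exact Or.inr (Or.inr (neg_eq_iff_eq_neg.2 h1))
    · exact Or.inr (Or.inl (neg_eq_iff_eq_neg.2 h1))
    · exact Or.inl (neg_eq_iff_eq_neg.2 h1)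
  ki3 := by
    intro i h
    simp only [neg_neg, neg_inj] at h ⊢
    exact N.ki3 i h
  n12 := by
    intro x h1
    simp only [neg_mul_comm]
    refine N.n12 (-x) ?_
    rcases h1 with h1 | h1 | h1
    · exact Or.inr (Or.inr (neg_eq_iff_eq_neg.2 h1))
    · exact Or.inr (Or.inl (neg_eq_iff_eq_neg.2 h1))
    · exact Or.inl (neg_eq_iff_eq_neg.2 h1)
  ni12 := by
    simp only [neg_neg]
    exact N.ni12
  n5 := by
    intro i
    simp only [neg_neg, neg_mul_comm]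
    rw [ncard_neg fun x => N.K x (N.m i * x + N.b i)]
    exact N.n5 i

theorem ref_f (i : Fin 16) (x : ℝ) : N.ref.f i x = N.f i (-x) := by
  simp only [f, ref, neg_mul_comm]

theorem ref_K (x y : ℝ) : N.ref.K x y = N.K (-x) y := rfl

theorem ref_del (x : ℝ) : N.ref.del x = N.del (-x) := by
  unfold del
  refine Finset.sum_congr rfl fun i _ => ?_
  rw [ref_K, ref_f]
  simp only [ref_f]

theorem ref_sig (x : ℝ) : N.ref.sig x = N.sig (-x) := by
  unfold sig
  refine Finset.sum_congr rfl fun i _ => ?_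
  rw [ref_K, ref_f]
  simp only [ref_f]

theorem ref_sigi : N.ref.sigi = N.sigi := by
  unfold sigi
  refine Finset.sum_congr rfl fun i _ => ?_
  have h1 : N.ref.Ki (N.ref.m i) = N.Ki (N.m i) := by
    simp only [ref, neg_neg]
  rw [h1]
  simp only [ref, neg_inj]

theorem ref_sum (A B : Set ℝ) (h : ∀ x, x ∈ A ↔ -x ∈ B) :
    ∑ᶠ x ∈ A, N.ref.del x = ∑ᶠ x ∈ B, N.del x := by
  refine finsum_mem_eq_of_bijOn (fun x => -x) ⟨?_, ?_, ?_⟩ ?_
  · intro x hx
    exact (h x).1 hx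
  · intro x _ y _ hxy
    exact neg_injective hxy
  · intro y hy
    refine ⟨-y, ?_, neg_neg y⟩
    rw [h, neg_neg]
    exact hy
  · intro x _
    exact N.ref_del x

theorem ref_C0 : N.ref.C0 = N.C3 := by
  unfold C0 C3
  have h1 : ∑ᶠ x ∈ Set.Iio N.ref.x1, N.ref.del x = ∑ᶠ x ∈ Set.Ioi N.x3, N.del x := by
    refine N.ref_sum _ _ fun x => ?_
    simp only [ref, Set.mem_Iio, Set.mem_Ioi]
    exact lt_neg
  have h2 : N.ref.sig N.ref.x1 = N.sig N.x3 := by
    rw [ref_sig]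
    simp only [ref, neg_neg]
  rw [h1, h2, ref_sigi]
  ring

theorem ref_C1 : N.ref.C1 = N.C2 := by
  unfold C1 C2
  have h1 : ∑ᶠ x ∈ Set.Ioo N.ref.x1 N.ref.x2, N.ref.del x = ∑ᶠ x ∈ Set.Ioo N.x2 N.x3, N.del x := by
    refine N.ref_sum _ _ fun x => ?_
    simp only [ref, Set.mem_Ioo]
    constructor
    · rintro ⟨h3, h4⟩
      exact ⟨lt_neg.1 h4, neg_lt.1 h3⟩
    · rintro ⟨h3, h4⟩
      exact ⟨neg_lt.1 h4, lt_neg.1 h3⟩
  have h2 : N.ref.sig N.ref.x1 = N.sig N.x3 := by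
    rw [ref_sig]
    simp only [ref, neg_neg]
  have h3 : N.ref.sig N.ref.x2 = N.sig N.x2 := by
    rw [ref_sig]
    simp only [ref, neg_neg]
  rw [h1, h2, h3]
  ring

theorem ref_C2 : N.ref.C2 = N.C1 := by
  unfold C1 C2
  have h1 : ∑ᶠ x ∈ Set.Ioo N.ref.x2 N.ref.x3, N.ref.del x = ∑ᶠ x ∈ Set.Ioo N.x1 N.x2, N.del x := by
    refine N.ref_sum _ _ fun x => ?_
    simp only [ref, Set.mem_Ioo]
    constructor
    · rintro ⟨h3, h4⟩
      exact ⟨lt_neg.1 h4, neg_lt.1 h3⟩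
    · rintro ⟨h3, h4⟩
      exact ⟨neg_lt.1 h4, lt_neg.1 h3⟩
  have h2 : N.ref.sig N.ref.x3 = N.sig N.x1 := by
    rw [ref_sig]
    simp only [ref, neg_neg]
  have h3 : N.ref.sig N.ref.x2 = N.sig N.x2 := by
    rw [ref_sig]
    simp only [ref, neg_neg]
  rw [h1, h2, h3]
  ring

theorem ref_C3 : N.ref.C3 = N.C0 := by
  unfold C0 C3
  have h1 : ∑ᶠ x ∈ Set.Ioi N.ref.x3, N.ref.del x = ∑ᶠ x ∈ Set.Iio N.x1, N.del x := by
    refine N.ref_sum _ _ fun x => ?_
    simp only [ref, Set.mem_Iio, Set.mem_Ioi]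
    exact neg_lt
  have h2 : N.ref.sig N.ref.x3 = N.sig N.x1 := by
    rw [ref_sig]
    simp only [ref, neg_neg]
  rw [h1, h2, ref_sigi]
  ring

end NF

end Pool.Agent.EC4
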