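import Pool.Agent.Lib.MP_ec4eff_co.R5.RotA

/-!
# The rotation of the normal form (project R5)

The projective map which makes `x = x1` the line at infinity: with `ξ = x - x1`, `X = - 1 / ξ`,
`Y = y / ξ`, the wire `y = m x + b` becomes `Y = m - (m x1 + b) X`, the line at infinity becomes
`X = 0`.  The new special abscissas are `- 1 / (x2 - x1) < - 1 / (x3 - x1) < 0`.

Proof plan.  Key facts: for `X ≠ 0` and `x = x1 - 1 / X`: `N.m i * x + N.b i = - Y / X` where
`Y = - (N.m i * x1 + N.b i) * X + N.m i` (`field_simp`, `ring`), hence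
`rot.K X (rot.f i X) ↔ N.K x (N.f i x)` and `rot.f j X = rot.f i X ↔ N.f j x = N.f i x`; for `X = 0`:
`rot.f i 0 = N.m i`, `rot.K 0 (rot.f i 0) ↔ N.Ki (N.m i)`; `rot.Ki (rot.m i) ↔ N.K x1 (N.f i x1)`,
`rot.m j = rot.m i ↔ N.f j x1 = N.f i x1`.  `x = x1 - 1 / X` is one of `x2`, `x3` iff `X` is one of the
first two new special abscissas, and `x ≠ x1`.  `n5`: the set for the new form is the image under
`x ↦ - 1 / (x - x1)` of the set without `x1`, together with `0` if `N.Ki (N.m i)`.  The sums: so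
`rot.del X = N.del x`, `rot.sig` at the new special abscissas is `N.sig x2`, `N.sig x3`, `N.sigi`,
`rot.sigi = N.sig x1`; `finsum_mem_eq_of_bijOn` with the bijection `x ↦ - 1 / (x - x1)`
from `Set.Ioo x1 x2` onto `Set.Iio (- 1 / (x2 - x1))`, from `Set.Ioo x2 x3` onto
`Set.Ioo (- 1 / (x2 - x1)) (- 1 / (x3 - x1))`, from `Set.Ioi x3` onto `Set.Ioo (- 1 / (x3 - x1)) 0`, from
`Set.Iio x1` onto `Set.Ioi 0`.
-/

set_option autoImplicit false

namespace Pool.Agent.EC4

namespace NF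

variable (N : NF)

/-- the rotated normal form -/
noncomputable def rot : NF where
  m i := -(N.m i * N.x1 + N.b i)
  b i := N.m i
  x1 := -1 / (N.x2 - N.x1)
  x2 := -1 / (N.x3 - N.x1)
  x3 := 0
  K X Y := (X = 0 ∧ N.Ki Y) ∨ (X ≠ 0 ∧ N.K (N.x1 - 1 / X) (-Y / X))
  Ki s := N.K N.x1 (-s)
  h12 := by
    rw [rt_lt (N.h12.trans N.h23) (rt_neg N.h12), (rt_inv N.h12).2]
    exact N.h23
  h23 := rt_neg (N.h12.trans N.h23)
  inj := by
    intro i j h1 h2
    refine N.inj i j h2 ?_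
    rw [h2] at h1
    linarith
  k4 := by
    intro X i h1 h2 h3 hK
    rw [N.rt_K i h3] at hK
    rw [← N.k4 _ i (rt_ne h3) (fun h => h1 (rt_back h)) (fun h => h2 (rt_back h)) hK]
    congr 1
    ext j
    exact rt_eq h3
  k3 := by
    intro X i hX hK
    by_cases h3 : X = 0
    · subst h3
      rw [N.rt_K0 i] at hK
      rw [← N.ki3 i hK]
      congr 1
      ext j
      rw [Set.mem_ofPred_eq, Set.mem_ofPred_eq, mul_zero, mul_zero, zero_add, zero_add]
    · rw [N.rt_K i h3] at hK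
      rw [← N.k3 _ i (by
        rcases hX with hX | hX | hX
        · rw [hX, (rt_inv N.h12).2]
          exact Or.inr (Or.inl rfl)
        · rw [hX, (rt_inv (N.h12.trans N.h23)).2]
          exact Or.inr (Or.inr rfl)
        · exact absurd hX h3) hK]
      congr 1
      ext j
      exact rt_eq h3
  ki3 := by
    intro i hK
    rw [neg_neg] at hK
    rw [← N.k3 N.x1 i (Or.inl rfl) hK]
    congr 1
    ext j
    exact neg_inj
  n12 := by
    intro X hX
    by_cases h3 : X = 0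
    · subst h3
      rw [← N.ni12]
      congr 1
      ext i
      exact N.rt_K0 i
    · rw [← N.n12 (N.x1 - 1 / X) (by
        rcases hX with hX | hX | hX
        · rw [hX, (rt_inv N.h12).2]
          exact Or.inr (Or.inl rfl)
        · rw [hX, (rt_inv (N.h12.trans N.h23)).2]
          exact Or.inr (Or.inr rfl)
        · exact absurd hX h3)]
      congr 1
      ext i
      exact N.rt_K i h3
  ni12 := by
    rw [← N.n12 N.x1 (Or.inl rfl)]
    congr 1
    ext i
    rw [Set.mem_ofPred_eq, Set.mem_ofPred_eq, neg_neg]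
  n5 := by
    intro i
    obtain ⟨S, hS⟩ : ∃ S : Set ℝ, S = {x | N.K x (N.m i * x + N.b i)} := ⟨_, rfl⟩
    obtain ⟨S', hS'⟩ : ∃ S' : Set ℝ, S' = {X | (X = 0 ∧ N.Ki (-(N.m i * N.x1 + N.b i) * X + N.m i)) ∨
      (X ≠ 0 ∧ N.K (N.x1 - 1 / X) (-(-(N.m i * N.x1 + N.b i) * X + N.m i) / X))} := ⟨_, rfl⟩
    have h5 := N.n5 i
    rw [← hS] at h5
    have hu : ∀ p : Prop, {_u : Unit | p}.ncard ≤ 1 := by
      intro p
      have h1 : {_u : Unit | p}.ncard ≤ (Set.univ : Set Unit).ncard :=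
        Set.ncard_le_ncard (Set.subset_univ _) Set.finite_univ
      rw [Set.ncard_univ, Nat.card_unique] at h1
      exact h1
    have hfin : S.Finite := by
      refine Set.finite_of_ncard_pos ?_
      have h1 := hu (N.Ki (N.m i))
      omega
    have hbij : Set.BijOn (fun X => N.x1 - 1 / X) (S' \ {0}) (S \ {N.x1}) := by
      refine rt_bij ?_ (fun h => h.2 rfl)
      intro X
      constructor
      · rintro ⟨h1, h2⟩
        have h3 : X ≠ 0 := h2
        rw [hS', Set.mem_ofPred_eq, N.rt_K i h3] at h1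
        refine ⟨h3, ?_, rt_ne h3⟩
        rw [hS]
        exact h1
      · rintro ⟨h3, h1, -⟩
        rw [hS, Set.mem_ofPred_eq, ← N.rt_K i h3] at h1
        refine ⟨?_, h3⟩
        rw [hS']
        exact h1
    have hfin' : S'.Finite := by
      have h1 : (S' \ {0}).Finite := by
        rw [hbij.finite_iff_finite]
        exact hfin.subset Set.sdiff_subset
      exact (h1.union (Set.finite_singleton 0)).subset (by
        intro x hx
        by_cases h2 : x = 0
        · exact Or.inr h2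
        · exact Or.inl ⟨hx, h2⟩)
    have hcard : (S' \ {0}).ncard = (S \ {N.x1}).ncard := by
      rw [← hbij.image_eq]
      exact hbij.injOn.ncard_image.symm
    have e1 := rt_card hfin N.x1
    have e2 := rt_card hfin' 0
    have e3 : {_u : Unit | (0 : ℝ) ∈ S'} = {_u : Unit | N.Ki (N.m i)} := by
      ext u
      rw [Set.mem_ofPred_eq, Set.mem_ofPred_eq, hS']
      exact N.rt_K0 i
    have e4 : {_u : Unit | N.x1 ∈ S} = {_u : Unit | N.K N.x1 (- -(N.m i * N.x1 + N.b i))} := by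
      ext u
      rw [Set.mem_ofPred_eq, Set.mem_ofPred_eq, hS, neg_neg]
      exact Iff.rfl
    rw [e3] at e2
    rw [e4] at e1
    rw [hS'] at e2 hcard
    omega

theorem rot_K (i : Fin 16) {X : ℝ} (hX : X ≠ 0) :
    N.rot.K X (N.rot.f i X) ↔ N.K (N.x1 - 1 / X) (N.f i (N.x1 - 1 / X)) := N.rt_K i hX

theorem rot_eq (i j : Fin 16) {X : ℝ} (hX : X ≠ 0) :
    N.rot.f j X = N.rot.f i X ↔ N.f j (N.x1 - 1 / X) = N.f i (N.x1 - 1 / X) := rt_eq hX

open Classical in
theorem rot_del {X : ℝ} (hX : X ≠ 0) : N.rot.del X = N.del (N.x1 - 1 / X) := by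
  unfold del
  refine Finset.sum_congr rfl fun i _ => ?_
  refine if_congr (N.rot_K i hX) rfl ?_
  have h1 : {j | N.rot.f j X = N.rot.f i X} =
      {j | N.f j (N.x1 - 1 / X) = N.f i (N.x1 - 1 / X)} := by
    ext j
    exact N.rot_eq i j hX
  rw [h1]

open Classical in
theorem rot_sig {X : ℝ} (hX : X ≠ 0) : N.rot.sig X = N.sig (N.x1 - 1 / X) := by
  unfold sig
  refine Finset.sum_congr rfl fun i _ => ?_
  refine if_congr (N.rot_K i hX) rfl ?_
  have h1 : {j | N.rot.f j X = N.rot.f i X} =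
      {j | N.f j (N.x1 - 1 / X) = N.f i (N.x1 - 1 / X)} := by
    ext j
    exact N.rot_eq i j hX
  rw [h1]

open Classical in
theorem rot_sig0 : N.rot.sig 0 = N.sigi := by
  unfold sig sigi
  refine Finset.sum_congr rfl fun i _ => ?_
  refine if_congr (N.rt_K0 i) rfl ?_
  have h1 : {j | N.rot.f j 0 = N.rot.f i 0} = {j | N.m j = N.m i} := by
    ext j
    change N.rot.m j * 0 + N.m j = N.rot.m i * 0 + N.m i ↔ N.m j = N.m i
    rw [mul_zero, mul_zero, zero_add, zero_add]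
  rw [h1]

open Classical in
theorem rot_sigi : N.rot.sigi = N.sig N.x1 := by
  unfold sig sigi
  refine Finset.sum_congr rfl fun i _ => ?_
  have h0 : N.rot.Ki (N.rot.m i) ↔ N.K N.x1 (N.f i N.x1) := by
    change N.K N.x1 (- -(N.m i * N.x1 + N.b i)) ↔ N.K N.x1 (N.m i * N.x1 + N.b i)
    rw [neg_neg]
  refine if_congr h0 rfl ?_
  have h1 : {j | N.rot.m j = N.rot.m i} = {j | N.f j N.x1 = N.f i N.x1} := by
    ext j
    exact neg_inj
  rw [h1]

theorem rot_sum {S' S : Set ℝ} (h : ∀ X, X ∈ S' ↔ X ≠ 0 ∧ N.x1 - 1 / X ∈ S) (ha : N.x1 ∉ S) :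
    ∑ᶠ X ∈ S', N.rot.del X = ∑ᶠ x ∈ S, N.del x :=
  finsum_mem_eq_of_bijOn _ (rt_bij h ha) fun X hX => N.rot_del ((h X).mp hX).1

theorem rot_C0 : N.rot.C0 = N.C1 := by
  have h1 : N.rot.sig N.rot.x1 = N.sig N.x2 := by
    have h2 : N.rot.x1 = -1 / (N.x2 - N.x1) := rfl
    rw [h2, N.rot_sig (rt_inv N.h12).1, (rt_inv N.h12).2]
  unfold C0 C1
  rw [N.rot_sigi, h1, N.rot_sum (S := Set.Ioo N.x1 N.x2)]
  · intro X
    constructor
    · intro hX
      have h2 : X < -1 / (N.x2 - N.x1) := hX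
      have h3 : X < 0 := h2.trans (rt_neg N.h12)
      exact ⟨h3.ne, rt_lt0 h3, (rt_lt N.h12 h3).mp h2⟩
    · rintro ⟨h2, h3, h4⟩
      rcases lt_or_gt_of_ne h2 with h5 | h5
      · exact (rt_lt N.h12 h5).mpr h4
      · exact absurd h3 (not_lt.mpr (rt_gt0 h5).le)
  · exact fun h => lt_irrefl _ h.1

theorem rot_C1 : N.rot.C1 = N.C2 := by
  have h13 := N.h12.trans N.h23
  have h1 : N.rot.sig N.rot.x1 = N.sig N.x2 := by
    have h2 : N.rot.x1 = -1 / (N.x2 - N.x1) := rfl
    rw [h2, N.rot_sig (rt_inv N.h12).1, (rt_inv N.h12).2]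
  have h1' : N.rot.sig N.rot.x2 = N.sig N.x3 := by
    have h2 : N.rot.x2 = -1 / (N.x3 - N.x1) := rfl
    rw [h2, N.rot_sig (rt_inv h13).1, (rt_inv h13).2]
  unfold C1 C2
  rw [h1', h1, N.rot_sum (S := Set.Ioo N.x2 N.x3)]
  · intro X
    constructor
    · rintro ⟨h2, h3⟩
      have h4 : X < 0 := lt_trans h3 (rt_neg h13)
      exact ⟨h4.ne, (rt_gt N.h12 h4).mp h2, (rt_lt h13 h4).mp h3⟩
    · rintro ⟨h2, h3, h4⟩
      rcases lt_or_gt_of_ne h2 with h5 | h5
      · exact ⟨(rt_gt N.h12 h5).mpr h3, (rt_lt h13 h5).mpr h4⟩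
      · exact absurd (N.h12.trans h3) (not_lt.mpr (rt_gt0 h5).le)
  · exact fun h => absurd (N.h12.trans h.1) (lt_irrefl _)

theorem rot_C2 : N.rot.C2 = N.C3 := by
  have h13 := N.h12.trans N.h23
  have h1' : N.rot.sig N.rot.x2 = N.sig N.x3 := by
    have h2 : N.rot.x2 = -1 / (N.x3 - N.x1) := rfl
    rw [h2, N.rot_sig (rt_inv h13).1, (rt_inv h13).2]
  have h0 : N.rot.sig N.rot.x3 = N.sigi := N.rot_sig0
  unfold C2 C3
  rw [h1', h0, N.rot_sum (S := Set.Ioi N.x3)]
  · intro X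
    constructor
    · rintro ⟨h2, h3⟩
      have h4 : X < 0 := h3
      exact ⟨h4.ne, (rt_gt h13 h4).mp h2⟩
    · rintro ⟨h2, h3⟩
      rcases lt_or_gt_of_ne h2 with h5 | h5
      · exact ⟨(rt_gt h13 h5).mpr h3, h5⟩
      · exact absurd (h13.trans h3) (not_lt.mpr (rt_gt0 h5).le)
  · exact fun h => absurd (h13.trans h) (lt_irrefl _)

theorem rot_C3 : N.rot.C3 = N.C0 := by
  have h0 : N.rot.sig N.rot.x3 = N.sigi := N.rot_sig0
  unfold C3 C0
  rw [N.rot_sigi, h0, N.rot_sum (S := Set.Iio N.x1)]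
  · intro X
    constructor
    · intro h2
      have h3 : 0 < X := h2
      exact ⟨h3.ne', rt_gt0 h3⟩
    · rintro ⟨h2, h3⟩
      rcases lt_or_gt_of_ne h2 with h5 | h5
      · exact absurd h3 (not_lt.mpr (rt_lt0 h5).le)
      · exact h5
  · exact fun h => lt_irrefl N.x1 h

end NF

end Pool.Agent.EC4
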