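import Pool.Agent.Lib.MP_ec4eff_co.R5.Nf

/-!
# The rotation of the normal form (project R5): the map `X ↦ a - 1 / X`
-/

set_option autoImplicit false

namespace Pool.Agent.EC4

/-! ### the map `X ↦ a - 1 / X` -/

theorem rt_ne {a X : ℝ} (hX : X ≠ 0) : a - 1 / X ≠ a := by
  intro h
  have h1 : 1 / X = 0 := by linarith
  exact (one_div_ne_zero hX) h1

theorem rt_val {m b a X : ℝ} (hX : X ≠ 0) :
    -(-(m * a + b) * X + m) / X = m * (a - 1 / X) + b := by
  field_simp
  ring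

theorem rt_eq {m b m' b' a X : ℝ} (hX : X ≠ 0) :
    -(m * a + b) * X + m = -(m' * a + b') * X + m' ↔
      m * (a - 1 / X) + b = m' * (a - 1 / X) + b' := by
  rw [← rt_val hX, ← rt_val hX, div_left_inj' hX, neg_inj]

theorem rt_inv {a c : ℝ} (h : a < c) : -1 / (c - a) ≠ 0 ∧ a - 1 / (-1 / (c - a)) = c := by
  have h1 : c - a ≠ 0 := by
    intro h2
    linarith
  constructor
  · rw [Ne, div_eq_zero_iff, not_or]
    exact ⟨by norm_num, h1⟩
  · field_simp
    ring

theorem rt_back {a c X : ℝ} (h : a - 1 / X = c) : X = -1 / (c - a) := by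
  subst h
  have h1 : a - 1 / X - a = -(1 / X) := by ring
  rw [h1, div_neg, neg_div, neg_neg, one_div_one_div]

theorem rt_lt0 {a X : ℝ} (hX : X < 0) : a < a - 1 / X := by
  have h1 : 1 / X < 0 := one_div_neg.mpr hX
  linarith

theorem rt_gt0 {a X : ℝ} (hX : 0 < X) : a - 1 / X < a := by
  have h1 : 0 < 1 / X := one_div_pos.mpr hX
  linarith

theorem rt_lt {a c X : ℝ} (h : a < c) (hX : X < 0) : X < -1 / (c - a) ↔ a - 1 / X < c := by
  have h1 : 0 < c - a := by linarith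
  have h2 : a - 1 / X < c ↔ -1 / X < c - a := by
    rw [neg_div]
    constructor
    · intro h3
      linarith
    · intro h3
      linarith
  rw [h2, lt_div_iff₀ h1, div_lt_iff_of_neg hX, mul_comm]

theorem rt_gt {a c X : ℝ} (h : a < c) (hX : X < 0) : -1 / (c - a) < X ↔ c < a - 1 / X := by
  have h1 : 0 < c - a := by linarith
  have h2 : c < a - 1 / X ↔ c - a < -1 / X := by
    rw [neg_div]
    constructor
    · intro h3
      linarith
    · intro h3
      linarith
  rw [h2, div_lt_iff₀ h1, lt_div_iff_of_neg hX, mul_comm]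

theorem rt_neg {a c : ℝ} (h : a < c) : -1 / (c - a) < 0 := by
  have h1 : 0 < c - a := by linarith
  rw [neg_div]
  exact neg_neg_of_pos (one_div_pos.mpr h1)

/-- counting with and without one element -/
theorem rt_card {S : Set ℝ} (hS : S.Finite) (a : ℝ) :
    S.ncard = (S \ {a}).ncard + {_u : Unit | a ∈ S}.ncard := by
  by_cases h : a ∈ S
  · have h1 : {_u : Unit | a ∈ S} = {()} := by
      ext u
      exact ⟨fun _ => rfl, fun _ => h⟩
    rw [h1, Set.ncard_singleton, Set.ncard_sdiff_singleton_add_one h hS]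
  · have h1 : {_u : Unit | a ∈ S} = ∅ := by
      ext u
      exact ⟨fun h2 => absurd h2 h, fun h2 => absurd h2 (Set.notMem_empty u)⟩
    rw [h1, Set.ncard_empty, Set.sdiff_singleton_eq_self h, add_zero]

theorem rt_bij {a : ℝ} {S' S : Set ℝ} (h : ∀ X, X ∈ S' ↔ X ≠ 0 ∧ a - 1 / X ∈ S) (ha : a ∉ S) :
    Set.BijOn (fun X => a - 1 / X) S' S := by
  refine ⟨fun X hX => ((h X).mp hX).2, ?_, ?_⟩
  · intro X hX Y hY hXY
    have h1 : 1 / X = 1 / Y := by
      have h2 : a - 1 / X = a - 1 / Y := hXY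
      linarith
    rw [one_div, one_div, inv_inj] at h1
    exact h1
  · intro x hx
    have h1 : x - a ≠ 0 := by
      intro h2
      have h3 : x = a := by linarith
      rw [h3] at hx
      exact ha hx
    have h2 : -1 / (x - a) ≠ 0 := by
      rw [Ne, div_eq_zero_iff, not_or]
      exact ⟨by norm_num, h1⟩
    have h3 : a - 1 / (-1 / (x - a)) = x := by
      field_simp
      ring
    exact ⟨-1 / (x - a), (h _).mpr ⟨h2, by rw [h3]; exact hx⟩, h3⟩

namespace NF

variable (N : NF)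

theorem rt_K0 (i : Fin 16) : (((0 : ℝ) = 0 ∧ N.Ki (-(N.m i * N.x1 + N.b i) * 0 + N.m i)) ∨
    ((0 : ℝ) ≠ 0 ∧ N.K (N.x1 - 1 / 0) (-(-(N.m i * N.x1 + N.b i) * 0 + N.m i) / 0))) ↔
      N.Ki (N.m i) := by
  constructor
  · rintro (⟨-, h⟩ | ⟨h, -⟩)
    · rw [mul_zero, zero_add] at h
      exact h
    · exact absurd rfl h
  · intro h
    refine Or.inl ⟨rfl, ?_⟩
    rw [mul_zero, zero_add]
    exact h

theorem rt_K (i : Fin 16) {X : ℝ} (hX : X ≠ 0) :
    ((X = 0 ∧ N.Ki (-(N.m i * N.x1 + N.b i) * X + N.m i)) ∨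
    (X ≠ 0 ∧ N.K (N.x1 - 1 / X) (-(-(N.m i * N.x1 + N.b i) * X + N.m i) / X))) ↔
      N.K (N.x1 - 1 / X) (N.m i * (N.x1 - 1 / X) + N.b i) := by
  rw [rt_val hX]
  exact ⟨fun h => h.elim (fun h1 => absurd h1.1 hX) (fun h1 => h1.2), fun h => Or.inr ⟨hX, h⟩⟩

end NF

end Pool.Agent.EC4
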