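import Pool.Agent.Lib.MP_ec4eff_co.R5.Defs

/-!
# The steps of the special lines of the program (project R5)

Auxiliary lemmas for `SpS.lean`.
-/

set_option autoImplicit false

namespace Pool.Agent.EC4

/-- a wire with a status -/
def sps_gw (g : Bool) (a : W) : Wr := ⟨g, a.b, a.c, a.q, a.e⟩

theorem sps_gl_two (a b : W) (r : List W) (h : W.unmet a b) :
    gl (a :: b :: r) = sps_gw true a :: gl (b :: r) := by
  show (⟨Nat.beq (Nat.land a.c b.b) 0, a.b, a.c, a.q, a.e⟩ : Wr) :: gl (b :: r) = _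
  rw [show Nat.land a.c b.b = 0 from h]
  rfl

theorem sps_gl_one (a : W) (r : List W) : ∃ g : Bool, gl (a :: r) = sps_gw g a :: gl r := ⟨_, rfl⟩

theorem sps_ok (a b : W) (g g' : Bool) (h : W.unmet a b) : ok (sps_gw g a) (sps_gw g' b) = true := by
  show Nat.beq (Nat.land a.c b.b) 0 = true
  rw [show Nat.land a.c b.b = 0 from h]
  rfl

theorem sps_ble {a b : ℕ} (h : a ≤ b) : Nat.ble a b = true := Nat.ble_eq ▸ h

section
variable (ih : List Wr → List Wr → Nat → Nat → Nat → (List Wr → Nat → Bool) → Bool)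
  (lo : List Wr) (a b c d : Wr) (r : List Wr) (nq ne pb : Nat) (k : List Wr → Nat → Bool)

theorem sps_nil : sp1 ih lo [] nq ne pb k = (Nat.beq nq 4 && (Nat.beq ne 4 && k lo pb)) := by
  show (Bool.rec false (Bool.rec false (k lo pb) (Nat.beq ne 4)) (Nat.beq nq 4) : Bool) = _
  rw [rec_and, rec_and]

theorem sps_1 : sp1 ih lo (a :: r) nq ne pb k =
    (ste1 ih lo a r nq ne pb k || (a.g && sp2 ih lo a r nq ne pb k)) := by
  show (Bool.rec (Bool.rec false (sp2 ih lo a r nq ne pb k) a.g) true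
    (ste1 ih lo a r nq ne pb k) : Bool) = _
  rw [rec_or, rec_and]

theorem sps_2 : sp2 ih lo a (b :: r) nq ne pb k =
    (ste2 ih lo a b r nq ne pb k || (b.g && sp3 ih lo a b r nq ne pb k)) := by
  show (Bool.rec (Bool.rec false (sp3 ih lo a b r nq ne pb k) b.g) true
    (ste2 ih lo a b r nq ne pb k) : Bool) = _
  rw [rec_or, rec_and]

theorem sps_3 : sp3 ih lo a b (c :: r) nq ne pb k =
    (ok a c && (stq3 ih lo a b c r nq ne pb k || (ste3 ih lo a b c r nq ne pb k ||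
      (c.g && sp4 ih lo a b c r nq ne pb k)))) := by
  show (Bool.rec false (Bool.rec (Bool.rec (Bool.rec false (sp4 ih lo a b c r nq ne pb k) c.g) true
    (ste3 ih lo a b c r nq ne pb k)) true (stq3 ih lo a b c r nq ne pb k)) (ok a c) : Bool) = _
  rw [rec_and, rec_or, rec_or, rec_and]

theorem sps_4 : sp4 ih lo a b c (d :: r) nq ne pb k =
    (ok a d && (ok b d && ste4 ih lo a b c d r nq ne pb k)) := by
  show (Bool.rec false (Bool.rec false (ste4 ih lo a b c d r nq ne pb k) (ok b d)) (ok a d) : Bool) = _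
  rw [rec_and, rec_and]

theorem sps_e1 (h0 : ne + 1 ≤ 4) (ha : a.e + 1 ≤ 4)
    (h : ih (upE false a.b 1 a :: lo) r nq (ne + 1) pb k = true) :
    ste1 ih lo a r nq ne pb k = true := by
  show (Bool.rec false (Bool.rec false (ih (upE false a.b 1 a :: lo) r nq (ne + 1) pb k)
    (Nat.ble a.e 3)) (Nat.ble ne 3) : Bool) = true
  rw [rec_and, rec_and, h, sps_ble (by omega), sps_ble (by omega)]
  rfl

theorem sps_e2 (h0 : ne + 2 ≤ 4) (ha : a.e + 2 ≤ 4) (hb : b.e + 2 ≤ 4)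
    (h : ih (upE false (Nat.lor a.b b.b) 2 a :: upE false (Nat.lor a.b b.b) 2 b :: lo) r nq (ne + 2)
      (pb + 1) k = true) :
    ste2 ih lo a b r nq ne pb k = true := by
  show (Bool.rec false (Bool.rec false (Bool.rec false (ih (upE false (Nat.lor a.b b.b) 2 a ::
    upE false (Nat.lor a.b b.b) 2 b :: lo) r nq (ne + 2) (pb + 1) k)
    (Nat.ble b.e 2)) (Nat.ble a.e 2)) (Nat.ble ne 2) : Bool) = true
  rw [rec_and, rec_and, rec_and, h, sps_ble (by omega), sps_ble (by omega), sps_ble (by omega)]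
  rfl

theorem sps_q3 (h0 : nq + 1 ≤ 4) (ha : a.q + 1 ≤ 5) (hb : b.q + 1 ≤ 5) (hc : c.q + 1 ≤ 5)
    (h : ih (upQ false (Nat.lor a.b (Nat.lor b.b c.b)) a ::
      upQ false (Nat.lor a.b (Nat.lor b.b c.b)) b ::
      upQ false (Nat.lor a.b (Nat.lor b.b c.b)) c :: lo) r (nq + 1) ne pb k = true) :
    stq3 ih lo a b c r nq ne pb k = true := by
  show (Bool.rec false (Bool.rec false (Bool.rec false (Bool.rec false
    (ih (upQ false (Nat.lor a.b (Nat.lor b.b c.b)) a ::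
      upQ false (Nat.lor a.b (Nat.lor b.b c.b)) b ::
      upQ false (Nat.lor a.b (Nat.lor b.b c.b)) c :: lo) r (nq + 1) ne pb k)
    (Nat.ble c.q 4)) (Nat.ble b.q 4)) (Nat.ble a.q 4)) (Nat.ble nq 3) : Bool) = true
  rw [rec_and, rec_and, rec_and, rec_and, h, sps_ble (by omega), sps_ble (by omega),
    sps_ble (by omega), sps_ble (by omega)]
  rfl

theorem sps_e3 (h0 : ne + 3 ≤ 4) (ha : a.e + 3 ≤ 4) (hb : b.e + 3 ≤ 4) (hc : c.e + 3 ≤ 4)
    (h : ih (upE false (Nat.lor a.b (Nat.lor b.b c.b)) 3 a ::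
      upE false (Nat.lor a.b (Nat.lor b.b c.b)) 3 b ::
      upE false (Nat.lor a.b (Nat.lor b.b c.b)) 3 c :: lo) r nq (ne + 3) (pb + 3) k = true) :
    ste3 ih lo a b c r nq ne pb k = true := by
  show (Bool.rec false (Bool.rec false (Bool.rec false (Bool.rec false
    (ih (upE false (Nat.lor a.b (Nat.lor b.b c.b)) 3 a ::
      upE false (Nat.lor a.b (Nat.lor b.b c.b)) 3 b ::
      upE false (Nat.lor a.b (Nat.lor b.b c.b)) 3 c :: lo) r nq (ne + 3) (pb + 3) k)
    (Nat.ble c.e 1)) (Nat.ble b.e 1)) (Nat.ble a.e 1)) (Nat.ble ne 1) : Bool) = true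
  rw [rec_and, rec_and, rec_and, rec_and, h, sps_ble (by omega), sps_ble (by omega),
    sps_ble (by omega), sps_ble (by omega)]
  rfl

theorem sps_e4 (h0 : ne + 4 ≤ 4) (ha : a.e + 4 ≤ 4) (hb : b.e + 4 ≤ 4) (hc : c.e + 4 ≤ 4)
    (hd : d.e + 4 ≤ 4)
    (h : ih (upE false (Nat.lor a.b (Nat.lor b.b (Nat.lor c.b d.b))) 4 a ::
      upE false (Nat.lor a.b (Nat.lor b.b (Nat.lor c.b d.b))) 4 b ::
      upE false (Nat.lor a.b (Nat.lor b.b (Nat.lor c.b d.b))) 4 c ::
      upE false (Nat.lor a.b (Nat.lor b.b (Nat.lor c.b d.b))) 4 d :: lo) r nq (ne + 4) (pb + 6) k =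
        true) :
    ste4 ih lo a b c d r nq ne pb k = true := by
  show (Bool.rec false (Bool.rec false (Bool.rec false (Bool.rec false (Bool.rec false
    (ih (upE false (Nat.lor a.b (Nat.lor b.b (Nat.lor c.b d.b))) 4 a ::
      upE false (Nat.lor a.b (Nat.lor b.b (Nat.lor c.b d.b))) 4 b ::
      upE false (Nat.lor a.b (Nat.lor b.b (Nat.lor c.b d.b))) 4 c ::
      upE false (Nat.lor a.b (Nat.lor b.b (Nat.lor c.b d.b))) 4 d :: lo) r nq (ne + 4) (pb + 6) k)
    (Nat.ble d.e 0)) (Nat.ble c.e 0)) (Nat.ble b.e 0)) (Nat.ble a.e 0)) (Nat.ble ne 0) : Bool) = true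
  rw [rec_and, rec_and, rec_and, rec_and, rec_and, h, sps_ble (by omega), sps_ble (by omega),
    sps_ble (by omega), sps_ble (by omega), sps_ble (by omega)]
  rfl

end

theorem sps_l0 (m : ℕ) : Nat.lor m 0 = m := Nat.or_zero m

theorem sps_m1 (x : W) : msk [x] = x.b := sps_l0 _

theorem sps_m2 (x y : W) : msk [x, y] = Nat.lor x.b y.b := by
  show Nat.lor x.b (msk [y]) = _
  rw [sps_m1]

theorem sps_m3 (x y z : W) : msk [x, y, z] = Nat.lor x.b (Nat.lor y.b z.b) := by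
  show Nat.lor x.b (msk [y, z]) = _
  rw [sps_m2]

theorem sps_m4 (x y z w : W) :
    msk [x, y, z, w] = Nat.lor x.b (Nat.lor y.b (Nat.lor z.b w.b)) := by
  show Nat.lor x.b (msk [y, z, w]) = _
  rw [sps_m3]

end Pool.Agent.EC4
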