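import Pool.Agent.Lib.MP_ec4eff_co.R5.UpdA

/-!
# The change of the wires at a vertex (project R5)

Proof plan.  `B` is the list of all wires through a point `(x, y)`, `S` the wires of the model before `x`
(relation `N.R (Set.Iio x)`).  Two different wires of `B` have different slopes (`N.inj`), so they have
not met before `x` (two lines with different slopes meet at one abscissa only); `Nat.land c (2 ^ j) = 0`
iff `c.testBit j = false`.  The mask `msk S` has the bits `j` for `j ∈ B` (`Nat.testBit_or`,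
`Nat.testBit_two_pow`), and `N.met (Set.Iic x) i j ↔ N.met (Set.Iio x) i j ∨ N.f i x = N.f j x`,
`j ∈ B ↔ N.f j x = N.f i x`.  The number of wires met grows by `B.length - 1`, the number of
configuration vertices by 1 if `N.K x y` (the set `{x | x ∈ U ∧ N.K x (N.f i x)}` is finite by `N.n5`,
it has at most 5 elements, see `k_fin`), the number of special abscissas by 1 in `outer`.  A
configuration vertex has 4 wires if `x` is not special (`N.k4`) and 3 wires if `x` is special (`N.k3`).
The equation `he` is preserved in all cases: `inn cfg` adds `B.length - 1` to `e` or `1` to `q`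
(`B.length = 4`), `out cfg` adds `B.length` to `e` or `1` to `q` (`B.length = 3`).
-/

set_option autoImplicit false

namespace Pool.Agent.EC4

namespace NF

variable (N : NF)

theorem k_fin (i : Fin 16) : {x | N.K x (N.f i x)}.Finite := by
  have h := N.n5 i
  have h1 : {_u : Unit | N.Ki (N.m i)}.ncard ≤ 1 := by
    refine (Set.ncard_le_ncard (Set.subset_univ _) Set.finite_univ).trans ?_
    rw [Set.ncard_univ, Nat.card_unique]
  apply Set.finite_of_ncard_ne_zero
  intro h0
  have h2 : {x | N.K x (N.m i * x + N.b i)}.ncard = 0 := h0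
  omega

/-- the wire after a vertex, all but the weight -/
theorem u_upd_R (x : ℝ) (cfg : Bool) (k : ℕ) (B : List (Fin 16)) (S : List W) (hn : B.Nodup)
    (hy : ∀ i ∈ B, ∀ j, j ∈ B ↔ N.f j x = N.f i x)
    (hS : List.Forall₂ (N.R (Set.Iio x)) B S) (hc : ∀ i ∈ B, (cfg = true ↔ N.K x (N.f i x)))
    (he : (if cfg then 3 else k) + {y | y ∈ Set.Iio x ∧ N.spx y}.ncard + 1 =
      B.length + {y | y ∈ Set.Iic x ∧ N.spx y}.ncard) :
    List.Forall₂ (N.R (Set.Iic x)) B.reverse ((S.map (upd cfg (msk S) k)).reverse) := by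
  rw [List.forall₂_reverse_iff, List.forall₂_map_right_iff]
  have key : ∀ i w, i ∈ B → N.R (Set.Iio x) i w → N.R (Set.Iic x) i (upd cfg (msk S) k w) := by
    intro i w hi h
    have hm := N.u_met_card x i B hi hn (hy i hi)
    have hq : (upd cfg (msk S) k w).q =
        {y | y ∈ Set.Iic x ∧ N.K y (N.f i y)}.ncard + {_u : Unit | N.Ki (N.m i)}.ncard := by
      cases cfg with
      | true =>
        rw [u_cnt_pos (fun y => N.K y (N.f i y)) x (N.k_fin i) ((hc i hi).1 rfl)]
        have h1 := h.hq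
        change w.q + 1 = _
        omega
      | false =>
        rw [u_cnt_neg (fun y => N.K y (N.f i y)) x
          (fun h => Bool.false_ne_true ((hc i hi).2 h))]
        exact h.hq
    refine ⟨h.hb, ?_, ?_, hq, ?_⟩
    · exact Nat.or_lt_two_pow h.hc (N.u_msk_lt _ B S hS)
    · intro j
      change (w.c ||| msk S).testBit j = true ↔ _
      rw [Nat.testBit_or, Bool.or_eq_true, h.ht, N.u_msk_bit _ B S hS, u_met_iff, hy i hi]
      exact or_congr_right eq_comm
    · have h1 := h.he
      cases cfg with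
      | true =>
        change w.e + 3 * (w.q + 1) + 1 = _
        rw [if_pos rfl] at he
        omega
      | false =>
        change (w.e + k) + 3 * w.q + 1 = _
        rw [if_neg Bool.false_ne_true] at he
        omega
  have h2 : ∀ (B' : List (Fin 16)) (S' : List W), List.Forall₂ (N.R (Set.Iio x)) B' S' →
      (∀ i ∈ B', i ∈ B) →
      List.Forall₂ (fun i w => N.R (Set.Iic x) i (upd cfg (msk S) k w)) B' S' := by
    intro B' S' h
    induction h with
    | nil => intro _; exact List.Forall₂.nil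
    | cons h hs ih =>
      intro hB
      exact List.Forall₂.cons (key _ _ (hB _ List.mem_cons_self) h)
        (ih fun i hi => hB i (List.mem_cons_of_mem _ hi))
  exact h2 B S hS fun i hi => hi

theorem u_cfg_exists (x : ℝ) (B : List (Fin 16)) (hB : B ≠ [])
    (hy : ∀ i ∈ B, ∀ j, j ∈ B ↔ N.f j x = N.f i x) :
    ∃ cfg : Bool, ∀ i ∈ B, (cfg = true ↔ N.K x (N.f i x)) := by
  classical
  obtain ⟨i0, B', rfl⟩ := List.exists_cons_of_ne_nil hB
  refine ⟨decide (N.K x (N.f i0 x)), fun i hi => ?_⟩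
  rw [decide_eq_true_iff, (hy i0 List.mem_cons_self i).1 hi]

theorem u_len_eq (x : ℝ) (n : ℕ) (B : List (Fin 16)) (hB : B ≠ []) (hn : B.Nodup)
    (hy : ∀ i ∈ B, ∀ j, j ∈ B ↔ N.f j x = N.f i x)
    (h : ∀ i, N.K x (N.f i x) → {j | N.f j x = N.f i x}.ncard = n) (cfg : Bool)
    (hc : ∀ i ∈ B, (cfg = true ↔ N.K x (N.f i x))) (h1 : cfg = true) : B.length = n := by
  obtain ⟨i0, B', rfl⟩ := List.exists_cons_of_ne_nil hB
  have h2 := h i0 ((hc i0 List.mem_cons_self).1 h1)
  rw [ncard_list _ hn _ (hy i0 List.mem_cons_self)] at h2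
  exact h2

theorem inner (x : ℝ) (hx : ¬ N.spx x) (B : List (Fin 16)) (S : List W) (hB : B ≠ [])
    (hn : B.Nodup) (hy : ∀ i ∈ B, ∀ j, j ∈ B ↔ N.f j x = N.f i x)
    (hS : List.Forall₂ (N.R (Set.Iio x)) B S) :
    ∃ cfg : Bool, S.Pairwise W.unmet ∧ (cfg = true → B.length = 4) ∧
      (∀ i ∈ B, (cfg = true ↔ N.K x (N.f i x))) ∧
      List.Forall₂ (N.R (Set.Iic x)) B.reverse (inn cfg S) := by
  obtain ⟨cfg, hc⟩ := N.u_cfg_exists x B hB hy
  have h4 : cfg = true → B.length = 4 := by
    refine N.u_len_eq x 4 B hB hn hy ?_ cfg hc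
    intro i hi
    exact N.k4 x i (fun h => hx (Or.inl h)) (fun h => hx (Or.inr (Or.inl h)))
      (fun h => hx (Or.inr (Or.inr h))) hi
  refine ⟨cfg, N.u_unmet_list x B S hn hy hS, h4, hc, ?_⟩
  refine N.u_upd_R x cfg (S.length - 1) B S hn hy hS hc ?_
  rw [u_cnt_neg (fun y => N.spx y) x hx, ← hS.length_eq]
  have h0 := List.length_pos_iff.2 hB
  cases cfg with
  | true =>
    rw [if_pos rfl, h4 rfl]
    omega
  | false =>
    rw [if_neg Bool.false_ne_true]
    omega

theorem outer (x : ℝ) (hx : N.spx x) (B : List (Fin 16)) (S : List W) (hB : B ≠ [])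
    (hn : B.Nodup) (hy : ∀ i ∈ B, ∀ j, j ∈ B ↔ N.f j x = N.f i x)
    (hS : List.Forall₂ (N.R (Set.Iio x)) B S) :
    ∃ cfg : Bool, S.Pairwise W.unmet ∧ (cfg = true → B.length = 3) ∧
      (∀ i ∈ B, (cfg = true ↔ N.K x (N.f i x))) ∧
      List.Forall₂ (N.R (Set.Iic x)) B.reverse (out cfg S) := by
  obtain ⟨cfg, hc⟩ := N.u_cfg_exists x B hB hy
  have h3 : cfg = true → B.length = 3 := by
    refine N.u_len_eq x 3 B hB hn hy ?_ cfg hc
    intro i hi
    exact N.k3 x i hx hi
  refine ⟨cfg, N.u_unmet_list x B S hn hy hS, h3, hc, ?_⟩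
  refine N.u_upd_R x cfg S.length B S hn hy hS hc ?_
  rw [u_cnt_pos (fun y => N.spx y) x N.u_spx_fin hx, ← hS.length_eq]
  cases cfg with
  | true =>
    rw [if_pos rfl, h3 rfl]
    omega
  | false =>
    rw [if_neg Bool.false_ne_true]
    omega

theorem single (x : ℝ) (hx : ¬ N.spx x) (i : Fin 16) (w : W)
    (hy : ∀ j, j = i ↔ N.f j x = N.f i x) (h : N.R (Set.Iio x) i w) : N.R (Set.Iic x) i w := by
  have hK : ¬ N.K x (N.f i x) := by
    intro hK
    have h1 := N.k4 x i (fun h => hx (Or.inl h)) (fun h => hx (Or.inr (Or.inl h)))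
      (fun h => hx (Or.inr (Or.inr h))) hK
    have h2 : {j | N.m j * x + N.b j = N.m i * x + N.b i} = {i} := by
      ext j
      exact (hy j).symm
    rw [h2, Set.ncard_singleton] at h1
    omega
  have hm : ∀ j, N.met (Set.Iic x) i j ↔ N.met (Set.Iio x) i j := by
    intro j
    rw [u_met_iff]
    constructor
    · rintro (h1 | h1)
      · exact h1
      · rw [(hy j).2 h1.symm]
        exact Or.inl rfl
    · exact Or.inl
  refine ⟨h.hb, h.hc, fun j => (h.ht j).trans (hm j).symm, ?_, ?_⟩
  · rw [u_cnt_neg (fun y => N.K y (N.f i y)) x hK]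
    exact h.hq
  · rw [u_cnt_neg (fun y => N.spx y) x hx]
    have e : {j | N.met (Set.Iic x) i j} = {j | N.met (Set.Iio x) i j} := by
      ext j
      exact hm j
    rw [e]
    exact h.he

end NF

end Pool.Agent.EC4
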