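import Pool.Agent.Lib.MP_ec4eff_co.R5.Grp

/-!
# Auxiliary lemmas for the change of the wires at a vertex (project R5)
-/

set_option autoImplicit false

namespace Pool.Agent.EC4

namespace NF

variable (N : NF)

/-- adding one abscissa to a count -/
theorem u_cnt_pos (P : ℝ → Prop) (x : ℝ) (hf : {y | P y}.Finite) (h : P x) :
    {y | y ∈ Set.Iic x ∧ P y}.ncard = {y | y ∈ Set.Iio x ∧ P y}.ncard + 1 := by
  have e : {y | y ∈ Set.Iic x ∧ P y} = insert x {y | y ∈ Set.Iio x ∧ P y} := by
    ext y
    simp only [Set.mem_ofPred_eq, Set.mem_insert_iff, Set.mem_Iic, Set.mem_Iio]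
    constructor
    · rintro ⟨h1, h2⟩
      rcases h1.lt_or_eq with h3 | h3
      · exact Or.inr ⟨h3, h2⟩
      · exact Or.inl h3
    · rintro (rfl | ⟨h1, h2⟩)
      · exact ⟨le_rfl, h⟩
      · exact ⟨h1.le, h2⟩
  rw [e]
  exact Set.ncard_insert_of_notMem (fun h1 => lt_irrefl x h1.1) (hf.subset fun y hy => hy.2)

theorem u_cnt_neg (P : ℝ → Prop) (x : ℝ) (h : ¬ P x) :
    {y | y ∈ Set.Iic x ∧ P y}.ncard = {y | y ∈ Set.Iio x ∧ P y}.ncard := by
  congr 1
  ext y
  simp only [Set.mem_ofPred_eq, Set.mem_Iic, Set.mem_Iio]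
  constructor
  · rintro ⟨h1, h2⟩
    refine ⟨lt_of_le_of_ne h1 ?_, h2⟩
    rintro rfl
    exact h h2
  · rintro ⟨h1, h2⟩
    exact ⟨h1.le, h2⟩

theorem u_spx_fin : {x | N.spx x}.Finite := by
  have h : {x | N.spx x} ⊆ ({N.x1, N.x2, N.x3} : Set ℝ) := by
    intro x hx
    exact hx
  exact (Set.toFinite _).subset h

theorem u_met_iff (x : ℝ) (i j : Fin 16) :
    N.met (Set.Iic x) i j ↔ N.met (Set.Iio x) i j ∨ N.f i x = N.f j x := by
  unfold met
  constructor
  · rintro (h | ⟨y, hy, h⟩)
    · exact Or.inl (Or.inl h)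
    · rcases (Set.mem_Iic.1 hy).lt_or_eq with h1 | rfl
      · exact Or.inl (Or.inr ⟨y, h1, h⟩)
      · exact Or.inr h
  · rintro ((h | ⟨y, hy, h⟩) | h)
    · exact Or.inl h
    · exact Or.inr ⟨y, Set.mem_Iic.2 (Set.mem_Iio.1 hy).le, h⟩
    · exact Or.inr ⟨x, Set.mem_Iic.2 le_rfl, h⟩

/-- two different wires through a point have not met before -/
theorem u_not_met (x : ℝ) (i j : Fin 16) (hne : i ≠ j) (h : N.f i x = N.f j x) :
    ¬ N.met (Set.Iio x) i j := by
  rintro (h1 | ⟨y, hy, h1⟩)
  · apply hne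
    refine N.inj i j h1 ?_
    unfold f at h
    rw [h1] at h
    exact add_left_cancel h
  · apply hne
    unfold f at h h1
    have h2 : (N.m i - N.m j) * (x - y) = 0 := by linear_combination h - h1
    rcases mul_eq_zero.1 h2 with h3 | h3
    · have h4 := sub_eq_zero.1 h3
      refine N.inj i j h4 ?_
      rw [h4] at h
      exact add_left_cancel h
    · exact absurd (sub_eq_zero.1 h3) (ne_of_gt (Set.mem_Iio.1 hy))

/-- the number of wires met -/
theorem u_met_card (x : ℝ) (i : Fin 16) (B : List (Fin 16)) (hi : i ∈ B) (hn : B.Nodup)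
    (hy : ∀ j, j ∈ B ↔ N.f j x = N.f i x) :
    {j | N.met (Set.Iic x) i j}.ncard + 1 = {j | N.met (Set.Iio x) i j}.ncard + B.length := by
  have e1 : {j | N.f j x = N.f i x}.ncard = B.length := ncard_list B hn _ hy
  have e2 : {j | N.met (Set.Iic x) i j} =
      {j | N.met (Set.Iio x) i j} ∪ {j | N.f j x = N.f i x} := by
    ext j
    rw [Set.mem_union, Set.mem_ofPred_eq, Set.mem_ofPred_eq, Set.mem_ofPred_eq, u_met_iff]
    exact or_congr_right eq_comm
  have e3 : {j | N.met (Set.Iio x) i j} ∩ {j | N.f j x = N.f i x} = {i} := by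
    ext j
    rw [Set.mem_inter_iff, Set.mem_ofPred_eq, Set.mem_ofPred_eq, Set.mem_singleton_iff]
    constructor
    · rintro ⟨h1, h2⟩
      by_contra h3
      exact N.u_not_met x i j (fun h => h3 h.symm) h2.symm h1
    · rintro rfl
      exact ⟨Or.inl rfl, rfl⟩
  have e4 := Set.ncard_union_add_ncard_inter {j | N.met (Set.Iio x) i j}
    {j | N.f j x = N.f i x} (Set.toFinite _) (Set.toFinite _)
  rw [e3, Set.ncard_singleton, ← e2, e1] at e4
  exact e4

/-- the bits of the mask of a block -/
theorem u_msk_bit (U : Set ℝ) (B : List (Fin 16)) (S : List W) (hS : List.Forall₂ (N.R U) B S)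
    (j : Fin 16) : (msk S).testBit j = true ↔ j ∈ B := by
  induction hS with
  | nil => simp [msk]
  | cons h hs ih =>
    rename_i i w B' S'
    have e : msk (w :: S') = w.b ||| msk S' := rfl
    rw [e, Nat.testBit_or, h.hb, Bool.or_eq_true, ih, List.mem_cons, Nat.testBit_two_pow]
    simp only [decide_eq_true_eq]
    exact or_congr_left ⟨fun h => Fin.ext h.symm, fun h => by rw [h]⟩

theorem u_msk_lt (U : Set ℝ) (B : List (Fin 16)) (S : List W) (hS : List.Forall₂ (N.R U) B S) :
    msk S < 2 ^ 16 := by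
  induction hS with
  | nil => simp [msk]
  | cons h hs ih =>
    rename_i i w B' S'
    have e : msk (w :: S') = w.b ||| msk S' := rfl
    rw [e, h.hb]
    exact Nat.or_lt_two_pow (Nat.pow_lt_pow_right (by norm_num) i.2) ih

theorem u_unmet_list (x : ℝ) (B : List (Fin 16)) (S : List W)
    (hn : B.Nodup) (hy : ∀ i ∈ B, ∀ j, j ∈ B ↔ N.f j x = N.f i x)
    (hS : List.Forall₂ (N.R (Set.Iio x)) B S) : S.Pairwise W.unmet := by
  have key : ∀ (B : List (Fin 16)) (S : List W), B.Nodup →
      (∀ i ∈ B, ∀ j ∈ B, N.f j x = N.f i x) → List.Forall₂ (N.R (Set.Iio x)) B S →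
      S.Pairwise W.unmet := by
    intro B S hn hy hS
    induction hS with
    | nil => exact List.Pairwise.nil
    | cons h hs ih =>
      rename_i i w B' S'
      rw [List.pairwise_cons]
      refine ⟨?_, ih (List.nodup_cons.1 hn).2 fun i hi j hj =>
        hy i (List.mem_cons_of_mem _ hi) j (List.mem_cons_of_mem _ hj)⟩
      have h2 : ∀ (B : List (Fin 16)) (S : List W), List.Forall₂ (N.R (Set.Iio x)) B S →
          (∀ j ∈ B, i ≠ j ∧ N.f i x = N.f j x) → ∀ w' ∈ S, W.unmet w w' := by
        intro B S hS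
        induction hS with
        | nil => intro _ w' hw'; exact absurd hw' List.not_mem_nil
        | cons h3 hs3 ih3 =>
          rename_i j w' B' S'
          intro hB w'' hw''
          rcases List.mem_cons.1 hw'' with rfl | hw
          · have h4 := hB j List.mem_cons_self
            have h5 := N.u_not_met x i j h4.1 h4.2
            have h6 : w.c.testBit j = false := by
              rw [← Bool.not_eq_true]
              intro h7
              exact h5 ((h.ht j).1 h7)
            change w.c &&& w''.b = 0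
            rw [h3.hb]
            apply Nat.eq_of_testBit_eq
            intro k
            rw [Nat.testBit_and, Nat.testBit_two_pow, Nat.zero_testBit]
            by_cases hk : (j : ℕ) = k
            · rw [← hk, h6, Bool.false_and]
            · rw [decide_eq_false hk, Bool.and_false]
          · exact ih3 (fun k hk => hB k (List.mem_cons_of_mem _ hk)) w'' hw
      exact h2 B' S' hs fun j hj => ⟨fun h => (List.nodup_cons.1 hn).1 (h ▸ hj),
        hy j (List.mem_cons_of_mem _ hj) i List.mem_cons_self⟩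
  exact key B S hn (fun i hi j hj => (hy i hi j).1 hj) hS

end NF

end Pool.Agent.EC4
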