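import Pool.Agent.Lib.MP_ec4eff_co.R5.Ful
import Pool.Agent.Lib.MP_ec4eff_co.R5.Rot
import Pool.Agent.Lib.MP_ec4eff_co.R5.Ref
import Pool.Agent.Lib.MP_ec4eff_co.R5.Flp
import Pool.Agent.Lib.MP_ec4eff_co.R5.Prm
import Pool.Agent.Lib.MP_ec4eff_co.R5.NoFull

/-!
# No normal form (project R5)

After a rotation and a reflection the first cost is minimal and the second cost is at most the last
cost.
-/

set_option autoImplicit false

namespace Pool.Agent.EC4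

namespace NF

theorem C0_ge' (N : NF) : 4 ≤ N.C0 := by
  obtain ⟨σ, hσ⟩ := N.exists_sorted
  rw [← N.perm_C0 σ]
  exact C0_ge _ hσ

theorem C3_ge (N : NF) : 4 ≤ N.C3 := by
  have h := C0_ge' N.rot.rot.rot
  rwa [rot_C0, rot_C1, rot_C2] at h

/-- the four costs -/
def Costs (N : NF) (a b c d : ℤ) : Prop := N.C0 = a ∧ N.C1 = b ∧ N.C2 = c ∧ N.C3 = d

theorem costs_rot {N : NF} {a b c d : ℤ} (h : Costs N a b c d) : Costs N.rot b c d a := by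
  obtain ⟨h0, h1, h2, h3⟩ := h
  exact ⟨N.rot_C0.trans h1, N.rot_C1.trans h2, N.rot_C2.trans h3, N.rot_C3.trans h0⟩

theorem costs_ref {N : NF} {a b c d : ℤ} (h : Costs N a b c d) : Costs N.ref d c b a := by
  obtain ⟨h0, h1, h2, h3⟩ := h
  exact ⟨N.ref_C0.trans h3, N.ref_C1.trans h2, N.ref_C2.trans h1, N.ref_C3.trans h0⟩

/-- a normal form whose first cost is minimal -/
theorem exists_first (N : NF) : ∃ N' : NF, N'.C0 ≤ N'.C1 ∧ N'.C0 ≤ N'.C2 ∧ N'.C0 ≤ N'.C3 := by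
  have h0 : Costs N N.C0 N.C1 N.C2 N.C3 := ⟨rfl, rfl, rfl, rfl⟩
  have h1 := costs_rot h0
  have h2 := costs_rot h1
  have h3 := costs_rot h2
  by_cases p0 : N.C0 ≤ N.C1 ∧ N.C0 ≤ N.C2 ∧ N.C0 ≤ N.C3
  · exact ⟨N, p0⟩
  by_cases p1 : N.C1 ≤ N.C2 ∧ N.C1 ≤ N.C3 ∧ N.C1 ≤ N.C0
  · refine ⟨N.rot, ?_⟩
    obtain ⟨q0, q1, q2, q3⟩ := h1
    rw [q0, q1, q2, q3]
    exact p1
  by_cases p2 : N.C2 ≤ N.C3 ∧ N.C2 ≤ N.C0 ∧ N.C2 ≤ N.C1
  · refine ⟨N.rot.rot, ?_⟩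
    obtain ⟨q0, q1, q2, q3⟩ := h2
    rw [q0, q1, q2, q3]
    exact p2
  · refine ⟨N.rot.rot.rot, ?_⟩
    obtain ⟨q0, q1, q2, q3⟩ := h3
    rw [q0, q1, q2, q3]
    omega

theorem exists_min (N : NF) : ∃ N' : NF, N'.C0 ≤ N'.C1 ∧ N'.C0 ≤ N'.C2 ∧ N'.C0 ≤ N'.C3 ∧
    N'.C1 ≤ N'.C3 := by
  obtain ⟨M, a1, a2, a3⟩ := exists_first N
  by_cases p : M.C1 ≤ M.C3
  · exact ⟨M, a1, a2, a3, p⟩
  · have h0 : Costs M M.C0 M.C1 M.C2 M.C3 := ⟨rfl, rfl, rfl, rfl⟩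
    obtain ⟨q0, q1, q2, q3⟩ := costs_rot (costs_rot (costs_rot (costs_ref h0)))
    refine ⟨M.ref.rot.rot.rot, ?_⟩
    rw [q0, q1, q2, q3]
    omega

/-- the composition of a sorted normal form with the right costs is not one of the list -/
theorem no_sorted (hA : ∀ t ∈ reps, NoRun t) {N : NF} (hs : N.Sorted) (h1 : N.C0 ≤ N.C1)
    (h2 : N.C0 ≤ N.C2) (h3 : N.C0 ≤ N.C3) (h4 : N.C1 ≤ N.C3) :
    ∃ t : List (Bool × ℕ), N.TC t ∧ t.map cod ∉ reps ∧ Good t ∧ ∀ x ∈ t, 1 ≤ x.2 := by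
  obtain ⟨t, c0, c1, c2, c3, ht, hf, e0, e1, e2, e3⟩ := N.full hs (C3_ge N)
  refine ⟨t, ht, fun hr => ?_, ?_, ?_⟩
  · exact no_full hf (by omega) (by omega) (by omega) (by omega) (hA _ hr)
  · obtain ⟨_, _, _, _, _, _, _, _, _, _, _, _, _, _, _, _, _, _, _, _, _, _, _, _, hg, _⟩ := hf
    exact hg
  · obtain ⟨_, _, _, _, _, _, _, _, _, _, _, _, _, _, _, hsp, _⟩ := hf
    exact hsp.pos

theorem no_nf (hA : ∀ t ∈ reps, NoRun t) (N : NF) : False := by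
  obtain ⟨M, a1, a2, a3, a4⟩ := exists_min N
  obtain ⟨σ, hσ⟩ := M.exists_sorted
  obtain ⟨t, ht, hr, hg, hp⟩ := no_sorted hA hσ (by rw [perm_C0, perm_C1]; exact a1)
    (by rw [perm_C0, perm_C2]; exact a2) (by rw [perm_C0, perm_C3]; exact a3)
    (by rw [perm_C1, perm_C3]; exact a4)
  obtain ⟨τ, hτ⟩ := (M.perm σ).flip.exists_sorted
  obtain ⟨t', ht', hr', hg', hp'⟩ := no_sorted hA hτ
    (by rw [perm_C0, perm_C1, flip_C0, flip_C1, perm_C0, perm_C1]; exact a1)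
    (by rw [perm_C0, perm_C2, flip_C0, flip_C2, perm_C0, perm_C2]; exact a2)
    (by rw [perm_C0, perm_C3, flip_C0, flip_C3, perm_C0, perm_C3]; exact a3)
    (by rw [perm_C1, perm_C3, flip_C1, flip_C3, perm_C1, perm_C3]; exact a4)
  have e : t' = t.reverse :=
    tc_unique _ ht' (perm_tc _ τ (flip_tc _ ht))
  rcases reps_or hg hp with h | h
  · exact hr h
  · rw [e] at hr'
    exact hr' h

end NF

end Pool.Agent.EC4
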